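import Pool.Agent.Helper76.BG.ABar1

/-!
# BG43b: acylindricity (axiom `A2`) for the quotient
-/

set_option autoImplicit false

namespace BG
namespace KData

variable {c : Cst} {S : Sys} (D : KData c S)

private theorem disp_pow_le (S : Sys) (h : S.G) (z : S.X) (n : ℕ) :
    S.M.d z (h ^ n • z) ≤ n * S.M.d z (h • z) := by
  induction n with
  | zero => rw [pow_zero, one_smul, S.M.self]; exact Nat.zero_le _
  | succ n ih =>
    have h1 := S.M.tri z (h ^ n • z) (h ^ (n + 1) • z)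
    have h2 : S.M.d (h ^ n • z) (h ^ (n + 1) • z) = S.M.d z (h • z) := by
      rw [pow_succ, mul_smul, S.iso]
    rw [h2] at h1
    have h3 : (n + 1) * S.M.d z (h • z) = n * S.M.d z (h • z) + S.M.d z (h • z) := by ring
    omega

/-- a non-torsion element of a killed subgroup cannot move `x1, y1` by at most `61200000ρ` if they are far apart and the angles between them are small.
Proof: `G2 = g^(2q)`: moves every point by at least `12972 > 11000` (`growth`), and `x1, y1` by at most `2q·61200000ρ`. With `r = π x1`: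
`pr_two` for `(x1, G2 x1)`: `2 d x1 r ≤ 2q·61200000ρ + 21000`. Same for `y1`. So `d r r' ≥ d x1 y1 - 2q·61200000ρ - 21000`, but `d r r' ≤ 2040ρ + 56ρ` (`ang_pr`). -/
theorem killed_far {E : S.Killed c.K} {g : S.G} (hg : g ∈ E.1) (hg1 : ¬ IsOfFinOrder g)
    {x1 y1 : S.X} (hl : D.R.LE (Sum.inr E) (Sum.inl x1) (Sum.inl y1) (2040 * c.ρ))
    (hgx : S.M.d x1 (g • x1) ≤ 61200000 * c.ρ) (hgy : S.M.d y1 (g • y1) ≤ 61200000 * c.ρ) :
    S.M.d x1 y1 ≤ 200000000 * c.q * c.ρ := by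
  have hq := c.q_ge
  have hq0 : 0 < c.q := by omega
  have hgr : ∀ z : S.X, 12972 ≤ S.M.d z (g ^ (2 * c.q) • z) := by
    intro z
    have h1 := D.P.growth hg1 z (2 * c.q)
    have h2 : c.q * 12972 ≤ c.q * S.M.d z (g ^ (2 * c.q) • z) := by
      calc c.q * 12972 = 94 * 69 * (2 * c.q) := by ring
        _ ≤ _ := h1
    exact Nat.le_of_mul_le_mul_left h2 hq0
  have hmem : g ^ (2 * c.q) ∈ E.1 := pow_mem hg _
  have key : ∀ z r : S.X, S.M.d z (g • z) ≤ 61200000 * c.ρ → S.M.IsProj (Sys.ax c.q E) z r →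
      2 * S.M.d z r ≤ 122400000 * (c.q * c.ρ) + 21000 := by
    intro z r hz hr
    have h1 := disp_pow_le S g z (2 * c.q)
    have h2 : 2 * c.q * S.M.d z (g • z) ≤ 2 * c.q * (61200000 * c.ρ) := Nat.mul_le_mul_left _ hz
    have h3 : 2 * c.q * (61200000 * c.ρ) = 122400000 * (c.q * c.ρ) := by ring
    have h4 := Sys.pr_smul_self hr hmem
    have h5 := hgr r
    have h6 := S.iso (g ^ (2 * c.q)) r z
    have h7 := S.M.symm r z
    rcases D.P.pr_two hr h4 with h8 | h8
    · omega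
    · omega
  obtain ⟨r, hr⟩ := D.P.pr_exists E x1
  obtain ⟨r', hr'⟩ := D.P.pr_exists E y1
  have k1 := key x1 r hgx hr
  have k2 := key y1 r' hgy hr'
  have k3 := D.ang_pr hl hr hr'
  have t1 := S.M.tri x1 r y1
  have t2 := S.M.tri r r' y1
  have t3 := S.M.symm r' y1
  have e1 : 200000000 * c.q * c.ρ = 200000000 * (c.q * c.ρ) := by ring
  have e2 : 40000000 * c.ρ ≤ c.q * c.ρ := Nat.mul_le_mul_right _ hq
  have hρ := c.ρ_ge
  rw [e1]
  omega

/-- AXIOM A2. `stretch` with `R0 = 10^13`: `regI_torsion`, or the light case. For `1 ≤ i ≤ 10^9`, `g^i` moves `x', y'` by at most `1587` (`torsion_powers`,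
`27877 + 6625·10^9 ≤ 10^13`), so `light_common` gives a lift `g_i` of `g^i` moving `x1, y1` by at most `D1 = 61200000ρ`. `g_(i+1)⁻¹ g_1 g_i ∈ N` moves `x1` by at most `3 D1 < 10^9 ρ`, so it is
`1` (`N_big`): `g_i = g_1^i`. If `g_1` is torsion, `torsion_trivial` gives `g_1 = 1`. Otherwise, if `g_1` is in a killed subgroup, `killed_far` is a contradiction; if not, `growth_big`:
`10^9 (K - 414) ≤ d x1 (g_1^(10^9) x1) ≤ 61200000ρ ≤ 612000000 K`, contradiction. -/
theorem A2_q (x y : D.Sq.X) (g : D.Sq.G) (hb : c.b ≤ D.Sq.M.d x y)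
    (hgx : D.Sq.M.d x (g • x) ≤ 13800) (hgy : D.Sq.M.d y (g • y) ≤ 13800)
    (hg : IsOfFinOrder g) : g = 1 := by
  have hq := c.q_ge
  have hbq := c.b_ge
  have hK := c.K_ge
  have hρ := c.ρ_ge
  have hρK := c.ρ_le
  norm_num at hq hbq hK hρ
  have hL : 10 * 10000000000000 + 100 ≤ D.R.Aq.M.d x y := by
    refine le_trans ?_ hb
    omega
  rcases D.R.Aq.stretch hL with h | h
  · obtain ⟨v, hv, e, he, hve, h1, h2, h3, h4, h5, h6⟩ := h
    exact D.angAct.regI_torsion (κ := 13800) hg hgx hgy hv he hve (by omega) (by omega)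
      (by omega) (by omega) h5 h6
  · have h' : ∃ x' y' : D.Sq.X, x' ∉ D.R.apexq ∧ y' ∉ D.R.apexq ∧ D.Sq.M.Btw x x' y ∧
        D.Sq.M.Btw x y' y ∧
        D.Sq.M.d x x' + D.Sq.M.d x' y' + D.Sq.M.d y' y = D.Sq.M.d x y ∧
        10000000000000 ≤ D.Sq.M.d x x' ∧ 10000000000000 ≤ D.Sq.M.d y' y ∧
        D.Sq.M.d x y ≤ 4 * D.Sq.M.d x' y' ∧
        ∀ e ∈ D.R.apexq, D.R.Aq.LE e x' y' (9 * D.R.θ) := h
    obtain ⟨x', y', hx', hy', hbx, hby, hsum', hR1', hR2', h4', hl⟩ := h'
    have hbx' : D.Sq.M.d x x' + D.Sq.M.d x' y = D.Sq.M.d x y := hbx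
    have hby' : D.Sq.M.d x y' + D.Sq.M.d y' y = D.Sq.M.d x y := hby
    obtain ⟨x1, y1, hd, hang, hlift⟩ := D.light_common hx' hy' hl (by omega)
    have hpow : ∀ i : ℕ, 1 ≤ i → i ≤ 1000000000 → D.Sq.M.d x' (g ^ i • x') ≤ 14400 ∧
        D.Sq.M.d y' (g ^ i • y') ≤ 14400 := by
      intro i hi hi'
      constructor
      · have h7 := torsion_powers D.Sq.isoAct D.Sq_hyp hg hgx hgy i hi hbx (by omega) (by omega)
        omega
      · have h7 := torsion_powers D.Sq.isoAct D.Sq_hyp hg hgx hgy i hi hby (by omega) (by omega)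
        omega
    have hlift' : ∀ i : ℕ, ∃ g0 : S.G, 1 ≤ i → i ≤ 1000000000 → D.φ g0 = g ^ i ∧
        S.M.d x1 (g0 • x1) ≤ 61200000 * c.ρ ∧ S.M.d y1 (g0 • y1) ≤ 61200000 * c.ρ := by
      intro i
      by_cases h7 : 1 ≤ i ∧ i ≤ 1000000000
      · obtain ⟨g0, hg0⟩ := hlift (g ^ i) (hpow i h7.1 h7.2).1 (hpow i h7.1 h7.2).2
        exact ⟨g0, fun _ _ => hg0⟩
      · exact ⟨1, fun h8 h9 => absurd ⟨h8, h9⟩ h7⟩
    choose f hf using hlift'
    have hinv : ∀ k : S.G, S.M.d x1 (k⁻¹ • x1) = S.M.d x1 (k • x1) := by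
      intro k
      have h7 := S.iso k x1 (k⁻¹ • x1)
      rw [smul_inv_smul] at h7
      rw [← h7, S.M.symm]
    have hfi : ∀ i : ℕ, 1 ≤ i → i ≤ 1000000000 → f i = f 1 ^ i := by
      intro i hi
      induction i, hi using Nat.le_induction with
      | base => intro _; rw [pow_one]
      | succ i hi ih =>
        intro hi'
        have ih' := ih (by omega)
        obtain ⟨a1, a2, -⟩ := hf 1 le_rfl (by norm_num)
        obtain ⟨b1, b2, -⟩ := hf i hi (by omega)
        obtain ⟨d1, d2, -⟩ := hf (i + 1) (by omega) hi'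
        have hN : (f (i + 1))⁻¹ * (f 1 * f i) ∈ D.R.N := by
          rw [← D.φ_eq_one, map_mul, map_inv, map_mul, a1, b1, d1, pow_one, pow_succ' g i,
            inv_mul_cancel]
        have h1 : (f (i + 1))⁻¹ * (f 1 * f i) = 1 := by
          by_contra h1
          have h7 := D.N_big hN h1 x1
          have t1 := S.M.tri x1 ((f (i + 1))⁻¹ • x1) (((f (i + 1))⁻¹ * (f 1 * f i)) • x1)
          have t2 : S.M.d ((f (i + 1))⁻¹ • x1) (((f (i + 1))⁻¹ * (f 1 * f i)) • x1) =
              S.M.d x1 ((f 1 * f i) • x1) := by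
            rw [mul_smul, S.iso]
          have t3 := S.M.tri x1 (f 1 • x1) ((f 1 * f i) • x1)
          have t4 : S.M.d (f 1 • x1) ((f 1 * f i) • x1) = S.M.d x1 (f i • x1) := by
            rw [mul_smul, S.iso]
          have t5 := hinv (f (i + 1))
          omega
        rw [inv_mul_eq_one] at h1
        rw [h1, ih', pow_succ']
    obtain ⟨a1, a2, a3⟩ := hf 1 le_rfl (by norm_num)
    rw [pow_one] at a1
    have hd' : 100000000000000000 ≤ D.Sq.M.d x' y' := by omega
    have hdρ : c.ρ * 100000000000000000 ≤ c.ρ * D.Sq.M.d x' y' := Nat.mul_le_mul_left _ hd'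
    by_cases hf1 : IsOfFinOrder (f 1)
    · have h7 := D.P.torsion_trivial hf1 a2 a3 (by omega)
      rw [← a1, h7, map_one]
    · exfalso
      by_cases hE : ∃ E : S.Killed c.K, f 1 ∈ E.1
      · obtain ⟨E, hE⟩ := hE
        have h7 := D.killed_far hE hf1 (hang E) a2 a3
        have h8 : 2500000000 * c.q ≤ D.Sq.M.d x' y' := by omega
        have h9 : c.ρ * (2500000000 * c.q) ≤ c.ρ * D.Sq.M.d x' y' := Nat.mul_le_mul_left _ h8
        have e1 : 200000000 * c.q * c.ρ = 200000000 * (c.q * c.ρ) := by ring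
        have e2 : c.ρ * (2500000000 * c.q) = 2500000000 * (c.q * c.ρ) := by ring
        have e3 : 40000000 * c.ρ ≤ c.q * c.ρ := Nat.mul_le_mul_right _ hq
        rw [e1] at h7
        rw [e2] at h9
        omega
      · push Not at hE
        have h7 := D.P.growth_big (by omega) hf1 hE x1 1000000000
        rw [← hfi 1000000000 (by norm_num) le_rfl] at h7
        have h8 := (hf 1000000000 (by norm_num) le_rfl).2.1
        omega

end KData
end BG
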