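import Pool.Agent.Helper76.BG.TransB

/-!
# BG04: shifts along a long segment; commutators; torsion elements

`g` moves both ends `x, y` of a long segment by at most `D`.
-/

set_option autoImplicit false

namespace BG

variable {G X : Type} [Group G] [MulAction G X] {M : GMet X} {δ D s : ℕ}

/-- the shift of `g`: `d(x, g p) - d(x, p)` does not depend on `p` up to `2δ`; it equals `d(x, g y) - d(x, y)`.
Proof: compare the three sums of the four points `x, g x, g p, g y`: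
`S1 = d(x,gp) + d(gx,gy)`, `S2 = d(x,gy) + d(gx,gp)`, `S3 = d(x,gx) + d(gp,gy)`; `S3 + 2δ` is smaller than `S1` and `S2`
so `|S1 - S2| ≤ 2δ`. -/
theorem shift (hiso : IsoAct G M) (h : M.Hyp δ) {x y p : X} {g : G} (hx : M.d x (g • x) ≤ D)
    (hy : M.d y (g • y) ≤ D) (hp : M.Slk s x p y) (hd : 2 * D + 2 * δ + s + 2 ≤ 2 * M.d x p) :
    M.d x (g • p) + M.d x y ≤ M.d x p + M.d x (g • y) + 2 * δ ∧
      M.d x p + M.d x (g • y) ≤ M.d x (g • p) + M.d x y + 2 * δ := by
  unfold GMet.Slk at hp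
  have e1 := hiso g x y
  have e2 := hiso g x p
  have e3 := hiso g p y
  have e4 := M.symm (g • p) (g • x)
  have e5 := M.symm (g • y) (g • p)
  have e6 := M.symm (g • y) (g • x)
  have t1 := M.tri (g • x) x (g • p)
  have t2 := M.symm (g • x) x
  have t3 := M.tri x (g • y) y
  have t4 := M.symm (g • y) y
  have h1 := h x (g • p) (g • x) (g • y)
  have h2 := h x (g • y) (g • x) (g • p)
  constructor
  · rcases h1 with h1 | h1 <;> omega
  · rcases h2 with h2 | h2 <;> omega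

/-- translating an almost-between point: `Slk` on `(gx, gy)` then `slk_move` -/
theorem slk_smul (hiso : IsoAct G M) (h : M.Hyp δ) {x y p : X} {g : G} (hx : M.d x (g • x) ≤ D)
    (hy : M.d y (g • y) ≤ D) (hp : M.Slk s x p y) (h1 : 2 * D + s + 4 * δ + 2 ≤ 2 * M.d x p)
    (h2 : 2 * D + s + 4 * δ + 2 ≤ 2 * M.d p y) : M.Slk (s + 4 * δ) x (g • p) y := by
  have hp' : M.Slk s (g • x) (g • p) (g • y) := by
    unfold GMet.Slk at hp ⊢
    rw [hiso, hiso, hiso]
    exact hp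
  refine h.slk_move (D := D) hp' ?_ ?_ ?_ ?_
  · rw [M.symm]; exact hx
  · rw [M.symm]; exact hy
  · rw [hiso]; exact h1
  · rw [hiso]; exact h2

/-- displacement at a deep point is at most `D + 8δ` (shift, `slk_smul`, `slk_dist`) -/
theorem disp_deep (hiso : IsoAct G M) (h : M.Hyp δ) {x y p : X} {g : G} (hx : M.d x (g • x) ≤ D)
    (hy : M.d y (g • y) ≤ D) (hp : M.Btw x p y) (h1 : D + 2 * δ + 1 ≤ M.d x p)
    (h2 : D + 2 * δ + 1 ≤ M.d p y) : M.d p (g • p) ≤ D + 8 * δ := by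
  have hs : M.Slk 0 x p y := by unfold GMet.Slk; unfold GMet.Btw at hp; omega
  have hs4 : M.Slk (0 + 4 * δ) x p y := by unfold GMet.Slk; unfold GMet.Btw at hp; omega
  have hsh := shift hiso h hx hy hs (by omega)
  have hsm := slk_smul hiso h hx hy hs (by omega) (by omega)
  have hd := h.slk_dist hs4 hsm
  have t1 := M.tri x y (g • y)
  have t2 := M.tri x (g • y) y
  have t3 := M.symm (g • y) y
  omega

/-- first move: slack, positions -/
private theorem deep_move (hiso : IsoAct G M) (h : M.Hyp δ) {x y p : X} {g : G}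
    (hx : M.d x (g • x) ≤ D) (hy : M.d y (g • y) ≤ D) (hp : M.Btw x p y)
    (h1 : 2 * D + 4 * δ + 1 ≤ M.d x p) (h2 : 2 * D + 4 * δ + 1 ≤ M.d p y) :
    M.Slk (4 * δ) x (g • p) y ∧
    M.d x (g • p) + M.d x y ≤ M.d x p + M.d x (g • y) + 2 * δ ∧
    M.d x p + M.d x (g • y) ≤ M.d x (g • p) + M.d x y + 2 * δ ∧
    D + 4 * δ + 1 ≤ M.d x (g • p) ∧ D + 4 * δ + 1 ≤ M.d (g • p) y := by
  have hs : M.Slk 0 x p y := by unfold GMet.Slk; unfold GMet.Btw at hp; omega
  have hsh := shift hiso h hx hy hs (by omega)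
  have hsm := slk_smul hiso h hx hy hs (by omega) (by omega)
  rw [Nat.zero_add] at hsm
  refine ⟨hsm, hsh.1, hsh.2, ?_, ?_⟩
  · have t1 := M.tri (g • x) x (g • p)
    have t2 := M.symm (g • x) x
    have e := hiso g x p
    omega
  · have t1 := M.tri (g • p) y (g • y)
    have e := hiso g p y
    omega

/-- second move -/
private theorem deep_move2 (hiso : IsoAct G M) (h : M.Hyp δ) {x y p : X} {g k : G}
    (hx : M.d x (g • x) ≤ D) (hy : M.d y (g • y) ≤ D)
    (hx' : M.d x (k • x) ≤ D) (hy' : M.d y (k • y) ≤ D) (hp : M.Btw x p y)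
    (h1 : 2 * D + 4 * δ + 1 ≤ M.d x p) (h2 : 2 * D + 4 * δ + 1 ≤ M.d p y) :
    M.Slk (8 * δ) x (g • k • p) y ∧
    M.d x (g • k • p) + M.d x y ≤ M.d x (k • p) + M.d x (g • y) + 2 * δ ∧
    M.d x (k • p) + M.d x (g • y) ≤ M.d x (g • k • p) + M.d x y + 2 * δ := by
  obtain ⟨hs, -, -, h3, h4⟩ := deep_move hiso h hx' hy' hp h1 h2
  have hsh := shift hiso h hx hy hs (by omega)
  have hsm := slk_smul hiso h hx hy hs (by omega) (by omega)
  refine ⟨?_, hsh.1, hsh.2⟩
  have e : 4 * δ + 4 * δ = 8 * δ := by omega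
  rwa [e] at hsm

/-- commutators move deep points by at most `18δ`: positions of `g h p` and `h g p` differ by at most `8δ`, both
have slack `8δ`. -/
theorem comm_deep (hiso : IsoAct G M) (h : M.Hyp δ) {x y p : X} {g k : G} (hx : M.d x (g • x) ≤ D)
    (hy : M.d y (g • y) ≤ D) (hx' : M.d x (k • x) ≤ D) (hy' : M.d y (k • y) ≤ D) (hp : M.Btw x p y)
    (h1 : 2 * D + 4 * δ + 1 ≤ M.d x p) (h2 : 2 * D + 4 * δ + 1 ≤ M.d p y) :
    M.d ((g * k) • p) ((k * g) • p) ≤ 18 * δ := by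
  obtain ⟨-, a1, a2, -, -⟩ := deep_move hiso h hx hy hp h1 h2
  obtain ⟨-, b1, b2, -, -⟩ := deep_move hiso h hx' hy' hp h1 h2
  obtain ⟨s1, c1, c2⟩ := deep_move2 hiso h hx hy hx' hy' hp h1 h2
  obtain ⟨s2, d1, d2⟩ := deep_move2 hiso h hx' hy' hx hy hp h1 h2
  have hd := h.slk_dist s1 s2
  rw [mul_smul, mul_smul]
  omega

/-- deep points are moved consistently: `2 d(p,gp) ≤ d(p,g²p) + 20δ` -/
theorem double_deep (hiso : IsoAct G M) (h : M.Hyp δ) {x y p : X} {g : G} (hx : M.d x (g • x) ≤ D)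
    (hy : M.d y (g • y) ≤ D) (hp : M.Btw x p y)
    (h1 : 2 * D + 4 * δ + 1 ≤ M.d x p) (h2 : 2 * D + 4 * δ + 1 ≤ M.d p y) :
    2 * M.d p (g • p) ≤ M.d p (g • g • p) + 20 * δ := by
  obtain ⟨s1, a1, a2, -, -⟩ := deep_move hiso h hx hy hp h1 h2
  obtain ⟨-, c1, c2⟩ := deep_move2 hiso h hx hy hx hy hp h1 h2
  have hs4 : M.Slk (4 * δ) x p y := by unfold GMet.Slk; unfold GMet.Btw at hp; omega
  have hd := h.slk_dist hs4 s1
  have t1 := M.tri x p (g • g • p)
  have t2 := M.tri x (g • g • p) p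
  have t3 := M.symm (g • g • p) p
  omega

/-- torsion elements move deep points by at most `23δ` (`double_deep` and `orbit_growth`) -/
theorem torsion_deep (hiso : IsoAct G M) (h : M.Hyp δ) {x y p : X} {g : G} (hg : IsOfFinOrder g)
    (hx : M.d x (g • x) ≤ D) (hy : M.d y (g • y) ≤ D) (hp : M.Btw x p y)
    (h1 : 2 * D + 4 * δ + 1 ≤ M.d x p) (h2 : 2 * D + 4 * δ + 1 ≤ M.d p y) :
    M.d p (g • p) ≤ 23 * δ := by
  by_contra hcon
  push Not at hcon
  have hdd := double_deep hiso h hx hy hp h1 h2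
  have hgr := orbit_growth hiso h hdd (by omega) (orderOf g)
  rw [pow_orderOf_eq_one, one_smul, M.self, zero_add] at hgr
  have hpos : 0 < orderOf g := hg.orderOf_pos
  have := Nat.le_of_mul_le_mul_left hgr hpos
  omega

end BG
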