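import Pool.Agent.Helper76.BG.QAng
import Pool.Agent.Helper76.BG.Shift

/-!
# BG41: lifting light pairs and group elements
-/

set_option autoImplicit false

namespace BG
namespace RotSys

variable {G Z : Type} [Group G] [MulAction G Z] {R : RotSys G Z}

private theorem ll_ne {z e : Z} (hz : z ∉ R.apex) (he : e ∈ R.apex) : z ≠ e := by
  intro h
  rw [h] at hz
  exact hz he

private theorem ll_HN {c : Z} (hc : c ∈ R.apex) {h : G} (hh : h ∈ R.H c) : h ∈ R.N :=
  Subgroup.subset_closure ⟨c, hc, hh⟩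

private theorem ll_fix {e : Z} (he : e ∈ R.apex) {h : G} (hh : h ∈ R.H e) (x : Z) :
    R.M.d e (h • x) = R.M.d e x := by
  have h1 := R.iso h e x
  rwa [R.H_fix e he h hh] at h1

/-- LIGHT LIFTS. Proof: among lifts `(x,y)` of `(v,w)` with `d x y = Mq.d v w` (`Mq_lift`) take one with `len x y` minimal. Suppose
`¬ LE e x y (15θ)`; `e` cuts; sub-sides are minimal (`Mq_btw`); `pj e ≠ v, w`; `LE_lift` with `T = 9θ`: `LE e x (k y) (11θ)` for some `k ∈ H e`;
`dec`: `len x (k y) < len x y`; and `d x (k y) ≤ d x e + d e y = d x y`. Contradiction. -/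
theorem light_lift {v w : R.Zq} (hv : v ∉ R.apexq) (hw : w ∉ R.apexq)
    (hl : ∀ e ∈ R.apexq, R.Aq.LE e v w (9 * R.θ)) :
    ∃ x y, R.pj x = v ∧ R.pj y = w ∧ R.M.d x y = R.Mq.d v w ∧
      ∀ e ∈ R.apex, R.LE e x y (15 * R.θ) := by
  classical
  have hex : ∃ k, ∃ x y, R.pj x = v ∧ R.pj y = w ∧ R.M.d x y = R.Mq.d v w ∧ R.len x y = k := by
    obtain ⟨x, rfl⟩ := R.pj_surj v
    obtain ⟨y, rfl⟩ := R.pj_surj w
    obtain ⟨n, hn, hd⟩ := R.Mq_lift x y
    exact ⟨_, x, n • y, rfl, R.pj_smul hn y, hd, rfl⟩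
  obtain ⟨x, y, hx, hy, hd, hlen⟩ := Nat.find_spec hex
  have hmin : ∀ y', R.pj y' = w → R.M.d x y' = R.Mq.d v w → R.len x y ≤ R.len x y' := by
    intro y' h1 h2
    rw [hlen]
    exact Nat.find_min' hex ⟨x, y', hx, h1, h2, rfl⟩
  refine ⟨x, y, hx, hy, hd, ?_⟩
  intro e he
  by_contra hcon
  have hxb : x ∉ R.apex := fun h => hv (hx ▸ R.pj_mem_apexq.mpr h)
  have hyb : y ∉ R.apex := fun h => hw (hy ▸ R.pj_mem_apexq.mpr h)
  have hxe := ll_ne hxb he
  have hye := ll_ne hyb he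
  have hθ := R.θ_pos
  have hcut : R.M.Cut e x y := by
    apply AngSys.cut_of_not_LE (A := R.toAng) he hxe hye
    intro h
    exact hcon (AngSys.LE.mono (A := R.toAng) h (by show R.θ ≤ 15 * R.θ; omega))
  have hbtw := hcut.1
  rw [← hx, ← hy] at hd
  obtain ⟨b1, b2, -⟩ := R.Mq_btw hd hbtw
  rw [R.M.symm x e, R.Mq.symm] at b1
  have hq : R.Aq.LE (R.pj e) (R.pj x) (R.pj y) (9 * R.θ) := by
    rw [hx, hy]
    exact hl _ (R.pj_mem_apexq.mpr he)
  obtain ⟨k, hk, hLE⟩ := LE_lift he hxe hye b1 b2 hq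
  have hdec := R.dec e he k hk x y hxb hyb (11 * R.θ)
    (by
      have h1 : 9 * R.θ + 2 * R.θ = 11 * R.θ := by ring
      rw [h1] at hLE
      exact hLE)
    (by
      intro h
      exact hcon (AngSys.LE.mono (A := R.toAng) h (by omega)))
  have hky : R.pj (k • y) = w := by rw [R.pj_smul (ll_HN he hk), hy]
  have h2 := R.M.tri x e (k • y)
  rw [ll_fix he hk] at h2
  have h3 := R.Mq_le x (k • y)
  rw [hky] at h3
  rw [hx, hy] at hd
  rw [hx] at h3
  unfold GMet.Btw at hbtw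
  have h4 := hmin _ hky (by omega)
  omega

/-- LIFTING ELEMENTS. Proof: consider pairs `(g', n)`: `g'` a lift (`g' ∈ N g`) with `d x (g' x) = Mq.d ..`, `n ∈ N` with
`d y (n g' y) = Mq.d ..`; take one with `len (g' y) (n g' y)` minimal. Suppose `n ≠ 1`; `gr` at `g' y`: `e, h`. By `big_angle` and the triangle inequality for
`g' y → g' x → x → y → n g' y` (the first and third angles are `≤ 15θ`): `¬ LE e (g' x) x (100θ)` or `¬ LE e y (n g' y) (100θ)`. In the second case replace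
`n` by `h⁻¹ n`. In the first case replace `g'` by `h g'` and `n` by `n h⁻¹` (`n h⁻¹ h g' y = n g' y`, `len (h g' y) (n g' y) = len (g' y) (h⁻¹ n g' y)`).
Both contradict minimality by `dec_gr`. (`x, y` are base points, so different from `e`.) -/
theorem lift_elt {x y : Z} (hx : x ∉ R.apex) (hy : y ∉ R.apex)
    (hl : ∀ e ∈ R.apex, R.LE e x y (15 * R.θ)) (g : G) :
    ∃ n ∈ R.N, R.M.d x ((n * g) • x) = R.Mq.d (R.pj x) (R.pj (g • x)) ∧
      R.M.d y ((n * g) • y) = R.Mq.d (R.pj y) (R.pj (g • y)) := by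
  classical
  have hex : ∃ k, ∃ m ∈ R.N, ∃ n ∈ R.N, R.M.d x ((m * g) • x) = R.Mq.d (R.pj x) (R.pj (g • x)) ∧
      R.M.d y (n • (m * g) • y) = R.Mq.d (R.pj y) (R.pj (g • y)) ∧
      R.len ((m * g) • y) (n • (m * g) • y) = k := by
    obtain ⟨m, hm, hd⟩ := R.Mq_lift x (g • x)
    obtain ⟨n, hn, hd'⟩ := R.Mq_lift y (m • g • y)
    rw [R.pj_smul hm] at hd'
    refine ⟨_, m, hm, n, hn, ?_, ?_, rfl⟩
    · rw [mul_smul]; exact hd
    · rw [mul_smul]; exact hd'
  obtain ⟨m, hm, n, hn, h1, h2, h3⟩ := Nat.find_spec hex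
  have hmin : ∀ m' ∈ R.N, ∀ n' ∈ R.N,
      R.M.d x ((m' * g) • x) = R.Mq.d (R.pj x) (R.pj (g • x)) →
      R.M.d y (n' • (m' * g) • y) = R.Mq.d (R.pj y) (R.pj (g • y)) →
      R.len ((m * g) • y) (n • (m * g) • y) ≤ R.len ((m' * g) • y) (n' • (m' * g) • y) := by
    intro m' hm' n' hn' a1 a2
    rw [h3]
    exact Nat.find_min' hex ⟨m', hm', n', hn', a1, a2, rfl⟩
  by_cases hn1 : n = 1
  · subst hn1
    rw [one_smul] at h2
    exact ⟨m, hm, h1, h2⟩
  exfalso
  have hgy : (m * g) • y ∉ R.apex := smul_base hy _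
  have hgx : (m * g) • x ∉ R.apex := smul_base hx _
  have hny : n • (m * g) • y ∉ R.apex := smul_base hgy _
  obtain ⟨e, he, h, hh, hh1, hLE⟩ := gr hgy hn hn1
  have hθ := R.θ_pos
  have hbig := R.big
  have hxe := ll_ne hx he
  have hye := ll_ne hy he
  have hgye := ll_ne hgy he
  have hgxe := ll_ne hgx he
  have hnye := ll_ne hny he
  have hbigA : ¬ R.LE e ((m * g) • y) (n • (m * g) • y) (230 * R.θ) :=
    big_angle he hh hh1 hgye hnye hLE (by omega)
  have hi : h⁻¹ ∈ R.H e := (R.H e).inv_mem hh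
  have hdec := dec_gr he hh hh1 hgy hLE
  have l1 : R.LE e ((m * g) • y) ((m * g) • x) (15 * R.θ) := by
    have a1 := hl ((m * g)⁻¹ • e) (R.apex_smul _ e he)
    have a2 := (LE_smul (R := R) (m * g)).2 a1
    rw [smul_inv_smul] at a2
    exact AngSys.LE.symm (A := R.toAng) he a2
  have l2 : R.LE e x y (15 * R.θ) := hl e he
  by_cases c1 : R.LE e ((m * g) • x) x (100 * R.θ)
  · by_cases c2 : R.LE e y (n • (m * g) • y) (100 * R.θ)
    · apply hbigA
      have t1 := AngSys.LE.trans (A := R.toAng) he hgxe l1 c1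
      have t2 := AngSys.LE.trans (A := R.toAng) he hxe t1 l2
      have t3 := AngSys.LE.trans (A := R.toAng) he hye t2 c2
      exact AngSys.LE.mono (A := R.toAng) t3 (by omega)
    · -- replace `n` by `h⁻¹ n`
      have hcut : R.M.Cut e y (n • (m * g) • y) := by
        apply AngSys.cut_of_not_LE (A := R.toAng) he hye hnye
        intro h0
        exact c2 (AngSys.LE.mono (A := R.toAng) h0 (by show R.θ ≤ 100 * R.θ; omega))
      have hb := hcut.1
      unfold GMet.Btw at hb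
      have t1 := R.M.tri y e (h⁻¹ • n • (m * g) • y)
      rw [ll_fix he hi] at t1
      have hpj : R.pj ((h⁻¹ * n) • (m * g) • y) = R.pj (g • y) := by
        rw [R.pj_smul (R.N.mul_mem (ll_HN he hi) hn), mul_smul, R.pj_smul hm]
      have t2 := R.Mq_le y ((h⁻¹ * n) • (m * g) • y)
      rw [hpj] at t2
      rw [← mul_smul] at t1
      have := hmin m hm (h⁻¹ * n) (R.N.mul_mem (ll_HN he hi) hn) h1 (by omega)
      omega
  · -- replace `m` by `h m` and `n` by `n h⁻¹`
    have hcut : R.M.Cut e ((m * g) • x) x := by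
      apply AngSys.cut_of_not_LE (A := R.toAng) he hgxe hxe
      intro h0
      exact c1 (AngSys.LE.mono (A := R.toAng) h0 (by show R.θ ≤ 100 * R.θ; omega))
    have hb := hcut.1
    unfold GMet.Btw at hb
    have t1 := R.M.tri x e (h • (m * g) • x)
    rw [ll_fix he hh] at t1
    have s1 := R.M.symm x e
    have s2 := R.M.symm e ((m * g) • x)
    have s3 := R.M.symm ((m * g) • x) x
    have hhm : h * m ∈ R.N := R.N.mul_mem (ll_HN he hh) hm
    have e1 : (h * m * g) • x = h • (m * g) • x := by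
      rw [mul_assoc, mul_smul]
    have e2 : (h * m * g) • y = h • (m * g) • y := by
      rw [mul_assoc, mul_smul]
    have e3 : (n * h⁻¹) • (h * m * g) • y = n • (m * g) • y := by
      rw [e2, mul_smul, inv_smul_smul]
    have hpj : R.pj ((h * m * g) • x) = R.pj (g • x) := by
      rw [mul_smul, R.pj_smul hhm]
    have t2 := R.Mq_le x ((h * m * g) • x)
    rw [hpj] at t2
    have h5 := hmin (h * m) hhm (n * h⁻¹) (R.N.mul_mem hn (ll_HN he hi))
      (by rw [e1] at t2 ⊢; omega) (by rw [e3]; exact h2)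
    rw [e3, e2] at h5
    have h6 : R.len (h • (m * g) • y) (n • (m * g) • y) =
        R.len ((m * g) • y) ((h⁻¹ * n) • (m * g) • y) := by
      have := R.len_smul h ((m * g) • y) ((h⁻¹ * n) • (m * g) • y)
      rw [← this]
      congr 1
      rw [mul_smul h⁻¹ n, smul_inv_smul]
    omega

private theorem ll_side {x y x1 e : Z} (he : e ∈ R.apex) (hx : x ∉ R.apex) (hy : y ∉ R.apex)
    (hx1 : x1 ∉ R.apex) (hl : R.LE e x y (15 * R.θ)) (hb : R.M.Btw x x1 y) :
    R.LE e x x1 (16 * R.θ) := by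
  have hθ := R.θ_pos
  have hxe := ll_ne hx he
  have hye := ll_ne hy he
  have hx1e := ll_ne hx1 he
  by_cases h : R.M.Btw x e x1
  · have a1 : R.LE e y x1 R.θ := by
      apply AngSys.LE.of_not_btw (A := R.toAng) he hye hx1e
      intro h'
      have h1 : R.M.d y e + R.M.d e x1 = R.M.d y x1 := h'
      unfold GMet.Btw at h hb
      have n1 : R.M.d e x1 ≠ 0 := fun h0 => hx1e (R.M.eq_of _ _ h0).symm
      have u1 := R.M.tri x e y
      have s1 := R.M.symm y e
      have s2 := R.M.symm y x1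
      omega
    exact AngSys.LE.mono (A := R.toAng) (AngSys.LE.trans (A := R.toAng) he hye hl a1) (by omega)
  · exact AngSys.LE.mono (A := R.toAng)
      (AngSys.LE.of_not_btw (A := R.toAng) he hxe hx1e h) (by show R.θ ≤ 16 * R.θ; omega)

private theorem ll_small (hH : R.M.Hyp 69) {x y x1 : Z} (hx : x ∉ R.apex) (hy : y ∉ R.apex)
    (hx1 : x1 ∉ R.apex) (hl : ∀ e ∈ R.apex, R.LE e x y (15 * R.θ))
    (hb : R.M.Btw x x1 y) (h1 : 50000 ≤ R.M.d x x1) (h2 : 50000 ≤ R.M.d x1 y) {g : G}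
    (hgx : R.M.d x (g • x) ≤ 14400) (hgy : R.M.d y (g • y) ≤ 14400) :
    R.M.d x1 (g • x1) ≤ 15000 ∧ ∀ e ∈ R.apex, R.LE e x1 (g • x1) (33 * R.θ) := by
  have hθ := R.θ_pos
  have hd := disp_deep R.isoAct hH hgx hgy hb (by omega) (by omega)
  have hd' : R.M.d x1 (g • x1) ≤ 15000 := by omega
  refine ⟨hd', ?_⟩
  intro e he
  have hgx1 : g • x1 ∉ R.apex := smul_base hx1 g
  have hgxb : g • x ∉ R.apex := smul_base hx g
  have hxe := ll_ne hx he
  have hx1e := ll_ne hx1 he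
  have hgx1e := ll_ne hgx1 he
  have hgxe := ll_ne hgxb he
  by_cases h : R.M.Btw x1 e (g • x1)
  · unfold GMet.Btw at h
    have a1 : R.LE e x1 x (16 * R.θ) :=
      AngSys.LE.symm (A := R.toAng) he (ll_side he hx hy hx1 (hl e he) hb)
    have a2 : R.LE e x (g • x) R.θ := by
      apply AngSys.LE.of_not_btw (A := R.toAng) he hxe hgxe
      intro h'
      have h3 : R.M.d x e + R.M.d e (g • x) = R.M.d x (g • x) := h'
      have u1 := R.M.tri x e x1
      have s1 := R.M.symm e x1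
      omega
    have a3 : R.LE e (g • x) (g • x1) (16 * R.θ) := by
      have b1 := ll_side (R.apex_smul g⁻¹ e he) hx hy hx1 (hl _ (R.apex_smul g⁻¹ e he)) hb
      have b2 := (LE_smul (R := R) g).2 b1
      rwa [smul_inv_smul] at b2
    have c1 := AngSys.LE.trans (A := R.toAng) he hxe a1 a2
    have c2 := AngSys.LE.trans (A := R.toAng) he hgxe c1 a3
    exact AngSys.LE.mono (A := R.toAng) c2 (by omega)
  · exact AngSys.LE.mono (A := R.toAng)
      (AngSys.LE.of_not_btw (A := R.toAng) he hx1e hgx1e h) (by show R.θ ≤ 33 * R.θ; omega)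

/-- SMALL ANGLES AT DEEP POINTS. `x, x1, y1, y` in this order on a geodesic. Proof: `d x1 (g x1) ≤ 15000` by `disp_deep`. `LE e x x1 (16θ)`: if `e` cuts `x` from `x1` then
`LE e x1 y θ`, `LE e x y (15θ)`. Suppose `e` cuts `x1` from `g x1` (otherwise `θ`); then `d e x1 ≤ 15000`, so `e` is not between `x` and `g x`: `LE e x (g x) θ`. Sum:
`16θ + θ + 16θ`. For `(x1,y1)`: `LE e x1 x θ` and `LE e y y1 θ` if `e` is between `x1` and `y1`. -/
theorem small_angle (hH : R.M.Hyp 69) {x y x1 y1 : Z} (hx : x ∉ R.apex) (hy : y ∉ R.apex)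
    (hx1 : x1 ∉ R.apex) (hy1 : y1 ∉ R.apex) (hl : ∀ e ∈ R.apex, R.LE e x y (15 * R.θ))
    (hch : R.M.d x x1 + R.M.d x1 y1 + R.M.d y1 y = R.M.d x y)
    (h1 : 50000 ≤ R.M.d x x1) (h2 : 50000 ≤ R.M.d y1 y) {g : G} (hgx : R.M.d x (g • x) ≤ 14400)
    (hgy : R.M.d y (g • y) ≤ 14400) :
    (R.M.d x1 (g • x1) ≤ 15000 ∧ ∀ e ∈ R.apex, R.LE e x1 (g • x1) (33 * R.θ)) ∧
    (R.M.d y1 (g • y1) ≤ 15000 ∧ ∀ e ∈ R.apex, R.LE e y1 (g • y1) (33 * R.θ)) ∧
    ∀ e ∈ R.apex, R.LE e x1 y1 (17 * R.θ) := by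
  have hθ := R.θ_pos
  -- positions
  have t1 := R.M.tri x x1 y
  have t2 := R.M.tri x1 y1 y
  have t3 := R.M.tri x y1 y
  have t4 := R.M.tri x x1 y1
  have b1 : R.M.Btw x x1 y := by unfold GMet.Btw; omega
  have b2 : R.M.Btw x y1 y := by unfold GMet.Btw; omega
  have hl' : ∀ e ∈ R.apex, R.LE e y x (15 * R.θ) := fun e he =>
    AngSys.LE.symm (A := R.toAng) he (hl e he)
  have b2' : R.M.Btw y y1 x := by
    unfold GMet.Btw at b2 ⊢
    have s1 := R.M.symm y y1
    have s2 := R.M.symm y1 x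
    have s3 := R.M.symm y x
    omega
  refine ⟨ll_small hH hx hy hx1 hl b1 h1 (by omega) hgx hgy,
    ll_small hH hy hx hy1 hl' b2' (by rw [R.M.symm]; exact h2)
      (by rw [R.M.symm]; omega) hgy hgx, ?_⟩
  intro e he
  have hxe := ll_ne hx he
  have hye := ll_ne hy he
  have hx1e := ll_ne hx1 he
  have hy1e := ll_ne hy1 he
  by_cases hb : R.M.Btw x1 e y1
  · have hb' := hb
    unfold GMet.Btw at hb'
    have n1 : R.M.d x1 e ≠ 0 := fun h => hx1e (R.M.eq_of _ _ h)
    have n2 : R.M.d e y1 ≠ 0 := fun h => hy1e (R.M.eq_of _ _ h).symm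
    have u1 := R.M.tri x x1 e
    have u2 := R.M.tri x e y
    have u3 := R.M.tri e y1 y
    have a1 : R.LE e x1 x R.θ := by
      apply AngSys.LE.of_not_btw (A := R.toAng) he hx1e hxe
      intro h
      have h' : R.M.d x1 e + R.M.d e x = R.M.d x1 x := h
      have s1 := R.M.symm e x
      have s2 := R.M.symm x1 x
      omega
    have a2 : R.LE e y y1 R.θ := by
      apply AngSys.LE.of_not_btw (A := R.toAng) he hye hy1e
      intro h
      have h' : R.M.d y e + R.M.d e y1 = R.M.d y y1 := h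
      have s1 := R.M.symm y e
      have s2 := R.M.symm y y1
      omega
    have c1 := AngSys.LE.trans (A := R.toAng) he hxe a1 (hl e he)
    have c2 := AngSys.LE.trans (A := R.toAng) he hye c1 a2
    exact AngSys.LE.mono (A := R.toAng) c2 (by omega)
  · exact AngSys.LE.mono (A := R.toAng)
      (AngSys.LE.of_not_btw (A := R.toAng) he hx1e hy1e hb) (by show R.θ ≤ 17 * R.θ; omega)

end RotSys
end BG
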