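import Pool.Agent.Helper76.BG.AngBasic

/-!
# BG40: two heavy apexes or a long light stretch
-/

set_option autoImplicit false

namespace BG
namespace AngSys

variable {Z : Type}

/-- replace the ends of a geodesic by non-apexes -/
private theorem stretch_ends (A : AngSys Z) {P Q : Z} (h : 3 ≤ A.M.d P Q) :
    ∃ x' y', x' ∉ A.apex ∧ y' ∉ A.apex ∧ A.M.d P x' ≤ 1 ∧ A.M.d y' Q ≤ 1 ∧
      A.M.d P x' + A.M.d x' y' + A.M.d y' Q = A.M.d P Q := by
  have hx : ∃ x', x' ∉ A.apex ∧ A.M.d P x' ≤ 1 ∧ A.M.d P x' + A.M.d x' Q = A.M.d P Q := by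
    by_cases hP : P ∈ A.apex
    · obtain ⟨z, h1, h2⟩ := A.M.geo P Q 1 (by omega)
      exact ⟨z, fun hz => A.nadj P hP z hz h1, by omega, by omega⟩
    · have := A.M.self P
      exact ⟨P, hP, by omega, by omega⟩
  obtain ⟨x', hx1, hx2, hx3⟩ := hx
  have hy : ∃ y', y' ∉ A.apex ∧ A.M.d y' Q ≤ 1 ∧ A.M.d x' y' + A.M.d y' Q = A.M.d x' Q := by
    by_cases hQ : Q ∈ A.apex
    · have e1 := A.M.symm Q x'
      obtain ⟨z, h1, h2⟩ := A.M.geo Q x' 1 (by omega)
      have e2 := A.M.symm Q z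
      have e3 := A.M.symm z x'
      exact ⟨z, fun hz => A.nadj Q hQ z hz h1, by omega, by omega⟩
    · have := A.M.self Q
      exact ⟨Q, hQ, by omega, by omega⟩
  obtain ⟨y', hy1, hy2, hy3⟩ := hy
  exact ⟨x', y', hx1, hy1, hx2, hy2, by omega⟩

private theorem stretch_aux (A : AngSys Z) {x y P Q : Z} {R0 : ℕ}
    (h1 : A.M.d x P + A.M.d P Q + A.M.d Q y = A.M.d x y) (hP : R0 ≤ A.M.d x P)
    (hQ : R0 ≤ A.M.d Q y) (hlen : A.M.d x y + 8 ≤ 4 * A.M.d P Q)
    (hno : ∀ e ∈ A.apex, R0 < A.M.d x e → R0 < A.M.d y e → ¬ A.LE e x y (7 * A.θ) →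
      A.M.d x e ≤ A.M.d x P ∨ A.M.d x y ≤ A.M.d Q y + A.M.d x e) :
    ∃ x' y', x' ∉ A.apex ∧ y' ∉ A.apex ∧ A.M.Btw x x' y ∧ A.M.Btw x y' y ∧
      A.M.d x x' + A.M.d x' y' + A.M.d y' y = A.M.d x y ∧ R0 ≤ A.M.d x x' ∧ R0 ≤ A.M.d y' y ∧
      A.M.d x y ≤ 4 * A.M.d x' y' ∧ ∀ e ∈ A.apex, A.LE e x' y' (9 * A.θ) := by
  obtain ⟨x', y', hx, hy, hx1, hy1, hsum⟩ := A.stretch_ends (P := P) (Q := Q) (by omega)
  have t1 := A.M.tri x P x'
  have t2 := A.M.tri y' Q y
  have t3 := A.M.tri x x' y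
  have t4 := A.M.tri x' y' y
  have t5 := A.M.tri x x' y'
  have t6 := A.M.tri x y' y
  have ex : A.M.d x x' = A.M.d x P + A.M.d P x' := by omega
  have ey : A.M.d y' y = A.M.d y' Q + A.M.d Q y := by omega
  refine ⟨x', y', hx, hy, by unfold GMet.Btw; omega, by unfold GMet.Btw; omega, by omega,
    by omega, by omega, by omega, ?_⟩
  intro e he
  by_contra hcon
  have hex : x' ≠ e := fun h0 => hx (h0 ▸ he)
  have hey : y' ≠ e := fun h0 => hy (h0 ▸ he)
  have hcut : A.M.Cut e x' y' := by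
    apply cut_of_not_LE he hex hey
    intro h0
    exact hcon (h0.mono (by omega))
  have hb := hcut.1
  unfold GMet.Btw at hb
  have p1 : A.M.d x' e ≠ 0 := fun h0 => hex (A.M.eq_of _ _ h0)
  have p2 : A.M.d e y' ≠ 0 := fun h0 => hey (A.M.eq_of _ _ h0).symm
  have s1 := A.M.tri x x' e
  have s2 := A.M.tri e y' y
  have s3 := A.M.tri x e y
  have e1 := A.M.symm y e
  have e2 := A.M.symm y y'
  have f1 : A.M.d x e = A.M.d x x' + A.M.d x' e := by omega
  have f2 : A.M.d e y = A.M.d e y' + A.M.d y' y := by omega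
  have hxe : x ≠ e := by
    intro h0
    have := A.M.self x
    rw [← h0] at f1 p1
    omega
  have hye : y ≠ e := by
    intro h0
    have := A.M.self y
    rw [← h0] at f2 p2
    omega
  have g1 : A.LE e x x' A.θ := LE.of_far he hxe hex (by omega)
  have g2 : A.LE e y y' A.θ := LE.of_far he hye hey (by omega)
  have hheavy : ¬ A.LE e x y (7 * A.θ) := by
    intro h7
    apply hcon
    have h8 := (g1.symm he).trans he hxe (h7.trans he hye g2)
    exact h8.mono (by omega)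
  rcases hno e he (by omega) (by omega) hheavy with h9 | h9
  · omega
  · omega

/-- Proof. Call an apex `c` heavy if `¬ LE c x y (7θ)` and `R0 < d x c`, `R0 < d y c`. Suppose there are no two distinct heavy apexes.
Heavy apexes are between `x` and `y` (`LA`). Take a geodesic `w` from `x` to `y`, `L = d x y`. If there is a heavy apex, it is `w t0` for some `t0`; take `[i1, i2]` the longer one of
`[R0, t0]`, `[t0, L - R0]` (`[R0, L-R0]` if there is no heavy apex); so no heavy apex has position strictly between `i1` and `i2`, `i2 - i1 ≥ (L - 2R0)/2`.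
Let `x' = w i1` or `w (i1+1)`, `y' = w i2` or `w (i2-1)`, not apexes (`nadj`). `d x' y' ≥ (L-2R0)/2 - 2 ≥ L/4`. Let `e` be an apex with `¬ LE e x' y' (9θ)`; it cuts `x'`
from `y'`, so it is strictly between; `d x e = d x x' + d x' e > d x x'`, so `LE e x x' θ` (`LE.of_far`), similarly `LE e y' y θ`; hence `¬ LE e x y (7θ)`: `e` is heavy,
with position strictly between `i1` and `i2`, contradiction. -/
theorem stretch (A : AngSys Z) {x y : Z} {R0 : ℕ} (hL : 10 * R0 + 100 ≤ A.M.d x y) :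
    (∃ c ∈ A.apex, ∃ e ∈ A.apex, c ≠ e ∧ R0 < A.M.d x c ∧ R0 < A.M.d y c ∧ R0 < A.M.d x e ∧
      R0 < A.M.d y e ∧ ¬ A.LE c x y (7 * A.θ) ∧ ¬ A.LE e x y (7 * A.θ)) ∨
    (∃ x' y', x' ∉ A.apex ∧ y' ∉ A.apex ∧ A.M.Btw x x' y ∧ A.M.Btw x y' y ∧
      A.M.d x x' + A.M.d x' y' + A.M.d y' y = A.M.d x y ∧ R0 ≤ A.M.d x x' ∧ R0 ≤ A.M.d y' y ∧
      A.M.d x y ≤ 4 * A.M.d x' y' ∧ ∀ e ∈ A.apex, A.LE e x' y' (9 * A.θ)) := by
  by_contra hcon
  push Not at hcon
  obtain ⟨hc1, hc2⟩ := hcon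
  have huniq : ∀ c ∈ A.apex, R0 < A.M.d x c → R0 < A.M.d y c → ¬ A.LE c x y (7 * A.θ) →
      ∀ e ∈ A.apex, R0 < A.M.d x e → R0 < A.M.d y e → ¬ A.LE e x y (7 * A.θ) → e = c := by
    intro c hc h1 h2 h3 e he h4 h5 h6
    by_contra hne
    exact h6 (hc1 c hc e he (Ne.symm hne) h1 h2 h4 h5 h3)
  have hfin : ∀ P Q : Z, A.M.d x P + A.M.d P Q + A.M.d Q y = A.M.d x y → R0 ≤ A.M.d x P →
      R0 ≤ A.M.d Q y → A.M.d x y + 8 ≤ 4 * A.M.d P Q →
      (∀ e ∈ A.apex, R0 < A.M.d x e → R0 < A.M.d y e → ¬ A.LE e x y (7 * A.θ) →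
      A.M.d x e ≤ A.M.d x P ∨ A.M.d x y ≤ A.M.d Q y + A.M.d x e) → False := by
    intro P Q h1 h2 h3 h4 h5
    obtain ⟨x', y', k1, k2, k3, k4, k5, k6, k7, k8, k9⟩ := A.stretch_aux h1 h2 h3 h4 h5
    obtain ⟨e, he, hle⟩ := hc2 x' y' k1 k2 k3 k4 k5 k6 k7 k8
    exact hle (k9 e he)
  by_cases hex : ∃ c ∈ A.apex, R0 < A.M.d x c ∧ R0 < A.M.d y c ∧ ¬ A.LE c x y (7 * A.θ)
  · obtain ⟨c, hc, h1, h2, h3⟩ := hex
    have hxc : x ≠ c := by
      intro h0
      have := A.M.self x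
      rw [← h0] at h1
      omega
    have hyc : y ≠ c := by
      intro h0
      have := A.M.self y
      rw [← h0] at h2
      omega
    have hcut : A.M.Cut c x y := by
      apply cut_of_not_LE hc hxc hyc
      intro h0
      exact h3 (h0.mono (by omega))
    have hb := hcut.1
    unfold GMet.Btw at hb
    have e1 := A.M.symm y c
    rcases Nat.le_total (A.M.d c y) (A.M.d x c) with hle | hle
    · obtain ⟨P, p1, p2⟩ := A.M.geo x c R0 (by omega)
      apply hfin P c (by omega) (by omega) (by omega) (by omega)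
      intro e he k1 k2 k3
      right
      rw [huniq c hc h1 h2 h3 e he k1 k2 k3]
      omega
    · obtain ⟨Q, q1, q2⟩ := A.M.geo y c R0 (by omega)
      have e2 := A.M.symm y Q
      have e3 := A.M.symm Q c
      apply hfin c Q (by omega) (by omega) (by omega) (by omega)
      intro e he k1 k2 k3
      left
      rw [huniq c hc h1 h2 h3 e he k1 k2 k3]
  · push Not at hex
    obtain ⟨P, p1, p2⟩ := A.M.geo x y R0 (by omega)
    obtain ⟨Q, q1, q2⟩ := A.M.geo P y (A.M.d x y - 2 * R0) (by omega)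
    apply hfin P Q (by omega) (by omega) (by omega) (by omega)
    intro e he k1 k2 k3
    exact absurd (hex e he k1 k2) k3

end AngSys
end BG
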