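import Pool.Agent.Helper76.BG.Shift

/-!
# BG42: powers of torsion elements move deep points little
-/

set_option autoImplicit false

namespace BG

variable {G X : Type} [Group G] [MulAction G X] {M : GMet X}

/-- points on a geodesic through `p` at depth `c` -/
private theorem two_points {x y p : X} (hp : M.Btw x p y) {c e : ℕ} (h1 : c + e ≤ M.d x p)
    (h2 : c + e ≤ M.d p y) :
    ∃ x' y', M.Btw x x' y ∧ M.Btw x y' y ∧ M.Btw x' p y' ∧ c ≤ M.d x x' ∧ c ≤ M.d x' y ∧
      c ≤ M.d x y' ∧ c ≤ M.d y' y ∧ e ≤ M.d x' p ∧ e ≤ M.d p y' := by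
  have hp' : M.d x p + M.d p y = M.d x y := hp
  obtain ⟨x', hx1, hx2⟩ := M.geo x p c (by omega)
  have hsym := M.symm y p
  obtain ⟨y', hy1, hy2⟩ := M.geo y p c (by omega)
  have t1 := M.tri x x' y
  have t2 := M.tri x' p y
  have s1 := M.symm y y'
  have s2 := M.symm y' p
  have t3 := M.tri x y' y
  have t4 := M.tri x p y'
  have t5 := M.tri x' p y'
  have t6 := M.tri x x' y'
  refine ⟨x', y', ?_, ?_, ?_, by omega, by omega, by omega, by omega, by omega, by omega⟩
  · show M.d x x' + M.d x' y = M.d x y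
    omega
  · show M.d x y' + M.d y' y = M.d x y
    omega
  · show M.d x' p + M.d p y' = M.d x' y'
    omega

/-- Proof by induction on `i ≥ 1`, `23·69 = 1587`. `i = 1`: `torsion_deep` with `D = 13800`. `i → i+1`: let `x', y'` be between `x` and `y` on a geodesic through `p`
at depth `27877 + 6625 i`; `g` and `g^i` move `x', y'` by at most `1587`, so `g^(i+1)` by at most `3174`; `torsion_deep` with `D = 3174`
(depth `2·3174 + 277 = 6625`). -/
theorem torsion_powers (hiso : IsoAct G M) (h : M.Hyp 69) {g : G} (hg : IsOfFinOrder g) {x y : X}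
    (hx : M.d x (g • x) ≤ 13800) (hy : M.d y (g • y) ≤ 13800) (i : ℕ) (hi : 1 ≤ i) {p : X}
    (hp : M.Btw x p y) (h1 : 27877 + 6625 * i ≤ M.d x p) (h2 : 27877 + 6625 * i ≤ M.d p y) :
    M.d p (g ^ i • p) ≤ 1587 := by
  have base : ∀ q : X, M.Btw x q y → 27877 ≤ M.d x q → 27877 ≤ M.d q y → M.d q (g • q) ≤ 1587 := by
    intro q hq h3 h4
    exact torsion_deep hiso h hg hx hy hq (by omega) (by omega)
  induction i, hi using Nat.le_induction generalizing p with
  | base =>
    rw [pow_one]
    exact base p hp (by omega) (by omega)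
  | succ i hi ih =>
    have e1 : 27877 + 6625 * (i + 1) = 27877 + 6625 * i + 6625 := by ring
    rw [e1] at h1 h2
    have hle : 27877 ≤ 27877 + 6625 * i := Nat.le_add_right _ _
    obtain ⟨x', y', hbx, hby, hbp, c1, c2, c3, c4, d1, d2⟩ := two_points hp h1 h2
    have move : ∀ q : X, M.Btw x q y → 27877 + 6625 * i ≤ M.d x q → 27877 + 6625 * i ≤ M.d q y →
        M.d q (g ^ (i + 1) • q) ≤ 3174 := by
      intro q hq h3 h4
      have a1 := base q hq (le_trans hle h3) (le_trans hle h4)
      have a2 := ih hq h3 h4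
      have a3 := hiso g q (g ^ i • q)
      have a4 := M.tri q (g • q) (g • g ^ i • q)
      rw [pow_succ', mul_smul]
      omega
    have m1 := move x' hbx c1 c2
    have m2 := move y' hby c3 c4
    have hgi : IsOfFinOrder (g ^ (i + 1)) := hg.pow
    exact torsion_deep hiso h hgi m1 m2 hbp d1 d2

end BG
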