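import Pool.Agent.Helper76.BG.Tors
import Pool.Agent.Helper76.BG.Stretch
import Pool.Agent.Helper76.BG.LightLift
import Pool.Agent.Helper76.BG.TorPow

/-!
# BG43a: acylindricity (axiom `A1`) for the quotient
-/

set_option autoImplicit false

namespace BG
namespace KData

variable {c : Cst} {S : Sys} (D : KData c S)

/-- a base point at position `k` or `k + 1` of a geodesic -/
private theorem abar_base {x y : S.Z c} {w : ℕ → S.Z c} {L : ℕ} (hw : (S.C c).IsGeo w L x y)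
    {k : ℕ} (hk : k + 1 ≤ L) : ∃ i, (i = k ∨ i = k + 1) ∧ ∃ x1 : S.X, w i = Sum.inl x1 := by
  rcases h1 : w k with x1 | E
  · exact ⟨k, Or.inl rfl, x1, h1⟩
  · rcases h2 : w (k + 1) with x2 | F
    · exact ⟨k + 1, Or.inr rfl, x2, h2⟩
    · exfalso
      have h3 := hw.2.2 k (k + 1) (by omega) hk
      rw [h1, h2] at h3
      exact Sys.C_inr_inr E F (by omega)

private theorem abar_hyp : D.R.M.Hyp 69 :=
  (GMet.Thin.hyp D.P.cone_thin : (S.C c).Hyp 69)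

private theorem abar_inl {z : S.Z c} (hz : z ∉ D.R.apex) : ∃ x : S.X, z = Sum.inl x := by
  rcases z with x | E
  · exact ⟨x, rfl⟩
  · exact absurd ⟨E, rfl⟩ hz

private theorem abar_inl_base (x : S.X) : (Sum.inl x : S.Z c) ∉ D.R.apex := by
  rintro ⟨E, hE⟩
  cases hE

/-- THE LIGHT CASE, common part. `x', y'` points of the quotient which are not apexes, light, far apart. There are `x1, y1 ∈ X`, far apart in `X`, such that every
`g` of the quotient group moving `x', y'` by at most `14400` has a lift moving `x1, y1` by at most `61200000 ρ`; and all angles between `x1` and `y1` are at most `17θ = 2040ρ`.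
Proof: `light_lift` gives `x, y ∈ X` (base points are in `X`); `x1, y1` on a geodesic of the cone-off from `x` to `y` at distance `50000` or `50001` from the ends (one of two
consecutive vertices is not an apex). `lift_elt`, `small_angle` (`C` is `Hyp 69` by `cone_thin`, `Thin.hyp`), `lemmaN`: `15000·(33·120ρ + ρ) ≤ 61200000ρ`. `C_ge`:
`d x1 y1 ≥ ρ (d̂ x1 y1 - 1)`. -/
theorem light_common {x' y' : D.Sq.X} (hx' : x' ∉ D.R.apexq) (hy' : y' ∉ D.R.apexq)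
    (hl : ∀ e ∈ D.R.apexq, D.R.Aq.LE e x' y' (9 * D.R.θ)) (hL : 200000 ≤ D.Sq.M.d x' y') :
    ∃ x1 y1 : S.X, c.ρ * D.Sq.M.d x' y' ≤ S.M.d x1 y1 + 100003 * c.ρ ∧
      (∀ E : S.Killed c.K, D.R.LE (Sum.inr E) (Sum.inl x1) (Sum.inl y1) (2040 * c.ρ)) ∧
      ∀ g : D.Sq.G, D.Sq.M.d x' (g • x') ≤ 14400 → D.Sq.M.d y' (g • y') ≤ 14400 →
        ∃ g0, D.φ g0 = g ∧ S.M.d x1 (g0 • x1) ≤ 61200000 * c.ρ ∧
          S.M.d y1 (g0 • y1) ≤ 61200000 * c.ρ := by
  obtain ⟨x, y, rfl, rfl, hd, hang⟩ := RotSys.light_lift (R := D.R) hx' hy' hl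
  have hx : x ∉ D.R.apex := fun h => hx' (D.R.pj_mem_apexq.mpr h)
  have hy : y ∉ D.R.apex := fun h => hy' (D.R.pj_mem_apexq.mpr h)
  obtain ⟨L, hLdef⟩ : ∃ L : ℕ, L = D.R.M.d x y := ⟨_, rfl⟩
  have hdL : D.Sq.M.d (D.R.pj x) (D.R.pj y) = L := by
    rw [hLdef, hd]
    rfl
  rw [hdL] at hL ⊢
  obtain ⟨w, hw⟩ := GMet.exists_geo (S.C c) x y
  have hCL : (S.C c).d x y = L := hLdef.symm
  rw [hCL] at hw
  obtain ⟨i1, hi1, x1, hx1⟩ := abar_base hw (k := 50000) (by omega)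
  obtain ⟨i2, hi2, y1, hy1⟩ := abar_base hw (k := L - 50001) (by omega)
  have e1 : (S.C c).d x (Sum.inl x1) = i1 := by
    have := hw.2.2 0 i1 (by omega) (by omega)
    rw [hw.1, hx1] at this
    omega
  have e2 : (S.C c).d (Sum.inl x1) (Sum.inl y1) = i2 - i1 := by
    have := hw.2.2 i1 i2 (by omega) (by omega)
    rw [hx1, hy1] at this
    exact this
  have e3 : (S.C c).d (Sum.inl y1) y = L - i2 := by
    have := hw.2.2 i2 L (by omega) le_rfl
    rw [hy1, hw.2.1] at this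
    exact this
  have hch : (S.C c).d x (Sum.inl x1) + (S.C c).d (Sum.inl x1) (Sum.inl y1) +
      (S.C c).d (Sum.inl y1) y = (S.C c).d x y := by
    rw [e1, e2, e3, hCL]
    omega
  have hθ : D.R.θ = 120 * c.ρ := rfl
  have key := fun (g : S.G) (h1 : D.R.M.d x (g • x) ≤ 14400) (h2 : D.R.M.d y (g • y) ≤ 14400) =>
    RotSys.small_angle (R := D.R) D.abar_hyp hx hy (D.abar_inl_base x1) (D.abar_inl_base y1) hang
      hch (show 50000 ≤ (S.C c).d x (Sum.inl x1) by omega)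
      (show 50000 ≤ (S.C c).d (Sum.inl y1) y by omega) h1 h2
  refine ⟨x1, y1, ?_, ?_, ?_⟩
  · have h1 := Sys.C_ge (c := c) x1 y1
    rw [e2] at h1
    have h2 : c.ρ * L ≤ c.ρ * (i2 - i1) + 100002 * c.ρ := by
      have h3 : c.ρ * L ≤ c.ρ * ((i2 - i1) + 100002) := Nat.mul_le_mul_left _ (by omega)
      have h4 : c.ρ * ((i2 - i1) + 100002) = c.ρ * (i2 - i1) + 100002 * c.ρ := by ring
      omega
    omega
  · intro E
    have h0 := (key 1 (by rw [one_smul, D.R.M.self]; omega)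
      (by rw [one_smul, D.R.M.self]; omega)).2.2 (Sum.inr E) ⟨E, rfl⟩
    have h1 : 17 * D.R.θ = 2040 * c.ρ := by rw [hθ]; ring
    rw [h1] at h0
    exact h0
  · intro g hgx hgy
    obtain ⟨g1, rfl⟩ := D.φ_surj g
    obtain ⟨n, hn, hn1, hn2⟩ := RotSys.lift_elt (R := D.R) hx hy hang g1
    have hgx' : D.R.M.d x ((n * g1) • x) ≤ 14400 := by
      rw [hn1]
      exact hgx
    have hgy' : D.R.M.d y ((n * g1) • y) ≤ 14400 := by
      rw [hn2]
      exact hgy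
    obtain ⟨⟨a1, a2⟩, ⟨b1, b2⟩, -⟩ := key (n * g1) hgx' hgy'
    have hT : 33 * D.R.θ = 3960 * c.ρ := by rw [hθ]; ring
    refine ⟨n * g1, (D.φ_eq.2 ⟨n, hn, rfl⟩).symm, ?_, ?_⟩
    · have h1 := D.lemmaN (x := x1) (y := (n * g1) • x1) (T := 3960 * c.ρ) (fun E => by
        have := a2 (Sum.inr E) ⟨E, rfl⟩
        rw [hT] at this
        exact this)
      have h2 : (S.C c).d (Sum.inl x1) (Sum.inl ((n * g1) • x1)) ≤ 15000 := a1
      have h3 := Nat.mul_le_mul_right (3960 * c.ρ + c.ρ) h2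
      omega
    · have h1 := D.lemmaN (x := y1) (y := (n * g1) • y1) (T := 3960 * c.ρ) (fun E => by
        have := b2 (Sum.inr E) ⟨E, rfl⟩
        rw [hT] at this
        exact this)
      have h2 : (S.C c).d (Sum.inl y1) (Sum.inl ((n * g1) • y1)) ≤ 15000 := b1
      have h3 := Nat.mul_le_mul_right (3960 * c.ρ + c.ρ) h2
      omega

/-- AXIOM A1. `stretch` with `R0 = 41500` (`3·13800 < 41500`): `regI_comm` (`angAct`) or the light case: displacement at `x', y'` is `≤ 13800 + 552` (`disp_deep`),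
`light_common` for `g` and `h`, `commute`: `b + 6·61200000ρ + 2070 ≤ ρ (b/4) - 100003ρ`. -/
theorem A1_q (x y : D.Sq.X) (g h : D.Sq.G) (hb : c.b ≤ D.Sq.M.d x y)
    (hgx : D.Sq.M.d x (g • x) ≤ 13800) (hgy : D.Sq.M.d y (g • y) ≤ 13800)
    (hhx : D.Sq.M.d x (h • x) ≤ 13800) (hhy : D.Sq.M.d y (h • y) ≤ 13800) : g * h = h * g := by
  have hq := c.q_ge
  have hbq := c.b_ge
  have hρ := c.ρ_ge
  have hbig : 4 * 10 ^ 17 ≤ c.b := by
    have := Nat.mul_le_mul_left (10 ^ 10) hq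
    omega
  rcases AngSys.stretch (D.R.Aq) (x := x) (y := y) (R0 := 41500)
    (show 10 * 41500 + 100 ≤ D.Sq.M.d x y by omega) with h0 | h0
  · obtain ⟨a, ha, e, he, hae, r1, r2, r3, r4, l1, l2⟩ := h0
    exact D.angAct.regI_comm (κ := 13800) hgx hgy hhx hhy ha he hae (by omega) (by omega)
      (by omega) (by omega) l1 l2
  · have h0' : ∃ x' y' : D.Sq.X, x' ∉ D.R.apexq ∧ y' ∉ D.R.apexq ∧ D.Sq.M.Btw x x' y ∧
        D.Sq.M.Btw x y' y ∧ D.Sq.M.d x x' + D.Sq.M.d x' y' + D.Sq.M.d y' y = D.Sq.M.d x y ∧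
        41500 ≤ D.Sq.M.d x x' ∧ 41500 ≤ D.Sq.M.d y' y ∧ D.Sq.M.d x y ≤ 4 * D.Sq.M.d x' y' ∧
        ∀ e ∈ D.R.apexq, D.R.Aq.LE e x' y' (9 * D.R.θ) := h0
    obtain ⟨x', y', hx', hy', hb1, hb2, hsum, p1, p2, p3, hl⟩ := h0'
    have hb1' : D.Sq.M.d x x' + D.Sq.M.d x' y = D.Sq.M.d x y := hb1
    have hb2' : D.Sq.M.d x y' + D.Sq.M.d y' y = D.Sq.M.d x y := hb2
    have dg1 : ∀ g : D.Sq.G, D.Sq.M.d x (g • x) ≤ 13800 → D.Sq.M.d y (g • y) ≤ 13800 →
        D.Sq.M.d x' (g • x') ≤ 14400 ∧ D.Sq.M.d y' (g • y') ≤ 14400 := by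
      intro g h1 h2
      have a1 := disp_deep D.Sq.isoAct D.Sq_hyp h1 h2 (p := x') hb1 (by omega) (by omega)
      have a2 := disp_deep D.Sq.isoAct D.Sq_hyp h1 h2 (p := y') hb2 (by omega) (by omega)
      omega
    obtain ⟨x1, y1, c1, -, c3⟩ := D.light_common hx' hy' hl (by omega)
    obtain ⟨g0, hg0, g1, g2⟩ := c3 g (dg1 g hgx hgy).1 (dg1 g hgx hgy).2
    obtain ⟨h0, hh0, h1, h2⟩ := c3 h (dg1 h hhx hhy).1 (dg1 h hhx hhy).2
    have hfar : c.ρ * 10 ^ 17 ≤ c.ρ * D.Sq.M.d x' y' := Nat.mul_le_mul_left _ (by omega)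
    have hc := D.P.commute g1 g2 h1 h2 (by omega)
    rw [← hg0, ← hh0, ← map_mul, hc, map_mul]

end KData
end BG
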