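import Pool.Agent.Helper76.BG.AngDefs

/-!
# BG21: germs, cuts and angles: elementary facts
-/

set_option autoImplicit false

namespace BG

namespace GMet

variable {Z : Type} {M : GMet Z} {c e z w V y : Z}

theorem germ_nonempty (h : z ≠ c) : (M.Germ c z).Nonempty := by
  have h0 : M.d c z ≠ 0 := fun h0 => h (M.eq_of c z h0).symm
  obtain ⟨y, h1, h2⟩ := M.geo c z 1 (by omega)
  exact ⟨y, h1, by omega⟩

/-- `Germ c y = {y}` for a neighbour `y` of `c` -/
theorem germ_adj (h : M.d c y = 1) : M.Germ c y = {y} := by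
  ext u
  constructor
  · rintro ⟨h1, h2⟩
    have h3 : M.d u y = 0 := by omega
    exact M.eq_of u y h3
  · intro hu
    have hu' : u = y := hu
    subst hu'
    exact ⟨h, by rw [M.self]; omega⟩

theorem Cut.symm (h : M.Cut c z w) : M.Cut c w z := by
  obtain ⟨h1, h2⟩ := h
  unfold Btw at h1
  have e1 := M.symm z c
  have e2 := M.symm c w
  have e3 := M.symm z w
  refine ⟨by unfold Btw; omega, ?_⟩
  intro u hu hd
  unfold Btw at hu
  have e4 := M.symm w u
  have e5 := M.symm u z
  apply h2 u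
  · unfold Btw; omega
  · omega

/-- if `e` is between `c` and `z` then germs towards `e` are germs towards `z` -/
theorem germ_sub (h : M.Btw c e z) (hne : e ≠ c) : M.Germ c e ⊆ M.Germ c z := by
  have _ := hne
  rintro y ⟨h1, h2⟩
  unfold Btw at h
  have t1 := M.tri y e z
  have t2 := M.tri c y z
  exact ⟨h1, by omega⟩

/-- EXACTNESS: if `e` cuts `c` from `z` then the germs at `c` towards `z` and `e` coincide -/
theorem germ_eq (h : M.Cut e c z) (hne : e ≠ c) : M.Germ c z = M.Germ c e := by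
  apply Set.Subset.antisymm
  · rintro y ⟨h1, h2⟩
    obtain ⟨hb, hc⟩ := h
    unfold Btw at hb
    have h0 : M.d c e ≠ 0 := fun h0 => hne (M.eq_of c e h0).symm
    obtain ⟨u, hu1, hu2⟩ := M.geo y z (M.d c e - 1) (by omega)
    have t1 := M.tri c y u
    have t2 := M.tri c u z
    have hu : u = e := by
      apply hc u
      · unfold Btw; omega
      · omega
    subst hu
    exact ⟨h1, by omega⟩
  · exact germ_sub h.1 hne

/-- `V` beyond `e` -/
theorem Cut.left (h : M.Cut e z w) (hV : M.Btw z V w) (hle : M.d z e ≤ M.d z V) : M.Cut e z V := by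
  have key : ∀ u, M.Btw z u V → M.d z u = M.d z e → u = e := by
    intro u hu hd
    apply h.2 u _ hd
    unfold Btw at hu hV ⊢
    have t1 := M.tri u V w
    have t2 := M.tri z u w
    omega
  refine ⟨?_, key⟩
  obtain ⟨u, hu1, hu2⟩ := M.geo z V (M.d z e) hle
  have hb : M.Btw z u V := by unfold Btw; omega
  have := key u hb hu1
  subst this
  exact hb

/-- `V` before `e` -/
theorem Cut.right (h : M.Cut e z w) (hV : M.Btw z V w) (hle : M.d z V ≤ M.d z e) : M.Cut e V w := by
  have h1 := h.1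
  unfold Btw at h1 hV
  have e1 := M.symm z e
  have e2 := M.symm e w
  have e3 := M.symm z w
  have e4 := M.symm z V
  have e5 := M.symm V w
  have h2 : M.Cut e w V := Cut.left h.symm (by unfold Btw; omega) (by omega)
  exact h2.symm

theorem Cut.eq_of_pos (h : M.Cut c z w) (he : M.Btw z e w) (hpos : M.d z e = M.d z c) : e = c :=
  h.2 e he hpos

/-- two cut points in order -/
theorem Cut.dist (h : M.Cut c z w) (he : M.Btw z e w) (hle : M.d z c ≤ M.d z e) :
    M.d c e + M.d z c = M.d z e := by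
  have h1 := (Cut.left h he hle).1
  unfold Btw at h1
  omega

variable {G : Type} [Group G] [MulAction G Z]

theorem germ_smul (hiso : IsoAct G M) (g : G) : g • y ∈ M.Germ (g • c) (g • z) ↔ y ∈ M.Germ c z := by
  unfold Germ
  simp only [Set.mem_setOf_eq, hiso g]

theorem cut_smul (hiso : IsoAct G M) (g : G) : M.Cut (g • c) (g • z) (g • w) ↔ M.Cut c z w := by
  unfold Cut Btw
  simp only [hiso g]
  constructor
  · rintro ⟨h1, h2⟩
    refine ⟨h1, fun u hu hd => ?_⟩
    have h3 := h2 (g • u) (by rw [hiso g, hiso g]; exact hu) (by rw [hiso g]; exact hd)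
    exact smul_left_cancel g h3
  · rintro ⟨h1, h2⟩
    refine ⟨h1, fun u hu hd => ?_⟩
    have e1 : M.d (g • z) u = M.d z (g⁻¹ • u) := by
      have := hiso g z (g⁻¹ • u)
      rw [smul_inv_smul] at this
      exact this
    have e2 : M.d u (g • w) = M.d (g⁻¹ • u) w := by
      have := hiso g (g⁻¹ • u) w
      rw [smul_inv_smul] at this
      exact this
    rw [e1, e2] at hu
    rw [e1] at hd
    have h3 := h2 (g⁻¹ • u) hu hd
    rw [← h3, smul_inv_smul]

end GMet

namespace AngSys

variable {Z : Type} {A : AngSys Z} {c z w v : Z} {S T : ℕ}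

theorem cut_of_not_LE (hc : c ∈ A.apex) (hz : z ≠ c) (hw : w ≠ c) (h : ¬ A.LE c z w A.θ) :
    A.M.Cut c z w := by
  by_contra hcut
  exact h (A.LA c hc z w hz hw hcut)

theorem LE.mono (h : A.LE c z w S) (hST : S ≤ T) : A.LE c z w T :=
  fun y hy y' hy' => (h y hy y' hy').trans hST

theorem LE.symm (hc : c ∈ A.apex) (h : A.LE c z w S) : A.LE c w z S := by
  intro y hy y' hy'
  rw [A.a_symm c hc y y' hy.1 hy'.1]
  exact h y' hy' y hy

theorem LE.trans (hc : c ∈ A.apex) (hw : w ≠ c) (h : A.LE c z w S) (h' : A.LE c w v T) :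
    A.LE c z v (S + T) := by
  obtain ⟨u, hu⟩ := GMet.germ_nonempty (M := A.M) hw
  intro y hy y' hy'
  exact (A.a_tri c hc y u y' hy.1 hu.1 hy'.1).trans (add_le_add (h y hy u hu) (h' u hu y' hy'))

theorem LE.self (hc : c ∈ A.apex) (hz : z ≠ c) : A.LE c z z A.θ := by
  apply A.LA c hc z z hz hz
  rintro ⟨h1, -⟩
  unfold GMet.Btw at h1
  have h2 := A.M.self z
  have h3 : A.M.d z c = 0 := by omega
  exact hz (A.M.eq_of z c h3)

/-- if `c` is not between `z` and `w` -/
theorem LE.of_not_btw (hc : c ∈ A.apex) (hz : z ≠ c) (hw : w ≠ c) (h : ¬ A.M.Btw z c w) :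
    A.LE c z w A.θ :=
  A.LA c hc z w hz hw (fun hcut => h hcut.1)

/-- if `c` is further from `z` than `w` is -/
theorem LE.of_far (hc : c ∈ A.apex) (hz : z ≠ c) (hw : w ≠ c) (h : A.M.d z w < A.M.d z c) :
    A.LE c z w A.θ := by
  apply LE.of_not_btw hc hz hw
  intro hb
  unfold GMet.Btw at hb
  omega

/-- if `z` and `w` are adjacent -/
theorem LE.of_adj (hc : c ∈ A.apex) (hz : z ≠ c) (hw : w ≠ c) (h : A.M.d z w ≤ 1) :
    A.LE c z w A.θ := by
  apply LE.of_not_btw hc hz hw
  intro hb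
  unfold GMet.Btw at hb
  have h1 : A.M.d z c ≠ 0 := fun h0 => hz (A.M.eq_of z c h0)
  have h2 : A.M.d c w ≠ 0 := fun h0 => hw (A.M.eq_of c w h0).symm
  omega

/-- the chain lemma. Proof: downward induction on `i ≤ k`: `P i`: `d(c_i, c_{k+1}) = ∑_{l=i}^k d(c_l,c_{l+1})`,
`c_i ≠ c_{k+1}`, and (if `i < k`) `c_{i+1}` cuts `c_i` from `c_{k+1}`. `P k` is trivial. `P (i+1) → P i`: by exactness
`Germ c_{i+1} c_{k+1} = Germ c_{i+1} c_{i+2}`, so the angle at `c_{i+1}` between `c_i` and `c_{k+1}` is not `≤ θ`, so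
`c_{i+1}` cuts. -/
theorem chain (A : AngSys Z) (c : ℕ → Z) (k : ℕ) (hapex : ∀ i, 1 ≤ i → i ≤ k → c i ∈ A.apex)
    (hne : ∀ i ≤ k, c i ≠ c (i + 1))
    (hang : ∀ i < k, ¬ A.LE (c (i + 1)) (c i) (c (i + 2)) A.θ) :
    A.M.d (c 0) (c (k + 1)) = ∑ i ∈ Finset.range (k + 1), A.M.d (c i) (c (i + 1)) ∧
      (1 ≤ k → A.M.Cut (c 1) (c 0) (c (k + 1)) ∧
        A.M.Germ (c 1) (c (k + 1)) = A.M.Germ (c 1) (c 2)) := by
  induction k generalizing c with
  | zero => simp
  | succ k ih =>
    obtain ⟨ih1, ih2⟩ := ih (fun i => c (i + 1)) (fun i h1 h2 => hapex (i + 1) (by omega) (by omega))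
      (fun i hi => hne (i + 1) (by omega)) (fun i hi => hang (i + 1) (by omega))
    simp only [zero_add] at ih1 ih2
    have hgerm : A.M.Germ (c 1) (c (k + 1 + 1)) = A.M.Germ (c 1) (c 2) := by
      rcases Nat.eq_zero_or_pos k with hk | hk
      · subst hk
        rfl
      · have h1 := (ih2 hk).1
        exact GMet.germ_eq h1 (hne 1 (by omega)).symm
    have h12 : A.M.d (c 1) (c 2) ≠ 0 := fun h0 => hne 1 (by omega) (A.M.eq_of _ _ h0)
    have hpos : A.M.d (c 1) (c (k + 1 + 1)) ≠ 0 := by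
      rw [ih1]
      have hle : A.M.d (c (0 + 1)) (c (0 + 1 + 1)) ≤
          ∑ i ∈ Finset.range (k + 1), A.M.d (c (i + 1)) (c (i + 1 + 1)) :=
        Finset.single_le_sum (f := fun i => A.M.d (c (i + 1)) (c (i + 1 + 1)))
          (fun _ _ => Nat.zero_le _) (Finset.mem_range.2 (Nat.succ_pos k))
      simp only [zero_add] at hle
      have hle' : A.M.d (c 1) (c 2) ≤
          ∑ i ∈ Finset.range (k + 1), A.M.d (c (i + 1)) (c (i + 1 + 1)) := hle
      omega
    have hcut : A.M.Cut (c 1) (c 0) (c (k + 1 + 1)) := by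
      apply cut_of_not_LE (hapex 1 le_rfl (by omega)) (hne 0 (by omega))
      · intro h0
        apply hpos
        rw [h0]
        exact A.M.self _
      · intro hle
        apply hang 0 (by omega)
        intro y hy y' hy'
        apply hle y hy y'
        rw [hgerm]
        exact hy'
    refine ⟨?_, fun _ => ⟨hcut, hgerm⟩⟩
    have hb := hcut.1
    unfold GMet.Btw at hb
    rw [Finset.sum_range_succ']
    rw [← hb, ih1]
    simp only [zero_add]
    ring

end AngSys

end BG
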