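import Pool.Agent.Helper76.BG.Defs

/-!
# BG20: angles, rotating systems (abstract part)

Abstract setting: a graph-like metric `M` on a set `Z`, a set `apex` of special points no two of which are adjacent, and
angles: for an apex `c` and neighbours `y, y'` of `c` a number `a c y y'`. `M.Germ c z` is the set of neighbours of `c` on
geodesics towards `z`; `AngLE M a c z w T` says that the angle at `c` between `z` and `w` is at most `T`.
The key axiom `LA`: if `c` does not cut `z` from `w` then the angle at `c` between `z` and `w` is at most `θ`.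
-/

set_option autoImplicit false

namespace BG

/-- the angle at `c` between `z` and `w` is at most `T` -/
def AngLE {Z : Type} (M : GMet Z) (a : Z → Z → Z → ℕ) (c z w : Z) (T : ℕ) : Prop :=
  ∀ y ∈ M.Germ c z, ∀ y' ∈ M.Germ c w, a c y y' ≤ T

/-- A system of angles. -/
structure AngSys (Z : Type) where
  M : GMet Z
  apex : Set Z
  a : Z → Z → Z → ℕ
  θ : ℕ
  nadj : ∀ c ∈ apex, ∀ e ∈ apex, M.d c e ≠ 1
  a_symm : ∀ c ∈ apex, ∀ y y', M.d c y = 1 → M.d c y' = 1 → a c y y' = a c y' y
  a_tri : ∀ c ∈ apex, ∀ y y' y'', M.d c y = 1 → M.d c y' = 1 → M.d c y'' = 1 →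
    a c y y'' ≤ a c y y' + a c y' y''
  LA : ∀ c ∈ apex, ∀ z w, z ≠ c → w ≠ c → ¬ M.Cut c z w → AngLE M a c z w θ

/-- the angle at `c` between `z` and `w` is at most `T` -/
def AngSys.LE {Z : Type} (A : AngSys Z) (c z w : Z) (T : ℕ) : Prop := AngLE A.M A.a c z w T

/-- A rotating system: a group `G` acting on `Z`; points not in `apex` are called base points, `len` is a length
between base points (in the application: the metric of the space which is coned off); `H c` is a group of rotations around `c`;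
nontrivial rotations have angle at least `Θ`, which is much larger than `θ`. -/
structure RotSys (G Z : Type) [Group G] [MulAction G Z] where
  M : GMet Z
  iso : ∀ (g : G) (x y : Z), M.d (g • x) (g • y) = M.d x y
  apex : Set Z
  len : Z → Z → ℕ
  θ : ℕ
  Θ : ℕ
  H : Z → Subgroup G
  pt : Z
  pt_base : pt ∉ apex
  apex_smul : ∀ (g : G) (c : Z), c ∈ apex → g • c ∈ apex
  nadj : ∀ c ∈ apex, ∀ e ∈ apex, M.d c e ≠ 1
  len_self : ∀ x, x ∉ apex → len x x = 0
  len_symm : ∀ x y, x ∉ apex → y ∉ apex → len x y = len y x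
  len_tri : ∀ x y z, x ∉ apex → y ∉ apex → z ∉ apex → len x z ≤ len x y + len y z
  len_smul : ∀ (g : G) (x y : Z), len (g • x) (g • y) = len x y
  θ_pos : 0 < θ
  big : 1000 * θ ≤ Θ
  LA : ∀ c ∈ apex, ∀ z w, z ≠ c → w ≠ c → ¬ M.Cut c z w → AngLE M (fun _ => len) c z w θ
  H_conj : ∀ (g : G) (c : Z), c ∈ apex → ∀ h ∈ H c, g * h * g⁻¹ ∈ H (g • c)
  H_fix : ∀ c ∈ apex, ∀ h ∈ H c, h • c = c
  rot : ∀ c ∈ apex, ∀ h ∈ H c, h ≠ 1 → ∀ y, M.d c y = 1 → Θ ≤ len y (h • y)
  dec : ∀ c ∈ apex, ∀ h ∈ H c, ∀ x y, x ∉ apex → y ∉ apex → ∀ T,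
    AngLE M (fun _ => len) c x (h • y) T → ¬ AngLE M (fun _ => len) c x y (T + 3 * θ) →
      len x (h • y) < len x y
  stab : ∀ c ∈ apex, ∀ e ∈ apex, c ≠ e → ∀ g : G, g • c = c → g • e = e → g = 1

namespace RotSys

variable {G Z : Type} [Group G] [MulAction G Z] (R : RotSys G Z)

/-- the angle at `c` between `z` and `w` is at most `T` -/
def LE (c z w : Z) (T : ℕ) : Prop := AngLE R.M (fun _ => R.len) c z w T

/-- the underlying system of angles -/
def toAng : AngSys Z where
  M := R.M
  apex := R.apex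
  a := fun _ => R.len
  θ := R.θ
  nadj := R.nadj
  a_symm := by
    intro c hc y y' hy hy'
    exact R.len_symm y y' (fun h => R.nadj c hc y h hy) (fun h => R.nadj c hc y' h hy')
  a_tri := by
    intro c hc y y' y'' hy hy' hy''
    exact R.len_tri y y' y'' (fun h => R.nadj c hc y h hy) (fun h => R.nadj c hc y' h hy')
      (fun h => R.nadj c hc y'' h hy'')
  LA := R.LA

/-- the group generated by all rotations -/
def N : Subgroup G := Subgroup.closure {h | ∃ c ∈ R.apex, h ∈ R.H c}

instance N_normal : R.N.Normal := by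
  constructor
  intro n hn g
  have : n ∈ Subgroup.closure {h | ∃ c ∈ R.apex, h ∈ R.H c} := hn
  induction this using Subgroup.closure_induction with
  | mem x hx =>
    obtain ⟨c, hc, hx⟩ := hx
    exact Subgroup.subset_closure ⟨g • c, R.apex_smul g c hc, R.H_conj g c hc x hx⟩
  | one => simp [R.N.one_mem]
  | mul x y hx hy ihx ihy =>
    have h1 := R.N.mul_mem (ihx hx) (ihy hy)
    have h2 : g * x * g⁻¹ * (g * y * g⁻¹) = g * (x * y) * g⁻¹ := by group
    rw [h2] at h1
    exact h1
  | inv x hx ih =>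
    have h1 := R.N.inv_mem (ih hx)
    have h2 : (g * x * g⁻¹)⁻¹ = g * x⁻¹ * g⁻¹ := by group
    rw [h2] at h1
    exact h1

end RotSys

end BG
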