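import Pool.Agent.Helper76.BG.Shift

/-!
# BG05: axes

`f` an isometry, `y` a point with `2 d(y,fy) ≤ d(y,f²y) + a`, `d(y,fy) > a + 3δ`; so the points `y_i = f^i y` (`i ∈ ℤ`)
form a quasi-geodesic: triples have slack `τ = a + 4δ` (`orbit_triple`). The path through the points `y_i` (geodesic
between consecutive ones) is called the axis path.
-/

set_option autoImplicit false

namespace BG

variable {G X : Type} [Group G] [MulAction G X] {M : GMet X} {δ a s : ℕ}

private theorem exists_cross (g : ℕ → ℕ) (P : ℕ) (N : ℕ) (hN : 0 < N) (h0 : g 0 ≤ P) (h1 : P ≤ g N) :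
    ∃ k, k < N ∧ g k ≤ P ∧ P ≤ g (k + 1) := by
  by_contra hcon
  push Not at hcon
  have key : ∀ k, k < N → g k ≤ P ∧ g (k + 1) < P := by
    intro k
    induction k with
    | zero => intro hk; exact ⟨h0, hcon 0 hk h0⟩
    | succ k ih =>
      intro hk
      have h := (ih (by omega)).2.le
      exact ⟨h, hcon (k + 1) hk h⟩
  have := (key (N - 1) (by omega)).2
  rw [Nat.sub_add_cancel hN] at this
  omega

/-- A point `p` with slack `s` on `(f^i y, f^j y)` is near the axis path: there is `u` on the path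
(`Btw (f^l y) u (f^(l+1) y)`, `i ≤ l < j`) with slack `2 (a+4δ)` on `(f^i y, f^j y)`, the same position (if the position
of `p` is at most `d(f^i y, f^j y)`), at distance at most `max s (2(a+4δ)) + 2δ ≤ s + 2a + 10δ` of `p`.
Proof: discrete intermediate value theorem for the position `d(f^i y, ·)` along the axis path. -/
theorem axis_near (hiso : IsoAct G M) (h : M.Hyp δ) {f : G} {y p : X}
    (h2 : 2 * M.d y (f • y) ≤ M.d y (f • f • y) + a) (hD : a + 3 * δ < M.d y (f • y))
    {i j : ℤ} (hij : i < j) (hp : M.Slk s (f ^ i • y) p (f ^ j • y)) :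
    ∃ (u : X) (l : ℤ), i ≤ l ∧ l < j ∧ M.Btw (f ^ l • y) u (f ^ (l + 1) • y) ∧
      M.Slk (2 * a + 8 * δ) (f ^ i • y) u (f ^ j • y) ∧
      (M.d (f ^ i • y) p ≤ M.d (f ^ i • y) (f ^ j • y) → M.d (f ^ i • y) u = M.d (f ^ i • y) p) ∧
      M.d p u ≤ s + 2 * a + 10 * δ := by
  by_cases hP : M.d (f ^ i • y) p ≤ M.d (f ^ i • y) (f ^ j • y)
  · obtain ⟨k, hk, hk1, hk2⟩ := exists_cross (fun k : ℕ => M.d (f ^ i • y) (f ^ (i + k) • y))
      (M.d (f ^ i • y) p) (j - i).toNat (by omega)
      (by simp [M.self]) (by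
        have : i + ((j - i).toNat : ℤ) = j := by omega
        simp only [this]; exact hP)
    simp only [Nat.cast_add, Nat.cast_one] at hk1 hk2
    have hl : i + (k : ℤ) + 1 = i + ((k : ℤ) + 1) := by ring
    rw [← hl] at hk2
    set l : ℤ := i + k with hldef
    have hlj : l + 1 ≤ j := by omega
    obtain ⟨w, hw0, hwm, hw⟩ := GMet.exists_geo M (f ^ l • y) (f ^ (l + 1) • y)
    obtain ⟨t, ht, htP⟩ := GMet.discrete_ivt (fun t => M.d (f ^ i • y) (w t))
      (m := M.d (f ^ l • y) (f ^ (l + 1) • y)) (a := M.d (f ^ i • y) p)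
      (by simp only [hw0]; exact hk1) (by simp only [hwm]; exact hk2) (by
        intro r hr
        have h1 := hw r (r + 1) (by omega) (by omega)
        have h3 := M.tri (f ^ i • y) (w r) (w (r + 1))
        omega)
    have hbt : M.Btw (f ^ l • y) (w t) (f ^ (l + 1) • y) := by
      have h1 := hw 0 t (by omega) ht
      have h3 := hw t _ ht le_rfl
      rw [hw0] at h1
      rw [hwm] at h3
      unfold GMet.Btw
      omega
    have hT1 := orbit_triple hiso h h2 hD (i := i) (j := l) (k := l + 1) (by omega) (by omega)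
    have hT2 := orbit_triple hiso h h2 hD (i := i) (j := l + 1) (k := j) (by omega) (by omega)
    have hslk : M.Slk (2 * a + 8 * δ) (f ^ i • y) (w t) (f ^ j • y) := by
      have h1 := M.tri (f ^ i • y) (f ^ l • y) (w t)
      have h3 := M.tri (w t) (f ^ (l + 1) • y) (f ^ j • y)
      unfold GMet.Btw at hbt
      unfold GMet.Slk
      omega
    refine ⟨w t, l, by omega, by omega, hbt, hslk, fun _ => htP, ?_⟩
    have hp' : M.Slk (s + (2 * a + 8 * δ)) (f ^ i • y) p (f ^ j • y) := by
      unfold GMet.Slk at hp ⊢; omega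
    have hs' : M.Slk (s + (2 * a + 8 * δ)) (f ^ i • y) (w t) (f ^ j • y) := by
      unfold GMet.Slk at hslk ⊢; omega
    have := h.slk_dist hp' hs'
    omega
  · push Not at hP
    have hpd : M.d p (f ^ j • y) ≤ s := by
      unfold GMet.Slk at hp; omega
    refine ⟨f ^ j • y, j - 1, by omega, by omega, ?_, ?_, fun h => by omega, by omega⟩
    · unfold GMet.Btw
      rw [sub_add_cancel, M.self]
      rfl
    · unfold GMet.Slk
      rw [M.self]
      omega

/-- points of the axis path of a minimal displacement point are minimal displacement points: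
`d(u,fu) ≤ d(u,fy) + d(fy,fu) = d(u,fy) + d(y,u) = d(y,fy)` -/
theorem minPt_btw (hiso : IsoAct G M) {f : G} {y u : X} (hy : MinPt M f y) (l : ℤ)
    (hu : M.Btw (f ^ l • y) u (f ^ (l + 1) • y)) : MinPt M f u := by
  intro z
  have h1 := M.tri u (f ^ (l + 1) • y) (f • u)
  have h2 : M.d (f ^ (l + 1) • y) (f • u) = M.d (f ^ l • y) u := by
    have : f ^ (l + 1) • y = f • f ^ l • y := by
      rw [← mul_smul, ← zpow_one_add, add_comm]
    rw [this, hiso]
  have h3 : M.d (f ^ l • y) (f ^ (l + 1) • y) = M.d y (f • y) := by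
    have : f ^ (l + 1) • y = f ^ l • f • y := by
      rw [← mul_smul, ← zpow_add_one]
    rw [this, hiso]
  have h4 := hy z
  unfold GMet.Btw at hu
  omega

/-- translates of minimal points by elements commuting with `f` -/
theorem minPt_smul (hiso : IsoAct G M) {f g : G} {y : X} (hg : g * f = f * g) (hy : MinPt M f y) :
    MinPt M f (g • y) := by
  intro z
  have h1 : f • g • y = g • f • y := by rw [← mul_smul, ← mul_smul, hg]
  rw [h1, hiso]
  exact hy z

end BG
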