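import Pool.Agent.Helper76.BG.AxisA

/-!
# BG05b: axes, continued
-/

set_option autoImplicit false

namespace BG

variable {G X : Type} [Group G] [MulAction G X] {M : GMet X} {δ a s : ℕ}

private theorem le_pow_dist (hiso : IsoAct G M) (h : M.Hyp δ) {f : G} {y : X}
    (h2 : 2 * M.d y (f • y) ≤ M.d y (f • f • y) + a) (hD : a + 3 * δ < M.d y (f • y)) (L : ℕ) :
    L ≤ M.d y (f ^ (L : ℤ) • y) ∧ M.d (f ^ (-(L : ℤ)) • y) y = M.d y (f ^ (L : ℤ) • y) := by
  have hg := orbit_growth hiso h h2 hD L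
  have h3 : L * (a + 3 * δ + 1) ≤ L * M.d y (f • y) := Nat.mul_le_mul_left _ hD
  have h4 : L * (a + 3 * δ + 1) = L * (a + 2 * δ) + L * δ + L := by ring
  constructor
  · rw [zpow_natCast]
    omega
  · have h5 := hiso (f ^ (L : ℤ)) (f ^ (-(L : ℤ)) • y) y
    rw [← h5, smul_smul, ← zpow_add, add_neg_cancel, zpow_zero, one_smul]

/-- `y` is almost between `z_{-L} = f^(-L) z` and `z_L = f^L z` for all large `L`, for ANY `z` (`y` as above):
`y` has slack `a + 4δ` on `(y_{-L}, y_L)` and `d(y_i, z_i) = d(y,z)`; use `slk_move` -/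
theorem axis_slk (hiso : IsoAct G M) (h : M.Hyp δ) {f : G} {y : X}
    (h2 : 2 * M.d y (f • y) ≤ M.d y (f • f • y) + a) (hD : a + 3 * δ < M.d y (f • y)) (z : X) :
    ∃ L0 : ℕ, ∀ L : ℕ, L0 ≤ L → M.Slk (a + 8 * δ) (f ^ (-(L:ℤ)) • z) y (f ^ (L:ℤ) • z) ∧
      L ≤ M.d (f ^ (-(L:ℤ)) • z) y + L0 ∧ L ≤ M.d y (f ^ (L:ℤ) • z) + L0 := by
  refine ⟨M.d y z + a + 8 * δ + 2, fun L hL => ?_⟩
  obtain ⟨g1, g2⟩ := le_pow_dist hiso h h2 hD L
  have ht := orbit_triple hiso h h2 hD (i := -(L : ℤ)) (j := 0) (k := (L : ℤ)) (by omega) (by omega)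
  rw [zpow_zero, one_smul] at ht
  have e1 := hiso (f ^ (-(L : ℤ))) y z
  have e2 := hiso (f ^ (L : ℤ)) y z
  have t1 := M.tri (f ^ (-(L : ℤ)) • y) (f ^ (-(L : ℤ)) • z) y
  have t2 := M.tri y (f ^ (L : ℤ) • z) (f ^ (L : ℤ) • y)
  have s2 := M.symm (f ^ (L : ℤ) • z) (f ^ (L : ℤ) • y)
  have hs : M.Slk (a + 4 * δ) (f ^ (-(L : ℤ)) • y) y (f ^ (L : ℤ) • y) := by
    unfold GMet.Slk
    omega
  have hm := h.slk_move (D := M.d y z) (x' := f ^ (-(L : ℤ)) • z) (y' := f ^ (L : ℤ) • z) hs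
    (by omega) (by omega) (by omega) (by omega)
  refine ⟨?_, by omega, by omega⟩
  have e : a + 4 * δ + 4 * δ = a + 8 * δ := by ring
  rwa [e] at hm

/-- the set of minimal points of `f` is `28δ`-quasi-convex.
Proof: `y, y'` minimal, `p` between them. `x = f^(-L) y`, `z = f^L y`, `L` large. `y` has slack `8δ` on `(x,z)`, `y'` has
slack `12δ`; so `p` has slack `26δ` on `(x,z)` and `axis_near` (in the sharp form: distance `max(26δ,16δ)+2δ`). -/
theorem minPt_qconv (hiso : IsoAct G M) (h : M.Hyp δ) {f : G} {y y' p : X} (hy : MinPt M f y)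
    (hy' : MinPt M f y') (hD : 7 * δ + 2 ≤ M.d y (f • y)) (hp : M.Btw y p y') :
    ∃ q, MinPt M f q ∧ M.d p q ≤ 46 * δ := by
  have hyy' : M.d y (f • y) = M.d y' (f • y') := le_antisymm (hy y') (hy' y)
  have h2 := minPt_double hiso h hy (by omega)
  have h2' := minPt_double hiso h hy' (by omega)
  obtain ⟨L1, hL1⟩ := axis_slk hiso h h2' (by omega) y
  obtain ⟨L, hL, hL0⟩ : ∃ L : ℕ, L1 ≤ L ∧ 0 < L := ⟨L1 + 1, by omega, by omega⟩
  obtain ⟨s1, -, -⟩ := hL1 L hL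
  have ht := orbit_triple hiso h h2 (by omega) (i := -(L : ℤ)) (j := 0) (k := (L : ℤ)) (by omega)
    (by omega)
  rw [zpow_zero, one_smul] at ht
  have hps : M.Slk (16 * δ) (f ^ (-(L : ℤ)) • y) p (f ^ (L : ℤ) • y) := by
    generalize f ^ (-(L : ℤ)) • y = x at *
    generalize f ^ (L : ℤ) • y = z at *
    unfold GMet.Slk at s1 ⊢
    unfold GMet.Btw at hp
    have f1 := h x p y y'
    have f2 := h z p y y'
    have m1 := M.symm p y
    have m2 := M.symm z y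
    have m3 := M.symm z y'
    have m4 := M.symm z p
    have t1 := M.tri y' y z
    have t2 := M.tri x y y'
    have m5 := M.symm y' y
    rcases f1 with f1 | f1 <;> rcases f2 with f2 | f2 <;> omega
  obtain ⟨u, l, -, -, hu, -, -, hpu⟩ := axis_near hiso h h2 (by omega) (by omega) hps
  exact ⟨u, minPt_btw hiso hy l hu, by omega⟩

/-- displacement of an element commuting with `f` at minimal points of `f`.
Proof: `y` has slack `12δ` on `(f^(-L) z, f^L z)` (`axis_slk` with `a = 4δ`), hence is `14δ`-near a between point `u`, which is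
deep; `disp_deep` for `k` with `D = K`. -/
theorem minPt_disp (hiso : IsoAct G M) (h : M.Hyp δ) {f k : G} {y z : X} {K : ℕ} (hy : MinPt M f y)
    (hD : 7 * δ + 2 ≤ M.d y (f • y)) (hk : k * f = f * k) (hz : M.d z (k • z) ≤ K) :
    M.d y (k • y) ≤ K + 36 * δ := by
  have h2 := minPt_double hiso h hy (by omega)
  obtain ⟨L0, hL0⟩ := axis_slk hiso h h2 (by omega) z
  obtain ⟨L, hL, hLb⟩ : ∃ L : ℕ, L0 ≤ L ∧ L0 + (14 * δ) + (K + 2 * δ + 1) ≤ L :=
    ⟨L0 + (14 * δ) + (K + 2 * δ + 1), by omega, le_rfl⟩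
  obtain ⟨s1, s2, s3⟩ := hL0 L hL
  have hc : Commute k f := hk
  have hmove : ∀ i : ℤ, M.d (f ^ i • z) (k • f ^ i • z) ≤ K := by
    intro i
    have e : k • f ^ i • z = f ^ i • k • z := by
      rw [← mul_smul, ← mul_smul, (hc.zpow_right i).eq]
    rw [e, hiso]
    exact hz
  obtain ⟨u, hu, hyu, -⟩ := h.slk_near s1
  have m1 := hmove (-(L : ℤ))
  have m2 := hmove (L : ℤ)
  have t1 := M.tri (f ^ (-(L : ℤ)) • z) u y
  have t2 := M.tri y u (f ^ (L : ℤ) • z)
  have t3 := M.symm u y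
  have hd := disp_deep hiso h m1 m2 hu (by omega) (by omega)
  have t4 := M.tri y u (k • y)
  have t5 := M.tri u (k • u) (k • y)
  have t6 := hiso k u y
  omega

end BG
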