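import Pool.Agent.Helper76.BG.Defs

set_option autoImplicit false

namespace BG

/-- The constants exist. -/
def cst0 : Cst where
  b := 4 * 10 ^ 17
  K := 10 ^ 20
  ρ := 7 * 10 ^ 20
  q := 4 * 10 ^ 7
  n := 3 ^ 120
  m := 3 * 10 ^ 28 + 1
  A := 10 ^ 28
  t := 120
  n_eq := rfl
  t_pos := by norm_num
  m_mod := by norm_num
  A_pos := by norm_num
  A_lt := by norm_num
  m_lt := by norm_num
  K_ge := by norm_num
  ρ_ge := by norm_num
  ρ_le := by norm_num
  q_ge := by norm_num
  b_ge := by norm_num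
  n_ge := by norm_num
  A_ge := by norm_num

end BG
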