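import Pool.Agent.Helper76.BG.Tors

/-!
# BG38: centralizers of torsion elements in the quotient
-/

set_option autoImplicit false

namespace BG
namespace KData

variable {c : Cst} {S : Sys} (D : KData c S)

/-- Elements commuting with the image of a nontrivial torsion element lift to elements commuting with it.

Proof. `p` the center of `x` (`center`: `d p (x^k p) ≤ 277`), `y` a lift of `y'` with `d p (y p)` minimal among the lifts; so `ℓ = d p q ≤ d p (n q)`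
for `n ∈ N`, `q = y p`. `z = y x y⁻¹`, `m = x⁻¹ z ∈ N`. If `m = 1`, done. Suppose `m ≠ 1`. `gr` at `q`: `E`, `h ∈ Hs E`, `h ≠ 1`,
`LE E (h q) (m q) (240ρ)`. Let `r, s, s'` be projections to `ax E` of `p, q, m q`. `ang_pr`: `d (h s) s' ≤ 360ρ`; `d s (h s) ≥ 1200000000ρ`.
`d p (m q) ≤ ℓ + 554` (`d q (z q) ≤ 277`, `d p (x⁻¹ q) = d (x p) q`).
(A) `d r s ≥ 600ρ`: otherwise `d p (h⁻¹ m q) ≤ d p r + d r s + d s (h⁻¹ s') + d s' (m q) ≤ d p r + 960ρ + d s' (m q)`, whereas by `pr_two`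
`d p (m q) ≥ d p r + d r s' + d s' (m q) - 21000` with `d r s'` huge; so `d p (h⁻¹ m q) < ℓ`, contradiction.
(B) `d r s' ≥ 600ρ`: otherwise `d p (h q) ≤ d p r + d r s' + d s' (h s) + d s q ≤ d p r + 960ρ + d s q` and `d p q ≥ d p r + d r s + d s q - 21000`
with `d r s` huge: contradiction.
Now `r, s'` have slack `21000` on `(p, m q)`, and `x⁻¹ r, x⁻¹ s ∈ ax (x⁻¹ E)` have slack `22108` on `(p, m q)`; with `α = d p r`: `d p s' ≥ α + 600ρ - 21000`,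
`|d p (x⁻¹ r) - α| ≤ 277`, `d p (x⁻¹ s) ≥ α + 600ρ - 21300`. Take `w1, w2` between `p` and `m q` at positions `α + 300` and `α + 600ρ - 50000`.
`near_between`: both are near `ax E` and near `ax (x⁻¹ E)` (constant `2·22108 + 5414 ≤ 50000`). `overlap`: `x⁻¹ E = E`, so `x⁻¹ ∈ E`
(`killed_stab`), `x = 1` (`killed_torsion`). -/
theorem cent_lift {x : S.G} (hx : IsOfFinOrder x) (hx1 : x ≠ 1) {y' : D.Sq.G}
    (h : y' * D.φ x = D.φ x * y') : ∃ y, D.φ y = y' ∧ y * x = x * y := by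
  classical
  have P := D.P
  obtain ⟨p, hp⟩ := P.center hx
  have hp1 : S.M.d p (x • p) ≤ 277 := by
    have := hp 1
    rwa [zpow_one] at this
  have hp2 : S.M.d p (x⁻¹ • p) ≤ 277 := by
    have := hp (-1)
    rwa [zpow_neg, zpow_one] at this
  -- the minimal lift
  obtain ⟨y0, hy0⟩ := D.φ_surj y'
  have hex : ∃ l, ∃ y, D.φ y = y' ∧ S.M.d p (y • p) = l := ⟨_, y0, hy0, rfl⟩
  obtain ⟨y, hy, hyl⟩ := Nat.find_spec hex
  have hmin : ∀ y2, D.φ y2 = y' → S.M.d p (y • p) ≤ S.M.d p (y2 • p) := by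
    intro y2 hy2
    rw [hyl]
    exact Nat.find_min' hex ⟨y2, hy2, rfl⟩
  refine ⟨y, hy, ?_⟩
  by_contra hcon
  have hminN : ∀ n ∈ D.R.N, S.M.d p (y • p) ≤ S.M.d p (n • y • p) := by
    intro n hn
    rw [smul_smul]
    apply hmin
    rw [map_mul, D.φ_eq_one.2 hn, one_mul, hy]
  obtain ⟨q, hq⟩ : ∃ q, q = y • p := ⟨_, rfl⟩
  rw [← hq] at hminN
  obtain ⟨z, hz⟩ : ∃ z, z = y * x * y⁻¹ := ⟨_, rfl⟩
  obtain ⟨m, hm⟩ : ∃ m, m = x⁻¹ * z := ⟨_, rfl⟩
  have hφz : D.φ z = D.φ x := by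
    rw [hz, map_mul, map_mul, map_inv, hy, h, mul_assoc, mul_inv_cancel, mul_one]
  have hmN : m ∈ D.R.N := by
    rw [← D.φ_eq_one, hm, map_mul, map_inv, hφz, inv_mul_cancel]
  have hm1 : m ≠ 1 := by
    intro h1
    apply hcon
    have h2 : z = x := by
      rw [hm, inv_mul_eq_one] at h1
      exact h1.symm
    rw [hz, mul_inv_eq_iff_eq_mul] at h2
    exact h2
  -- displacements
  have hzq : S.M.d q (z • q) ≤ 277 := by
    have h1 : z • q = y • x • p := by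
      rw [hz, hq, mul_smul, mul_smul, inv_smul_smul]
    rw [h1, hq, S.iso]
    exact hp1
  have hmq : S.M.d (x⁻¹ • q) (m • q) ≤ 277 := by
    rw [hm, mul_smul, S.iso]
    exact hzq
  have hpm : S.M.d p (m • q) ≤ S.M.d p q + 554 := by
    have t1 := S.M.tri p (x⁻¹ • p) (m • q)
    have t2 := S.M.tri (x⁻¹ • p) (x⁻¹ • q) (m • q)
    rw [S.iso] at t2
    omega
  have hpm' : S.M.d p q ≤ S.M.d p (m • q) + 554 := by
    have t1 := S.M.tri (x⁻¹ • p) p (x⁻¹ • q)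
    have t2 := S.M.tri p (m • q) (x⁻¹ • q)
    rw [S.iso] at t1
    rw [S.M.symm (x⁻¹ • p) p] at t1
    rw [S.M.symm (m • q) (x⁻¹ • q)] at t2
    omega
  -- the Greendlinger lemma at `q`
  have hbase : (Sum.inl q : S.Z c) ∉ D.R.apex := by
    rintro ⟨F, hF⟩
    cases hF
  obtain ⟨e, he, g, hg, hg1, hLE⟩ := RotSys.gr hbase hmN hm1
  obtain ⟨E, rfl⟩ := he
  have hgH : g ∈ D.Hs (Sum.inr E) := hg
  have hgN : g ∈ D.R.N := Subgroup.subset_closure ⟨Sum.inr E, ⟨E, rfl⟩, hg⟩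
  have hgE : g ∈ E.1 := D.Hs_le hgH
  have hLE' : D.R.LE (Sum.inr E) (Sum.inl (g • q)) (Sum.inl (m • q)) (240 * c.ρ) := by
    have e1 : 2 * D.R.θ = 240 * c.ρ := by
      rw [D.R_θ]
      ring
    rw [e1] at hLE
    exact hLE
  obtain ⟨r, hr⟩ := P.pr_exists E p
  obtain ⟨s, hs⟩ := P.pr_exists E q
  obtain ⟨s', hs'⟩ := P.pr_exists E (m • q)
  have a1 := D.ang_pr hLE' (Sys.pr_smul_self hs hgE) hs'
  have a2 := D.rot_big hgH hg1 s
  have b1 := P.pr_two hr hs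
  have b2 := P.pr_two hr hs'
  have hρ := c.ρ_ge
  -- (A)
  have hA : 600 * c.ρ ≤ S.M.d r s := by
    by_contra hc
    have c1 := hminN (g⁻¹ * m) (D.R.N.mul_mem (D.R.N.inv_mem hgN) hmN)
    have t1 := S.M.tri p r ((g⁻¹ * m) • q)
    have t2 := S.M.tri r s ((g⁻¹ * m) • q)
    have t3 : S.M.d s ((g⁻¹ * m) • q) = S.M.d (g • s) (m • q) := by
      rw [← S.iso g s, smul_smul, mul_inv_cancel_left]
    have t4 := S.M.tri (g • s) s' (m • q)
    have t5 := S.M.tri s r (g • s)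
    have t6 := S.M.tri r s' (g • s)
    have e1 := S.M.symm s r
    have e2 := S.M.symm s' (g • s)
    omega
  -- (B)
  have hB : 600 * c.ρ ≤ S.M.d r s' := by
    by_contra hc
    have c1 := hminN g hgN
    have t1 := S.M.tri p r (g • q)
    have t2 := S.M.tri r s' (g • q)
    have t3 := S.M.tri s' (g • s) (g • q)
    rw [S.iso] at t3
    have t5 := S.M.tri s r (g • s)
    have t6 := S.M.tri r s' (g • s)
    have e1 := S.M.symm s r
    have e2 := S.M.symm s' (g • s)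
    omega
  -- slacks
  have s1 : S.M.Slk 22108 p r (m • q) := by
    have t1 := S.M.tri r s' (m • q)
    show S.M.d p r + S.M.d r (m • q) ≤ S.M.d p (m • q) + 22108
    omega
  have s2 : S.M.Slk 22108 p s' (m • q) := by
    have t1 := S.M.tri p r s'
    show S.M.d p s' + S.M.d s' (m • q) ≤ S.M.d p (m • q) + 22108
    omega
  have s3 : S.M.Slk 22108 p (x⁻¹ • r) (m • q) := by
    have t1 := S.M.tri p (x⁻¹ • p) (x⁻¹ • r)
    have t2 := S.M.tri (x⁻¹ • r) (x⁻¹ • q) (m • q)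
    rw [S.iso] at t1 t2
    have t3 := S.M.tri r s q
    show S.M.d p (x⁻¹ • r) + S.M.d (x⁻¹ • r) (m • q) ≤ S.M.d p (m • q) + 22108
    omega
  have s4 : S.M.Slk 22108 p (x⁻¹ • s) (m • q) := by
    have t1 := S.M.tri p (x⁻¹ • p) (x⁻¹ • s)
    have t2 := S.M.tri (x⁻¹ • s) (x⁻¹ • q) (m • q)
    rw [S.iso] at t1 t2
    have t3 := S.M.tri p r s
    show S.M.d p (x⁻¹ • s) + S.M.d (x⁻¹ • s) (m • q) ≤ S.M.d p (m • q) + 22108
    omega
  -- positions
  have q1 : S.M.d p r + 600 * c.ρ ≤ S.M.d p s' + 21000 := by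
    have t1 := S.M.tri p s' (m • q)
    omega
  have q2 : S.M.d p (x⁻¹ • r) ≤ S.M.d p r + 277 := by
    have t1 := S.M.tri p (x⁻¹ • p) (x⁻¹ • r)
    rw [S.iso] at t1
    omega
  have q3 : S.M.d p r + 600 * c.ρ ≤ S.M.d p (x⁻¹ • s) + 21277 := by
    have t1 := S.M.tri p s q
    have t2 := S.M.tri (x⁻¹ • p) p (x⁻¹ • s)
    rw [S.iso, S.M.symm (x⁻¹ • p) p] at t2
    omega
  have q4 : S.M.d p r + 600 * c.ρ ≤ S.M.d p (m • q) + 21000 := by
    omega
  obtain ⟨w1, hw1, hw1'⟩ := S.M.geo p (m • q) (S.M.d p r + 300) (by omega)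
  obtain ⟨w2, hw2, hw2'⟩ := S.M.geo p (m • q) (S.M.d p r + 600 * c.ρ - 50000) (by omega)
  have s5 : S.M.Slk 22108 p w1 (m • q) := by
    show S.M.d p w1 + S.M.d w1 (m • q) ≤ S.M.d p (m • q) + 22108
    omega
  have s6 : S.M.Slk 22108 p w2 (m • q) := by
    show S.M.d p w2 + S.M.d w2 (m • q) ≤ S.M.d p (m • q) + 22108
    omega
  have m3 : x⁻¹ • r ∈ Sys.ax c.q (x⁻¹ • E) := (Sys.smul_mem_ax c.q x⁻¹ E r).2 hr.1
  have m4 : x⁻¹ • s ∈ Sys.ax c.q (x⁻¹ • E) := (Sys.smul_mem_ax c.q x⁻¹ E s).2 hs.1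
  obtain ⟨z1, hz1, hz1'⟩ := P.near_between hr.1 hs'.1 s1 s2 s5 (by omega) (by omega)
  obtain ⟨z2, hz2, hz2'⟩ := P.near_between hr.1 hs'.1 s1 s2 s6 (by omega) (by omega)
  obtain ⟨z3, hz3, hz3'⟩ := P.near_between m3 m4 s3 s4 s5 (by omega) (by omega)
  obtain ⟨z4, hz4, hz4'⟩ := P.near_between m3 m4 s3 s4 s6 (by omega) (by omega)
  have hw : S.M.d p w2 ≤ S.M.d p w1 + S.M.d w1 w2 := S.M.tri p w1 w2
  have hEE : E = x⁻¹ • E := by
    obtain ⟨C, hC⟩ : ∃ C : ℕ, C = 50000 := ⟨_, rfl⟩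
    have n1 : S.M.d w1 z1 ≤ C := by omega
    have n2 : S.M.d w2 z2 ≤ C := by omega
    have n3 : S.M.d w1 z3 ≤ C := by omega
    have n4 : S.M.d w2 z4 ≤ C := by omega
    have n5 : c.b + 6 * (c.K + 2484 + 2 * C) + 2070 ≤ S.M.d w1 w2 := by omega
    exact P.overlap hz1 hz2 hz3 hz4 n1 n2 n3 n4 n5
  have hxE : x⁻¹ ∈ E.1 := P.killed_stab hEE.symm
  have hx2 : x⁻¹ = 1 := Sys.killed_torsion hxE hx.inv
  exact hx1 (inv_eq_one.1 hx2)

/-- elements commuting with the nontrivial image of an element of `E` are images of elements of `E` (`stab_q`, `φ_stab`) -/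
theorem cent_killed {E : S.Killed c.K} {g : S.G} (hg : g ∈ E.1) (hg1 : D.φ g ≠ 1) {y' : D.Sq.G}
    (h : y' * D.φ g = D.φ g * y') : ∃ y ∈ E.1, D.φ y = y' := by
  apply D.φ_stab
  by_contra hne
  apply hg1
  have hfix : D.φ g • D.pz (Sum.inr E) = D.pz (Sum.inr E) := by
    rw [D.φ_smul, KData.smul_inr, Sys.smul_self_killed hg]
  have hfix2 : D.φ g • y' • D.pz (Sum.inr E) = y' • D.pz (Sum.inr E) := by
    rw [smul_smul, ← h, mul_smul, hfix]
  obtain ⟨y0, hy0⟩ := D.φ_surj y'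
  have hap : D.pz (Sum.inr E) ∈ D.R.apexq := ⟨Sum.inr E, ⟨E, rfl⟩, rfl⟩
  have hap2 : y' • D.pz (Sum.inr E) ∈ D.R.apexq := by
    rw [← hy0, D.φ_smul]
    exact ⟨_, ⟨y0 • E, rfl⟩, rfl⟩
  exact RotSys.stab_q hap2 hap hne hfix2 hfix

/-- axiom `C1` for the quotient (`torsion_cases`, `N_torsion`; the image of `E` is finite) -/
theorem C1_q (x : D.Sq.G) (hx : IsOfFinOrder x) (hx1 : x ≠ 1) :
    {y : D.Sq.G | y * x = x * y}.Finite := by
  rcases D.torsion_cases hx with ⟨g, hg, hgt⟩ | ⟨g, E, hg, hgE⟩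
  · have hg1 : g ≠ 1 := by
      rintro rfl
      apply hx1
      rw [← hg, map_one]
    refine ((D.P.C1 g hgt hg1).image D.φ).subset ?_
    intro y' hy'
    have hy2 : y' * D.φ g = D.φ g * y' := by
      rw [hg]
      exact hy'
    obtain ⟨y, hy, hyg⟩ := D.cent_lift hgt hg1 hy2
    exact ⟨y, hyg, hy⟩
  · have hg1 : D.φ g ≠ 1 := by
      rw [hg]
      exact hx1
    have hgen : Sys.gen E ∈ E.1 := by
      rw [(Sys.gen_spec E).2.1]
      exact Subgroup.mem_zpowers _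
    have hfin : ((Subgroup.zpowers (D.φ (Sys.gen E)) : Subgroup D.Sq.G) : Set D.Sq.G).Finite := by
      rw [finite_zpowers]
      exact D.φ_killed hgen
    refine hfin.subset ?_
    intro y' hy'
    have hy2 : y' * D.φ g = D.φ g * y' := by
      rw [hg]
      exact hy'
    obtain ⟨y, hyE, hy⟩ := D.cent_killed hgE hg1 hy2
    rw [(Sys.gen_spec E).2.1] at hyE
    obtain ⟨k, hk⟩ := Subgroup.mem_zpowers_iff.1 hyE
    refine Subgroup.mem_zpowers_iff.2 ⟨k, ?_⟩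
    rw [← map_zpow, hk, hy]

/-- axiom `C2` for the quotient -/
theorem C2_q (x : D.Sq.G) (hx : IsOfFinOrder x) (hx1 : x ≠ 1) (y z : D.Sq.G)
    (hy : y * x = x * y) (hz : z * x = x * z) : y * z = z * y := by
  rcases D.torsion_cases hx with ⟨g, hg, hgt⟩ | ⟨g, E, hg, hgE⟩
  · have hg1 : g ≠ 1 := by
      rintro rfl
      apply hx1
      rw [← hg, map_one]
    rw [← hg] at hy hz
    obtain ⟨y1, hy1, hyg⟩ := D.cent_lift hgt hg1 hy
    obtain ⟨z1, hz1, hzg⟩ := D.cent_lift hgt hg1 hz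
    have h1 := D.P.C2 g hgt hg1 y1 z1 hyg hzg
    rw [← hy1, ← hz1, ← map_mul, h1, map_mul]
  · have hg1 : D.φ g ≠ 1 := by
      rw [hg]
      exact hx1
    rw [← hg] at hy hz
    obtain ⟨y1, hyE, hy1⟩ := D.cent_killed hgE hg1 hy
    obtain ⟨z1, hzE, hz1⟩ := D.cent_killed hgE hg1 hz
    rw [(Sys.gen_spec E).2.1] at hyE hzE
    obtain ⟨i, hi⟩ := Subgroup.mem_zpowers_iff.1 hyE
    obtain ⟨j, hj⟩ := Subgroup.mem_zpowers_iff.1 hzE
    have h1 : y1 * z1 = z1 * y1 := by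
      rw [← hi, ← hj, ← zpow_add, ← zpow_add, add_comm]
    rw [← hy1, ← hz1, ← map_mul, h1, map_mul]

end KData
end BG
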