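import Pool.Agent.Helper76.BG.VCase1
import Pool.Agent.Helper76.BG.ABar
import Pool.Agent.Helper76.BG.CentQ

/-!
# BG50: the step theorem
-/

set_option autoImplicit false

namespace BG
namespace KData

variable {c : Cst} {S : Sys} (D : KData c S)

/-- the quotient is in the class `P` -/
theorem Sq_InP : D.Sq.InP c where
  hyp := D.Sq_hyp
  T := D.T_q
  A1 := D.A1_q
  A2 := D.A2_q
  O := D.O_q
  C1 := D.C1_q
  C2 := D.C2_q
  V := D.V_q

end KData

/-- properties of one step `f : S.G → S'.G` -/
structure StepProp (c : Cst) (S S' : Sys) (f : S.G →* S'.G) : Prop where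
  surj : Function.Surjective f
  /-- displacements of the base point shrink -/
  dist : ∀ (g : S.G) (k : ℕ), S.M.d S.pt (g • S.pt) ≤ k * c.ρ → S'.M.d S'.pt (f g • S'.pt) ≤ k
  /-- injective on torsion elements -/
  inj : ∀ g : S.G, IsOfFinOrder g → f g = 1 → g = 1
  /-- elements with small displacement become torsion -/
  kill : ∀ g : S.G, S.M.d S.pt (g • S.pt) + 414 ≤ c.K → IsOfFinOrder (f g)
  /-- centralizers of torsion elements -/
  cent : ∀ x : S.G, IsOfFinOrder x → x ≠ 1 → ∀ y' : S'.G, y' * f x = f x * y' →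
    ∃ y, f y = y' ∧ y * x = x * y
  /-- homomorphisms to groups of exponent dividing `3` factor -/
  hom : ∀ (A : Type) [CommGroup A] (h : S.G →* A), (∀ a : A, a ^ 3 = 1) → ∀ g : S.G, f g = 1 → h g = 1

namespace KData

variable {c : Cst} {S : Sys} (D : KData c S)

/-- `px_le`, `N_torsion`, `mem_killed` and `φ_killed` (or torsion elements have torsion images), `cent_lift`; `hom`: `N` is generated by elements `gen^e`, `3 ∣ e` -/
theorem stepProp : StepProp c S D.Sq D.φ where
  surj := D.φ_surj
  dist := fun g k h => by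
    have h1 := D.px_le S.pt (g • S.pt) k h
    have h2 := D.φ_px g S.pt
    rw [← h2] at h1
    exact h1
  inj := fun g hg h => D.N_torsion (D.φ_eq_one.1 h) hg
  kill := fun g h => by
    by_cases hg : IsOfFinOrder g
    · exact MonoidHom.isOfFinOrder D.φ hg
    · have hK : 1000 ≤ c.K := by
        have := c.K_ge
        omega
      obtain ⟨E, hE⟩ := D.P.mem_killed hK hg h
      exact D.φ_killed hE
  cent := fun x hx hx1 y' h => D.cent_lift hx hx1 h
  hom := fun A _ h h3 g hg => by
    have hN : D.R.N ≤ h.ker := by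
      show Subgroup.closure {x | ∃ z ∈ D.R.apex, x ∈ D.R.H z} ≤ h.ker
      rw [Subgroup.closure_le]
      rintro x ⟨z, hz, hx⟩
      rw [SetLike.mem_coe, MonoidHom.mem_ker]
      have hx' : x ∈ D.Hs z := hx
      rcases z with z | E
      · have hx2 : x ∈ (⊥ : Subgroup S.G) := hx'
        rw [Subgroup.mem_bot] at hx2
        rw [hx2, map_one]
      · obtain ⟨i, hi⟩ := Subgroup.mem_zpowers_iff.1
          (show x ∈ Subgroup.zpowers (Sys.gen E ^ D.e E) from hx')
        have h3e : ∃ j, D.e E = 3 * j := by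
          have hn : ∃ j, c.n = 3 * j := by
            obtain ⟨s, hs⟩ := Nat.exists_eq_add_of_le c.t_pos
            exact ⟨3 ^ s, by rw [c.n_eq, hs, pow_add, pow_one]⟩
          obtain ⟨j, hj⟩ := hn
          rcases D.e_or E with he | he
          · exact ⟨j, by rw [he, hj]⟩
          · exact ⟨3 * j, by rw [he, hj]⟩
        obtain ⟨j, hj⟩ := h3e
        rw [← hi, map_zpow, map_pow, hj, pow_mul, h3, one_pow, one_zpow]
    exact hN (D.φ_eq_one.1 hg)

end KData

/-- the generic step (all exponents `n`) -/
theorem exists_step (c : Cst) (S : Sys) (P : S.InP c) :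
    ∃ (S' : Sys) (f : S.G →* S'.G), S'.InP c ∧ StepProp c S S' f := by
  let D : KData c S :=
    { P := P
      e := fun _ => c.n
      e_or := fun _ => Or.inl rfl
      e_smul := fun _ _ => rfl
      e_V := Or.inl (fun _ => rfl) }
  exact ⟨D.Sq, D.φ, D.Sq_InP, D.stepProp⟩

end BG
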