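import Pool.Agent.Helper76.BG.BaseA
import Pool.Agent.Helper76.BG.Step
import Pool.Agent.Helper76.BG.CstInst

/-!
# BG52: the base is in the class `P`; the first step
-/

set_option autoImplicit false

namespace BG

theorem Hyp_mono {X : Type} {M : GMet X} {δ δ' : ℕ} (h : M.Hyp δ) (hle : δ ≤ δ') : M.Hyp δ' := by
  intro x y z t
  rcases h x y z t with h1 | h1
  · left; omega
  · right; omega

private theorem S0_T (g x : F2) (hg : g ≠ 1) (q : ℕ) : q ≤ treeM.d x (g ^ q • x) := by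
  have h1 : x⁻¹ * g * x ≠ (1 : F2) := by
    intro h2
    apply hg
    have h3 : g = x * (x⁻¹ * g * x) * x⁻¹ := by group
    rw [h3, h2]
    group
  have h2 := norm_pow_ge (x⁻¹ * g * x) h1 q
  have h3 : treeM.d x (g ^ q • x) = ((x⁻¹ * g * x) ^ q).norm := by
    show ((x : F2)⁻¹ * (g ^ q * x)).norm = _
    have h4 : ((x⁻¹ * g * x) ^ q : F2) = x⁻¹ * g ^ q * x := by
      have := conj_pow (i := q) (a := (x : F2)⁻¹) (b := (g : F2))
      rwa [inv_inv] at this
    rw [h4, mul_assoc]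
  rw [h3]
  exact h2

private theorem S0_free (g h p : F2) (e : (g * h) • p = (h * g) • p) : g * h = h * g :=
  mul_right_cancel e

private theorem S0_comm (x y : F2) (hx : IsOfFinOrder x) : x * y = y * x := by
  rw [F2_torsion x hx, one_mul, mul_one]

private theorem S0_O (x : F2) (hx : IsOfFinOrder x) : x ^ 3 ^ 0 = 1 := by
  rw [F2_torsion x hx, one_pow]

/-- Proof. `T`: `norm_pow_ge` for `x⁻¹ g x`. `A1`: `comm_deep` with `δ = 0`, `D = 13800` at a deep point `p`: `g h p = h g p`, the action is free. The other axioms are void or trivial as `F2` is torsion-free. -/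
theorem S0_InP (c : Cst) : S0.InP c where
  hyp := Hyp_mono tree_hyp (Nat.zero_le _)
  T := by
    intro g
    by_cases hg : g = (1 : S0.G)
    · left
      rw [hg]
      exact IsOfFinOrder.one
    · right
      intro x
      have h4 := c.q_ge
      exact le_trans (by omega) (S0_T g x hg c.q)
  A1 := by
    intro x y g h hxy h1 h2 h3 h4
    have hb := c.b_ge
    have hq := c.q_ge
    obtain ⟨p, hp1, hp2⟩ := S0.M.geo x y 30000 (by omega)
    have hp : S0.M.Btw x p y := by
      unfold GMet.Btw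
      omega
    have h5 := comm_deep (M := S0.M) (δ := 0) S0.iso tree_hyp h1 h2 h3 h4 hp (by omega) (by omega)
    have h6 := S0.M.eq_of _ _ (Nat.le_zero.1 h5)
    exact S0_free g h p h6
  A2 := by
    intro x y g _ _ _ hg
    exact F2_torsion g hg
  O := by
    intro g hg
    exact ⟨0, S0_O g hg⟩
  C1 := by
    intro g hg hg1
    exact absurd (F2_torsion g hg) hg1
  C2 := by
    intro g hg hg1
    exact absurd (F2_torsion g hg) hg1
  V := by
    intro x y hx
    left
    exact S0_comm x y hx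

/-- the first generator -/
def ga : F2 := FreeGroup.of 0

/-- the second generator -/
def gb : F2 := FreeGroup.of 1

/-- exponent sum -/
private def es : F2 →* Multiplicative ℤ := FreeGroup.lift (fun _ => Multiplicative.ofAdd (1 : ℤ))

private theorem es_ga_zpow (j : ℤ) : (es (ga ^ j)).toAdd = j := by
  unfold es ga
  rw [map_zpow, FreeGroup.lift_apply_of, ← ofAdd_zsmul]
  simp

private theorem ga_inj {i j : ℤ} (h : ga ^ i = ga ^ j) : i = j := by
  have h1 := es_ga_zpow i
  rw [h, es_ga_zpow] at h1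
  exact h1.symm

private theorem ga_not_fin : ¬ IsOfFinOrder ga := by
  intro h
  have h1 := F2_torsion ga h
  have h2 : ga ^ (1 : ℤ) = ga ^ (0 : ℤ) := by rw [h1, one_zpow, zpow_zero]
  have h3 := ga_inj h2
  omega

/-- `⟨a⟩` is its own centralizer (`cent_cyclic`: `a ∈ ⟨h⟩`, `a = h^j`, and the homomorphism `F2 → ℤ`, `a ↦ 1` gives `j = ±1`) -/
theorem cent_ga (g : F2) (hg : g * ga = ga * g) : g ∈ Subgroup.zpowers ga := by
  have key : ∃ h : F2, ga ∈ Subgroup.zpowers h ∧
      ∀ g : F2, g * ga = ga * g ↔ g ∈ Subgroup.zpowers h := by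
    obtain ⟨h, -, h2, h3⟩ := (S0_InP cst0).cent_cyclic (f := (ga : S0.G)) ga_not_fin
    exact ⟨h, h2, h3⟩
  obtain ⟨h, h2, h3⟩ := key
  obtain ⟨j, hj⟩ := Subgroup.mem_zpowers_iff.1 h2
  have h4 : g ∈ Subgroup.zpowers (h : F2) := (h3 g).1 hg
  have h5 : j * (es h).toAdd = 1 := by
    have h6 := es_ga_zpow 1
    rw [zpow_one, ← hj, map_zpow] at h6
    simpa using h6
  have h7 : j = 1 ∨ j = -1 := Int.eq_one_or_neg_one_of_mul_eq_one h5
  have h8 : (h : F2) ∈ Subgroup.zpowers ga := by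
    rcases h7 with rfl | rfl
    · have h9 : (h : F2) ^ (1 : ℤ) = ga := hj
      rw [zpow_one] at h9
      rw [h9]
      exact Subgroup.mem_zpowers _
    · have h9 : (h : F2) ^ (-1 : ℤ) = ga := hj
      rw [zpow_neg_one] at h9
      have h10 : (ga : F2)⁻¹ = h := inv_eq_iff_eq_inv.2 (show (ga : F2) = (h : F2)⁻¹ from h9.symm)
      rw [← h10]
      exact Subgroup.inv_mem _ (Subgroup.mem_zpowers _)
  obtain ⟨i, rfl⟩ := Subgroup.mem_zpowers_iff.1 h4
  exact Subgroup.zpow_mem _ h8 i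

/-- `⟨a⟩` is killed -/
def Ea (c : Cst) : S0.Killed c.K := ⟨Subgroup.zpowers ga, by
  refine ⟨ga, ga_not_fin, rfl, fun g hg => cent_ga g hg, (1 : F2), ?_⟩
  have hK := c.K_ge
  have h1 : S0.M.d (1 : F2) (ga • (1 : F2)) = 1 := by
    show ((1 : F2)⁻¹ * (ga * 1)).norm = 1
    rw [inv_one, one_mul, mul_one]
    exact FreeGroup.norm_of 0
  exact le_trans (le_of_eq h1) (by omega)⟩

/-- data of the first step: exponent `3n` for the conjugates of `⟨a⟩`, `n` otherwise -/
theorem exists_D0 (c : Cst) : ∃ D : KData c S0, D.e (Ea c) = 3 * c.n := by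
  classical
  refine ⟨{ P := S0_InP c
            e := fun E => if ∃ g : S0.G, g • Ea c = E then 3 * c.n else c.n
            e_or := ?_
            e_smul := ?_
            e_V := Or.inr F2_torsion }, ?_⟩
  · intro E
    by_cases h : ∃ g : S0.G, g • Ea c = E
    · right; simp only [if_pos h]
    · left; simp only [if_neg h]
  · intro g E
    have h : (∃ k : S0.G, k • Ea c = g • E) ↔ ∃ k : S0.G, k • Ea c = E := by
      constructor
      · rintro ⟨k, hk⟩
        exact ⟨g⁻¹ * k, by rw [mul_smul, hk, inv_smul_smul]⟩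
      · rintro ⟨k, hk⟩
        exact ⟨g * k, by rw [mul_smul, hk]⟩
    simp only [h]
  · simp only
    rw [if_pos ⟨1, one_smul _ _⟩]

private theorem first_aux {c : Cst} (D : KData c S0) (hD : D.e (Ea c) = 3 * c.n) (a : S0.G)
    (hz : (Ea c).1 = Subgroup.zpowers a) (hinj : ∀ i j : ℤ, a ^ i = a ^ j → i = j) :
    (D.φ a) ^ c.n ≠ 1 ∧ IsOfFinOrder (D.φ a) ∧
      ∀ y : D.Sq.G, y * D.φ a = D.φ a * y → y ∈ Subgroup.zpowers (D.φ a) := by
  have hn := KData.n_pos c
  have hmem : a ∈ (Ea c).1 := by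
    rw [hz]
    exact Subgroup.mem_zpowers a
  have hne : (D.φ a) ^ c.n ≠ 1 := by
    rw [← map_pow]
    intro h
    rw [D.φ_killed_one (Subgroup.pow_mem _ hmem c.n)] at h
    obtain ⟨k, hk⟩ := Subgroup.mem_zpowers_iff.1
      (show a ^ c.n ∈ Subgroup.zpowers (Sys.gen (Ea c) ^ D.e (Ea c)) from h)
    have h1 : Sys.gen (Ea c) ∈ Subgroup.zpowers a := by
      rw [← hz, (Sys.gen_spec (Ea c)).2.1]
      exact Subgroup.mem_zpowers _
    obtain ⟨j, hj⟩ := Subgroup.mem_zpowers_iff.1 h1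
    rw [hD, ← hj] at hk
    have h2 : a ^ ((c.n : ℕ) : ℤ) = a ^ (j * ((3 * c.n : ℕ) : ℤ) * k) := by
      rw [zpow_mul, zpow_mul, zpow_natCast, zpow_natCast]
      exact hk.symm
    have h3 := hinj _ _ h2
    push_cast at h3
    have h4 : (c.n : ℤ) ≠ 0 := by
      have : (0 : ℤ) < c.n := by exact_mod_cast hn
      omega
    have h5 : (c.n : ℤ) * (3 * (j * k)) = c.n * 1 := by linarith
    have h6 := mul_left_cancel₀ h4 h5
    omega
  refine ⟨hne, D.φ_killed hmem, ?_⟩
  intro y hy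
  have h1 : D.φ a ≠ 1 := by
    intro h2
    apply hne
    rw [h2, one_pow]
  obtain ⟨z, hz', rfl⟩ := D.cent_killed hmem h1 hy
  rw [hz] at hz'
  obtain ⟨i, rfl⟩ := Subgroup.mem_zpowers_iff.1 hz'
  rw [map_zpow]
  exact Subgroup.zpow_mem _ (Subgroup.mem_zpowers _) i

/-- THE FIRST STEP. `φ a` has order exactly `3n` (`φ_killed_one`), and its centralizer is `⟨φ a⟩` (`cent_killed`). -/
theorem first_step (c : Cst) : ∃ (S : Sys) (f : F2 →* S.G), S.InP c ∧ StepProp c S0 S f ∧
    IsOfFinOrder (f ga) ∧ (f ga) ^ c.n ≠ 1 ∧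
    ∀ y : S.G, y * f ga = f ga * y → y ∈ Subgroup.zpowers (f ga) := by
  obtain ⟨D, hD⟩ := exists_D0 c
  obtain ⟨h1, h2, h3⟩ := first_aux D hD (ga : F2) rfl (fun i j h => ga_inj h)
  exact ⟨D.Sq, D.φ, D.Sq_InP, D.stepProp, h2, h1, h3⟩

end BG
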