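import Pool.Agent.Helper76.BG.Shift

/-!
# BG51: the base: the free group of rank 2 acting on itself (Cayley graph = tree)
-/

set_option autoImplicit false

namespace BG

/-- the free group of rank 2 -/
abbrev F2 : Type := FreeGroup (Fin 2)

/-! ## words -/

private abbrev BAL : Type := Fin 2 × Bool

private theorem ba_drop {L : List BAL} (h : FreeGroup.IsReduced L) (k : ℕ) :
    FreeGroup.IsReduced (L.drop k) :=
  List.IsChain.drop h k

private theorem ba_take {L : List BAL} (h : FreeGroup.IsReduced L) (k : ℕ) :
    FreeGroup.IsReduced (L.take k) :=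
  List.IsChain.take h k

private theorem ba_norm_mk {L : List BAL} (h : FreeGroup.IsReduced L) :
    (FreeGroup.mk L).norm = L.length := by
  unfold FreeGroup.norm
  rw [FreeGroup.toWord_mk, h.reduce_eq]

/-- length of the common prefix -/
private def cp : List BAL → List BAL → ℕ
  | [], _ => 0
  | _ :: _, [] => 0
  | a :: l, b :: m => if a = b then cp l m + 1 else 0

private theorem cp_nil (l : List BAL) : cp l [] = 0 := by
  cases l <;> simp [cp]

private theorem cp_ultra (y z t : List BAL) : cp y t ≤ cp z t ∨ cp y z ≤ cp z t := by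
  induction y generalizing z t with
  | nil => left; simp [cp]
  | cons a y ih =>
    cases z with
    | nil => right; simp [cp]
    | cons b z =>
      cases t with
      | nil => left; simp [cp]
      | cons c t =>
        simp only [cp]
        by_cases h1 : a = b
        · by_cases h2 : a = c
          · subst h1 h2
            simp only [if_true]
            rcases ih z t with h | h
            · left; omega
            · right; omega
          · left
            rw [if_neg h2]
            exact Nat.zero_le _
        · right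
          rw [if_neg h1]
          exact Nat.zero_le _

private theorem ba_invRev_red {L : List BAL} (h : FreeGroup.IsReduced L) :
    FreeGroup.IsReduced (FreeGroup.invRev L) := by
  apply FreeGroup.IsReduced.of_reduce_eq
  rw [FreeGroup.reduce_invRev, h.reduce_eq]

private theorem ba_norm (L₁ L₂ : List BAL) (h₁ : FreeGroup.IsReduced L₁)
    (h₂ : FreeGroup.IsReduced L₂) :
    ((FreeGroup.mk L₁)⁻¹ * FreeGroup.mk L₂).norm + 2 * cp L₁ L₂ = L₁.length + L₂.length := by
  induction L₁ generalizing L₂ with
  | nil =>
    have h0 : (FreeGroup.mk ([] : List BAL)) = 1 := rfl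
    rw [h0, inv_one, one_mul, ba_norm_mk h₂]
    simp [cp]
  | cons a l ih =>
    cases L₂ with
    | nil =>
      have h0 : (FreeGroup.mk ([] : List BAL)) = 1 := rfl
      rw [h0, mul_one, FreeGroup.norm_inv_eq, ba_norm_mk h₁]
      simp [cp]
    | cons b m =>
      by_cases hab : a = b
      · subst hab
        have e1 : ∀ L : List BAL, FreeGroup.mk (a :: L) = FreeGroup.mk [a] * FreeGroup.mk L := by
          intro L
          rw [FreeGroup.mul_mk]
          rfl
        have e2 : (FreeGroup.mk (a :: l))⁻¹ * FreeGroup.mk (a :: m)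
            = (FreeGroup.mk l)⁻¹ * FreeGroup.mk m := by
          rw [e1 l, e1 m]
          group
        have h3 := ih m (by simpa using ba_drop h₁ 1) (by simpa using ba_drop h₂ 1)
        rw [e2]
        simp only [cp, if_true, List.length_cons]
        omega
      · rw [FreeGroup.inv_mk, FreeGroup.mul_mk]
        have hred : FreeGroup.IsReduced (FreeGroup.invRev (a :: l) ++ b :: m) := by
          have h4 : FreeGroup.invRev (a :: l) = FreeGroup.invRev l ++ [(a.1, !a.2)] := by
            simp [FreeGroup.invRev]
          rw [h4]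
          have h5 : FreeGroup.invRev l ++ [(a.1, !a.2)] ++ b :: m
              = FreeGroup.invRev l ++ [(a.1, !a.2)] ++ (b :: m) := rfl
          rw [h5]
          apply FreeGroup.IsReduced.append_overlap
          · rw [← h4]
            exact ba_invRev_red h₁
          · show FreeGroup.IsReduced ((a.1, !a.2) :: b :: m)
            rw [FreeGroup.isReduced_cons_cons]
            refine ⟨?_, h₂⟩
            intro h6
            have h7 : a.2 ≠ b.2 := by
              intro h8
              exact hab (Prod.ext h6 h8)
            simp only at h6 ⊢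
            revert h7
            cases a.2 <;> cases b.2 <;> simp
          · simp
        rw [ba_norm_mk hred]
        simp only [List.length_append, FreeGroup.invRev_length, cp, if_neg hab]
        omega

private theorem ba_norm' (y z : F2) :
    (y⁻¹ * z).norm + 2 * cp y.toWord z.toWord = y.norm + z.norm := by
  have h := ba_norm y.toWord z.toWord FreeGroup.isReduced_toWord FreeGroup.isReduced_toWord
  rw [FreeGroup.mk_toWord, FreeGroup.mk_toWord] at h
  exact h

/-- the word metric of the free group. (`geo`: take a prefix of the reduced word of `x⁻¹ y`) -/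
def treeM : GMet F2 where
  d x y := (x⁻¹ * y).norm
  self := by
    intro x
    rw [inv_mul_cancel, FreeGroup.norm_one]
  eq_of := by
    intro x y h
    rw [FreeGroup.norm_eq_zero] at h
    rw [inv_mul_eq_one] at h
    exact h
  symm := by
    intro x y
    rw [← FreeGroup.norm_inv_eq, mul_inv_rev, inv_inv]
  tri := by
    intro x y z
    have h := FreeGroup.norm_mul_le (x⁻¹ * y) (y⁻¹ * z)
    have e : x⁻¹ * y * (y⁻¹ * z) = x⁻¹ * z := by group
    rwa [e] at h
  geo := by
    intro x y k hk
    have hw : FreeGroup.IsReduced (x⁻¹ * y).toWord := FreeGroup.isReduced_toWord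
    have hlen : (x⁻¹ * y).toWord.length = (x⁻¹ * y).norm := rfl
    refine ⟨x * FreeGroup.mk ((x⁻¹ * y).toWord.take k), ?_, ?_⟩
    · have e : x⁻¹ * (x * FreeGroup.mk ((x⁻¹ * y).toWord.take k))
          = FreeGroup.mk ((x⁻¹ * y).toWord.take k) := by group
      rw [e, ba_norm_mk (ba_take hw k), List.length_take, hlen]
      omega
    · have e : (x * FreeGroup.mk ((x⁻¹ * y).toWord.take k))⁻¹ * y
          = FreeGroup.mk ((x⁻¹ * y).toWord.drop k) := by
        have h1 : FreeGroup.mk ((x⁻¹ * y).toWord.take k) * FreeGroup.mk ((x⁻¹ * y).toWord.drop k)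
            = x⁻¹ * y := by
          rw [FreeGroup.mul_mk, List.take_append_drop, FreeGroup.mk_toWord]
        rw [mul_inv_rev, mul_assoc, inv_mul_eq_iff_eq_mul]
        exact h1.symm
      rw [e, ba_norm_mk (ba_drop hw k), List.length_drop, hlen]

/-- the base system -/
def S0 : Sys where
  G := F2
  X := F2
  M := treeM
  iso := by
    intro g x y
    show ((g • x)⁻¹ * (g • y)).norm = (x⁻¹ * y).norm
    simp [smul_eq_mul, mul_assoc]
  pt := 1

/-- the tree is `0`-hyperbolic (four points: longest common prefixes of reduced words). -/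
theorem tree_hyp : treeM.Hyp 0 := by
  intro x y z t
  show (x⁻¹ * y).norm + (z⁻¹ * t).norm ≤ (x⁻¹ * z).norm + (y⁻¹ * t).norm + 2 * 0 ∨
    (x⁻¹ * y).norm + (z⁻¹ * t).norm ≤ (x⁻¹ * t).norm + (y⁻¹ * z).norm + 2 * 0
  have e : ∀ u v : F2, (u⁻¹ * v).norm = ((x⁻¹ * u)⁻¹ * (x⁻¹ * v)).norm := by
    intro u v
    congr 1
    group
  have h1 := ba_norm' (x⁻¹ * z) (x⁻¹ * t)
  have h2 := ba_norm' (x⁻¹ * y) (x⁻¹ * t)
  have h3 := ba_norm' (x⁻¹ * y) (x⁻¹ * z)
  rw [← e] at h1 h2 h3
  rcases cp_ultra (x⁻¹ * y).toWord (x⁻¹ * z).toWord (x⁻¹ * t).toWord with h | h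
  · left; omega
  · right; omega

/-- `norm (u^k) ≥ k` for `u ≠ 1` (`FreeGroup.reduceCyclically`, `reduce_flatten_replicate`) -/
theorem norm_pow_ge (u : F2) (hu : u ≠ 1) (k : ℕ) : k ≤ (u ^ k).norm := by
  unfold FreeGroup.norm
  rw [FreeGroup.toWord_pow, FreeGroup.reduceCyclically.reduce_flatten_replicate
    FreeGroup.isReduced_toWord]
  by_cases hk : k = 0
  · subst hk; simp
  · rw [if_neg hk]
    have h1 : FreeGroup.reduceCyclically u.toWord ≠ [] := by
      intro h2
      have h3 := FreeGroup.reduceCyclically.conj_conjugator_reduceCyclically u.toWord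
      rw [h2, List.append_nil] at h3
      apply hu
      have h4 : FreeGroup.mk u.toWord = 1 := by
        rw [← h3, ← FreeGroup.mul_mk, ← FreeGroup.inv_mk, mul_inv_cancel]
      rwa [FreeGroup.mk_toWord] at h4
    have h2 : 1 ≤ (FreeGroup.reduceCyclically u.toWord).length :=
      List.length_pos_iff.2 h1
    simp only [List.length_append, List.length_flatten, List.map_replicate, List.sum_replicate,
      smul_eq_mul]
    nlinarith

theorem F2_torsion (g : F2) (hg : IsOfFinOrder g) : g = 1 := by
  by_contra hne
  obtain ⟨n, hn, h⟩ := hg.exists_pow_eq_one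
  have h1 := norm_pow_ge g hne n
  rw [h, FreeGroup.norm_one] at h1
  omega

end BG
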