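import Pool.Agent.Helper76.BG.Cone

/-!
# BG13: walks of the cone-off pass near the `X`-geodesics (bisection); geodesics of the cone-off
-/

set_option autoImplicit false

namespace BG
namespace Sys

variable {S : Sys} {c : Cst}

private theorem rho_big (c : Cst) : 10 ^ 7 ≤ c.ρ := by
  have := c.ρ_ge
  omega

private theorem C_one {x y : S.X} (h : S.M.d x y ≤ c.ρ) :
    (S.C c).d (Sum.inl x) (Sum.inl y) ≤ 1 :=
  C_le x y 1 (by rw [one_mul]; exact h)

private theorem InP.bis0 (P : S.InP c) : ∀ (m : ℕ) (w : ℕ → S.Z c) (x y p : S.X), m ≤ 2 →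
    w 0 = Sum.inl x → w m = Sum.inl y → (∀ i < m, (S.C c).d (w i) (w (i + 1)) = 1) →
    S.M.Btw x p y → ∃ i ≤ m, (S.C c).d (Sum.inl p) (w i) ≤ 2 := by
  intro m w x y p hm h0 hy hs hp
  have hρ := rho_big c
  have hb : S.M.d x p + S.M.d p y = S.M.d x y := hp
  have h1 := S.M.symm x p
  rcases Nat.lt_or_ge m 1 with h | h
  · obtain rfl : m = 0 := by omega
    have hxy : x = y := Sum.inl_injective (h0.symm.trans hy)
    subst hxy
    rw [S.M.self] at hb
    refine ⟨0, le_rfl, ?_⟩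
    rw [h0]
    exact (C_one (by omega)).trans (by norm_num)
  rcases Nat.lt_or_ge m 2 with h2 | h2
  · obtain rfl : m = 1 := by omega
    have h2 := (C_adj _ _).1 (hs 0 (by norm_num))
    rw [h0, Nat.zero_add, hy] at h2
    have h3 : S.M.d x y ≤ c.ρ := h2.2
    refine ⟨0, by norm_num, ?_⟩
    rw [h0]
    exact (C_one (by omega)).trans (by norm_num)
  · obtain rfl : m = 2 := by omega
    have h3 := (C_adj _ _).1 (hs 0 (by norm_num))
    have h4 := (C_adj _ _).1 (hs 1 (by norm_num))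
    rw [h0, Nat.zero_add] at h3
    rw [show 1 + 1 = 2 from rfl, hy] at h4
    rcases hz : w 1 with z | F
    · rw [hz] at h3 h4
      have h5 : S.M.d x z ≤ c.ρ := h3.2
      have h6 : S.M.d z y ≤ c.ρ := h4.2
      have h7 := S.M.tri x z y
      rcases le_or_gt (S.M.d x p) c.ρ with h8 | h8
      · refine ⟨0, by norm_num, ?_⟩
        rw [h0]
        exact (C_one (by omega)).trans (by norm_num)
      · refine ⟨2, le_rfl, ?_⟩
        rw [hy]
        exact (C_one (by omega)).trans (by norm_num)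
    · rw [hz] at h3 h4
      have h5 : x ∈ ax c.q F := h3
      have h6 : y ∈ ax c.q F := h4
      obtain ⟨q, hq, hpq⟩ := P.ax_qconv F x h5 y h6 p hp
      refine ⟨1, by norm_num, ?_⟩
      rw [hz]
      exact C_near hq (by omega)

/-- one bisection step -/
private theorem InP.split_step (P : S.InP c) {L r : ℕ}
    (ih : ∀ (m : ℕ) (w : ℕ → S.Z c) (x y p : S.X), m ≤ L →
      w 0 = Sum.inl x → w m = Sum.inl y → (∀ i < m, (S.C c).d (w i) (w (i + 1)) = 1) →
      S.M.Btw x p y → ∃ i ≤ m, (S.C c).d (Sum.inl p) (w i) ≤ r)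
    (m : ℕ) (w : ℕ → S.Z c) (x y p : S.X) (hm2 : 2 ≤ m) (hmL : m / 2 + 1 ≤ L)
    (h0 : w 0 = Sum.inl x) (hy : w m = Sum.inl y)
    (hs : ∀ i < m, (S.C c).d (w i) (w (i + 1)) = 1) (hp : S.M.Btw x p y) :
    ∃ i ≤ m, (S.C c).d (Sum.inl p) (w i) ≤ r + 1 := by
  have hρ := rho_big c
  have hi0 : ∃ i0 z, (i0 = m / 2 ∨ i0 = m / 2 + 1) ∧ w i0 = Sum.inl z := by
    rcases hz : w (m / 2) with z | F
    · exact ⟨m / 2, z, Or.inl rfl, hz⟩
    · rcases hz' : w (m / 2 + 1) with z | F'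
      · exact ⟨m / 2 + 1, z, Or.inr rfl, hz'⟩
      · exfalso
        have h1 := hs (m / 2) (by omega)
        rw [hz, hz'] at h1
        exact C_inr_inr F F' h1
  obtain ⟨i0, z, hi0, hz⟩ := hi0
  have hi1 : i0 ≤ m := by omega
  have hi2 : i0 ≤ L := by omega
  have hi3 : m - i0 ≤ L := by omega
  have hth := P.hyp.thin x y z p hp
  rcases hth with h1 | h1
  · have h2 : S.M.Slk (2 * 69) x p z := h1
    obtain ⟨u, hu1, hu2, _⟩ := P.hyp.slk_near h2
    obtain ⟨i, hi, hd⟩ := ih i0 w x z u hi2 h0 hz (fun i hi => hs i (by omega)) hu1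
    refine ⟨i, by omega, ?_⟩
    have h3 := (S.C c).tri (Sum.inl p) (Sum.inl u) (w i)
    have h4 := C_one (c := c) (show S.M.d p u ≤ c.ρ by omega)
    omega
  · have h2 : S.M.Slk (2 * 69) y p z := h1
    obtain ⟨u, hu1, hu2, _⟩ := P.hyp.slk_near h2
    obtain ⟨i, hi, hd⟩ := ih (m - i0) (fun i => w (i0 + i)) z y u hi3 (by simpa using hz)
      (by show w (i0 + (m - i0)) = _; rw [show i0 + (m - i0) = m by omega]; exact hy)
      (fun i hi => hs (i0 + i) (by omega)) hu1.symm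
    refine ⟨i0 + i, by omega, ?_⟩
    have h3 := (S.C c).tri (Sum.inl p) (Sum.inl u) (w (i0 + i))
    have h4 := C_one (c := c) (show S.M.d p u ≤ c.ρ by omega)
    have hd' : (S.C c).d (Sum.inl u) (w (i0 + i)) ≤ r := hd
    omega

/-- BISECTION. `w` a walk of length `m ≤ 2^k + 2` from `x` to `y`; `p` between `x` and `y` in `X`.
Proof. `k = 0`: `m ≤ 3`. If `m ≤ 2` one gets distance `≤ 2` (`m = 2` through an apex `F`: `p` is `5000`-near `ax F`).
In general (also `m = 3`): one of `w (m/2)`, `w (m/2+1)` is a point `z` of `X` (two apexes are not adjacent); by thinness of `X`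
and `slk_near`, `p` is within `4δ ≤ ρ` of a point `p'` between `x, z` or between `z, y`, `d̂(p,p') ≤ 1`; the two parts
have length `≤ m/2 + 1`. -/
theorem InP.bisect (P : S.InP c) (k : ℕ) : ∀ (m : ℕ) (w : ℕ → S.Z c) (x y p : S.X), m ≤ 2 ^ k + 2 →
    w 0 = Sum.inl x → w m = Sum.inl y → (∀ i < m, (S.C c).d (w i) (w (i + 1)) = 1) →
    S.M.Btw x p y → ∃ i ≤ m, (S.C c).d (Sum.inl p) (w i) ≤ k + 3 := by
  induction k with
  | zero =>
    intro m w x y p hm h0 hy hs hp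
    rcases Nat.lt_or_ge m 3 with h | h
    · obtain ⟨i, hi, hd⟩ := P.bis0 m w x y p (by omega) h0 hy hs hp
      exact ⟨i, hi, by omega⟩
    · have hm3 : m = 3 := by
        rw [pow_zero] at hm
        omega
      obtain ⟨i, hi, hd⟩ := P.split_step (L := 2) (r := 2) P.bis0 m w x y p (by omega)
        (by omega) h0 hy hs hp
      exact ⟨i, hi, by omega⟩
  | succ k ih =>
    intro m w x y p hm h0 hy hs hp
    have h2 : 1 ≤ 2 ^ k := Nat.one_le_two_pow
    rcases Nat.lt_or_ge m 2 with h | h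
    · obtain ⟨i, hi, hd⟩ := ih m w x y p (by omega) h0 hy hs hp
      exact ⟨i, hi, by omega⟩
    · rw [pow_succ] at hm
      obtain ⟨i, hi, hd⟩ := P.split_step (L := 2 ^ k + 2) (r := k + 3) ih m w x y p h
        (by omega) h0 hy hs hp
      exact ⟨i, hi, by omega⟩

/-- walks with a property of the vertices -/
private def Wlk (S : Sys) (c : Cst) (n : ℕ) (u v : S.Z c) (Q : S.Z c → Prop) : Prop :=
  ∃ w : ℕ → S.Z c, w 0 = u ∧ w n = v ∧ (∀ i < n, (S.C c).d (w i) (w (i + 1)) = 1) ∧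
    ∀ i ≤ n, Q (w i)

private theorem Wlk.mono {n : ℕ} {u v : S.Z c} {Q Q' : S.Z c → Prop} (h : Wlk S c n u v Q)
    (hQ : ∀ t, Q t → Q' t) : Wlk S c n u v Q' := by
  obtain ⟨w, h1, h2, h3, h4⟩ := h
  exact ⟨w, h1, h2, h3, fun i hi => hQ _ (h4 i hi)⟩

private theorem Wlk.symm {n : ℕ} {u v : S.Z c} {Q : S.Z c → Prop} (h : Wlk S c n u v Q) :
    Wlk S c n v u Q := by
  obtain ⟨w, h1, h2, h3, h4⟩ := h
  refine ⟨fun i => w (n - i), by simpa using h2, by simpa using h1, fun i hi => ?_,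
    fun i _ => h4 _ (Nat.sub_le n i)⟩
  show (S.C c).d (w (n - i)) (w (n - (i + 1))) = 1
  have h5 := h3 (n - (i + 1)) (by omega)
  rw [show n - (i + 1) + 1 = n - i by omega, (S.C c).symm] at h5
  exact h5

private theorem Wlk.append {n n' : ℕ} {u v z : S.Z c} {Q : S.Z c → Prop} (h : Wlk S c n u v Q)
    (h' : Wlk S c n' v z Q) : Wlk S c (n + n') u z Q := by
  obtain ⟨w, h1, h2, h3, h4⟩ := h
  obtain ⟨w', h1', h2', h3', h4'⟩ := h'
  have e1 : ∀ i, i ≤ n → (if i ≤ n then w i else w' (i - n)) = w i := fun i hi => if_pos hi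
  have e2 : ∀ i, n ≤ i → (if i ≤ n then w i else w' (i - n)) = w' (i - n) := by
    intro i hi
    by_cases h : i ≤ n
    · obtain rfl : i = n := by omega
      rw [if_pos h, Nat.sub_self, h2, h1']
    · exact if_neg h
  refine ⟨fun i => if i ≤ n then w i else w' (i - n), ?_, ?_, fun i hi => ?_, fun i hi => ?_⟩
  · show (if 0 ≤ n then w 0 else w' (0 - n)) = u
    rw [if_pos (Nat.zero_le n), h1]
  · show (if n + n' ≤ n then w (n + n') else w' (n + n' - n)) = z
    rw [e2 _ (Nat.le_add_right n n'), Nat.add_sub_cancel_left, h2']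
  · show (S.C c).d (if i ≤ n then w i else w' (i - n))
      (if i + 1 ≤ n then w (i + 1) else w' (i + 1 - n)) = 1
    rcases Nat.lt_or_ge i n with h | h
    · rw [e1 i h.le, e1 (i + 1) h]
      exact h3 i h
    · rw [e2 i h, e2 (i + 1) (by omega), show i + 1 - n = i - n + 1 by omega]
      exact h3' (i - n) (by omega)
  · show Q (if i ≤ n then w i else w' (i - n))
    rcases Nat.lt_or_ge i n with h | h
    · rw [e1 i h.le]
      exact h4 i h.le
    · rw [e2 i h]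
      exact h4' (i - n) (by omega)

private theorem geo_btw {X : Type} {M : GMet X} {w : ℕ → X} {m : ℕ} {x y : X}
    (hw : M.IsGeo w m x y) {i : ℕ} (hi : i ≤ m) : M.Btw x (w i) y := by
  obtain ⟨h1, h2, h3⟩ := hw
  show M.d x (w i) + M.d (w i) y = M.d x y
  rw [← h1, ← h2, h3 0 i (Nat.zero_le i) hi, h3 i m hi le_rfl, h3 0 m (Nat.zero_le m) le_rfl]
  omega

private theorem Wlk.geo (u v : S.Z c) :
    Wlk S c ((S.C c).d u v) u v (fun t => (S.C c).Btw u t v) := by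
  obtain ⟨w, hw⟩ := GMet.exists_geo (S.C c) u v
  refine ⟨w, hw.1, hw.2.1, fun i hi => ?_, fun i hi => geo_btw hw hi⟩
  rw [hw.2.2 i (i + 1) (Nat.le_succ i) hi]
  omega

private theorem Wlk.part {w : ℕ → S.Z c} {m : ℕ} {x y : S.Z c} (hw : (S.C c).IsGeo w m x y)
    {k k' : ℕ} (hk : k ≤ m) (hk' : k' ≤ m) :
    Wlk S c ((S.C c).d (w k) (w k')) (w k) (w k') (fun t => ∃ j ≤ m, t = w j) := by
  have key : ∀ k k', k ≤ k' → k' ≤ m →
      Wlk S c (k' - k) (w k) (w k') (fun t => ∃ j ≤ m, t = w j) := by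
    intro k k' h1 h2
    refine ⟨fun i => w (k + i), rfl, ?_, fun i hi => ?_, fun i hi => ⟨k + i, by omega, rfl⟩⟩
    · show w (k + (k' - k)) = w k'
      rw [show k + (k' - k) = k' by omega]
    · show (S.C c).d (w (k + i)) (w (k + (i + 1))) = 1
      rw [hw.2.2 (k + i) (k + (i + 1)) (by omega) (by omega)]
      omega
  rcases le_total k k' with h | h
  · rw [hw.2.2 k k' h hk']
    exact key k k' h hk'
  · rw [(S.C c).symm, hw.2.2 k' k h hk]
    exact (key k' k h hk).symm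

private theorem btw_le {X : Type} {M : GMet X} {x p y : X} (h : M.Btw x p y) :
    M.d x p ≤ M.d x y := by
  have h' : M.d x p + M.d p y = M.d x y := h
  omega

/-- one side of `p` -/
private theorem guess_side {e f p : S.X} {w : ℕ → S.Z c} {m D ke : ℕ} (hp : S.M.Btw e p f)
    (hD : ∀ q, S.M.Btw e q f → ∃ i ≤ m, (S.C c).d (Sum.inl q) (w i) ≤ D)
    (hpD : ∀ i ≤ m, D ≤ (S.C c).d (Sum.inl p) (w i)) (hke : ke ≤ m) (hwe : w ke = Sum.inl e) :
    ∃ p1 k1, S.M.Btw e p1 p ∧ k1 ≤ m ∧ (S.C c).d (Sum.inl p1) (w k1) ≤ D ∧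
      (S.C c).d (Sum.inl p) (Sum.inl p1) ≤ 2 * D ∧
      ∀ v, (S.C c).Btw (Sum.inl p1) v (w k1) → D ≤ (S.C c).d (Sum.inl p) v := by
  have hρ := rho_big c
  rcases le_or_gt ((S.C c).d (Sum.inl p) (Sum.inl e)) (2 * D) with h | h
  · refine ⟨e, ke, ?_, hke, ?_, h, fun v hv => ?_⟩
    · show S.M.d e e + S.M.d e p = S.M.d e p
      rw [S.M.self, Nat.zero_add]
    · rw [hwe, (S.C c).self]
      exact Nat.zero_le _
    · rw [hwe] at hv
      have h1 := btw_le hv
      rw [(S.C c).self] at h1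
      have h2 := (S.C c).eq_of _ _ (Nat.le_zero.1 h1)
      rw [← h2, ← hwe]
      exact hpD ke hke
  · obtain ⟨g, hg⟩ := GMet.exists_geo S.M p e
    obtain ⟨i, hi, hi2⟩ := GMet.discrete_ivt
      (fun i => (S.C c).d (Sum.inl p) (Sum.inl (g i))) (m := S.M.d p e) (a := 2 * D)
      (by show (S.C c).d (Sum.inl p) (Sum.inl (g 0)) ≤ 2 * D
          rw [hg.1, (S.C c).self]; exact Nat.zero_le _)
      (by show 2 * D ≤ (S.C c).d (Sum.inl p) (Sum.inl (g (S.M.d p e)))
          rw [hg.2.1]; exact h.le)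
      (fun i hi => by
        have h1 := (S.C c).tri (Sum.inl p) (Sum.inl (g i)) (Sum.inl (g (i + 1)))
        have h2 := hg.2.2 i (i + 1) (Nat.le_succ i) hi
        have h3 := C_one (c := c) (show S.M.d (g i) (g (i + 1)) ≤ c.ρ by omega)
        show (S.C c).d (Sum.inl p) (Sum.inl (g (i + 1))) ≤
          (S.C c).d (Sum.inl p) (Sum.inl (g i)) + 1
        omega)
    have hi3 : (S.C c).d (Sum.inl p) (Sum.inl (g i)) = 2 * D := hi2
    have hb : S.M.Btw e (g i) p := (geo_btw hg hi).symm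
    obtain ⟨k1, hk1, hk1'⟩ := hD (g i) (GMet.btw_trans hp hb).1
    refine ⟨g i, k1, hb, hk1, hk1', hi3.le, fun v hv => ?_⟩
    have h1 := btw_le hv
    have h2 := (S.C c).tri (Sum.inl p) v (Sum.inl (g i))
    have h3 := (S.C c).symm v (Sum.inl (g i))
    omega

private theorem pow_bound {D : ℕ} (hD : 11 ≤ D) : 8 * D ≤ 2 ^ (D - 4) + 2 := by
  obtain ⟨n, rfl⟩ := Nat.exists_eq_add_of_le hD
  have h1 : n + 1 ≤ 2 ^ n := Nat.lt_two_pow_self
  have h2 : 2 ^ (11 + n - 4) = 128 * 2 ^ n := by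
    rw [show 11 + n - 4 = 7 + n by omega, pow_add]
    norm_num
  rw [h2]
  omega

/-- GEODESICS OF THE CONE-OFF PASS NEAR `X`-GEODESICS. `D(p) := min_i d̂(p, w i)`. Let `p` between `x, y` with `D = D(p)` maximal,
suppose `D ≥ 11`. On a geodesic chain of `X` from `p` to `x` let `p1` be the first point with `d̂(p,p1) ≥ 2D` (then `= 2D`), or `p1 = x` if there is none; `p2` on the
other side. Each `p_i` is within `D` of some `w k_i` (`k_1 = 0` if `p1 = x`, `k_2 = m` if `p2 = y`). The walk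
`p1 → w k1 → w k2 → p2` has length `≤ D + 6D + D = 8D ≤ 2^(D-4) + 2`, so `bisect` gives a vertex of it within `D - 1` of `p`; it
is not on `w` by maximality, and the vertices between `p1` and `w k1` are at distance `≥ 2D - D` of `p`. Contradiction. -/
theorem InP.guess (P : S.InP c) {x y p : S.X} {w : ℕ → S.Z c} {m : ℕ}
    (hw : (S.C c).IsGeo w m (Sum.inl x) (Sum.inl y)) (hp : S.M.Btw x p y) :
    ∃ i ≤ m, (S.C c).d (Sum.inl p) (w i) ≤ 10 := by
  classical
  have hρ := rho_big c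
  have hex : ∃ r, ∀ q, S.M.Btw x q y → ∃ i ≤ m, (S.C c).d (Sum.inl q) (w i) ≤ r := by
    refine ⟨S.M.d x y, fun q hq => ⟨0, Nat.zero_le m, ?_⟩⟩
    rw [hw.1]
    have h1 := btw_le hq
    rw [S.M.symm] at h1
    have h2 := C_le (c := c) q x (S.M.d x y) (by
      calc S.M.d q x ≤ S.M.d x y * 1 := by omega
        _ ≤ S.M.d x y * c.ρ := Nat.mul_le_mul_left _ (by omega))
    exact h2
  obtain ⟨D, hDdef⟩ : ∃ D, D = Nat.find hex := ⟨_, rfl⟩
  have hD := Nat.find_spec hex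
  rw [← hDdef] at hD
  rcases Nat.lt_or_ge D 11 with hlt | hge
  · obtain ⟨i, hi, hd⟩ := hD p hp
    exact ⟨i, hi, by omega⟩
  exfalso
  have hmin := Nat.find_min hex (m := D - 1) (by omega)
  have h1 : ∃ q, S.M.Btw x q y ∧ ∀ i ≤ m, D ≤ (S.C c).d (Sum.inl q) (w i) := by
    by_contra hcon
    apply hmin
    intro q hq
    by_contra hcon2
    apply hcon
    refine ⟨q, hq, fun i hi => ?_⟩
    by_contra hcon3
    exact hcon2 ⟨i, hi, by omega⟩
  obtain ⟨q, hq, hqD⟩ := h1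
  obtain ⟨p1, k1, hb1, hk1, hd1, hd1', hv1⟩ := guess_side hq hD hqD (Nat.zero_le m) hw.1
  obtain ⟨p2, k2, hb2, hk2, hd2, hd2', hv2⟩ := guess_side hq.symm
    (fun q hq => hD q hq.symm) hqD le_rfl hw.2.1
  have hbt : S.M.Btw p1 q p2 :=
    (GMet.btw_trans (GMet.btw_trans hq hb1).2.symm hb2).2.symm
  have hlen : (S.C c).d (w k1) (w k2) ≤ 6 * D := by
    have t1 := (S.C c).tri (w k1) (Sum.inl p1) (w k2)
    have t2 := (S.C c).tri (Sum.inl p1) (Sum.inl q) (w k2)
    have t3 := (S.C c).tri (Sum.inl q) (Sum.inl p2) (w k2)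
    have t4 := (S.C c).symm (w k1) (Sum.inl p1)
    have t5 := (S.C c).symm (Sum.inl p1) (Sum.inl q)
    omega
  have W1 := Wlk.geo (c := c) (Sum.inl p1) (w k1)
  have W2 := Wlk.part hw hk1 hk2
  have W3 := (Wlk.geo (c := c) (Sum.inl p2) (w k2)).symm
  obtain ⟨Q, hQ⟩ : ∃ Q : S.Z c → Prop, Q = fun t => D ≤ (S.C c).d (Sum.inl q) t := ⟨_, rfl⟩
  have W1' : Wlk S c _ _ _ Q := W1.mono (fun t ht => by rw [hQ]; exact hv1 t ht)
  have W2' : Wlk S c _ _ _ Q := W2.mono (fun t ht => by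
    obtain ⟨j, hj, rfl⟩ := ht
    rw [hQ]
    exact hqD j hj)
  have W3' : Wlk S c _ _ _ Q := W3.mono (fun t ht => by rw [hQ]; exact hv2 t ht)
  obtain ⟨w', h1', h2', h3', h4'⟩ := (W1'.append W2').append W3'
  have hb := pow_bound hge
  obtain ⟨i, hi, hdi⟩ := P.bisect (D - 4) _ w' p1 p2 q (by omega) h1' h2' h3' hbt
  have h5 := h4' i hi
  rw [hQ] at h5
  have h6 : D ≤ (S.C c).d (Sum.inl q) (w' i) := h5
  omega

/-- the converse, with 20. Take a chain `p_0 = x, …, p_l = y` in `X` with steps 1 between `x` and `y`; `p_j` is within 10 of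
`w (i_j)`, `i_0 = 0`, `i_l = m`; `|i_j - i_{j+1}| ≤ 21`. -/
theorem InP.guess_conv (P : S.InP c) {x y : S.X} {w : ℕ → S.Z c} {m : ℕ}
    (hw : (S.C c).IsGeo w m (Sum.inl x) (Sum.inl y)) {i : ℕ} (hi : i ≤ m) :
    ∃ p, S.M.Btw x p y ∧ (S.C c).d (w i) (Sum.inl p) ≤ 20 := by
  classical
  have hρ := rho_big c
  obtain ⟨g, hg⟩ := GMet.exists_geo S.M x y
  have hex : ∃ j, j ≤ S.M.d x y ∧ ∃ i' ≤ m, i ≤ i' ∧
      (S.C c).d (Sum.inl (g j)) (w i') ≤ 10 := by
    refine ⟨S.M.d x y, le_rfl, m, le_rfl, hi, ?_⟩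
    rw [hg.2.1, hw.2.1, (S.C c).self]
    exact Nat.zero_le _
  obtain ⟨j, hjdef⟩ : ∃ j, j = Nat.find hex := ⟨_, rfl⟩
  have hj := Nat.find_spec hex
  rw [← hjdef] at hj
  obtain ⟨hjl, i', hi', hii', hd⟩ := hj
  have e1 := hw.2.2 i i' hii' hi'
  rcases Nat.eq_zero_or_pos j with h0 | h0
  · subst h0
    refine ⟨g 0, geo_btw hg hjl, ?_⟩
    rw [hg.1] at hd ⊢
    have e2 := hw.2.2 0 i' (Nat.zero_le _) hi'
    have e3 := hw.2.2 0 i (Nat.zero_le _) hi
    rw [hw.1] at e2 e3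
    rw [(S.C c).symm, e3]
    omega
  · obtain ⟨j', rfl⟩ : ∃ j', j = j' + 1 := ⟨j - 1, by omega⟩
    have hmin := Nat.find_min hex (m := j') (by omega)
    obtain ⟨i2, hi2, hd2⟩ := P.guess hw (geo_btw hg (show j' ≤ S.M.d x y by omega))
    have hlt : i2 < i := by
      by_contra hcon
      exact hmin ⟨by omega, i2, hi2, by omega, hd2⟩
    have e2 := hw.2.2 i2 i' (by omega) hi'
    have e3 := hw.2.2 i2 i hlt.le hi
    have e4 := hg.2.2 j' (j' + 1) (Nat.le_succ j') hjl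
    have e5 := C_one (c := c) (show S.M.d (g j') (g (j' + 1)) ≤ c.ρ by omega)
    have t1 := (S.C c).tri (w i2) (Sum.inl (g j')) (w i')
    have t2 := (S.C c).tri (Sum.inl (g j')) (Sum.inl (g (j' + 1))) (w i')
    have t3 := (S.C c).symm (w i2) (Sum.inl (g j'))
    rcases Nat.lt_or_ge (i' - i) 11 with h | h
    · refine ⟨g (j' + 1), geo_btw hg hjl, ?_⟩
      have t4 := (S.C c).tri (w i) (w i') (Sum.inl (g (j' + 1)))
      have t5 := (S.C c).symm (w i') (Sum.inl (g (j' + 1)))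
      omega
    · refine ⟨g j', geo_btw hg (by omega), ?_⟩
      have t4 := (S.C c).tri (w i) (w i2) (Sum.inl (g j'))
      have t5 := (S.C c).symm (w i) (w i2)
      omega

private theorem InP.cone_thin_inl (P : S.InP c) (x y z : S.X) (p : S.Z c)
    (hp : (S.C c).Btw (Sum.inl x) p (Sum.inl y)) :
    (S.C c).d (Sum.inl x) p + (S.C c).d p (Sum.inl z) ≤
        (S.C c).d (Sum.inl x) (Sum.inl z) + 62 ∨
      (S.C c).d (Sum.inl y) p + (S.C c).d p (Sum.inl z) ≤
        (S.C c).d (Sum.inl y) (Sum.inl z) + 62 := by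
  have hρ := rho_big c
  obtain ⟨w, hw, hwp⟩ := GMet.exists_geo_through hp
  obtain ⟨p1, hb1, hd1⟩ := P.guess_conv hw (i := (S.C c).d (Sum.inl x) p) (btw_le hp)
  rw [hwp] at hd1
  have key : ∀ e : S.X, S.M.Slk (2 * 69) e p1 z →
      (S.C c).d (Sum.inl e) p + (S.C c).d p (Sum.inl z) ≤
        (S.C c).d (Sum.inl e) (Sum.inl z) + 62 := by
    intro e he
    obtain ⟨u, hu1, hu2, _⟩ := P.hyp.slk_near he
    obtain ⟨w', hw'⟩ := GMet.exists_geo (S.C c) (Sum.inl e) (Sum.inl z)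
    obtain ⟨i, hi, hdi⟩ := P.guess hw' hu1
    have hbt : (S.C c).d (Sum.inl e) (w' i) + (S.C c).d (w' i) (Sum.inl z) =
      (S.C c).d (Sum.inl e) (Sum.inl z) := geo_btw hw' hi
    have h1 := C_one (c := c) (show S.M.d p1 u ≤ c.ρ by omega)
    have t1 := (S.C c).tri p (Sum.inl p1) (w' i)
    have t2 := (S.C c).tri (Sum.inl p1) (Sum.inl u) (w' i)
    have t3 := (S.C c).tri (Sum.inl e) (w' i) p
    have t4 := (S.C c).tri p (w' i) (Sum.inl z)
    have t5 := (S.C c).symm p (w' i)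
    omega
  rcases P.hyp.thin x y z p1 hb1 with h | h
  · exact Or.inl (key x h)
  · exact Or.inr (key y h)

/-- a point of `X` next to the end point -/
private theorem next_inl {x p : S.Z c} (hne : x ≠ p) :
    ∃ x' : S.X, (S.C c).d x (Sum.inl x') ≤ 1 ∧ (S.C c).Btw x (Sum.inl x') p := by
  rcases x with x | E
  · refine ⟨x, by rw [(S.C c).self]; norm_num, ?_⟩
    show (S.C c).d (Sum.inl x) (Sum.inl x) + (S.C c).d (Sum.inl x) p = (S.C c).d (Sum.inl x) p
    rw [(S.C c).self, Nat.zero_add]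
  · have h1 : 1 ≤ (S.C c).d (Sum.inr E) p := by
      by_contra hcon
      exact hne ((S.C c).eq_of _ _ (by omega))
    obtain ⟨z, hz1, hz2⟩ := (S.C c).geo (Sum.inr E) p 1 h1
    rcases z with z | F
    · refine ⟨z, hz1.le, ?_⟩
      show (S.C c).d (Sum.inr E) (Sum.inl z) + (S.C c).d (Sum.inl z) p = (S.C c).d (Sum.inr E) p
      omega
    · exact absurd hz1 (C_inr_inr E F)

/-- THE CONE-OFF IS THIN. For `x, y, z ∈ X`, `p` between `x, y` in the cone-off: `p` is within 20 of `p1` between `x, y` in `X`,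
`p1` within `4δ ≤ ρ`, so `d̂ ≤ 1`, of `p2` between `x, z` or `y, z` in `X`, `p2` within 10 of a vertex of a geodesic `x → z`: `2·31 = 62`. For
apexes replace `x` by the neighbour of `x` on a geodesic from `x` to `p` (if `p ≠ x`), `y` similarly, `z` by any neighbour:
`62 + 4 ≤ 68`. -/
theorem InP.cone_thin (P : S.InP c) : (S.C c).Thin 34 := by
  classical
  intro x y z p hp
  by_cases hxp : x = p
  · left
    rw [hxp, (S.C c).self]
    omega
  by_cases hyp : y = p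
  · right
    rw [hyp, (S.C c).self]
    omega
  obtain ⟨x', hx1, hx2⟩ := next_inl (c := c) hxp
  obtain ⟨y', hy1, hy2⟩ := next_inl (c := c) hyp
  have hz : ∃ z' : S.X, (S.C c).d z (Sum.inl z') ≤ 1 := by
    rcases z with z | E
    · exact ⟨z, by rw [(S.C c).self]; norm_num⟩
    · obtain ⟨a, ha⟩ := ax_nonempty c.q E
      exact ⟨a, by rw [(S.C c).symm, C_ax ha]⟩
  obtain ⟨z', hz1⟩ := hz
  have hb1 : (S.C c).Btw (Sum.inl x') p y := (GMet.btw_trans hp hx2).2
  have hb2 : (S.C c).Btw (Sum.inl x') p (Sum.inl y') := (GMet.btw_trans hb1.symm hy2).2.symm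
  have key : ∀ (e : S.Z c) (e' : S.X), (S.C c).d e (Sum.inl e') ≤ 1 →
      (S.C c).d (Sum.inl e') p + (S.C c).d p (Sum.inl z') ≤
        (S.C c).d (Sum.inl e') (Sum.inl z') + 62 →
      (S.C c).d e p + (S.C c).d p z ≤ (S.C c).d e z + 2 * 34 := by
    intro e e' h1 h2
    have t1 := (S.C c).tri e (Sum.inl e') p
    have t2 := (S.C c).tri p (Sum.inl z') z
    have t3 := (S.C c).tri (Sum.inl e') e (Sum.inl z')
    have t4 := (S.C c).tri e z (Sum.inl z')
    have t5 := (S.C c).symm z (Sum.inl z')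
    have t6 := (S.C c).symm e (Sum.inl e')
    omega
  rcases P.cone_thin_inl x' y' z' p hb2 with h | h
  · exact Or.inl (key x x' hx1 h)
  · exact Or.inr (key y y' hy1 h)

end Sys
end BG
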