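import Pool.Agent.Helper76.BG.AxisA

/-!
# BG07: the Busemann quasi-homomorphism on the centralizer of a hyperbolic isometry
-/

set_option autoImplicit false

namespace BG

variable {G X : Type} [Group G] [MulAction G X] {M : GMet X} {δ : ℕ}

/-- `F` with minimal point `x`, displacement at least `10δ+2`. On the centralizer of `F` there is `b` with
`|b(gh) - b g - b h| ≤ 8δ` and `|b g| ≤ d(x,gx) ≤ |b g| + 16δ`.

Proof. `x_i = F^i x`; triples have slack `8δ`; `d(x_{-i},x) ≥ i`. Put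
`b_i g = d(x_{-i}, g x) - d(x_{-i}, x) ∈ ℤ`. `|b_i g| ≤ d(x,gx)`.
(1) For `i ≥ i0(g,h)`: `|b_i (gh) - b_i g - b_i h| ≤ 2δ`: `b_i(gh) - b_i(g) = d(g⁻¹x_{-i}, h x) - d(g⁻¹x_{-i}, x)`, and
`d(x_{-i}, g⁻¹ x_{-i}) = d(x,gx)`, `d(x, hx)` are small compared with `d(x_{-i},x)`: compare the three sums of the four
points `x_{-i}, g⁻¹x_{-i}, x, hx`.
(2) For `i, j ≥ I(g) := 2 d(x,gx) + 20δ`: `|b_i g - b_j g| ≤ 2δ`: four points `x_{-i}, x_{-j}, x, gx`, and the triple
inequality for `x_{-j}, x_{-i}, x`.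
Put `b g = b_{I(g)} g`. Then `|b(gh) - b g - b h| ≤ 2δ + 3·2δ`.
(3) `x` has slack `8δ` on `(x_{-i},x_i)`, `g x` has slack `12δ` (`slk_move`, as `d(x_{±i}, g x_{±i}) = d(x,gx)`); `slk_dist`:
`d(x,gx) ≤ |b_i g| + 12δ + 2δ ≤ |b g| + 16δ`. -/
theorem buse (hiso : IsoAct G M) (h : M.Hyp δ) {F : G} {x : X} (hx : MinPt M F x)
    (hD : 10 * δ + 2 ≤ M.d x (F • x)) :
    ∃ b : G → ℤ, (∀ g k : G, g * F = F * g → k * F = F * k → |b (g * k) - b g - b k| ≤ 8 * δ) ∧
      (∀ g : G, g * F = F * g → |b g| ≤ M.d x (g • x) ∧ (M.d x (g • x) : ℤ) ≤ |b g| + 16 * δ) := by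
  have hdbl := minPt_double hiso h hx (by omega)
  have hT : ∀ i j k : ℤ, i ≤ j → j ≤ k → M.d (F ^ i • x) (F ^ j • x) +
      M.d (F ^ j • x) (F ^ k • x) ≤ M.d (F ^ i • x) (F ^ k • x) + 8 * δ := by
    intro i j k hij hjk
    have h1 := orbit_triple hiso h hdbl (by omega) hij hjk
    omega
  have hG : ∀ i : ℕ, i ≤ M.d x (F ^ i • x) := by
    intro i
    have h1 := orbit_growth hiso h hdbl (by omega) i
    have h2 : i * (6 * δ + 1) ≤ i * M.d x (F • x) := Nat.mul_le_mul_left i (by omega)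
    have h3 : i * (4 * δ + 2 * δ) = i * (6 * δ) := by ring
    have h4 : i * (6 * δ + 1) = i * (6 * δ) + i := by ring
    omega
  have hG1 : ∀ i : ℕ, i ≤ M.d (F ^ (-(i : ℤ)) • x) x := by
    intro i
    have h1 := hiso (F ^ i) (F ^ (-(i : ℤ)) • x) x
    have h2 : F ^ i • F ^ (-(i : ℤ)) • x = x := by
      rw [smul_smul, ← zpow_natCast, ← zpow_add, add_neg_cancel, zpow_zero, one_smul]
    rw [h2] at h1
    have h3 := hG i
    omega
  have hdisp : ∀ g : G, g * F = F * g → ∀ i : ℤ,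
      M.d (F ^ i • x) (g • F ^ i • x) = M.d x (g • x) := by
    intro g hg i
    have h1 : g * F ^ i = F ^ i * g := (show Commute g F from hg).zpow_right i
    rw [smul_smul, h1, ← smul_smul, hiso]
  let B : ℕ → G → ℤ := fun i g => (M.d (F ^ (-(i : ℤ)) • x) (g • x) : ℤ) -
    (M.d (F ^ (-(i : ℤ)) • x) x : ℤ)
  have hBle : ∀ i g, |B i g| ≤ (M.d x (g • x) : ℤ) := by
    intro i g
    have h1 := M.tri (F ^ (-(i : ℤ)) • x) x (g • x)
    have h2 := M.tri (F ^ (-(i : ℤ)) • x) (g • x) x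
    have h3 := M.symm (g • x) x
    rw [abs_le]
    simp only [B]
    constructor <;> omega
  have hadd : ∀ g k : G, g * F = F * g → k * F = F * k → ∀ i : ℕ,
      M.d x (g • x) + M.d x (k • x) + δ + 1 ≤ i →
      |B i (g * k) - B i g - B i k| ≤ 2 * (δ : ℤ) := by
    intro g k hg hk i hi
    have hA := hG1 i
    have hd := hdisp g hg (-(i : ℤ))
    simp only [B]
    generalize F ^ (-(i : ℤ)) • x = A at hA hd ⊢
    have e1 : M.d A ((g * k) • x) = M.d (g⁻¹ • A) (k • x) := by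
      have h1 := hiso g (g⁻¹ • A) (k • x)
      rw [smul_inv_smul, smul_smul] at h1
      exact h1
    have e2 : M.d A (g • x) = M.d (g⁻¹ • A) x := by
      have h1 := hiso g (g⁻¹ • A) x
      rw [smul_inv_smul] at h1
      exact h1
    have e3 : M.d A (g⁻¹ • A) = M.d x (g • x) := by
      have h1 := hiso g A (g⁻¹ • A)
      rw [smul_inv_smul, M.symm (g • A) A] at h1
      omega
    rw [e1, e2]
    have t1 := M.tri A (g⁻¹ • A) x
    have t2 := M.tri (g⁻¹ • A) (k • x) x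
    have t3 := M.tri A (k • x) x
    have s1 := M.symm (k • x) x
    have s2 := M.symm x (g⁻¹ • A)
    have s3 := M.symm (k • x) (g⁻¹ • A)
    have q1 := h A x (g⁻¹ • A) (k • x)
    have q2 := h A (k • x) (g⁻¹ • A) x
    rw [abs_le]
    constructor <;> omega
  have hstab : ∀ g : G, ∀ i j : ℕ, M.d x (g • x) + 5 * δ + 1 ≤ i → i ≤ j →
      |B i g - B j g| ≤ 2 * (δ : ℤ) := by
    intro g i j hi hij
    have hA := hG1 i
    have h0 := hT (-(j : ℤ)) (-(i : ℤ)) 0 (by omega) (by omega)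
    rw [zpow_zero, one_smul] at h0
    simp only [B]
    generalize F ^ (-(i : ℤ)) • x = A at hA h0 ⊢
    generalize F ^ (-(j : ℤ)) • x = A' at h0 ⊢
    have t1 := M.tri A' (g • x) x
    have t2 := M.tri A (g • x) x
    have s1 := M.symm (g • x) x
    have s2 := M.symm (g • x) A
    have s3 := M.symm x A
    have q1 := h A' (g • x) A x
    have q2 := h A' x A (g • x)
    rw [abs_le]
    constructor <;> omega
  refine ⟨fun g => B (M.d x (g • x) + 5 * δ + 1) g, fun g k hg hk => ?_, fun g hg => ⟨?_, ?_⟩⟩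
  · have hgk : g * k * F = F * (g * k) := by
      rw [mul_assoc, hk, ← mul_assoc, hg, mul_assoc]
    have htri : M.d x ((g * k) • x) ≤ M.d x (g • x) + M.d x (k • x) := by
      have h1 := M.tri x (g • x) ((g * k) • x)
      have h2 : M.d (g • x) ((g * k) • x) = M.d x (k • x) := by
        rw [← smul_smul, hiso]
      omega
    have a0 := hadd g k hg hk (M.d x (g • x) + M.d x (k • x) + 5 * δ + 1) (by omega)
    have a1 := hstab (g * k) (M.d x ((g * k) • x) + 5 * δ + 1)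
      (M.d x (g • x) + M.d x (k • x) + 5 * δ + 1) le_rfl (by omega)
    have a2 := hstab g (M.d x (g • x) + 5 * δ + 1)
      (M.d x (g • x) + M.d x (k • x) + 5 * δ + 1) le_rfl (by omega)
    have a3 := hstab k (M.d x (k • x) + 5 * δ + 1)
      (M.d x (g • x) + M.d x (k • x) + 5 * δ + 1) le_rfl (by omega)
    rw [abs_le] at a0 a1 a2 a3 ⊢
    constructor <;> linarith [a0.1, a0.2, a1.1, a1.2, a2.1, a2.2, a3.1, a3.2]
  · exact hBle _ g
  · have a2 := hstab g (M.d x (g • x) + 5 * δ + 1) (M.d x (g • x) + 6 * δ + 1) le_rfl (by omega)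
    obtain ⟨i, hi⟩ : ∃ i : ℕ, i = M.d x (g • x) + 6 * δ + 1 := ⟨_, rfl⟩
    rw [← hi] at a2
    have hsl : M.Slk (8 * δ) (F ^ (-(i : ℤ)) • x) x (F ^ (i : ℤ) • x) := by
      have h0 := hT (-(i : ℤ)) 0 i (by omega) (by omega)
      rw [zpow_zero, one_smul] at h0
      exact h0
    have hsl' : M.Slk (8 * δ) (g • F ^ (-(i : ℤ)) • x) (g • x) (g • F ^ (i : ℤ) • x) := by
      unfold GMet.Slk at hsl ⊢
      rw [hiso, hiso, hiso]
      exact hsl
    have d1 := hdisp g hg (-(i : ℤ))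
    have d2 := hdisp g hg (i : ℤ)
    have g1 := hG1 i
    have g2 := hG i
    rw [← zpow_natCast] at g2
    have hmove := h.slk_move (D := M.d x (g • x)) (x' := F ^ (-(i : ℤ)) • x)
      (y' := F ^ (i : ℤ) • x) hsl' (by rw [M.symm]; omega) (by rw [M.symm]; omega)
      (by rw [hiso]; omega) (by rw [hiso]; omega)
    have hsl2 : M.Slk (8 * δ + 4 * δ) (F ^ (-(i : ℤ)) • x) x (F ^ (i : ℤ) • x) := by
      unfold GMet.Slk at hsl ⊢
      omega
    have hd := h.slk_dist hsl2 hmove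
    have hb : |B i g| ≤ |B (M.d x (g • x) + 5 * δ + 1) g| + 2 * (δ : ℤ) := by
      have h1 := abs_sub_abs_le_abs_sub (B i g) (B (M.d x (g • x) + 5 * δ + 1) g)
      rw [abs_sub_comm] at a2
      linarith
    have hBi : (M.d x (g • x) : ℤ) ≤ |B i g| + 14 * (δ : ℤ) := by
      simp only [B]
      rcases le_total (M.d (F ^ (-(i : ℤ)) • x) (g • x)) (M.d (F ^ (-(i : ℤ)) • x) x) with h1 | h1
      · rw [abs_of_nonpos (by omega)]
        omega
      · rw [abs_of_nonneg (by omega)]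
        omega
    linarith

end BG
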