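import Pool.Agent.Helper76.BG.CentC

/-!
# BG09d: the class `P`: the commute lemma
-/

set_option autoImplicit false

namespace BG

variable {c : Cst} {S : Sys}

/-- two points at depth `E` -/
private theorem exists_two (S : Sys) {x y : S.X} {E N : ℕ} (hxy : N + 2 * E ≤ S.M.d x y) :
    ∃ p p', S.M.Btw x p y ∧ E ≤ S.M.d x p ∧ E ≤ S.M.d p y ∧ S.M.Btw x p' y ∧ E ≤ S.M.d p' y ∧
      E ≤ S.M.d x p' ∧ N ≤ S.M.d p p' := by
  obtain ⟨p, hp, hp1⟩ := GMet.exists_btw S.M x y (k := E) (by omega)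
  obtain ⟨p', hp', hp1'⟩ := GMet.exists_btw S.M x y (k := S.M.d x y - E) (by omega)
  have h1 : S.M.d x p + S.M.d p y = S.M.d x y := hp
  have h2 : S.M.d x p' + S.M.d p' y = S.M.d x y := hp'
  have h3 := S.M.tri x p p'
  exact ⟨p, p', hp, by omega, by omega, hp', by omega, by omega, by omega⟩

private theorem inv_disp (S : Sys) {x : S.X} {g : S.G} {D : ℕ} (hg : S.M.d x (g • x) ≤ D) :
    S.M.d x (g⁻¹ • x) ≤ D := by
  have h1 := S.iso g x (g⁻¹ • x)
  rw [smul_inv_smul] at h1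
  rw [← h1, S.M.symm]
  exact hg

/-- the commutator and its conjugate at deep points -/
private theorem conj_deep (P : S.InP c) {g h k : S.G} {x y p : S.X} {D : ℕ}
    (hgx : S.M.d x (g • x) ≤ D) (hgy : S.M.d y (g • y) ≤ D) (hhx : S.M.d x (h • x) ≤ D)
    (hhy : S.M.d y (h • y) ≤ D) (hkx : S.M.d x (k • x) ≤ D) (hky : S.M.d y (k • y) ≤ D)
    (hp : S.M.Btw x p y) (h1 : 3 * D + 691 ≤ S.M.d x p) (h2 : 3 * D + 691 ≤ S.M.d p y) :
    S.M.d p ((k * ((h * g)⁻¹ * (g * h)) * k⁻¹) • p) ≤ 2070 := by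
  have hu : ∀ z, S.M.Btw x z y → 2 * D + 277 ≤ S.M.d x z → 2 * D + 277 ≤ S.M.d z y →
      S.M.d z (((h * g)⁻¹ * (g * h)) • z) ≤ 1242 := by
    intro z hz hz1 hz2
    have h3 := comm_deep S.isoAct P.hyp hgx hgy hhx hhy hz (by omega) (by omega)
    have h4 := S.iso (h * g)⁻¹ ((h * g) • z) ((g * h) • z)
    rw [inv_smul_smul, smul_smul] at h4
    have h5 := S.M.symm ((g * h) • z) ((h * g) • z)
    omega
  set u := (h * g)⁻¹ * (g * h) with hudef
  have hs : S.M.Slk 0 x p y := by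
    have h3 : S.M.d x p + S.M.d p y = S.M.d x y := hp
    unfold GMet.Slk
    omega
  have hkx' := inv_disp S hkx
  have hky' := inv_disp S hky
  have hsm := slk_smul S.isoAct P.hyp hkx' hky' hs (by omega) (by omega)
  obtain ⟨v, hv, hv1, -⟩ := P.hyp.slk_near hsm
  -- depth of v
  have e1 := S.iso k⁻¹ x p
  have e2 := S.iso k⁻¹ p y
  have t1 := S.M.tri (k⁻¹ • x) x (k⁻¹ • p)
  have t2 := S.M.symm (k⁻¹ • x) x
  have t3 := S.M.tri (k⁻¹ • p) y (k⁻¹ • y)
  have t4 := S.M.tri x v (k⁻¹ • p)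
  have t5 := S.M.symm v (k⁻¹ • p)
  have t6 := S.M.tri (k⁻¹ • p) v y
  have hv2 := hu v hv (by omega) (by omega)
  -- the displacement
  have e3 := S.iso k (k⁻¹ • p) (u • k⁻¹ • p)
  rw [smul_inv_smul, smul_smul, smul_smul] at e3
  rw [e3]
  have e4 := S.iso u v (k⁻¹ • p)
  have t7 := S.M.tri (k⁻¹ • p) v (u • k⁻¹ • p)
  have t8 := S.M.tri v (u • v) (u • k⁻¹ • p)
  rw [← mul_smul] at t7 t8 e4
  rw [← mul_smul]
  omega

/-- THE COMMUTE LEMMA. Two elements moving both ends of a long segment by at most `D` commute.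
Proof: `u = (hg)⁻¹ (gh)`. At points `p, p'` between `x, y` of depth `3D + 10δ + 1` (`δ = 69`), with `d(p,p') ≥ b`: `u` moves every
between point of depth `≥ 2D+4δ+1` by at most `18δ` (`comm_deep`); `g⁻¹ p` has slack `4δ` (`slk_smul`), it is `6δ`-near a
between point of depth `≥ 2D + 4δ + 1`, so `g u g⁻¹` moves `p` by at most `30δ ≤ 200δ`; the same for `h u h⁻¹` and for `p'`.
If `u` is torsion, `u = 1` by `A2`. Otherwise `u` commutes with `g u g⁻¹` and `h u h⁻¹` by `A1`; the centralizer of `u` is `⟨e⟩`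
(`cent_cyclic`), `u = e^i`, `g u g⁻¹ = e^j`, so `g ∈ ⟨e⟩` by `malnormal`, `h ∈ ⟨e⟩`, so `g h = h g` and `u = 1`. -/
theorem Sys.InP.commute (P : S.InP c) {g h : S.G} {x y : S.X} {D : ℕ}
    (hgx : S.M.d x (g • x) ≤ D) (hgy : S.M.d y (g • y) ≤ D) (hhx : S.M.d x (h • x) ≤ D)
    (hhy : S.M.d y (h • y) ≤ D) (hxy : c.b + 6 * D + 2070 ≤ S.M.d x y) : g * h = h * g := by
  have hlen : c.b + 2 * (3 * D + 691) ≤ S.M.d x y := by linarith
  obtain ⟨p, p', hp, hp1, hp2, hp', hp1', hp2', hpp⟩ := exists_two S hlen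
  have h1x : S.M.d x ((1 : S.G) • x) ≤ D := by rw [one_smul, S.M.self]; exact Nat.zero_le _
  have h1y : S.M.d y ((1 : S.G) • y) ≤ D := by rw [one_smul, S.M.self]; exact Nat.zero_le _
  have key : ∀ k : S.G, S.M.d x (k • x) ≤ D → S.M.d y (k • y) ≤ D →
      S.M.d p ((k * ((h * g)⁻¹ * (g * h)) * k⁻¹) • p) ≤ 13800 ∧
      S.M.d p' ((k * ((h * g)⁻¹ * (g * h)) * k⁻¹) • p') ≤ 13800 := by
    intro k hkx hky
    have a1 := conj_deep P hgx hgy hhx hhy hkx hky hp hp1 hp2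
    have a2 := conj_deep P hgx hgy hhx hhy hkx hky hp' hp2' hp1'
    exact ⟨a1.trans (by norm_num), a2.trans (by norm_num)⟩
  set u := (h * g)⁻¹ * (g * h) with hudef
  have hu1 : u = 1 → g * h = h * g := by
    intro h1
    rw [hudef, inv_mul_eq_one] at h1
    exact h1.symm
  have k1 := key 1 h1x h1y
  rw [one_mul, inv_one, mul_one] at k1
  by_cases ht : IsOfFinOrder u
  · exact hu1 (P.A2 p p' u hpp k1.1 k1.2 ht)
  · obtain ⟨e, he, hue, hcent⟩ := P.cent_cyclic ht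
    obtain ⟨i, hi⟩ := Subgroup.mem_zpowers_iff.1 hue
    have hi0 : i ≠ 0 := by
      intro h0
      rw [h0, zpow_zero] at hi
      exact ht (hi ▸ IsOfFinOrder.one)
    have hc : ∀ g' : S.G, g' * e = e * g' → g' ∈ Subgroup.zpowers e := by
      intro g' hg'
      refine (hcent g').1 ?_
      rw [← hi]
      exact (show Commute g' e from hg').zpow_right i
    have hmem : ∀ k : S.G, S.M.d x (k • x) ≤ D → S.M.d y (k • y) ≤ D →
        k ∈ Subgroup.zpowers e := by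
      intro k hkx hky
      have k2 := key k hkx hky
      have hcomm := P.A1 p p' (k * u * k⁻¹) u hpp k2.1 k2.2 k1.1 k1.2
      obtain ⟨j, hj⟩ := Subgroup.mem_zpowers_iff.1 ((hcent _).1 hcomm)
      refine P.malnormal he hc hi0 (j := j) ?_
      rw [hi, hj]
    obtain ⟨a, ha⟩ := Subgroup.mem_zpowers_iff.1 (hmem g hgx hgy)
    obtain ⟨b, hb⟩ := Subgroup.mem_zpowers_iff.1 (hmem h hhx hhy)
    rw [← ha, ← hb, ← zpow_add, ← zpow_add, add_comm]

/-- torsion elements moving both ends of a long segment by at most `D` are trivial (`torsion_deep`, `A2`) -/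
theorem Sys.InP.torsion_trivial (P : S.InP c) {g : S.G} (hg : IsOfFinOrder g) {x y : S.X} {D : ℕ}
    (hgx : S.M.d x (g • x) ≤ D) (hgy : S.M.d y (g • y) ≤ D)
    (hxy : c.b + 4 * D + 2070 ≤ S.M.d x y) : g = 1 := by
  have hlen : c.b + 2 * (2 * D + 277) ≤ S.M.d x y := by linarith
  obtain ⟨p, p', hp, hp1, hp2, hp', hp1', hp2', hpp⟩ := exists_two S hlen
  have e : 2 * D + 4 * 69 + 1 = 2 * D + 277 := rfl
  have a1 := torsion_deep S.isoAct P.hyp hg hgx hgy hp (e ▸ hp1) (e ▸ hp2)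
  have a2 := torsion_deep S.isoAct P.hyp hg hgx hgy hp' (e ▸ hp2') (e ▸ hp1')
  exact P.A2 p p' g hpp (a1.trans (by norm_num)) (a2.trans (by norm_num)) hg

end BG
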