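import Pool.Agent.Helper76.BG.Shift

/-!
# BG09a: the class `P`: growth, centers
-/

set_option autoImplicit false

namespace BG

variable {c : Cst} {S : Sys}

/-- the action is by isometries -/
theorem Sys.isoAct (S : Sys) : IsoAct S.G S.M := S.iso

private theorem dist_pow_le (S : Sys) (h : S.G) (z : S.X) (n : ℕ) :
    S.M.d z (h ^ n • z) ≤ n * S.M.d z (h • z) := by
  induction n with
  | zero => simp [S.M.self]
  | succ n ih =>
    have h1 := S.M.tri z (h • z) (h ^ (n + 1) • z)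
    have h2 : S.M.d (h • z) (h ^ (n + 1) • z) = S.M.d z (h ^ n • z) := by
      rw [pow_succ', mul_smul]
      exact S.iso h z (h ^ n • z)
    rw [h2] at h1
    have h3 : (n + 1) * S.M.d z (h • z) = n * S.M.d z (h • z) + S.M.d z (h • z) := by ring
    omega

/-- growth of non-torsion elements. `F = g^q` has displacement `≥ 6900 = 100δ` everywhere, so `growth_all` for its
minimal point gives `k (6900 - 414) ≤ d(z, F^k z)`, and `d(z,F^k z) = d(z, g^(kq) z) ≤ q d(z, g^k z)`. -/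
theorem Sys.InP.growth (P : S.InP c) {g : S.G} (hg : ¬ IsOfFinOrder g) (z : S.X) (k : ℕ) :
    94 * 69 * k ≤ c.q * S.M.d z (g ^ k • z) := by
  have : Nonempty S.X := ⟨S.pt⟩
  have hT : ∀ x, 6900 ≤ S.M.d x (g ^ c.q • x) := (P.T g).resolve_left hg
  obtain ⟨p, hp⟩ := exists_minPt (M := S.M) (g ^ c.q)
  have hD := hT p
  have h1 := growth_all S.isoAct P.hyp hp (by omega) z k
  have h2 : (g ^ c.q) ^ k = (g ^ k) ^ c.q := by
    rw [← pow_mul, ← pow_mul, Nat.mul_comm]
  rw [h2] at h1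
  have h3 := dist_pow_le S (g ^ k) z c.q
  have h4 : k * (94 * 69) ≤ k * (S.M.d p (g ^ c.q • p) - 6 * 69) :=
    Nat.mul_le_mul (le_refl k) (by omega)
  have h5 : 94 * 69 * k = k * (94 * 69) := Nat.mul_comm _ _
  rw [h5]
  exact h4.trans (h1.trans h3)

/-- quasi-centers of torsion elements (`exists_center`, `4·69+1 = 277`) -/
theorem Sys.InP.center (P : S.InP c) {g : S.G} (hg : IsOfFinOrder g) :
    ∃ p : S.X, ∀ k : ℤ, S.M.d p (g ^ k • p) ≤ 277 := by
  have : Nonempty S.X := ⟨S.pt⟩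
  exact exists_center S.isoAct P.hyp hg

/-- nontrivial torsion elements and powers prime to 3 -/
theorem Sys.InP.pow_ne_one (P : S.InP c) {g : S.G} (hg : IsOfFinOrder g) (h1 : g ≠ 1) {k : ℕ}
    (hk : ¬ 3 ∣ k) : g ^ k ≠ 1 := by
  intro hgk
  obtain ⟨j, hj⟩ := P.O g hg
  have h2 : orderOf g ∣ 3 ^ j := orderOf_dvd_of_pow_eq_one hj
  have h3 : orderOf g ∣ k := orderOf_dvd_of_pow_eq_one hgk
  have h4 : Nat.Coprime (3 ^ j) k :=
    Nat.Coprime.pow_left j ((Nat.Prime.coprime_iff_not_dvd Nat.prime_three).2 hk)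
  have h5 : orderOf g = 1 := Nat.dvd_one.1 (h4 ▸ Nat.dvd_gcd h2 h3)
  exact h1 (orderOf_eq_one_iff.1 h5)

end BG
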