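import Pool.Agent.Helper76.BG.Defs

/-!
# BG08: algebra: quasi-homomorphisms force commutativity and cyclicity
-/

set_option autoImplicit false

namespace BG

/-- Abstract statement. `C` is a group with a quasi-homomorphism `b : C → ℤ` of defect `8δ`, a length `L` within `16δ` of
`|b|`, elements of length at most `200δ` commute with each other and are not torsion (except `1`), and non-torsion elements have
linear growth. Then `C` is commutative.

Proof. `|b 1| ≤ 8δ`, `|b g⁻¹ + b g| ≤ 16δ`, `|b (g^k) - k b g| ≤ 8δ (k-1)` (`k ≥ 1`). A torsion element has `|b g| ≤ 8δ`, so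
`L g ≤ 24δ`, so `g = 1`. Commutators `[g,h] = g h g⁻¹ h⁻¹` have `|b| ≤ 56δ`; conjugates of `c` have `|b| ≤ |b c| + 32δ`.
Let `c = [g,h] ≠ 1` and `c_i = g^i c g^(-i)`, `P_k = [g^k,h]`; `P_{k+1} = c_k P_k`. All `c_i`, `P_k` have `|b| ≤ 88δ`,
`L ≤ 104δ ≤ 200δ`: they all commute. So `P_k ^ M = ∏_{i<k} c_i ^ M`. `c` is not torsion, so
`|b (c^M)| ≥ L (c^M) - 16δ`, `q L(c^M) ≥ 94 δ M`; `c_i ^ M` is conjugate to `c ^ M` so `b (c_i^M)` is within `32δ` of
`b (c^M)` - in particular of the same sign. So `|b (P_k^M)| ≥ k (|b (c^M)| - 32δ) - 8δ (k-1)`, whereas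
`|b (P_k ^ M)| ≤ M (|b P_k| + 8δ) ≤ 64 δ M`. Take `k = q`, `M = 3q`: `94δ·3q - (56·q)δ ≤ 64δ·3q` is false. -/
theorem qhom_comm {C : Type} [Group C] (b : C → ℤ) (L : C → ℕ) (δ q : ℕ) (hδ : 0 < δ) (hq : 0 < q)
    (h1 : ∀ g h, |b (g * h) - b g - b h| ≤ 8 * δ)
    (h2 : ∀ g, |b g| ≤ L g) (h2' : ∀ g, (L g : ℤ) ≤ |b g| + 16 * δ)
    (h3 : ∀ g h, L g ≤ 200 * δ → L h ≤ 200 * δ → g * h = h * g)
    (h4 : ∀ g, L g ≤ 200 * δ → IsOfFinOrder g → g = 1)
    (h5 : ∀ g, ¬ IsOfFinOrder g → ∀ k : ℕ, 94 * δ * k ≤ q * L (g ^ k)) :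
    (∀ g h : C, g * h = h * g) ∧ (∀ g : C, IsOfFinOrder g → g = 1) := by
  have hδ' : (0 : ℤ) < δ := by exact_mod_cast hδ
  have hq' : (0 : ℤ) < q := by exact_mod_cast hq
  have hb1 : |b 1| ≤ 8 * δ := by
    have h := h1 1 1
    rw [mul_one] at h
    rw [abs_le] at h ⊢
    constructor <;> linarith [h.1, h.2]
  have hinv : ∀ g, |b g + b g⁻¹| ≤ 16 * δ := by
    intro g
    have h := h1 g g⁻¹
    rw [mul_inv_cancel] at h
    rw [abs_le] at h hb1 ⊢
    constructor <;> linarith [h.1, h.2, hb1.1, hb1.2]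
  have hpow : ∀ (g : C) (k : ℕ), |b (g ^ (k + 1)) - (k + 1) * b g| ≤ 8 * δ * k := by
    intro g k
    induction k with
    | zero => simp
    | succ k ih =>
      have h := h1 (g ^ (k + 1)) g
      rw [← pow_succ] at h
      rw [abs_le] at h ih ⊢
      push_cast
      constructor <;> nlinarith [h.1, h.2, ih.1, ih.2]
  have htors : ∀ g : C, IsOfFinOrder g → g = 1 := by
    intro g hg
    refine h4 g ?_ hg
    obtain ⟨N, hN, hgN⟩ := isOfFinOrder_iff_pow_eq_one.1 hg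
    obtain ⟨k, rfl⟩ : ∃ k, N = k + 1 := ⟨N - 1, by omega⟩
    have h := hpow g k
    rw [hgN] at h
    rw [abs_le] at h hb1
    have hk : (0 : ℤ) ≤ k := by positivity
    have h6 : |b g| ≤ 8 * δ := by
      rw [abs_le]
      constructor
      · by_contra hc
        push Not at hc
        nlinarith [h.1, h.2, hb1.1, hb1.2]
      · by_contra hc
        push Not at hc
        nlinarith [h.1, h.2, hb1.1, hb1.2]
    have h7 := h2' g
    have h8 : (L g : ℤ) ≤ 200 * δ := by linarith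
    exact_mod_cast h8
  refine ⟨?_, htors⟩
  have hcomm : ∀ g h : C, |b (g * h * g⁻¹ * h⁻¹)| ≤ 56 * δ := by
    intro g h
    have e1 := h1 (g * h * g⁻¹) h⁻¹
    have e2 := h1 (g * h) g⁻¹
    have e3 := h1 g h
    have e4 := hinv g
    have e5 := hinv h
    rw [abs_le] at e1 e2 e3 e4 e5 ⊢
    constructor <;> linarith [e1.1, e1.2, e2.1, e2.2, e3.1, e3.2, e4.1, e4.2, e5.1, e5.2]
  have hconj : ∀ g c : C, |b (g * c * g⁻¹) - b c| ≤ 32 * δ := by
    intro g c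
    have e2 := h1 (g * c) g⁻¹
    have e3 := h1 g c
    have e4 := hinv g
    rw [abs_le] at e2 e3 e4 ⊢
    constructor <;> linarith [e2.1, e2.2, e3.1, e3.2, e4.1, e4.2]
  intro g h
  by_contra hgh
  set c : C := g * h * g⁻¹ * h⁻¹ with hc
  have hc1 : c ≠ 1 := by
    intro h6
    apply hgh
    rw [hc] at h6
    have h7 : g * h * g⁻¹ = h := by
      rw [mul_inv_eq_one] at h6
      exact h6
    rw [mul_inv_eq_iff_eq_mul] at h7
    exact h7
  have hcL : L c ≤ 200 * δ := by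
    have e1 := hcomm g h
    have e2 := h2' c
    have h8 : (L c : ℤ) ≤ 200 * δ := by
      rw [← hc] at e1
      linarith
    exact_mod_cast h8
  have hcT : ¬ IsOfFinOrder c := fun h6 => hc1 (htors c h6)
  -- the conjugates and the commutators
  have hciL : ∀ i : ℕ, L (g ^ i * c * (g ^ i)⁻¹) ≤ 200 * δ := by
    intro i
    have e1 := hcomm g h
    rw [← hc] at e1
    have e2 := h2' (g ^ i * c * (g ^ i)⁻¹)
    have e3 := hconj (g ^ i) c
    have h8 : (L (g ^ i * c * (g ^ i)⁻¹) : ℤ) ≤ 200 * δ := by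
      have e4 : |b (g ^ i * c * (g ^ i)⁻¹)| ≤ |b (g ^ i * c * (g ^ i)⁻¹) - b c| + |b c| := by
        have := abs_add_le (b (g ^ i * c * (g ^ i)⁻¹) - b c) (b c)
        simpa using this
      linarith
    exact_mod_cast h8
  have hPL : ∀ i : ℕ, L (g ^ i * h * (g ^ i)⁻¹ * h⁻¹) ≤ 200 * δ := by
    intro i
    have e1 := hcomm (g ^ i) h
    have e2 := h2' (g ^ i * h * (g ^ i)⁻¹ * h⁻¹)
    have h8 : (L (g ^ i * h * (g ^ i)⁻¹ * h⁻¹) : ℤ) ≤ 200 * δ := by linarith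
    exact_mod_cast h8
  have hPs : ∀ i : ℕ, g ^ (i + 1) * h * (g ^ (i + 1))⁻¹ * h⁻¹ =
      (g ^ i * c * (g ^ i)⁻¹) * (g ^ i * h * (g ^ i)⁻¹ * h⁻¹) := by
    intro i
    rw [hc, pow_succ]
    group
  -- powers
  have hkey : ∀ (M k : ℕ), |b ((g ^ k * h * (g ^ k)⁻¹ * h⁻¹) ^ M) - k * b (c ^ M)| ≤
      40 * δ * k + 8 * δ := by
    intro M k
    induction k with
    | zero =>
      have e : (g ^ 0 * h * (g ^ 0)⁻¹ * h⁻¹) ^ M = 1 := by simp
      rw [e]
      simpa using hb1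
    | succ k ih =>
      have e1 : (g ^ (k + 1) * h * (g ^ (k + 1))⁻¹ * h⁻¹) ^ M =
          (g ^ k * c * (g ^ k)⁻¹) ^ M * (g ^ k * h * (g ^ k)⁻¹ * h⁻¹) ^ M := by
        rw [hPs k]
        exact Commute.mul_pow (h3 _ _ (hciL k) (hPL k)) M
      have e2 : (g ^ k * c * (g ^ k)⁻¹) ^ M = g ^ k * c ^ M * (g ^ k)⁻¹ := conj_pow
      have e3 := h1 ((g ^ k * c * (g ^ k)⁻¹) ^ M) ((g ^ k * h * (g ^ k)⁻¹ * h⁻¹) ^ M)
      rw [← e1] at e3
      have e4 := hconj (g ^ k) (c ^ M)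
      rw [← e2] at e4
      rw [abs_le] at ih e3 e4 ⊢
      push_cast
      constructor <;> linarith [ih.1, ih.2, e3.1, e3.2, e4.1, e4.2]
  -- the contradiction
  obtain ⟨N, hN⟩ : ∃ N, 3 * q = N + 1 := ⟨3 * q - 1, by omega⟩
  have f1 := hkey (3 * q) q
  have f2 := hpow (g ^ q * h * (g ^ q)⁻¹ * h⁻¹) N
  have f3 := hcomm (g ^ q) h
  have f4 := h5 c hcT (3 * q)
  have f5 := h2' (c ^ (3 * q))
  rw [← hN] at f2
  have hN' : (3 : ℤ) * q = N + 1 := by exact_mod_cast hN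
  have f4' : (94 : ℤ) * δ * (3 * q) ≤ q * L (c ^ (3 * q)) := by exact_mod_cast f4
  set P : C := g ^ q * h * (g ^ q)⁻¹ * h⁻¹ with hP
  set B : ℤ := b (c ^ (3 * q)) with hB
  have g1 : |b (P ^ (3 * q))| ≤ 64 * δ * (3 * q) := by
    have e1 : |b (P ^ (3 * q))| ≤ |b (P ^ (3 * q)) - (N + 1) * b P| + |(N + 1) * b P| := by
      have := abs_add_le (b (P ^ (3 * q)) - (N + 1) * b P) ((N + 1) * b P)
      simpa using this
    have e2 : |((N : ℤ) + 1) * b P| = (N + 1) * |b P| := by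
      rw [abs_mul, abs_of_nonneg (by positivity)]
    rw [e2, ← hN'] at e1
    have e3 : (3 : ℤ) * q * |b P| ≤ 3 * q * (56 * δ) := by
      apply mul_le_mul_of_nonneg_left f3
      positivity
    have e4 : (8 : ℤ) * δ * N ≤ 8 * δ * (3 * q) := by
      apply mul_le_mul_of_nonneg_left _ (by positivity)
      rw [hN']
      linarith
    rw [← hN'] at f2
    nlinarith
  have g2 : (q : ℤ) * |B| ≤ |b (P ^ (3 * q))| + (40 * δ * q + 8 * δ) := by
    have e1 : |(q : ℤ) * B| ≤ |b (P ^ (3 * q))| + |b (P ^ (3 * q)) - q * B| := by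
      have := abs_sub (b (P ^ (3 * q))) (b (P ^ (3 * q)) - q * B)
      simpa using this
    rw [abs_mul, abs_of_nonneg (by positivity : (0 : ℤ) ≤ (q : ℤ))] at e1
    linarith
  have g3 : (q : ℤ) * L (c ^ (3 * q)) ≤ q * (|B| + 16 * δ) := by
    apply mul_le_mul_of_nonneg_left f5
    positivity
  have g4 : (0 : ℤ) < δ * q := by positivity
  have g5 : (δ : ℤ) ≤ δ * q := by nlinarith
  nlinarith

end BG
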