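import Pool.Agent.Helper76.BG.CentA
import Pool.Agent.Helper76.BG.Buse
import Pool.Agent.Helper76.BG.QHomA

/-!
# BG09b: the class `P`: centralizers are commutative
-/

set_option autoImplicit false

namespace BG

variable {c : Cst} {S : Sys}

private theorem centB_not_fin {G : Type} [Group G] {f : G} (hf : ¬ IsOfFinOrder f) {k : ℕ}
    (hk : 0 < k) : ¬ IsOfFinOrder (f ^ k) := by
  intro h
  rw [isOfFinOrder_iff_pow_eq_one] at h hf
  apply hf
  obtain ⟨n, hn, hn'⟩ := h
  refine ⟨k * n, Nat.mul_pos hk hn, ?_⟩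
  rw [pow_mul]
  exact hn'

private theorem centB_core (P : S.InP c) {f : S.G} (hf : ¬ IsOfFinOrder f) {k : ℕ} (hk : 0 < k) :
    (∀ g h : S.G, g * f ^ k = f ^ k * g → h * f ^ k = f ^ k * h → g * h = h * g) ∧
      (∀ g : S.G, g * f ^ k = f ^ k * g → IsOfFinOrder g → g = 1) := by
  haveI : Nonempty S.X := ⟨S.pt⟩
  have hq : 0 < c.q := lt_of_lt_of_le (by norm_num) c.q_ge
  have hfk : ¬ IsOfFinOrder (f ^ k) := centB_not_fin hf hk
  obtain ⟨F, hFdef⟩ : ∃ F : S.G, F = (f ^ k) ^ c.q := ⟨_, rfl⟩
  have hT : ∀ x, 6900 ≤ S.M.d x (F • x) := by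
    rcases P.T (f ^ k) with h | h
    · exact absurd h hfk
    · rw [hFdef]
      exact h
  obtain ⟨x, hx⟩ := exists_minPt (M := S.M) F
  have hDx := hT x
  obtain ⟨b, hb1, hb2⟩ := buse S.isoAct P.hyp hx (by omega)
  have hgr : ∀ N : ℕ, N ≤ S.M.d x (F ^ N • x) := by
    intro N
    have h1 := growth_all S.isoAct P.hyp hx (by omega) x N
    refine le_trans ?_ h1
    calc N = N * 1 := (Nat.mul_one N).symm
      _ ≤ N * (S.M.d x (F • x) - 6 * 69) := Nat.mul_le_mul_left N (by omega)
  have hdisp : ∀ (g : S.G) (N : ℕ), g * F = F * g →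
      S.M.d (F ^ N • x) (g • F ^ N • x) = S.M.d x (g • x) := by
    intro g N hg
    have h1 : g * F ^ N = F ^ N * g := (Commute.pow_right (show Commute g F from hg) N)
    rw [← mul_smul, h1, mul_smul]
    exact S.iso _ _ _
  have hcomm : ∀ {g : S.G}, g * f ^ k = f ^ k * g → g * F = F * g := by
    intro g hg
    rw [hFdef]
    exact Commute.pow_right (show Commute g (f ^ k) from hg) c.q
  have memC : ∀ g : S.G, g ∈ Subgroup.centralizer ({F} : Set S.G) ↔ g * F = F * g := by
    intro g
    rw [Subgroup.mem_centralizer_iff]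
    constructor
    · intro h
      exact (h F rfl).symm
    · intro h y hy
      rw [Set.mem_singleton_iff.1 hy]
      exact h.symm
  have hfin : ∀ g : Subgroup.centralizer ({F} : Set S.G), IsOfFinOrder g ↔
      IsOfFinOrder (g : S.G) := by
    intro g
    rw [isOfFinOrder_iff_pow_eq_one, isOfFinOrder_iff_pow_eq_one]
    constructor
    · rintro ⟨n, hn, hn'⟩
      refine ⟨n, hn, ?_⟩
      rw [← Subgroup.coe_pow, hn', Subgroup.coe_one]
    · rintro ⟨n, hn, hn'⟩
      refine ⟨n, hn, ?_⟩
      apply Subtype.ext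
      rw [Subgroup.coe_pow, hn', Subgroup.coe_one]
  obtain ⟨r1, r2⟩ := qhom_comm (C := Subgroup.centralizer ({F} : Set S.G))
    (fun g => b g) (fun g => S.M.d x ((g : S.G) • x)) 69 c.q (by norm_num) hq
    (fun g h => by
      have := hb1 g h ((memC g).1 g.2) ((memC h).1 h.2)
      simpa using this)
    (fun g => (hb2 g ((memC g).1 g.2)).1)
    (fun g => by
      have := (hb2 g ((memC g).1 g.2)).2
      simpa using this)
    (fun g h hg hh => by
      apply Subtype.ext
      rw [Subgroup.coe_mul, Subgroup.coe_mul]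
      have e1 := hdisp g c.b ((memC g).1 g.2)
      have e2 := hdisp h c.b ((memC h).1 h.2)
      refine P.A1 x (F ^ c.b • x) g h (hgr c.b) (by omega) ?_ (by omega) ?_
      · rw [e1]; omega
      · rw [e2]; omega)
    (fun g hg ht => by
      apply Subtype.ext
      rw [Subgroup.coe_one]
      have e1 := hdisp g c.b ((memC g).1 g.2)
      refine P.A2 x (F ^ c.b • x) g (hgr c.b) (by omega) ?_ ((hfin g).1 ht)
      rw [e1]; omega)
    (fun g hg j => by
      have := P.growth (g := (g : S.G)) (fun h => hg ((hfin g).2 h)) x j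
      simpa using this)
  constructor
  · intro g h hg hh
    have := r1 ⟨g, (memC g).2 (hcomm hg)⟩ ⟨h, (memC h).2 (hcomm hh)⟩
    exact congrArg Subtype.val this
  · intro g hg ht
    have := r2 ⟨g, (memC g).2 (hcomm hg)⟩ ((hfin _).2 ht)
    exact congrArg Subtype.val this

/-- centralizers of powers are commutative. Proof: `F = (g^k)^q`, minimal point `x` (`exists_minPt`), displacement
`≥ 6900`; `buse` gives `b` on `C = centralizer of F`, `L g = d(x,gx)`. Apply `qhom_comm` to `C`: (h3), (h4) from `A1`, `A2` at the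
points `x` and `F^N x`, `N` large (displacements at `F^N x` are the same). -/
theorem Sys.InP.cent_comm (P : S.InP c) {f : S.G} (hf : ¬ IsOfFinOrder f) {g h : S.G} {k : ℕ}
    (hk : 0 < k) (hg : g * f ^ k = f ^ k * g) (hh : h * f ^ k = f ^ k * h) : g * h = h * g :=
  (centB_core P hf hk).1 g h hg hh

/-- the centralizer of a nontrivial power is the centralizer -/
theorem Sys.InP.cent_zpow (P : S.InP c) {f : S.G} (hf : ¬ IsOfFinOrder f) {g : S.G} {k : ℤ}
    (hk : k ≠ 0) (hg : g * f ^ k = f ^ k * g) : g * f = f * g := by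
  have h1 : Commute g (f ^ k.natAbs) := by
    rcases Int.natAbs_eq k with h | h
    · have h2 : Commute g (f ^ k) := hg
      rw [h, zpow_natCast] at h2
      exact h2
    · have h2 : Commute g (f ^ k) := hg
      rw [h, zpow_neg, zpow_natCast] at h2
      exact (Commute.inv_right_iff).1 h2
  exact P.cent_comm hf (Int.natAbs_pos.2 hk) h1 (Commute.self_pow f _)

/-- no torsion commutes with a non-torsion element -/
theorem Sys.InP.cent_torsion (P : S.InP c) {f g : S.G} (hf : ¬ IsOfFinOrder f)
    (hg : IsOfFinOrder g) (hgf : g * f = f * g) : g = 1 := by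
  refine (centB_core P hf one_pos).2 g ?_ hg
  rw [pow_one]
  exact hgf

end BG
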