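import Pool.Agent.Helper76.BG.Defs

/-!
# BG08b: algebra: cyclicity
-/

set_option autoImplicit false

namespace BG

open Filter Topology in
/-- Abstract statement. A commutative group with a quasi-homomorphism `b : C → ℤ` such that `|b (g^k)|` grows at least
linearly (uniform rate) for every `g ≠ 1` is cyclic.
Proof: `β g = lim b (g^k) / k` (`Subadditive.tendsto_lim` for `k ↦ b (g^k) + e`) is a homomorphism `C → ℝ`, with
`|β g| ≥ 1/q` for `g ≠ 1`; so it is injective and its range is a subgroup of `ℝ` isolated at `0`, hence cyclic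
(`AddSubgroup.cyclic_of_isolated_zero`). -/
theorem qhom_cyclic {C : Type} [Group C] (hcomm : ∀ g h : C, g * h = h * g) (b : C → ℤ) (e q B : ℕ)
    (h1 : ∀ g h, |b (g * h) - b g - b h| ≤ e)
    (h2 : ∀ g : C, g ≠ 1 → ∀ k : ℕ, (k : ℤ) ≤ q * |b (g ^ k)| + B) :
    ∃ h : C, ∀ g : C, g ∈ Subgroup.zpowers h := by
  by_cases htriv : ∀ g : C, g = 1
  · exact ⟨1, fun g => by rw [htriv g]; exact Subgroup.one_mem _⟩
  push Not at htriv
  obtain ⟨g0, hg0⟩ := htriv
  have hq : 0 < q := by
    rcases Nat.eq_zero_or_pos q with h | h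
    · exfalso
      have := h2 g0 hg0 (B + 1)
      rw [h] at this
      push_cast at this
      linarith
    · exact h
  have hqR : (0 : ℝ) < q := by exact_mod_cast hq
  -- the sequence
  have hR : ∀ g h, |(b (g * h) : ℝ) - b g - b h| ≤ e := by
    intro g h
    exact_mod_cast h1 g h
  have hsub : ∀ g : C, Subadditive (fun k : ℕ => (b (g ^ k) : ℝ) + e) := by
    intro g m n
    have h := hR (g ^ m) (g ^ n)
    rw [← pow_add, abs_le] at h
    simp only
    linarith [h.2]
  have hlow : ∀ (g : C) (k : ℕ), |(b (g ^ k) : ℝ)| ≤ e + k * (|(b g : ℝ)| + e) := by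
    intro g k
    induction k with
    | zero =>
      have h := hR 1 1
      rw [mul_one, abs_le] at h
      rw [pow_zero, abs_le]
      push_cast
      constructor <;> linarith [h.1, h.2]
    | succ k ih =>
      have h := hR (g ^ k) g
      rw [← pow_succ] at h
      have h3 : |(b (g ^ (k + 1)) : ℝ)| ≤ |(b (g ^ (k + 1)) : ℝ) - b (g ^ k) - b g| + |(b (g ^ k) : ℝ)| + |(b g : ℝ)| := by
        have e1 : (b (g ^ (k + 1)) : ℝ) = ((b (g ^ (k + 1)) : ℝ) - b (g ^ k) - b g) + b (g ^ k) + b g := by ring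
        calc |(b (g ^ (k + 1)) : ℝ)| = |((b (g ^ (k + 1)) : ℝ) - b (g ^ k) - b g) + b (g ^ k) + b g| := by
              rw [← e1]
          _ ≤ |((b (g ^ (k + 1)) : ℝ) - b (g ^ k) - b g) + b (g ^ k)| + |(b g : ℝ)| := abs_add_le _ _
          _ ≤ _ := by
              have := abs_add_le ((b (g ^ (k + 1)) : ℝ) - b (g ^ k) - b g) (b (g ^ k))
              linarith
      push_cast
      linarith
  have hbdd : ∀ g : C, BddBelow (Set.range fun k : ℕ => ((b (g ^ k) : ℝ) + e) / k) := by
    intro g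
    refine ⟨-(|(b g : ℝ)| + 2 * e), ?_⟩
    rintro x ⟨k, rfl⟩
    rcases Nat.eq_zero_or_pos k with hk | hk
    · rw [hk]
      simp only [Nat.cast_zero, div_zero]
      have := abs_nonneg (b g : ℝ)
      have h3 : (0 : ℝ) ≤ e := by positivity
      linarith
    · have hk1 : (1 : ℝ) ≤ k := by exact_mod_cast hk
      have hk' : (0 : ℝ) < k := by linarith
      show _ ≤ ((b (g ^ k) : ℝ) + e) / k
      rw [le_div_iff₀ hk']
      have h4 := hlow g k
      rw [abs_le] at h4
      have h3 : (0 : ℝ) ≤ e := by positivity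
      have h5 : (e : ℝ) ≤ e * k := by nlinarith
      nlinarith [h4.1]
  have hlim : ∀ g : C, ∃ x : ℝ, Tendsto (fun k : ℕ => (b (g ^ k) : ℝ) / k) atTop (𝓝 x) := by
    intro g
    refine ⟨(hsub g).lim, ?_⟩
    have h3 := (hsub g).tendsto_lim (hbdd g)
    have h4 : Tendsto (fun k : ℕ => (e : ℝ) / k) atTop (𝓝 0) := tendsto_const_div_atTop_nhds_zero_nat _
    have h5 := h3.sub h4
    rw [sub_zero] at h5
    refine h5.congr fun k => ?_
    rw [← sub_div]
    simp
  choose β hβ using hlim
  have hadd : ∀ g h : C, β (g * h) = β g + β h := by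
    intro g h
    have e1 : Tendsto (fun k : ℕ => (b (g ^ k) : ℝ) / k + (b (h ^ k) : ℝ) / k) atTop (𝓝 (β g + β h)) :=
      (hβ g).add (hβ h)
    have e2 : Tendsto (fun k : ℕ => (b ((g * h) ^ k) : ℝ) / k - ((b (g ^ k) : ℝ) / k + (b (h ^ k) : ℝ) / k)) atTop
        (𝓝 0) := by
      have h4 : Tendsto (fun k : ℕ => (e : ℝ) / k) atTop (𝓝 0) := tendsto_const_div_atTop_nhds_zero_nat _
      refine squeeze_zero_norm (fun k => ?_) h4
      rw [Real.norm_eq_abs, ← add_div, ← sub_div, abs_div, Nat.abs_cast]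
      have h5 : (g * h) ^ k = g ^ k * h ^ k := (show Commute g h from hcomm g h).mul_pow k
      rw [h5]
      have h6 := hR (g ^ k) (h ^ k)
      have h7 : (b (g ^ k * h ^ k) : ℝ) - (b (g ^ k) + b (h ^ k)) = b (g ^ k * h ^ k) - b (g ^ k) - b (h ^ k) := by
        ring
      rw [h7]
      exact div_le_div_of_nonneg_right h6 (by positivity)
    have e3 := (hβ (g * h)).sub e1
    have e4 := tendsto_nhds_unique e2 e3
    linarith
  have hbig : ∀ g : C, g ≠ 1 → 1 / (q : ℝ) ≤ |β g| := by
    intro g hg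
    have e1 : Tendsto (fun k : ℕ => |(b (g ^ k) : ℝ) / k|) atTop (𝓝 |β g|) := (hβ g).abs
    have e2 : Tendsto (fun k : ℕ => (1 - (B : ℝ) / k) / q) atTop (𝓝 ((1 - 0) / q)) := by
      have h4 : Tendsto (fun k : ℕ => (B : ℝ) / k) atTop (𝓝 0) := tendsto_const_div_atTop_nhds_zero_nat _
      exact (tendsto_const_nhds.sub h4).div_const _
    rw [sub_zero] at e2
    refine le_of_tendsto_of_tendsto e2 e1 ?_
    filter_upwards [eventually_gt_atTop 0] with k hk
    have hk' : (0 : ℝ) < k := by exact_mod_cast hk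
    rw [abs_div, Nat.abs_cast, div_le_iff₀ hqR, div_mul_eq_mul_div, le_div_iff₀ hk']
    have h5 : (k : ℝ) ≤ q * |(b (g ^ k) : ℝ)| + B := by exact_mod_cast h2 g hg k
    have h6 : (1 - (B : ℝ) / k) * k = k - B := by field_simp
    rw [h6]
    linarith
  -- the homomorphism
  have hβ1 : β 1 = 0 := by
    have := hadd 1 1
    rw [mul_one] at this
    linarith
  let f : Additive C →+ ℝ :=
    { toFun := fun g => β g.toMul
      map_zero' := hβ1
      map_add' := fun g h => hadd g.toMul h.toMul }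
  have hf : ∀ g : C, f (Additive.ofMul g) = β g := fun g => rfl
  have hinj : ∀ g h : C, β g = β h → g = h := by
    intro g h hgh
    by_contra hne
    have h3 : g * h⁻¹ ≠ 1 := by
      intro h4
      exact hne (mul_inv_eq_one.1 h4)
    have h4 := hbig _ h3
    have h5 : β (g * h⁻¹) = 0 := by
      have h6 := hadd h h⁻¹
      rw [mul_inv_cancel, hβ1] at h6
      rw [hadd]
      linarith
    rw [h5, abs_zero] at h4
    have : 0 < 1 / (q : ℝ) := by positivity
    linarith
  have hiso : Disjoint (f.range : Set ℝ) (Set.Ioo 0 (1 / (q : ℝ))) := by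
    rw [Set.disjoint_left]
    rintro x ⟨g, rfl⟩ ⟨hx1, hx2⟩
    have h3 : g.toMul ≠ 1 := by
      intro h4
      have : f g = 0 := by
        show β g.toMul = 0
        rw [h4, hβ1]
      linarith
    have h4 := hbig _ h3
    have h5 : β g.toMul = f g := rfl
    rw [h5, abs_of_pos hx1] at h4
    linarith
  obtain ⟨c, hc⟩ := AddSubgroup.cyclic_of_isolated_zero (by positivity : 0 < 1 / (q : ℝ)) hiso
  have hcm : c ∈ f.range := by
    rw [hc]
    exact AddSubgroup.subset_closure rfl
  obtain ⟨h, hh⟩ := hcm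
  refine ⟨h.toMul, fun g => ?_⟩
  have hg : f (Additive.ofMul g) ∈ AddSubgroup.closure {c} := by
    rw [← hc]
    exact ⟨_, rfl⟩
  rw [AddSubgroup.mem_closure_singleton] at hg
  obtain ⟨n, hn⟩ := hg
  rw [Subgroup.mem_zpowers_iff]
  refine ⟨n, hinj _ _ ?_⟩
  have h3 : f (n • h) = f (Additive.ofMul g) := by
    rw [map_zsmul, hh, hn]
  exact h3

end BG
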