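import Pool.Agent.Helper76.BG.CentB
import Pool.Agent.Helper76.BG.QHomB

/-!
# BG09c: the class `P`: centralizers are cyclic, malnormality
-/

set_option autoImplicit false

namespace BG

variable {c : Cst} {S : Sys}

/-- the centralizer of a non-torsion element is infinite cyclic (`qhom_cyclic`) -/
theorem Sys.InP.cent_cyclic (P : S.InP c) {f : S.G} (hf : ¬ IsOfFinOrder f) :
    ∃ h : S.G, ¬ IsOfFinOrder h ∧ f ∈ Subgroup.zpowers h ∧
      ∀ g : S.G, g * f = f * g ↔ g ∈ Subgroup.zpowers h := by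
  haveI : Nonempty S.X := ⟨S.pt⟩
  obtain ⟨x, hx⟩ := exists_minPt (M := S.M) (f ^ c.q)
  have hdisp : 6900 ≤ S.M.d x (f ^ c.q • x) := by
    rcases P.T f with h | h
    · exact (hf h).elim
    · exact h x
  obtain ⟨b, hb1, hb2⟩ := buse S.isoAct P.hyp hx (by omega)
  have hcF : ∀ g : S.G, g * f = f * g → g * f ^ c.q = f ^ c.q * g := by
    intro g hg
    exact (show Commute g f from hg).pow_right c.q
  have hmem : ∀ g : Subgroup.centralizer ({f} : Set S.G), (g : S.G) * f = f * g := by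
    intro g
    exact (Subgroup.mem_centralizer_singleton_iff.1 g.2)
  have hcomm : ∀ g h : Subgroup.centralizer ({f} : Set S.G), g * h = h * g := by
    intro g h
    apply Subtype.ext
    have hg := hmem g
    have hh := hmem h
    exact P.cent_comm (k := 1) hf one_pos (by rw [pow_one]; exact hg) (by rw [pow_one]; exact hh)
  obtain ⟨h, hh⟩ := qhom_cyclic hcomm (fun g => b (g : S.G)) (8 * 69) c.q (c.q * (16 * 69)) (by
    intro g k
    have := hb1 (g : S.G) (k : S.G) (hcF _ (hmem g)) (hcF _ (hmem k))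
    simpa using this) (by
    intro g hg k
    have hgt : ¬ IsOfFinOrder (g : S.G) := by
      intro ht
      exact hg (Subtype.ext (P.cent_torsion hf ht (hmem g)))
    have h1 := P.growth hgt x k
    have h2 := (hb2 ((g : S.G) ^ k) (by
      exact (show Commute (g : S.G) (f ^ c.q) from hcF _ (hmem g)).pow_left k)).2
    have h3 : ((94 * 69 * k : ℕ) : ℤ) ≤ ((c.q * S.M.d x ((g : S.G) ^ k • x) : ℕ) : ℤ) := by
      exact_mod_cast h1
    have h4 : (c.q : ℤ) * (S.M.d x ((g : S.G) ^ k • x) : ℤ) ≤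
        (c.q : ℤ) * (|b ((g : S.G) ^ k)| + 16 * 69) :=
      mul_le_mul_of_nonneg_left (by exact_mod_cast h2) (by positivity)
    have h5 : (k : ℤ) ≤ 94 * 69 * k := by
      have : (0 : ℤ) ≤ k := by positivity
      linarith
    push_cast at h3 ⊢
    have h6 : (c.q : ℤ) * (|b ((g : S.G) ^ k)| + 16 * 69) =
        c.q * |b ((g : S.G) ^ k)| + c.q * (16 * 69) := by ring
    linarith)
  have hfC : f ∈ Subgroup.centralizer ({f} : Set S.G) :=
    Subgroup.mem_centralizer_singleton_iff.2 rfl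
  have key : ∀ g : S.G, g * f = f * g ↔ g ∈ Subgroup.zpowers (h : S.G) := by
    intro g
    constructor
    · intro hg
      obtain ⟨i, hi⟩ := Subgroup.mem_zpowers_iff.1
        (hh ⟨g, Subgroup.mem_centralizer_singleton_iff.2 hg⟩)
      refine Subgroup.mem_zpowers_iff.2 ⟨i, ?_⟩
      have := congrArg Subtype.val hi
      simpa using this
    · intro hg
      obtain ⟨i, hi⟩ := Subgroup.mem_zpowers_iff.1 hg
      rw [← hi]
      exact (show Commute (h : S.G) f from hmem h).zpow_left i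
  have hfh : f ∈ Subgroup.zpowers (h : S.G) := (key f).1 rfl
  refine ⟨h, ?_, hfh, key⟩
  intro ht
  obtain ⟨i, hi⟩ := Subgroup.mem_zpowers_iff.1 hfh
  exact hf (hi ▸ ht.zpow)

/-- malnormality of maximal cyclic subgroups. `h` non-torsion with centralizer `⟨h⟩`. If `g h^i g⁻¹ = h^j` with `i ≠ 0`, then
`g ∈ ⟨h⟩`. Proof: `j ≠ 0`; `g h g⁻¹` commutes with `h^j`, so it commutes with `h`, so `g h g⁻¹ = h^l`; similarly
`g⁻¹ h g = h^l'`; `l l' = 1`. If `l = 1`, done. If `l = -1`: `g²` commutes with `h`, `g² = h^r`, `g h^r g⁻¹ = h^r` and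
`= h^(-r)`, so `r = 0`, `g² = 1`, `g` torsion, so `g^(3^k) = 1` by `O` and `g = 1`. -/
theorem Sys.InP.malnormal (P : S.InP c) {h : S.G} (hh : ¬ IsOfFinOrder h)
    (hc : ∀ g : S.G, g * h = h * g → g ∈ Subgroup.zpowers h) {g : S.G} {i j : ℤ} (hi : i ≠ 0)
    (hg : g * h ^ i * g⁻¹ = h ^ j) : g ∈ Subgroup.zpowers h := by
  have hinj : ∀ k : ℤ, h ^ k = 1 → k = 0 := by
    intro k hk
    by_contra hne
    exact hh (isOfFinOrder_iff_zpow_eq_one.2 ⟨k, hne, hk⟩)
  have hconj : ∀ k : ℤ, (g * h * g⁻¹) ^ k = g * h ^ k * g⁻¹ := fun k => conj_zpow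
  have hconj' : ∀ k : ℤ, (g⁻¹ * h * g) ^ k = g⁻¹ * h ^ k * g := by
    intro k
    have := conj_zpow (i := k) (a := g⁻¹) (b := h)
    simpa using this
  have hj : j ≠ 0 := by
    intro h0
    rw [h0, zpow_zero] at hg
    have h1 : h ^ i = 1 := by
      have := congrArg (fun t => g⁻¹ * t * g) hg
      simpa [mul_assoc] using this
    exact hi (hinj i h1)
  have hg' : g⁻¹ * h ^ j * g = h ^ i := by
    rw [← hg]
    group
  -- `u = g h g⁻¹`
  have hu : g * h * g⁻¹ * h = h * (g * h * g⁻¹) := by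
    refine P.cent_zpow hh hj ?_
    rw [← hg, ← hconj]
    exact (Commute.refl (g * h * g⁻¹)).zpow_right i
  have hv : g⁻¹ * h * g * h = h * (g⁻¹ * h * g) := by
    refine P.cent_zpow hh hi ?_
    rw [← hg', ← hconj']
    exact (Commute.refl (g⁻¹ * h * g)).zpow_right j
  obtain ⟨l, hl⟩ := Subgroup.mem_zpowers_iff.1 (hc _ hu)
  obtain ⟨l', hl'⟩ := Subgroup.mem_zpowers_iff.1 (hc _ hv)
  have h1 : h ^ (l' * l) = h := by
    rw [zpow_mul, hl', hconj', hl]
    group
  have h2 : l' * l = 1 := by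
    have h3 : h ^ (l' * l - 1) = 1 := by
      rw [zpow_sub, h1, zpow_one, mul_inv_cancel]
    have := hinj _ h3
    omega
  rcases Int.isUnit_iff.1 (IsUnit.of_mul_eq_one_right l' h2) with h3 | h3
  · refine hc g ?_
    rw [h3, zpow_one] at hl
    have := congrArg (fun t => t * g) hl
    simpa [mul_assoc] using this.symm
  · rw [h3, zpow_neg, zpow_one] at hl
    -- `g h g⁻¹ = h⁻¹`
    have h4 : g * h = h⁻¹ * g := by
      have := congrArg (fun t => t * g) hl
      simpa [mul_assoc] using this.symm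
    have h4' : g * h⁻¹ = h * g := by
      have := congrArg (fun t => h * t * h⁻¹) h4
      simpa [mul_assoc] using this.symm
    have h5 : g ^ 2 * h = h * g ^ 2 := by
      rw [pow_two, mul_assoc, h4, ← mul_assoc, h4', mul_assoc]
    obtain ⟨r, hr⟩ := Subgroup.mem_zpowers_iff.1 (hc _ h5)
    have h6 : g * h ^ r * g⁻¹ = h ^ r := by
      rw [hr]
      group
    have h7 : g * h ^ r * g⁻¹ = h ^ (-r) := by
      rw [← hconj, ← hl, inv_zpow']
    have h8 : h ^ (r + r) = 1 := by
      have h9 : h ^ r = h ^ (-r) := h6.symm.trans h7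
      rw [zpow_add]
      nth_rewrite 1 [h9]
      rw [zpow_neg, inv_mul_cancel]
    have h9 : r = 0 := by
      have := hinj _ h8
      omega
    rw [h9, zpow_zero] at hr
    have hg2 : g ^ 2 = 1 := hr.symm
    have hgt : IsOfFinOrder g := isOfFinOrder_iff_pow_eq_one.2 ⟨2, by norm_num, hg2⟩
    obtain ⟨k, hk⟩ := P.O g hgt
    have hodd : Odd (3 ^ k) := Odd.pow (by decide)
    obtain ⟨s, hs⟩ := hodd
    rw [hs, pow_add, pow_mul, hg2, one_pow, one_mul, pow_one] at hk
    rw [hk]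
    exact Subgroup.one_mem _

end BG
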