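import Pool.Agent.Helper76.BG.KilledGeo

/-!
# BG12: the cone-off graph

Vertices: the points of `X` and the members of the killed family (apexes). Edges: `x ~ x'` if `0 < d x x' ≤ ρ`;
`x ~ E` if `x` is in the quasi-axis of `E`.
-/

set_option autoImplicit false

namespace BG

/-- graph metric of a connected graph -/
noncomputable def GMet.ofGraph {V : Type} (Γ : SimpleGraph V) (h : Γ.Connected) : GMet V where
  d := Γ.dist
  self := by
    intro x
    exact SimpleGraph.dist_self
  eq_of := by
    intro x y hxy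
    exact h.dist_eq_zero_iff.1 hxy
  symm := by
    intro x y
    exact SimpleGraph.dist_comm
  tri := by
    intro x y z
    exact h.dist_triangle
  geo := by
    intro x y k hk
    obtain ⟨p, hp⟩ := h.exists_walk_length_eq_dist x y
    have h1 : Γ.dist x (p.getVert k) ≤ k := by
      refine (Γ.dist_le (p.take k)).trans ?_
      rw [SimpleGraph.Walk.take_length]
      exact min_le_left _ _
    have h2 : Γ.dist (p.getVert k) y ≤ Γ.dist x y - k := by
      refine (Γ.dist_le (p.drop k)).trans ?_
      rw [SimpleGraph.Walk.drop_length, hp]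
    have h3 : Γ.dist x y ≤ Γ.dist x (p.getVert k) + Γ.dist (p.getVert k) y := h.dist_triangle
    exact ⟨p.getVert k, by omega, by omega⟩

namespace Sys

variable (S : Sys) (c : Cst)

/-- the vertex set of the cone-off -/
abbrev Z : Type := S.X ⊕ S.Killed c.K

variable {S c} in
/-- adjacency -/
def coneAdj : S.Z c → S.Z c → Prop
  | Sum.inl x, Sum.inl y => x ≠ y ∧ S.M.d x y ≤ c.ρ
  | Sum.inl x, Sum.inr E => x ∈ ax c.q E
  | Sum.inr E, Sum.inl x => x ∈ ax c.q E
  | Sum.inr _, Sum.inr _ => False

/-- the cone-off graph -/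
def coneGraph : SimpleGraph (S.Z c) where
  Adj := coneAdj
  symm := by
    refine ⟨?_⟩
    rintro (x | E) (y | F) h
    · exact ⟨fun e => h.1 e.symm, by rw [S.M.symm]; exact h.2⟩
    · exact h
    · exact h
    · exact h
  loopless := by
    refine ⟨?_⟩
    rintro (x | E) h
    · exact h.1 rfl
    · exact h

private theorem cone_reach (x y : S.X) :
    (S.coneGraph c).Reachable (Sum.inl x) (Sum.inl y) := by
  have hρ : 1 ≤ c.ρ := by
    have := c.ρ_ge
    omega
  have key : ∀ k : ℕ, ∀ x y : S.X, S.M.d x y = k →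
      (S.coneGraph c).Reachable (Sum.inl x) (Sum.inl y) := by
    intro k
    induction k with
    | zero =>
      intro x y hxy
      rw [S.M.eq_of x y hxy]
    | succ k ih =>
      intro x y hxy
      obtain ⟨z, hz1, hz2⟩ := S.M.geo x y k (by omega)
      refine (ih x z hz1).trans ?_
      apply SimpleGraph.Adj.reachable
      refine ⟨?_, by omega⟩
      intro hzy
      rw [hzy, S.M.self] at hz2
      omega
  exact key _ x y rfl

theorem cone_connected : (S.coneGraph c).Connected := by
  have hax : ∀ E : S.Killed c.K, ∃ x : S.X, (S.coneGraph c).Reachable (Sum.inl x) (Sum.inr E) := by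
    intro E
    obtain ⟨x, hx⟩ := ax_nonempty c.q E
    exact ⟨x, SimpleGraph.Adj.reachable (G := S.coneGraph c) (u := Sum.inl x) (v := Sum.inr E) hx⟩
  have : Nonempty (S.Z c) := ⟨Sum.inl S.pt⟩
  refine SimpleGraph.Connected.mk ?_
  rintro (x | E) (y | F)
  · exact S.cone_reach c x y
  · obtain ⟨z, hz⟩ := hax F
    exact (S.cone_reach c x z).trans hz
  · obtain ⟨z, hz⟩ := hax E
    exact hz.symm.trans (S.cone_reach c z y)
  · obtain ⟨z, hz⟩ := hax E
    obtain ⟨z', hz'⟩ := hax F
    exact hz.symm.trans ((S.cone_reach c z z').trans hz')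

/-- the cone-off metric -/
noncomputable def C : GMet (S.Z c) := GMet.ofGraph (S.coneGraph c) (S.cone_connected c)

variable {S c}

theorem C_adj (u v : S.Z c) : (S.C c).d u v = 1 ↔ coneAdj u v :=
  SimpleGraph.dist_eq_one_iff_adj

private theorem adj_smul (g : S.G) {u v : S.Z c} (h : coneAdj u v) : coneAdj (g • u) (g • v) := by
  rcases u with x | E <;> rcases v with y | F
  · refine ⟨fun e => h.1 (MulAction.injective g e), ?_⟩
    rw [S.iso]
    exact h.2
  · exact (smul_mem_ax c.q g F x).2 h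
  · exact (smul_mem_ax c.q g E y).2 h
  · exact h

private theorem C_smul_le (g : S.G) (u v : S.Z c) : (S.C c).d (g • u) (g • v) ≤ (S.C c).d u v := by
  obtain ⟨p, hp⟩ := (S.cone_connected c).exists_walk_length_eq_dist u v
  let f : (S.coneGraph c) →g (S.coneGraph c) := ⟨fun w => g • w, fun {a b} hab => adj_smul g hab⟩
  have h1 := (S.coneGraph c).dist_le (p.map f)
  rw [SimpleGraph.Walk.length_map, hp] at h1
  exact h1

theorem C_iso (g : S.G) (u v : S.Z c) : (S.C c).d (g • u) (g • v) = (S.C c).d u v := by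
  refine le_antisymm (C_smul_le g u v) ?_
  have := C_smul_le g⁻¹ (g • u) (g • v)
  rwa [inv_smul_smul, inv_smul_smul] at this

/-- a chain of points at distance `≤ ρ` -/
theorem C_le (x y : S.X) (k : ℕ) (h : S.M.d x y ≤ k * c.ρ) :
    (S.C c).d (Sum.inl x) (Sum.inl y) ≤ k := by
  induction k generalizing y with
  | zero =>
    have h0 : S.M.d x y = 0 := by omega
    rw [S.M.eq_of x y h0, (S.C c).self]
  | succ k ih =>
    by_cases hk : S.M.d x y ≤ k * c.ρ
    · exact (ih y hk).trans (Nat.le_succ k)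
    · obtain ⟨z, hz1, hz2⟩ := S.M.geo x y (k * c.ρ) (by omega)
      have h1 := ih z (le_of_eq hz1)
      have h2 : (S.C c).d (Sum.inl z) (Sum.inl y) = 1 := by
        rw [C_adj]
        refine ⟨?_, ?_⟩
        · intro hzy
          rw [hzy, S.M.self] at hz2
          omega
        · rw [Nat.succ_mul] at h
          omega
      have h3 := (S.C c).tri (Sum.inl x) (Sum.inl z) (Sum.inl y)
      omega

/-- hence `ρ (d̂ - 1) ≤ d` -/
theorem C_ge (x y : S.X) : c.ρ * (S.C c).d (Sum.inl x) (Sum.inl y) ≤ S.M.d x y + c.ρ := by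
  have hρ : 0 < c.ρ := by
    have := c.ρ_ge
    omega
  have h1 : S.M.d x y ≤ (S.M.d x y / c.ρ + 1) * c.ρ := by
    have := Nat.lt_div_mul_add (a := S.M.d x y) hρ
    rw [Nat.add_mul, Nat.one_mul]
    omega
  have h2 := C_le x y _ h1
  have h3 := Nat.mul_le_mul_left c.ρ h2
  have h4 := Nat.mul_div_le (S.M.d x y) c.ρ
  rw [Nat.mul_add, Nat.mul_one] at h3
  omega

theorem C_ax {x : S.X} {E : S.Killed c.K} (h : x ∈ ax c.q E) :
    (S.C c).d (Sum.inl x) (Sum.inr E) = 1 :=
  (C_adj _ _).2 h

theorem C_inr_inr (E F : S.Killed c.K) : (S.C c).d (Sum.inr E) (Sum.inr F) ≠ 1 :=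
  fun h => (C_adj _ _).1 h

/-- if `x` is at `C`-distance at least 3 from the apex then it is further than `ρ` from the quasi-axis -/
theorem C_far {x : S.X} {E : S.Killed c.K} (h : 3 ≤ (S.C c).d (Sum.inl x) (Sum.inr E)) {y : S.X}
    (hy : y ∈ ax c.q E) : c.ρ < S.M.d x y := by
  by_contra hcon
  have h1 := C_le (c := c) x y 1 (by omega)
  have h2 := C_ax hy
  have h3 := (S.C c).tri (Sum.inl x) (Sum.inl y) (Sum.inr E)
  omega

/-- near the quasi-axis -/
theorem C_near {x : S.X} {E : S.Killed c.K} {y : S.X} (hy : y ∈ ax c.q E) (h : S.M.d x y ≤ c.ρ) :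
    (S.C c).d (Sum.inl x) (Sum.inr E) ≤ 2 := by
  have h1 := C_le (c := c) x y 1 (by omega)
  have h2 := C_ax hy
  have h3 := (S.C c).tri (Sum.inl x) (Sum.inl y) (Sum.inr E)
  omega

end Sys
end BG
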