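import Mathlib

/-!
# Project BG: definitions

Graph-like metrics, hyperbolicity, the constants, the class `InP` of acting groups.
-/

set_option autoImplicit false

namespace BG

/-- A graph-like metric with values in `ℕ`: a metric in which all intermediate distances occur. -/
structure GMet (X : Type) where
  d : X → X → ℕ
  self : ∀ x, d x x = 0
  eq_of : ∀ x y, d x y = 0 → x = y
  symm : ∀ x y, d x y = d y x
  tri : ∀ x y z, d x z ≤ d x y + d y z
  geo : ∀ x y k, k ≤ d x y → ∃ z, d x z = k ∧ d z y = d x y - k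

namespace GMet

variable {X : Type} (M : GMet X)

/-- `p` lies between `x` and `y`. -/
def Btw (x p y : X) : Prop := M.d x p + M.d p y = M.d x y

/-- `p` is almost between `x` and `y`, with slack `s`. -/
def Slk (s : ℕ) (x p y : X) : Prop := M.d x p + M.d p y ≤ M.d x y + s

/-- four point hyperbolicity -/
def Hyp (δ : ℕ) : Prop :=
  ∀ x y z t, M.d x y + M.d z t ≤ M.d x z + M.d y t + 2 * δ ∨
    M.d x y + M.d z t ≤ M.d x t + M.d y z + 2 * δ

/-- exact thinness of triangles -/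
def Thin (e : ℕ) : Prop :=
  ∀ x y z p, M.Btw x p y →
    M.d x p + M.d p z ≤ M.d x z + 2 * e ∨ M.d y p + M.d p z ≤ M.d y z + 2 * e

/-- `w` restricted to `0, …, m` is a geodesic from `x` to `y`. -/
def IsGeo (w : ℕ → X) (m : ℕ) (x y : X) : Prop :=
  w 0 = x ∧ w m = y ∧ ∀ i j, i ≤ j → j ≤ m → M.d (w i) (w j) = j - i

/-- the germ at `c` towards `z`: neighbours of `c` which are nearer to `z` -/
def Germ (c z : X) : Set X := {y | M.d c y = 1 ∧ M.d y z + 1 = M.d c z}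

/-- `c` cuts `z` from `w`: every geodesic from `z` to `w` passes through `c` -/
def Cut (c z w : X) : Prop :=
  M.Btw z c w ∧ ∀ u, M.Btw z u w → M.d z u = M.d z c → u = c

/-- `q` is a nearest point projection of `x` to the set `Y` -/
def IsProj (Y : Set X) (x q : X) : Prop := q ∈ Y ∧ ∀ y ∈ Y, M.d x q ≤ M.d x y

/-- quasi-convexity -/
def QConv (Y : Set X) (σ : ℕ) : Prop :=
  ∀ y ∈ Y, ∀ y' ∈ Y, ∀ p, M.Btw y p y' → ∃ q ∈ Y, M.d p q ≤ σ

end GMet

/-- The group `G` acts by isometries. -/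
def IsoAct (G : Type) {X : Type} [Group G] [MulAction G X] (M : GMet X) : Prop :=
  ∀ (g : G) (x y : X), M.d (g • x) (g • y) = M.d x y

/-- `p` is a point of minimal displacement for `f` -/
def MinPt {G X : Type} [Group G] [MulAction G X] (M : GMet X) (f : G) (p : X) : Prop :=
  ∀ z, M.d p (f • p) ≤ M.d z (f • z)

/-- The word `v(x,y) = x^(m+1) y⁻¹ x^(-m) y`. -/
def vw {G : Type} [Group G] (m : ℕ) (x y : G) : G := x ^ (m + 1) * y⁻¹ * (x ^ m)⁻¹ * y

/-- The constants. -/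
structure Cst where
  b : ℕ
  K : ℕ
  ρ : ℕ
  q : ℕ
  n : ℕ
  m : ℕ
  A : ℕ
  t : ℕ
  n_eq : n = 3 ^ t
  t_pos : 1 ≤ t
  m_mod : m % 3 = 1
  A_pos : 1 ≤ A
  A_lt : A < m
  m_lt : 2 * A * m + A < n
  K_ge : 100 * b + 10 ^ 8 ≤ K
  ρ_ge : b + 6 * K + 10 ^ 7 ≤ ρ
  ρ_le : ρ ≤ 10 * K
  q_ge : 4 * 10 ^ 7 ≤ q
  b_ge : 10 ^ 10 * q ≤ b
  n_ge : q * (1200000000 * ρ) ≤ 94 * 69 * n
  A_ge : q * (720 * ρ) ≤ 94 * 69 * A

/-- A group acting by isometries on a graph-like metric space with a base point. -/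
structure Sys where
  G : Type
  X : Type
  [grp : Group G]
  [act : MulAction G X]
  M : GMet X
  iso : ∀ (g : G) (x y : X), M.d (g • x) (g • y) = M.d x y
  pt : X

attribute [instance] Sys.grp Sys.act

/-- The class `P` of acting groups (here `69` is the universal hyperbolicity constant, `13800 = 200 * 69`,
`6900 = 100 * 69`). -/
structure Sys.InP (c : Cst) (S : Sys) : Prop where
  hyp : S.M.Hyp 69
  T : ∀ g : S.G, IsOfFinOrder g ∨ ∀ x, 6900 ≤ S.M.d x (g ^ c.q • x)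
  A1 : ∀ (x y : S.X) (g h : S.G), c.b ≤ S.M.d x y →
    S.M.d x (g • x) ≤ 13800 → S.M.d y (g • y) ≤ 13800 →
    S.M.d x (h • x) ≤ 13800 → S.M.d y (h • y) ≤ 13800 → g * h = h * g
  A2 : ∀ (x y : S.X) (g : S.G), c.b ≤ S.M.d x y →
    S.M.d x (g • x) ≤ 13800 → S.M.d y (g • y) ≤ 13800 → IsOfFinOrder g → g = 1
  O : ∀ g : S.G, IsOfFinOrder g → ∃ k, g ^ 3 ^ k = 1
  C1 : ∀ g : S.G, IsOfFinOrder g → g ≠ 1 → {x : S.G | x * g = g * x}.Finite
  C2 : ∀ g : S.G, IsOfFinOrder g → g ≠ 1 → ∀ x y, x * g = g * x → y * g = g * y → x * y = y * x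
  V : ∀ x y : S.G, IsOfFinOrder x →
    x * y = y * x ∨ (vw c.m x y) ^ c.n = 1 ∨ ¬ IsOfFinOrder (vw c.m x y)

end BG
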