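import Pool.Agent.Helper76.BG.Limit
import Pool.Agent.Helper76.BG.CstInst

/-!
# BG54: the answer
-/

set_option autoImplicit false

namespace BG

/-- The class `V(w^*)`. -/
def InStar {n : ℕ} (w : FreeGroup (Fin n)) (G : Type) [Group G] : Prop :=
  ∀ S : Fin n → Set G, (∀ i, (S i).Infinite) →
    ∃ s : Fin n → G, (∀ i, s i ∈ S i) ∧ FreeGroup.lift s w = 1

/-- The variety `V(w)`. -/
def InVariety {n : ℕ} (w : FreeGroup (Fin n)) (G : Type) [Group G] : Prop :=
  ∀ s : Fin n → G, FreeGroup.lift s w = 1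

/-- The class `V(w^#)`. -/
def InSharp {n : ℕ} (w : FreeGroup (Fin n)) (G : Type) [Group G] : Prop :=
  ∀ S : Fin n → Set G, (∀ i, (S i).Infinite) →
    ∃ s : Fin n → G, (∀ i, s i ∈ S i) ∧ InVariety w (Subgroup.closure (Set.range s))

private theorem lift_w {G : Type} [Group G] (m n : ℕ) (s : Fin 2 → G) :
    FreeGroup.lift s ((vw m (FreeGroup.of 0) (FreeGroup.of 1)) ^ n) = (vw m (s 0) (s 1)) ^ n := by
  simp [vw]

private theorem conj_infinite {G : Type} [Group G] [Infinite G] {a : G}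
    (ha : {y : G | y * a = a * y}.Finite) : (Set.range fun g : G => g * a * g⁻¹).Infinite := by
  intro hfin
  have hfib : ∀ x ∈ (fun g : G => g * a * g⁻¹) '' Set.univ,
      (Set.univ ∩ (fun g : G => g * a * g⁻¹) ⁻¹' {x}).Finite := by
    rintro _ ⟨g0, -, rfl⟩
    refine (ha.image fun y => g0 * y).subset ?_
    rintro g ⟨-, hg⟩
    refine ⟨g0⁻¹ * g, ?_, by group⟩
    have hg' : g * a * g⁻¹ = g0 * a * g0⁻¹ := hg
    have h1 : g * a = g0 * a * g0⁻¹ * g := by
      rw [← hg']
      group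
    calc g0⁻¹ * g * a = g0⁻¹ * (g * a) := by group
      _ = g0⁻¹ * (g0 * a * g0⁻¹ * g) := by rw [h1]
      _ = a * (g0⁻¹ * g) := by group
  have h2 : (Set.univ : Set G).Finite :=
    Set.Finite.of_finite_fibers (fun g : G => g * a * g⁻¹) (by rwa [Set.image_univ]) hfib
  exact Set.infinite_univ h2

/-- Proof. `w = v(x0, x1)^n`. `InStar`: take `s0 ∈ S 0`, `s0 ≠ 1`, and `s1 ∈ S 1` not in the finite centralizer of `s0`. Not `InSharp`: `S 0 = S 1 =` the conjugacy class of `a`, which is infinite (centralizer of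
`a` finite, `G` infinite); for `s0` in it, `w (s0, 1) = s0^n ≠ 1` in the subgroup. -/
theorem answer : ∃ (w : FreeGroup (Fin 2)) (G : Type) (_ : Group G), Infinite G ∧ InStar w G ∧
    ¬ InSharp w G := by
  obtain ⟨G, hG, a, hinf, han, hcent, hV⟩ := exists_limit cst0
  refine ⟨(vw cst0.m (FreeGroup.of 0) (FreeGroup.of 1)) ^ cst0.n, G, hG, hinf, ?_, ?_⟩
  · intro S hS
    obtain ⟨s0, hs0, hs1⟩ : ∃ x ∈ S 0, x ≠ 1 := by
      obtain ⟨x, hx⟩ := ((hS 0).diff (Set.finite_singleton 1)).nonempty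
      exact ⟨x, hx.1, fun h => hx.2 h⟩
    obtain ⟨s1, hs2, hs3⟩ : ∃ y ∈ S 1, ¬ y * s0 = s0 * y := by
      obtain ⟨y, hy⟩ := ((hS 1).diff (hcent s0 hs1)).nonempty
      exact ⟨y, hy.1, fun h => hy.2 h⟩
    refine ⟨![s0, s1], ?_, ?_⟩
    · intro i
      fin_cases i
      · exact hs0
      · exact hs2
    · rw [lift_w]
      rcases hV s0 s1 with h | h
      · exact absurd h.symm hs3
      · exact h
  · intro hsh
    have ha1 : a ≠ 1 := by
      rintro rfl
      exact han (one_pow _)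
    have hC := conj_infinite (hcent a ha1)
    obtain ⟨s, hs, hvar⟩ := hsh (fun _ => Set.range fun g : G => g * a * g⁻¹) (fun _ => hC)
    obtain ⟨g, hg⟩ := hs 0
    have hmem : s 0 ∈ Subgroup.closure (Set.range s) := Subgroup.subset_closure ⟨0, rfl⟩
    have h1 := hvar ![⟨s 0, hmem⟩, 1]
    rw [lift_w] at h1
    have h2 : (vw cst0.m (⟨s 0, hmem⟩ : Subgroup.closure (Set.range s)) 1) = ⟨s 0, hmem⟩ := by
      unfold vw
      rw [inv_one, mul_one, mul_one, pow_succ', mul_assoc, mul_inv_cancel, mul_one]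
    have h3 : ((⟨s 0, hmem⟩ : Subgroup.closure (Set.range s)) ^ cst0.n) = 1 := by
      rw [← h1]
      exact congrArg (fun z => z ^ cst0.n) h2.symm
    have h4 : s 0 ^ cst0.n = 1 := by
      have := congrArg Subtype.val h3
      rwa [SubmonoidClass.coe_pow] at this
    have hg' : g * a * g⁻¹ = s 0 := hg
    rw [← hg', conj_pow] at h4
    apply han
    have h5 : g * a ^ cst0.n = g := by
      calc g * a ^ cst0.n = (g * a ^ cst0.n * g⁻¹) * g := by group
        _ = g := by rw [h4, one_mul]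
    exact mul_eq_left.mp h5

end BG
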