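import Pool.Agent.Helper76.BG.Green2

/-!
# BG24: `N` acts freely on base points; local structure of the quotient; reduced pairs
-/

set_option autoImplicit false

namespace BG
namespace RotSys

variable {G Z : Type} [Group G] [MulAction G Z] {R : RotSys G Z}

private theorem H_le_N {c : Z} (hc : c ∈ R.apex) {h : G} (hh : h ∈ R.H c) : h ∈ R.N :=
  Subgroup.subset_closure ⟨c, hc, hh⟩

private theorem base_smul {z : Z} (hz : z ∉ R.apex) (g : G) : g • z ∉ R.apex := by
  intro h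
  have := R.apex_smul g⁻¹ _ h
  rw [inv_smul_smul] at this
  exact hz this

private theorem base_ne {z e : Z} (hz : z ∉ R.apex) (he : e ∈ R.apex) : z ≠ e := by
  intro h
  rw [h] at hz
  exact hz he

/-- `gr` and `big_angle` -/
theorem free {z0 : Z} (hz : z0 ∉ R.apex) {n : G} (hn : n ∈ R.N) (h : n • z0 = z0) : n = 1 := by
  by_contra h1
  obtain ⟨e, he, g, hg, hg1, hLE⟩ := gr hz hn h1
  rw [h] at hLE
  have hne : z0 ≠ e := base_ne hz he
  have h2 : ¬ R.LE e z0 z0 R.θ := by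
    refine big_angle he hg hg1 hne hne hLE ?_
    have := R.big
    have := R.θ_pos
    omega
  exact h2 (AngSys.LE.self (A := R.toAng) he hne)

/-- Neighbours of `c` in the same `N`-orbit. Proof: choose `h' ∈ H c` with `len y (h' n y)` minimal, `n' = h' n`. If `n' ≠ 1`, `gr` at
`y` gives `e, h`. If `e = c`, `dec_gr` contradicts minimality. If `e ≠ c`: `LE e y c θ` and `LE e c (n' y) θ` (adjacent), so
`LE e y (n' y) (2θ)`, contradicting `big_angle`. -/
theorem nbr {c y : Z} (hc : c ∈ R.apex) {n : G} (hn : n ∈ R.N) (h1 : R.M.d c y = 1)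
    (h2 : R.M.d c (n • y) = 1) : n ∈ R.H c := by
  classical
  have hy : y ∉ R.apex := fun h => R.nadj c hc y h h1
  have hex : ∃ l, ∃ g ∈ R.H c, R.len y ((g * n) • y) = l := ⟨_, 1, (R.H c).one_mem, rfl⟩
  obtain ⟨g, hg, hgl⟩ := Nat.find_spec hex
  have hmin : ∀ g' ∈ R.H c, R.len y ((g * n) • y) ≤ R.len y ((g' * n) • y) := by
    intro g' hg'
    rw [hgl]
    exact Nat.find_min' hex ⟨g', hg', rfl⟩
  by_cases hgn : g * n = 1
  · have : n = g⁻¹ := by
      rw [eq_inv_iff_mul_eq_one]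
      have h3 : n = g⁻¹ := (inv_eq_of_mul_eq_one_right hgn).symm
      rw [h3, inv_mul_cancel]
    rw [this]
    exact (R.H c).inv_mem hg
  exfalso
  have hgnN : g * n ∈ R.N := R.N.mul_mem (H_le_N hc hg) hn
  obtain ⟨e, he, h, hh, hh1, hLE⟩ := gr hy hgnN hgn
  have hye : y ≠ e := base_ne hy he
  have hny : (g * n) • y ∉ R.apex := base_smul hy _
  have hnye : (g * n) • y ≠ e := base_ne hny he
  by_cases hec : e = c
  · subst hec
    have h3 := dec_gr he hh hh1 hy hLE
    have h4 := hmin (h⁻¹ * g) ((R.H e).mul_mem ((R.H e).inv_mem hh) hg)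
    rw [mul_assoc] at h4
    omega
  · have hce : c ≠ e := fun h => hec h.symm
    have h3 : R.LE e y c R.θ := by
      refine AngSys.LE.of_adj (A := R.toAng) he hye hce ?_
      show R.M.d y c ≤ 1
      rw [R.M.symm, h1]
    have h4 : R.LE e c ((g * n) • y) R.θ := by
      refine AngSys.LE.of_adj (A := R.toAng) he hce hnye ?_
      show R.M.d c ((g * n) • y) ≤ 1
      have h5 : R.M.d (g • c) (g • (n • y)) = 1 := by rw [R.iso, h2]
      rw [R.H_fix c hc g hg, ← mul_smul] at h5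
      omega
    have h5 : R.LE e y ((g * n) • y) (R.θ + R.θ) := AngSys.LE.trans (A := R.toAng) he hce h3 h4
    refine big_angle he hh hh1 hye hnye hLE ?_ h5
    have := R.big
    have := R.θ_pos
    omega

theorem nfix {c : Z} (hc : c ∈ R.apex) {n : G} (hn : n ∈ R.N) (h1 : n • c = c) : n ∈ R.H c := by
  have hpos : 1 ≤ R.M.d c R.pt := by
    rcases Nat.eq_zero_or_pos (R.M.d c R.pt) with h | h
    · exact absurd (R.M.eq_of _ _ h).symm (base_ne R.pt_base hc)
    · exact h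
  obtain ⟨y, hy, _⟩ := R.M.geo c R.pt 1 hpos
  refine nbr hc hn hy ?_
  have h2 := R.iso n c y
  rw [h1] at h2
  rw [h2, hy]

/-- REDUCED PAIRS. Proof: suppose `d x (m y) < d x y` for some `m ∈ N`; take `m ∈ N` with `(d x (m y), len y (m y))` minimal
(lexicographic); `m ≠ 1`; `gr` at `y`: `e, h` with `LE e (h y) (m y) (2θ)`. If `¬ LE e x (m y) θ` then `e` is between, so
`d x (h⁻¹ m y) ≤ d x (m y)` and `len y (h⁻¹ m y) < len y (m y)`, contradiction. So `LE e x (m y) θ` and `LE e x (h y) (3θ)`. -/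
theorem red {x y : Z} (hx : x ∉ R.apex) (hy : y ∉ R.apex) :
    (∀ m ∈ R.N, R.M.d x y ≤ R.M.d x (m • y)) ∨
      ∃ e ∈ R.apex, ∃ h ∈ R.H e, h ≠ 1 ∧ R.LE e x (h • y) (3 * R.θ) := by
  classical
  by_cases hall : ∀ m ∈ R.N, R.M.d x y ≤ R.M.d x (m • y)
  · exact Or.inl hall
  right
  push Not at hall
  obtain ⟨m1, hm1, hlt⟩ := hall
  have hex : ∃ k, ∃ m ∈ R.N, R.M.d x (m • y) = k := ⟨_, m1, hm1, rfl⟩
  have hk := Nat.find_spec hex
  have hkmin : ∀ m ∈ R.N, Nat.find hex ≤ R.M.d x (m • y) := fun m hm =>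
    Nat.find_min' hex ⟨m, hm, rfl⟩
  have hkle := hkmin m1 hm1
  generalize Nat.find hex = k0 at hk hkmin hkle
  have hex2 : ∃ l, ∃ m ∈ R.N, R.M.d x (m • y) = k0 ∧ R.len y (m • y) = l := by
    obtain ⟨m, hm, hmk⟩ := hk
    exact ⟨_, m, hm, hmk, rfl⟩
  obtain ⟨m, hm, hmk, hml⟩ := Nat.find_spec hex2
  have hlmin : ∀ m' ∈ R.N, R.M.d x (m' • y) = k0 → R.len y (m • y) ≤ R.len y (m' • y) := by
    intro m' hm' h1
    rw [hml]
    exact Nat.find_min' hex2 ⟨m', hm', h1, rfl⟩
  have hmne : m ≠ 1 := by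
    intro h1
    rw [h1, one_smul] at hmk
    omega
  obtain ⟨e, he, h, hh, hh1, hLE⟩ := gr hy hm hmne
  have hxe : x ≠ e := base_ne hx he
  have hmy : m • y ∉ R.apex := base_smul hy _
  have hmye : m • y ≠ e := base_ne hmy he
  have hhye : h • y ≠ e := base_ne (base_smul hy _) he
  have key : R.LE e x (m • y) R.θ := by
    by_contra hcon
    have hcut : R.M.Cut e x (m • y) := AngSys.cut_of_not_LE (A := R.toAng) he hxe hmye hcon
    have hbtw : R.M.d x e + R.M.d e (m • y) = R.M.d x (m • y) := hcut.1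
    have hN : h⁻¹ * m ∈ R.N := R.N.mul_mem (R.N.inv_mem (H_le_N he hh)) hm
    have h1 : R.M.d e ((h⁻¹ * m) • y) = R.M.d e (m • y) := by
      have h2 := R.iso h e ((h⁻¹ * m) • y)
      rw [R.H_fix e he h hh, ← mul_smul, mul_inv_cancel_left] at h2
      exact h2.symm
    have h2 := R.M.tri x e ((h⁻¹ * m) • y)
    have h3 := hkmin _ hN
    have h4 := hlmin _ hN (by omega)
    have h5 := dec_gr he hh hh1 hy hLE
    omega
  refine ⟨e, he, h, hh, hh1, ?_⟩
  have h1 : R.LE e (m • y) (h • y) (2 * R.θ) := AngSys.LE.symm (A := R.toAng) he hLE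
  have h2 : R.LE e x (h • y) (R.θ + 2 * R.θ) := AngSys.LE.trans (A := R.toAng) he hmye key h1
  have h3 : 3 * R.θ = R.θ + 2 * R.θ := by ring
  rw [h3]
  exact h2

end RotSys
end BG
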