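import Pool.Agent.Helper76.BG.Bisect

/-!
# BG14: projections of paths, germs, the large angle property

`ω = 2ρ`, `θ = 120ρ`.
-/

set_option autoImplicit false

namespace BG
namespace Sys

variable {S : Sys} {c : Cst}

/-- `q` is a projection to `ax E` of the vertex `u` (of some point of `ax F` if `u = F` is an apex) -/
def PiRel (E : S.Killed c.K) : S.Z c → S.X → Prop
  | Sum.inl x, q => S.M.IsProj (ax c.q E) x q
  | Sum.inr F, q => ∃ x ∈ ax c.q F, S.M.IsProj (ax c.q E) x q

/-- one step: `pr_lip` (`ρ + 21000 ≤ 2ρ`) or `pr_axis` (`b + 6K + 500000 ≤ ρ`) -/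
theorem InP.path_step (P : S.InP c) (E : S.Killed c.K) {u v : S.Z c} (huv : (S.C c).d u v = 1)
    (hu : u ≠ Sum.inr E) (hv : v ≠ Sum.inr E) {q q' : S.X} (hq : PiRel E u q) (hq' : PiRel E v q') :
    S.M.d q q' ≤ 2 * c.ρ := by
  have hρ := c.ρ_ge
  have hadj := (C_adj _ _).1 huv
  rcases u with x | F <;> rcases v with y | F'
  · have h1 := P.pr_lip hq hq'
    have h2 : S.M.d x y ≤ c.ρ := hadj.2
    omega
  · obtain ⟨x', hx', hq'⟩ := hq'
    have hne : E ≠ F' := fun e => hv (by rw [e])
    have h1 := P.pr_axis hne (x := x) (x' := x') hadj hx' hq hq'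
    omega
  · obtain ⟨x', hx', hq⟩ := hq
    have hne : E ≠ F := fun e => hu (by rw [e])
    have h1 := P.pr_axis hne (x := x') (x' := y) hx' hadj hq hq'
    omega
  · exact absurd huv (C_inr_inr F F')

/-- `PiRel` is never empty -/
private theorem InP.pi_exists (P : S.InP c) (E : S.Killed c.K) (u : S.Z c) : ∃ q, PiRel E u q := by
  rcases u with x | F
  · exact P.pr_exists E x
  · obtain ⟨x, hx⟩ := ax_nonempty c.q F
    obtain ⟨q, hq⟩ := P.pr_exists E x
    exact ⟨q, x, hx, hq⟩

/-- a walk of length `m ≥ 1` avoiding the apex `E` -/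
theorem InP.path_proj (P : S.InP c) (E : S.Killed c.K) {m : ℕ} {w : ℕ → S.Z c} (hm : 1 ≤ m)
    (hstep : ∀ i < m, (S.C c).d (w i) (w (i + 1)) = 1) (hav : ∀ i ≤ m, w i ≠ Sum.inr E)
    {q q' : S.X} (hq : PiRel E (w 0) q) (hq' : PiRel E (w m) q') :
    S.M.d q q' ≤ 2 * c.ρ * m := by
  induction m, hm using Nat.le_induction generalizing q' with
  | base =>
    have h1 := P.path_step E (hstep 0 (by omega)) (hav 0 (by omega)) (hav 1 (by omega)) hq hq'
    omega
  | succ m hm ih =>
    obtain ⟨q1, hq1⟩ := P.pi_exists E (w m)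
    have h1 := ih (fun i hi => hstep i (by omega)) (fun i hi => hav i (by omega)) hq1
    have h2 := P.path_step E (hstep m (by omega)) (hav m (by omega)) (hav (m + 1) (by omega)) hq1 hq'
    have h3 := S.M.tri q q1 q'
    rw [Nat.mul_add, Nat.mul_one]
    omega

/-- a geodesic all of whose vertices are at distance `≥ 13` from `E` (`guess`: all `X`-between points `u` of its end points have
`d̂(u,E) ≥ 3`, so are further than `ρ` from `ax E`; `pr_far`) -/
theorem InP.far_geo (P : S.InP c) (E : S.Killed c.K) {x x' : S.X} {m : ℕ} {w : ℕ → S.Z c}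
    (hw : (S.C c).IsGeo w m (Sum.inl x) (Sum.inl x'))
    (hfar : ∀ i ≤ m, 13 ≤ (S.C c).d (w i) (Sum.inr E)) {q q' : S.X}
    (hq : S.M.IsProj (ax c.q E) x q) (hq' : S.M.IsProj (ax c.q E) x' q') : S.M.d q q' ≤ 11000 := by
  have hρ := c.ρ_ge
  refine P.pr_far hq hq' ?_
  intro u hu y hy
  obtain ⟨i, hi, hi'⟩ := P.guess hw hu
  have h1 := hfar i hi
  have h2 := (S.C c).tri (w i) (Sum.inl u) (Sum.inr E)
  rw [(S.C c).symm (w i) (Sum.inl u)] at h2
  have h3 := C_far (c := c) (x := u) (E := E) (by omega) hy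
  omega

/-- sub-geodesics -/
private theorem isGeo_sub {Y : Type} {M : GMet Y} {w : ℕ → Y} {m : ℕ} {x y : Y} (hw : M.IsGeo w m x y) {i k : ℕ}
    (hik : i + k ≤ m) : M.IsGeo (fun j => w (i + j)) k (w i) (w (i + k)) := by
  refine ⟨by simp, rfl, ?_⟩
  intro a b hab hb
  have := hw.2.2 (i + a) (i + b) (by omega) (by omega)
  rw [this]
  omega

private theorem isGeo_step {Y : Type} {M : GMet Y} {w : ℕ → Y} {m : ℕ} {x y : Y} (hw : M.IsGeo w m x y) {i : ℕ}
    (hi : i < m) : M.d (w i) (w (i + 1)) = 1 := by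
  have := hw.2.2 i (i + 1) (by omega) (by omega)
  omega

/-- one of two consecutive vertices is a point of `X` -/
private theorem not_both {u v : S.Z c} (h : (S.C c).d u v = 1) :
    (∃ x : S.X, u = Sum.inl x) ∨ (∃ x : S.X, v = Sum.inl x) := by
  rcases u with x | F
  · exact Or.inl ⟨x, rfl⟩
  · rcases v with y | F'
    · exact Or.inr ⟨y, rfl⟩
    · exact absurd h (C_inr_inr F F')

/-- GERMS AND PROJECTIONS. `y` a germ at `E` towards `x ∈ X`, `q` a projection of `x`. Proof: geodesic `w_0 = y, …, w_m = x`;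
`d̂(E, w_i) = i + 1`, it avoids `E`. If `m ≤ 12`: `path_proj` (`y` is the only projection of `y`; if `m = 0`, `q = x = y`). Otherwise take
`i ∈ {12, 13}` with `w_i ∈ X`, `path_proj` on `w_0..w_i` (`≤ 26ρ`) and `far_geo` on `w_i..w_m`. -/
theorem InP.germ_proj (P : S.InP c) (E : S.Killed c.K) {x y q : S.X}
    (hy : Sum.inl y ∈ (S.C c).Germ (Sum.inr E) (Sum.inl x)) (hq : S.M.IsProj (ax c.q E) x q) :
    S.M.d y q ≤ 28 * c.ρ := by
  have hρ := c.ρ_ge
  obtain ⟨hy1, hy2⟩ := hy
  have hyax : y ∈ ax c.q E := (C_adj _ _).1 hy1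
  have hyproj : S.M.IsProj (ax c.q E) y y := ⟨hyax, fun z hz => by rw [S.M.self]; omega⟩
  obtain ⟨w, hw⟩ := GMet.exists_geo (S.C c) (Sum.inl y) (Sum.inl x)
  set m := (S.C c).d (Sum.inl y) (Sum.inl x) with hm
  have hdist : ∀ i ≤ m, (S.C c).d (w i) (Sum.inr E) = i + 1 := by
    intro i hi
    have h1 := hw.2.2 0 i (by omega) hi
    have h2 := hw.2.2 i m hi le_rfl
    rw [hw.1] at h1
    rw [hw.2.1] at h2
    have h3 := (S.C c).tri (w i) (Sum.inl y) (Sum.inr E)
    have h4 := (S.C c).tri (Sum.inr E) (w i) (Sum.inl x)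
    rw [(S.C c).symm (w i) (Sum.inl y), (S.C c).symm (Sum.inl y) (Sum.inr E)] at h3
    rw [(S.C c).symm (Sum.inr E) (w i)] at h4
    omega
  have hav : ∀ i ≤ m, w i ≠ Sum.inr E := by
    intro i hi he
    have := hdist i hi
    rw [he, (S.C c).self] at this
    omega
  have hq0 : PiRel E (w 0) y := by
    rw [hw.1]
    exact hyproj
  rcases Nat.eq_zero_or_pos m with h0 | hpos
  · have hyx : (Sum.inl y : S.Z c) = Sum.inl x := (S.C c).eq_of _ _ (by omega)
    have hyx' : y = x := Sum.inl_injective hyx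
    subst hyx'
    have h1 := hq.2 y hyax
    rw [S.M.self] at h1
    omega
  · rcases Nat.lt_or_ge m 13 with hlt | hge
    · have hqm : PiRel E (w m) q := by
        rw [hw.2.1]
        exact hq
      have h1 := P.path_proj E hpos (w := w) (fun i hi => isGeo_step (i := i) hw hi) hav hq0 hqm
      have h2 : 2 * c.ρ * m ≤ 2 * c.ρ * 12 := Nat.mul_le_mul_left _ (by omega)
      omega
    · have hi : ∃ i, (i = 12 ∨ i = 13) ∧ ∃ z : S.X, w i = Sum.inl z := by
        rcases not_both (isGeo_step hw (i := 12) (by omega)) with h | h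
        · exact ⟨12, Or.inl rfl, h⟩
        · exact ⟨13, Or.inr rfl, h⟩
      obtain ⟨i, hi, z, hz⟩ := hi
      obtain ⟨r, hr⟩ := P.pr_exists E z
      have him : i ≤ m := by omega
      have hqi : PiRel E (w i) r := by
        rw [hz]
        exact hr
      have h1 := P.path_proj E (m := i) (w := w) (by omega) (fun j hj => isGeo_step hw (by omega))
        (fun j hj => hav j (by omega)) hq0 hqi
      have h2 : 2 * c.ρ * i ≤ 2 * c.ρ * 13 := Nat.mul_le_mul_left _ (by omega)
      have hsub := isGeo_sub hw (i := i) (k := m - i) (by omega)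
      have him2 : i + (m - i) = m := by omega
      rw [him2, hz, hw.2.1] at hsub
      have h3 := P.far_geo E hsub (fun j hj => by
        have := hdist (i + j) (by omega)
        show 13 ≤ (S.C c).d (w (i + j)) (Sum.inr E)
        omega) hr hq
      have h4 := S.M.tri y r q
      omega

/-- geodesics between points of `X` avoiding `E`. Proof: if all vertices are at distance `≥ 14` from `E`, `far_geo`. Otherwise let `i` (`j`) be
the first (last) index with `d̂(w_i,E) ≤ 13`; `j - i ≤ 26`; `i' = i` if `w_i ∈ X`, else `i - 1`; `j'` similarly; `far_geo` on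
`w_0..w_{i'}` and `w_{j'}..w_m`, `path_proj` on `w_{i'}..w_{j'}` (`j' - i' ≤ 28`): `56ρ + 22000`. -/
theorem InP.avoid_proj (P : S.InP c) (E : S.Killed c.K) {x x' : S.X} {m : ℕ} {w : ℕ → S.Z c}
    (hw : (S.C c).IsGeo w m (Sum.inl x) (Sum.inl x')) (hav : ∀ i ≤ m, w i ≠ Sum.inr E) {q q' : S.X}
    (hq : S.M.IsProj (ax c.q E) x q) (hq' : S.M.IsProj (ax c.q E) x' q') :
    S.M.d q q' ≤ 58 * c.ρ := by
  classical
  have hρ := c.ρ_ge
  by_cases hall : ∀ i ≤ m, 14 ≤ (S.C c).d (w i) (Sum.inr E)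
  · have h1 := P.far_geo E hw (fun i hi => by have := hall i hi; omega) hq hq'
    omega
  push Not at hall
  -- the first index
  have hex : ∃ i, i ≤ m ∧ (S.C c).d (w i) (Sum.inr E) < 14 := by
    obtain ⟨i, h1, h2⟩ := hall
    exact ⟨i, h1, h2⟩
  obtain ⟨i, him, hiE, himin⟩ : ∃ i, i ≤ m ∧ (S.C c).d (w i) (Sum.inr E) < 14 ∧
      ∀ k < i, 14 ≤ (S.C c).d (w k) (Sum.inr E) := by
    refine ⟨Nat.find hex, (Nat.find_spec hex).1, (Nat.find_spec hex).2, ?_⟩
    intro k hk
    have h1 := Nat.find_min hex hk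
    have h2 := (Nat.find_spec hex).1
    by_contra h3
    exact h1 ⟨by omega, by omega⟩
  have hex2 : ∃ j, j ≤ m ∧ (S.C c).d (w (m - j)) (Sum.inr E) < 14 :=
    ⟨m - i, by omega, by rw [Nat.sub_sub_self him]; exact hiE⟩
  obtain ⟨j, hjm, hjE, hjmax⟩ : ∃ j, j ≤ m ∧ (S.C c).d (w j) (Sum.inr E) < 14 ∧
      ∀ k, j < k → k ≤ m → 14 ≤ (S.C c).d (w k) (Sum.inr E) := by
    refine ⟨m - Nat.find hex2, by omega, (Nat.find_spec hex2).2, ?_⟩
    intro k hk hkm
    have h1 := Nat.find_min hex2 (m := m - k) (by omega)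
    by_contra h3
    exact h1 ⟨by omega, by rw [Nat.sub_sub_self hkm]; omega⟩
  have hij : i ≤ j := by
    by_contra hcon
    have := himin j (by omega)
    omega
  have hji : j - i ≤ 26 := by
    have h1 := hw.2.2 i j hij hjm
    have h2 := (S.C c).tri (w i) (Sum.inr E) (w j)
    rw [(S.C c).symm (Sum.inr E) (w j)] at h2
    omega
  -- the left point
  have hleft : ∃ i', i' ≤ i ∧ i ≤ i' + 1 ∧ ∃ (z r : S.X), w i' = Sum.inl z ∧
      S.M.IsProj (ax c.q E) z r ∧ S.M.d q r ≤ 11000 := by
    have hexi : ∃ i', i' ≤ i ∧ i ≤ i' + 1 ∧ ∃ z : S.X, w i' = Sum.inl z := by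
      rcases Nat.eq_zero_or_pos i with h0 | hpos
      · subst h0
        exact ⟨0, le_rfl, by omega, x, hw.1⟩
      · have hstep : (S.C c).d (w (i - 1)) (w (i - 1 + 1)) = 1 := isGeo_step hw (by omega)
        rw [Nat.sub_add_cancel hpos] at hstep
        rcases not_both hstep with h | h
        · exact ⟨i - 1, by omega, by omega, h⟩
        · exact ⟨i, le_rfl, by omega, h⟩
    obtain ⟨i', h1, h2, z, hz⟩ := hexi
    refine ⟨i', h1, h2, z, ?_⟩
    rcases Nat.eq_zero_or_pos i' with h0 | hpos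
    · subst h0
      have hzx : z = x := by
        rw [hw.1] at hz
        exact (Sum.inl_injective hz).symm
      subst hzx
      exact ⟨q, hz, hq, by rw [S.M.self]; omega⟩
    · obtain ⟨r, hr⟩ := P.pr_exists E z
      refine ⟨r, hz, hr, ?_⟩
      have hsub := isGeo_sub hw (i := 0) (k := i') (by omega)
      simp only [Nat.zero_add] at hsub
      rw [hz, hw.1] at hsub
      refine P.far_geo E hsub (fun k hk => ?_) hq hr
      rcases Nat.lt_or_ge k i with hki | hki
      · have := himin k hki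
        omega
      · have hki' : k = i := by omega
        subst hki'
        have h3 := himin (k - 1) (by omega)
        have h4 : (S.C c).d (w (k - 1)) (w (k - 1 + 1)) = 1 := isGeo_step hw (by omega)
        rw [Nat.sub_add_cancel (by omega)] at h4
        have h5 := (S.C c).tri (w (k - 1)) (w k) (Sum.inr E)
        omega
  -- the right point
  have hright : ∃ j', j ≤ j' ∧ j' ≤ j + 1 ∧ j' ≤ m ∧ ∃ (z r : S.X), w j' = Sum.inl z ∧
      S.M.IsProj (ax c.q E) z r ∧ S.M.d r q' ≤ 11000 := by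
    have hexi : ∃ j', j ≤ j' ∧ j' ≤ j + 1 ∧ j' ≤ m ∧ ∃ z : S.X, w j' = Sum.inl z := by
      rcases Nat.eq_or_lt_of_le hjm with h0 | hlt
      · subst h0
        exact ⟨j, le_rfl, by omega, le_rfl, x', hw.2.1⟩
      · rcases not_both (isGeo_step hw (i := j) hlt) with h | h
        · exact ⟨j, le_rfl, by omega, hjm, h⟩
        · exact ⟨j + 1, by omega, by omega, by omega, h⟩
    obtain ⟨j', h1, h2, h2', z, hz⟩ := hexi
    refine ⟨j', h1, h2, h2', z, ?_⟩
    rcases Nat.eq_or_lt_of_le h2' with h0 | hlt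
    · subst h0
      have hzx : z = x' := by
        rw [hw.2.1] at hz
        exact (Sum.inl_injective hz).symm
      subst hzx
      exact ⟨q', hz, hq', by rw [S.M.self]; omega⟩
    · obtain ⟨r, hr⟩ := P.pr_exists E z
      refine ⟨r, hz, hr, ?_⟩
      have hsub := isGeo_sub hw (i := j') (k := m - j') (by omega)
      have hjm2 : j' + (m - j') = m := by omega
      rw [hjm2, hz, hw.2.1] at hsub
      refine P.far_geo E hsub (fun k hk => ?_) hr hq'
      show 13 ≤ (S.C c).d (w (j' + k)) (Sum.inr E)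
      rcases Nat.lt_or_ge j (j' + k) with hki | hki
      · have := hjmax (j' + k) hki (by omega)
        omega
      · have hki' : j' + k = j := by omega
        rw [hki']
        have h3 := hjmax (j + 1) (by omega) (by omega)
        have h4 : (S.C c).d (w j) (w (j + 1)) = 1 := isGeo_step hw (by omega)
        have h5 := (S.C c).tri (w (j + 1)) (w j) (Sum.inr E)
        rw [(S.C c).symm (w (j + 1)) (w j)] at h5
        omega
  obtain ⟨i', hi1, hi2, z, r, hz, hr, hqr⟩ := hleft
  obtain ⟨j', hj1, hj2, hj3, z', r', hz', hr', hqr'⟩ := hright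
  have hmid : S.M.d r r' ≤ 56 * c.ρ := by
    rcases Nat.eq_or_lt_of_le (show i' ≤ j' by omega) with h0 | hlt
    · subst h0
      have hzz : z = z' := by
        rw [hz] at hz'
        exact Sum.inl_injective hz'
      subst hzz
      have := P.pr_self hr hr'
      omega
    · have hsub := isGeo_sub hw (i := i') (k := j' - i') (by omega)
      have hjm2 : i' + (j' - i') = j' := by omega
      have hP0 : PiRel E ((fun k => w (i' + k)) 0) r := by
        show PiRel E (w (i' + 0)) r
        rw [Nat.add_zero, hz]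
        exact hr
      have hP1 : PiRel E ((fun k => w (i' + k)) (j' - i')) r' := by
        show PiRel E (w (i' + (j' - i'))) r'
        rw [hjm2, hz']
        exact hr'
      have h1 := P.path_proj E (m := j' - i') (w := fun k => w (i' + k)) (by omega)
        (fun k hk => isGeo_step hsub hk) (fun k hk => hav _ (by omega)) hP0 hP1
      have h2 : 2 * c.ρ * (j' - i') ≤ 2 * c.ρ * 28 := Nat.mul_le_mul_left _ (by omega)
      omega
  have h1 := S.M.tri q r q'
  have h2 := S.M.tri r r' q'
  omega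

end Sys
end BG
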