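import Pool.Agent.Helper76.BG.AngBasic

/-!
# BG22: the Greendlinger lemma, part 1: definitions, elementary facts, `DAt`
-/

set_option autoImplicit false

namespace BG
namespace RotSys

variable {G Z : Type} [Group G] [MulAction G Z] (R : RotSys G Z)

theorem isoAct : IsoAct G R.M := R.iso

variable {R}

/-- angles are invariant -/
theorem LE_smul {c z w : Z} {T : ℕ} (g : G) : R.LE (g • c) (g • z) (g • w) T ↔ R.LE c z w T := by
  constructor
  · intro h y hy y' hy'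
    have h1 := h (g • y) ((GMet.germ_smul R.isoAct g).2 hy) (g • y')
      ((GMet.germ_smul R.isoAct g).2 hy')
    simp only [R.len_smul] at h1
    exact h1
  · intro h y hy y' hy'
    have e1 : g • (g⁻¹ • y) = y := smul_inv_smul g y
    have e2 : g • (g⁻¹ • y') = y' := smul_inv_smul g y'
    have hy2 : g⁻¹ • y ∈ R.M.Germ c z := by
      rw [← GMet.germ_smul R.isoAct g, e1]; exact hy
    have hy2' : g⁻¹ • y' ∈ R.M.Germ c w := by
      rw [← GMet.germ_smul R.isoAct g, e2]; exact hy'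
    have h1 := h _ hy2 _ hy2'
    simp only [R.len_smul] at h1
    exact h1

theorem base_of_adj {e y : Z} (he : e ∈ R.apex) (hy : R.M.d e y = 1) : y ∉ R.apex :=
  fun h => R.nadj e he y h hy

theorem smul_base {z0 : Z} (hz : z0 ∉ R.apex) (n : G) : n • z0 ∉ R.apex := by
  intro h
  have h1 := R.apex_smul n⁻¹ _ h
  rw [inv_smul_smul] at h1
  exact hz h1

/-- a nontrivial rotation makes a big angle. `y ∈ Germ e z0`, `h y ∈ Germ e (h z0)`, `y' ∈ Germ e w`:
`Θ ≤ len y (h y) ≤ len y y' + len (h y) y'` -/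
theorem big_angle {e z0 w : Z} {h : G} {S T : ℕ} (he : e ∈ R.apex) (hh : h ∈ R.H e) (h1 : h ≠ 1)
    (hz : z0 ≠ e) (hw : w ≠ e) (hT : R.LE e (h • z0) w T) (hST : S + T < R.Θ) :
    ¬ R.LE e z0 w S := by
  intro hS
  obtain ⟨y, hy⟩ := GMet.germ_nonempty (M := R.M) hz
  obtain ⟨y', hy'⟩ := GMet.germ_nonempty (M := R.M) hw
  have hfix : h • e = e := R.H_fix e he h hh
  have hhy : h • y ∈ R.M.Germ e (h • z0) := by
    have h2 := (GMet.germ_smul R.isoAct h).2 hy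
    rwa [hfix] at h2
  have a1 : R.len (h • y) y' ≤ T := hT _ hhy _ hy'
  have a2 : R.len y y' ≤ S := hS _ hy _ hy'
  have a3 : R.Θ ≤ R.len y (h • y) := R.rot e he h hh h1 y hy.1
  have b1 : y ∉ R.apex := base_of_adj he hy.1
  have b2 : y' ∉ R.apex := base_of_adj he hy'.1
  have b3 : h • y ∉ R.apex := base_of_adj he hhy.1
  have a4 := R.len_tri y y' (h • y) b1 b2 b3
  have a5 := R.len_symm y' (h • y) b2 b3
  omega

/-- `dec` for the Greendlinger situation: apply `dec` with `h⁻¹` -/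
theorem dec_gr {e z0 : Z} {h n : G} (he : e ∈ R.apex) (hh : h ∈ R.H e) (h1 : h ≠ 1)
    (hz : z0 ∉ R.apex) (hT : R.LE e (h • z0) (n • z0) (2 * R.θ)) :
    R.len z0 ((h⁻¹ * n) • z0) < R.len z0 (n • z0) := by
  have hfix : h⁻¹ • e = e := by
    have h2 := R.H_fix e he h⁻¹ ((R.H e).inv_mem hh)
    exact h2
  have hb := smul_base (R := R) hz n
  have hne : z0 ≠ e := fun h => hz (h ▸ he)
  have hne' : n • z0 ≠ e := fun h => hb (h ▸ he)
  have h2 : R.LE e z0 (h⁻¹ • n • z0) (2 * R.θ) := by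
    have h3 := (LE_smul (R := R) (h⁻¹)).2 hT
    rwa [hfix, inv_smul_smul] at h3
  have h3 : ¬ R.LE e z0 (n • z0) (2 * R.θ + 3 * R.θ) := by
    apply big_angle he hh h1 hne hne' hT
    have := R.big
    have := R.θ_pos
    omega
  have h4 := R.dec e he h⁻¹ ((R.H e).inv_mem hh) z0 (n • z0) hz hb (2 * R.θ) h2 h3
  rwa [mul_smul]

variable (R)

/-- the subgroup generated by the rotations around apexes at distance `< r` of `z0` -/
def Nr (z0 : Z) (r : ℕ) : Subgroup G :=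
  Subgroup.closure {h | ∃ c ∈ R.apex, R.M.d z0 c < r ∧ h ∈ R.H c}

/-- Greendlinger lemma for `Nr z0 r` -/
def GrAt (z0 : Z) (r : ℕ) : Prop :=
  ∀ n ∈ R.Nr z0 r, n ≠ 1 → ∃ n1 ∈ R.Nr z0 r, ∃ V ∈ R.apex, R.M.d z0 V < r ∧
    ∃ h ∈ R.H (n1 • V), h ≠ 1 ∧ R.LE (n1 • V) (h • z0) (n • z0) (2 * R.θ)

/-- the auxiliary statement -/
def DAt (z0 : Z) (r : ℕ) : Prop :=
  ∀ V ∈ R.apex, r ≤ R.M.d z0 V → (∀ n ∈ R.Nr z0 r, R.M.d z0 V ≤ R.M.d z0 (n • V)) →
    ∀ n ∈ R.Nr z0 r, ∀ z, R.M.d z0 z ≤ R.M.d z0 V → n • z ≠ V → R.LE V z0 (n • z) R.θ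

variable {R}

/-- Proof. Induction on `(d z0 (n z), len z0 (n z0))`, lexicographic, for all `V, n, z` simultaneously. Suppose
`¬ LE V z0 w θ`, `w = n z`. Then `V` cuts `z0` from `w`. If `n = 1`: `d z0 w ≤ d z0 V` so `w = V`, contradiction. Otherwise
`GrAt` gives `e = n1 V1`, `h ∈ H e`, `h ≠ 1`, `LE e (h z0) (n z0) (2θ)`. `H e ≤ Nr` (conjugate by `n1`), `e ≠ V` (else
`d z0 (n1⁻¹ V) < r`), `n' := h⁻¹ n ∈ Nr`, `len z0 (n' z0) < len z0 (n z0)` (`dec_gr`).
* If `w = e`: `n' z = h⁻¹ e = w`; induction for `(V, n', z)`.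
* If `LE e z0 w θ`: as `¬ LE e z0 (n z0) (4θ)` (`big_angle`), `¬ LE e (n z0) w θ`, so `e` is between `n z0` and `w`. Put
  `z'' = n'⁻¹ w = n⁻¹ h w`. `d z0 z'' = d (n z0) (h w) ≤ d (n z0) e + d e w = d (n z0) w = d z0 z ≤ d z0 V`; induction for `(V, n', z'')`.
* Otherwise `e` cuts `z0` from `w`; `d z0 e ≠ d z0 V`.
  - `d z0 e < d z0 V`: `e` cuts `z0` from `V` (`Cut.left`), so `Germ V z0 = Germ V e`. `V' = h⁻¹ V`: `d z0 V' ≤ d z0 e + d e V = d z0 V`
    hence equality and `V'` satisfies the minimality condition. `d z0 (h⁻¹ w) ≤ d z0 e + d e w = d z0 w`. Induction for `(V', n', z)`: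
    `LE V' z0 (h⁻¹ w) θ`; `e` is between `z0` and `V'`, so `LE V' e (h⁻¹ w) θ` (`germ_sub`), so `LE V e w θ` (apply `h`), so `LE V z0 w θ`.
  - `d z0 V < d z0 e`: `e` cuts `V` from `w` (`Cut.right`), `Germ V w = Germ V e`. Induction for `(V, n1, V1)` as `n1 V1 = e ≠ V`,
    `d z0 V1 < r ≤ d z0 V`, `d z0 e < d z0 w`: `LE V z0 e θ`. Contradiction. -/
theorem dAt_of_grAt {z0 : Z} {r : ℕ} (hz : z0 ∉ R.apex) (h : R.GrAt z0 r) : R.DAt z0 r := by
  suffices key : ∀ D L : ℕ, ∀ V ∈ R.apex, r ≤ R.M.d z0 V →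
      (∀ n ∈ R.Nr z0 r, R.M.d z0 V ≤ R.M.d z0 (n • V)) →
      ∀ n ∈ R.Nr z0 r, ∀ z, R.M.d z0 z ≤ R.M.d z0 V → n • z ≠ V →
      R.M.d z0 (n • z) = D → R.len z0 (n • z0) = L → R.LE V z0 (n • z) R.θ by
    intro V hV hr hmin n hn z hzz hne
    exact key _ _ V hV hr hmin n hn z hzz hne rfl rfl
  intro D
  induction D using Nat.strong_induction_on with
  | _ D IHD =>
  intro L
  induction L using Nat.strong_induction_on with
  | _ L IHL =>
  intro V hV hr hmin n hn z hzz hne hD hL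
  have IH : ∀ V' ∈ R.apex, r ≤ R.M.d z0 V' →
      (∀ n ∈ R.Nr z0 r, R.M.d z0 V' ≤ R.M.d z0 (n • V')) →
      ∀ n' ∈ R.Nr z0 r, ∀ z', R.M.d z0 z' ≤ R.M.d z0 V' → n' • z' ≠ V' →
      (R.M.d z0 (n' • z') < R.M.d z0 (n • z) ∨
        (R.M.d z0 (n' • z') ≤ R.M.d z0 (n • z) ∧ R.len z0 (n' • z0) < R.len z0 (n • z0))) →
      R.LE V' z0 (n' • z') R.θ := by
    intro V' hV' hr' hmin' n' hn' z' hzz' hne' hlt
    rcases lt_or_ge (R.M.d z0 (n' • z')) D with h1 | h1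
    · exact IHD _ h1 _ V' hV' hr' hmin' n' hn' z' hzz' hne' rfl rfl
    · rcases hlt with h2 | ⟨h2, h3⟩
      · omega
      · exact IHL _ (hL ▸ h3) V' hV' hr' hmin' n' hn' z' hzz' hne' (by omega) rfl
  by_contra hcon
  have hθ := R.θ_pos
  have hbig := R.big
  have hz0V : z0 ≠ V := fun h => hz (h ▸ hV)
  have hcut : R.M.Cut V z0 (n • z) := AngSys.cut_of_not_LE (A := R.toAng) hV hz0V hne hcon
  by_cases hn1 : n = 1
  · subst hn1
    rw [one_smul] at hcut hne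
    have h1 : R.M.d z0 V + R.M.d V z = R.M.d z0 z := hcut.1
    have h2 : R.M.d V z = 0 := by omega
    exact hne (R.M.eq_of _ _ h2).symm
  obtain ⟨n1, hn1', V1, hV1, hV1r, k, hk, hk1, hT⟩ := h n hn hn1
  set e := n1 • V1 with he_def
  have he : e ∈ R.apex := R.apex_smul n1 V1 hV1
  have hkN : k ∈ R.Nr z0 r := by
    have h1 := R.H_conj n1⁻¹ e he k hk
    rw [he_def, inv_smul_smul, inv_inv] at h1
    have h2 : n1⁻¹ * k * n1 ∈ R.Nr z0 r := Subgroup.subset_closure ⟨V1, hV1, hV1r, h1⟩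
    have h3 := (R.Nr z0 r).mul_mem ((R.Nr z0 r).mul_mem hn1' h2) ((R.Nr z0 r).inv_mem hn1')
    have h4 : n1 * (n1⁻¹ * k * n1) * n1⁻¹ = k := by group
    rwa [h4] at h3
  have hkiN : k⁻¹ ∈ R.Nr z0 r := (R.Nr z0 r).inv_mem hkN
  have heV : e ≠ V := by
    intro h1
    have h2 := hmin n1⁻¹ ((R.Nr z0 r).inv_mem hn1')
    rw [← h1, he_def, inv_smul_smul, ← he_def, h1] at h2
    omega
  have hn'N : k⁻¹ * n ∈ R.Nr z0 r := (R.Nr z0 r).mul_mem hkiN hn
  have hlen : R.len z0 ((k⁻¹ * n) • z0) < R.len z0 (n • z0) := dec_gr he hk hk1 hz hT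
  have hke : k • e = e := R.H_fix e he k hk
  have hkie : k⁻¹ • e = e := R.H_fix e he k⁻¹ ((R.H e).inv_mem hk)
  have hz0e : z0 ≠ e := fun h => hz (h ▸ he)
  have hnb := smul_base (R := R) hz n
  have hnz0e : n • z0 ≠ e := fun h => hnb (h ▸ he)
  have hde : ∀ x, R.M.d e (k⁻¹ • x) = R.M.d e x := by
    intro x
    have h1 := R.iso k⁻¹ e x
    rwa [hkie] at h1
  have hde' : ∀ x, R.M.d e (k • x) = R.M.d e x := by
    intro x
    have h1 := R.iso k e x
    rwa [hke] at h1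
  set w := n • z with hw_def
  by_cases hwe : w = e
  · -- `w = e`
    have h1 : (k⁻¹ * n) • z = w := by
      rw [mul_smul, ← hw_def, hwe, hkie]
    have h2 := IH V hV hr hmin (k⁻¹ * n) hn'N z hzz (by rw [h1]; exact hne)
      (Or.inr ⟨by rw [h1], hlen⟩)
    rw [h1] at h2
    exact hcon h2
  by_cases hLE : R.LE e z0 w R.θ
  · have h4 : ¬ R.LE e z0 (n • z0) (4 * R.θ) :=
      big_angle he hk hk1 hz0e hnz0e hT (by omega)
    have h5 : ¬ R.LE e (n • z0) w R.θ := by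
      intro h6
      apply h4
      have h7 : R.LE e w (n • z0) R.θ := AngSys.LE.symm (A := R.toAng) he h6
      have h8 : R.LE e z0 (n • z0) (R.θ + R.θ) := AngSys.LE.trans (A := R.toAng) he hwe hLE h7
      exact AngSys.LE.mono (A := R.toAng) h8 (by omega)
    have h6 : R.M.Cut e (n • z0) w := AngSys.cut_of_not_LE (A := R.toAng) he hnz0e hwe h5
    have h7 : R.M.d (n • z0) e + R.M.d e w = R.M.d (n • z0) w := h6.1
    have h8 : R.M.d (n • z0) w = R.M.d z0 z := R.iso n z0 z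
    have h9 : (k⁻¹ * n) • ((n⁻¹ * k) • w) = w := by
      rw [← mul_smul]
      have : k⁻¹ * n * (n⁻¹ * k) = 1 := by group
      rw [this, one_smul]
    have h10 : R.M.d z0 ((n⁻¹ * k) • w) = R.M.d (n • z0) (k • w) := by
      have h11 := R.iso n z0 ((n⁻¹ * k) • w)
      rw [← mul_smul] at h11
      have : n * (n⁻¹ * k) = k := by group
      rw [this] at h11
      exact h11.symm
    have h12 := R.M.tri (n • z0) e (k • w)
    have h13 := hde' w
    have h14 := IH V hV hr hmin (k⁻¹ * n) hn'N ((n⁻¹ * k) • w) (by omega)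
      (by rw [h9]; exact hne) (Or.inr ⟨by rw [h9], hlen⟩)
    rw [h9] at h14
    exact hcon h14
  have hcute : R.M.Cut e z0 w := AngSys.cut_of_not_LE (A := R.toAng) he hz0e hwe hLE
  have hbe : R.M.d z0 e + R.M.d e w = R.M.d z0 w := hcute.1
  have hbV : R.M.d z0 V + R.M.d V w = R.M.d z0 w := hcut.1
  have hdne : R.M.d z0 e ≠ R.M.d z0 V := fun h1 => heV (hcut.eq_of_pos hcute.1 h1)
  rcases lt_or_gt_of_ne hdne with hlt | hlt
  · -- `e` before `V`
    have hc1 : R.M.Cut e z0 V := hcute.left hcut.1 hlt.le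
    have hgerm : R.M.Germ V z0 = R.M.Germ V e := GMet.germ_eq hc1.symm heV
    have hb1 : R.M.d z0 e + R.M.d e V = R.M.d z0 V := hc1.1
    have h1 := R.M.tri z0 e (k⁻¹ • V)
    have h2 := hde V
    have h3 := hmin k⁻¹ hkiN
    have hV' : k⁻¹ • V ∈ R.apex := R.apex_smul _ _ hV
    have hdV' : R.M.d z0 (k⁻¹ • V) = R.M.d z0 V := by omega
    have hmin' : ∀ n ∈ R.Nr z0 r, R.M.d z0 (k⁻¹ • V) ≤ R.M.d z0 (n • k⁻¹ • V) := by
      intro n2 hn2
      rw [hdV', ← mul_smul]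
      exact hmin _ ((R.Nr z0 r).mul_mem hn2 hkiN)
    have h4 : (k⁻¹ * n) • z = k⁻¹ • w := by rw [mul_smul]
    have h5 : R.M.d z0 (k⁻¹ • w) ≤ R.M.d z0 w := by
      have h6 := R.M.tri z0 e (k⁻¹ • w)
      have h7 := hde w
      omega
    have h6 := IH (k⁻¹ • V) hV' (by omega) hmin' (k⁻¹ * n) hn'N z (by omega)
      (by rw [h4]; intro h7; exact hne (MulAction.injective k⁻¹ h7))
      (Or.inr ⟨by rw [h4]; exact h5, hlen⟩)
    rw [h4] at h6
    have h7 : R.M.Btw (k⁻¹ • V) e z0 := by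
      have h8 := R.M.symm (k⁻¹ • V) e
      have h9 := R.M.symm e z0
      have h10 := R.M.symm (k⁻¹ • V) z0
      change R.M.d (k⁻¹ • V) e + R.M.d e z0 = R.M.d (k⁻¹ • V) z0
      omega
    have h8 : e ≠ k⁻¹ • V := by
      intro h9
      apply heV
      have h10 : k • e = V := by rw [h9, smul_inv_smul]
      rw [← h10, hke]
    have h9 := GMet.germ_sub h7 h8
    have h10 : R.LE (k⁻¹ • V) e (k⁻¹ • w) R.θ := fun y hy y' hy' => h6 y (h9 hy) y' hy'
    have h11 : R.LE V e w R.θ := by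
      have h12 := (LE_smul (R := R) k).2 h10
      rwa [smul_inv_smul, smul_inv_smul, hke] at h12
    apply hcon
    intro y hy y' hy'
    rw [hgerm] at hy
    exact h11 y hy y' hy'
  · -- `V` before `e`
    have hc1 : R.M.Cut e V w := hcute.right hcut.1 hlt.le
    have hgerm : R.M.Germ V w = R.M.Germ V e := GMet.germ_eq hc1 heV
    have hew : 0 < R.M.d e w := by
      rcases Nat.eq_zero_or_pos (R.M.d e w) with h1 | h1
      · exact absurd (R.M.eq_of _ _ h1).symm hwe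
      · exact h1
    have h2 := IH V hV hr hmin n1 hn1' V1 (by omega) heV (Or.inl (by
      rw [← he_def]; omega))
    rw [← he_def] at h2
    apply hcon
    intro y hy y' hy'
    rw [hgerm] at hy'
    exact h2 y hy y' hy'

end RotSys
end BG
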