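import Pool.Agent.Helper76.BG.Green1

/-!
# BG23: the Greendlinger lemma, part 2
-/

set_option autoImplicit false

namespace BG
namespace RotSys

variable {G Z : Type} [Group G] [MulAction G Z] {R : RotSys G Z}

/-- the apexes at distance exactly `r` of `z0` which are nearest to `z0` in their orbit -/
private def VV (R : RotSys G Z) (z0 : Z) (r : ℕ) : Set Z :=
  {V | V ∈ R.apex ∧ R.M.d z0 V = r ∧ ∀ n ∈ R.Nr z0 r, R.M.d z0 V ≤ R.M.d z0 (n • V)}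

/-- reduced tails -/
private inductive Rd (R : RotSys G Z) (z0 : Z) (r : ℕ) : Z → G → Prop
  | base (V : Z) (h n : G) : V ∈ VV R z0 r → h ∈ R.H V → h ≠ 1 → n ∈ R.Nr z0 r →
      Rd R z0 r V (h * n)
  | cons (V V' : Z) (h n t : G) : V ∈ VV R z0 r → h ∈ R.H V → h ≠ 1 → n ∈ R.Nr z0 r →
      Rd R z0 r V' t → n • V' ≠ V → Rd R z0 r V (h * n * t)

private theorem base_ne {z0 : Z} (hz : z0 ∉ R.apex) {V : Z} (hV : V ∈ R.apex) (g : G) :
    g • z0 ≠ V := by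
  intro h
  apply hz
  have := R.apex_smul g⁻¹ V hV
  rw [← h, inv_smul_smul] at this
  exact this

/-- rotate an angle at `V` -/
private theorem LE_rot {V z w : Z} {T : ℕ} {h : G} (hV : V ∈ R.apex) (hh : h ∈ R.H V)
    (hL : R.LE V z w T) : R.LE V (h • z) (h • w) T := by
  have h1 := (LE_smul (R := R) (c := V) (z := z) (w := w) (T := T) h).mpr hL
  rwa [R.H_fix V hV h hh] at h1

private theorem Rd.key {z0 : Z} {r : ℕ} (hz : z0 ∉ R.apex) (hD : R.DAt z0 r) {V : Z} {t : G}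
    (hR : Rd R z0 r V t) :
    V ∈ VV R z0 r ∧ ∃ h ∈ R.H V, h ≠ 1 ∧ R.LE V (h • z0) (t • z0) R.θ := by
  induction hR with
  | base V h n hV hh h1 hn =>
    refine ⟨hV, h, hh, h1, ?_⟩
    rw [mul_smul]
    apply LE_rot hV.1 hh
    refine hD V hV.1 hV.2.1.ge hV.2.2 n hn z0 ?_ (base_ne hz hV.1 n)
    rw [R.M.self]
    exact Nat.zero_le _
  | cons V V' h n t hV hh h1 hn hR hne ih =>
    obtain ⟨hV', h', hh', h1', hL⟩ := ih
    refine ⟨hV, h, hh, h1, ?_⟩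
    rw [mul_smul, mul_smul]
    apply LE_rot hV.1 hh
    -- the angle at `V` between `z0` and `n V'`
    have hA : R.LE V z0 (n • V') R.θ :=
      hD V hV.1 hV.2.1.ge hV.2.2 n hn V' (by rw [hV.2.1, hV'.2.1]) hne
    -- the angle at `V'`
    have hne' : n⁻¹ • V ≠ V' := by
      intro h
      apply hne
      rw [← h, smul_inv_smul]
    have hB : R.LE V' z0 (n⁻¹ • V) R.θ :=
      hD V' hV'.1 hV'.2.1.ge hV'.2.2 n⁻¹ ((R.Nr z0 r).inv_mem hn) V
        (by rw [hV.2.1, hV'.2.1]) hne'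
    have htz : t • z0 ≠ V' := base_ne hz hV'.1 t
    have hzV' : z0 ≠ V' := fun h => hz (h ▸ hV'.1)
    have hnot : ¬ R.LE V' (n⁻¹ • V) (t • z0) R.θ := by
      intro hC
      have hs : R.LE V' z0 (t • z0) (R.θ + R.θ) :=
        AngSys.LE.trans (A := R.toAng) hV'.1 hne' hB hC
      have hb := R.big
      have hp := R.θ_pos
      exact big_angle (S := R.θ + R.θ) (T := R.θ) hV'.1 hh' h1' hzV' htz hL (by omega) hs
    have hcut : R.M.Cut V' (n⁻¹ • V) (t • z0) :=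
      AngSys.cut_of_not_LE (A := R.toAng) hV'.1 hne' htz hnot
    have hcut2 : R.M.Cut (n • V') V (n • t • z0) := by
      have h3 := (GMet.cut_smul (M := R.M) R.isoAct (c := V') (z := n⁻¹ • V) (w := t • z0) n).mpr
        hcut
      rwa [smul_inv_smul] at h3
    have hG : R.M.Germ V (n • t • z0) = R.M.Germ V (n • V') := GMet.germ_eq hcut2 hne
    intro y hy y' hy'
    rw [hG] at hy'
    exact hA y hy y' hy'

/-- left multiplication by a rotation around a point of `VV` -/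
private theorem mulV {z0 : Z} {r : ℕ} {c : Z} {h g : G} (hc : c ∈ VV R z0 r) (hh : h ∈ R.H c)
    (hg : g ∈ R.Nr z0 r ∨ ∃ n ∈ R.Nr z0 r, ∃ V t, Rd R z0 r V t ∧ g = n * t) :
    h * g ∈ R.Nr z0 r ∨ ∃ n ∈ R.Nr z0 r, ∃ V t, Rd R z0 r V t ∧ h * g = n * t := by
  by_cases h1 : h = 1
  · rw [h1, one_mul]
    exact hg
  rcases hg with hg | ⟨n, hn, V, t, ht, rfl⟩
  · exact Or.inr ⟨1, (R.Nr z0 r).one_mem, c, h * g, Rd.base c h g hc hh h1 hg, by simp⟩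
  · by_cases hne : n • V = c
    · -- merge
      have hconj : ∀ V, n • V = c → V ∈ VV R z0 r → n⁻¹ * h * n ∈ R.H V := by
        intro V hV hVV
        have h2 := R.H_conj n⁻¹ c hc.1 h hh
        rw [← hV, inv_smul_smul, inv_inv] at h2
        exact h2
      cases ht with
      | base _ h' n' hV hh' h1' hn' =>
        have h3 : n⁻¹ * h * n * h' ∈ R.H V := (R.H V).mul_mem (hconj V hne hV) hh'
        by_cases h4 : n⁻¹ * h * n * h' = 1
        · left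
          have h5 : h * (n * (h' * n')) = n * (n⁻¹ * h * n * h') * n' := by group
          rw [h5, h4, mul_one]
          exact (R.Nr z0 r).mul_mem hn hn'
        · right
          refine ⟨n, hn, V, _, Rd.base V _ n' hV h3 h4 hn', ?_⟩
          group
      | cons _ V' h' n' t' hV hh' h1' hn' ht' hne' =>
        have h3 : n⁻¹ * h * n * h' ∈ R.H V := (R.H V).mul_mem (hconj V hne hV) hh'
        by_cases h4 : n⁻¹ * h * n * h' = 1
        · right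
          refine ⟨n * n', (R.Nr z0 r).mul_mem hn hn', V', t', ht', ?_⟩
          have h5 : h * (n * (h' * n' * t')) = n * (n⁻¹ * h * n * h') * n' * t' := by group
          rw [h5, h4, mul_one]
        · right
          refine ⟨n, hn, V, _, Rd.cons V V' _ n' t' hV h3 h4 hn' ht' hne', ?_⟩
          group
    · right
      refine ⟨1, (R.Nr z0 r).one_mem, c, _, Rd.cons c V h n t hc hh h1 hn ht hne, ?_⟩
      group

private theorem mulN {z0 : Z} {r : ℕ} {h g : G} (hh : h ∈ R.Nr z0 r)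
    (hg : g ∈ R.Nr z0 r ∨ ∃ n ∈ R.Nr z0 r, ∃ V t, Rd R z0 r V t ∧ g = n * t) :
    h * g ∈ R.Nr z0 r ∨ ∃ n ∈ R.Nr z0 r, ∃ V t, Rd R z0 r V t ∧ h * g = n * t := by
  rcases hg with hg | ⟨n, hn, V, t, ht, rfl⟩
  · exact Or.inl ((R.Nr z0 r).mul_mem hh hg)
  · exact Or.inr ⟨h * n, (R.Nr z0 r).mul_mem hh hn, V, t, ht, by group⟩

private theorem mulH {z0 : Z} {r : ℕ} {c : Z} {h g : G} (hc : c ∈ R.apex)
    (hd : R.M.d z0 c < r + 1) (hh : h ∈ R.H c)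
    (hg : g ∈ R.Nr z0 r ∨ ∃ n ∈ R.Nr z0 r, ∃ V t, Rd R z0 r V t ∧ g = n * t) :
    h * g ∈ R.Nr z0 r ∨ ∃ n ∈ R.Nr z0 r, ∃ V t, Rd R z0 r V t ∧ h * g = n * t := by
  by_cases h1 : R.M.d z0 c < r
  · exact mulN (Subgroup.subset_closure ⟨c, hc, h1, hh⟩) hg
  · have h2 : R.M.d z0 c = r := by omega
    by_cases h3 : ∀ n ∈ R.Nr z0 r, R.M.d z0 c ≤ R.M.d z0 (n • c)
    · exact mulV ⟨hc, h2, h3⟩ hh hg
    · push Not at h3
      obtain ⟨n, hn, h4⟩ := h3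
      have h5 : n * h * n⁻¹ ∈ R.Nr z0 r :=
        Subgroup.subset_closure ⟨n • c, R.apex_smul n c hc, by omega, R.H_conj n c hc h hh⟩
      have h6 : h ∈ R.Nr z0 r := by
        have h7 : h = n⁻¹ * (n * h * n⁻¹) * n := by group
        rw [h7]
        exact (R.Nr z0 r).mul_mem ((R.Nr z0 r).mul_mem ((R.Nr z0 r).inv_mem hn) h5) hn
      exact mulN h6 hg

private theorem split {z0 : Z} {r : ℕ} {g : G} (hg : g ∈ R.Nr z0 (r + 1)) :
    g ∈ R.Nr z0 r ∨ ∃ n ∈ R.Nr z0 r, ∃ V t, Rd R z0 r V t ∧ g = n * t := by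
  have hg' : g ∈ Subgroup.closure {h | ∃ c ∈ R.apex, R.M.d z0 c < r + 1 ∧ h ∈ R.H c} := hg
  induction hg' using Subgroup.closure_induction_left with
  | one => exact Or.inl (R.Nr z0 r).one_mem
  | mul_left x hx y hy ih =>
    obtain ⟨c, hc, hd, hx⟩ := hx
    exact mulH hc hd hx (ih hy)
  | inv_mul_cancel x hx y hy ih =>
    obtain ⟨c, hc, hd, hx⟩ := hx
    exact mulH hc hd ((R.H c).inv_mem hx) (ih hy)

private theorem Nr_mono {z0 : Z} {r s : ℕ} (h : r ≤ s) : R.Nr z0 r ≤ R.Nr z0 s := by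
  apply Subgroup.closure_mono
  rintro x ⟨c, hc, hd, hx⟩
  exact ⟨c, hc, by omega, hx⟩

/-- Proof. Let `𝒱` be the set of apexes `V` with `d z0 V = r` and `d z0 V ≤ d z0 (n V)` for all `n ∈ Nr z0 r`.
`Nr z0 (r+1)` is generated by `Nr z0 r` and the `H V`, `V ∈ 𝒱` (if `d z0 c = r` and `c ∉ 𝒱` then `d z0 (n c) < r` for some
`n ∈ Nr z0 r` and `H c = n⁻¹ H(nc) n ≤ Nr z0 r`). So every element of `Nr z0 (r+1)` is
`g = n0 h1 n1 ⋯ hk nk` with `ni ∈ Nr z0 r`, `hi ∈ H Vi`, `hi ≠ 1`, `Vi ∈ 𝒱`; take `k` minimal. If `k = 0` use `GrAt z0 r`.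
Otherwise `n_i V_{i+1} ≠ V_i` for `1 ≤ i < k` by minimality (merge `h_i (n_i h_{i+1} n_i⁻¹) n_i n_{i+1}`).
Put `g_i = n0 h1 n1 ⋯ h_{i-1} n_{i-1}`, `c_i = g_i V_i` (`1 ≤ i ≤ k`), `c_0 = z0`, `c_{k+1} = g z0`. By `DAt` at `V_i`:
`LE V_i z0 (n_i V_{i+1}) θ` (`n_k z0` if `i = k`) and `LE V_i z0 (n_{i-1}⁻¹ V_{i-1}) θ` (`n_0⁻¹ z0` if `i = 1`). As
`g_i⁻¹ c_{i-1} = n_{i-1}⁻¹ V_{i-1}` and `g_i⁻¹ c_{i+1} = h_i n_i V_{i+1}`, the angle at `c_i` between `c_{i-1}` and `c_{i+1}` is at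
least `Θ - 2θ` (`rot`), in particular not `≤ θ`. `AngSys.chain` (for `R.toAng`): `Germ c_1 (g z0) = Germ c_1 c_2`. Take
`e = c_1 = n0 V_1`, `h = n0 h1 n0⁻¹`: `LE e (h z0) (g z0) (2θ)` because (apply `n0⁻¹`) `LE V_1 (h1 n0⁻¹ z0) (h1 n1 V_2) (2θ)`. -/
theorem grAt_succ {z0 : Z} {r : ℕ} (hz : z0 ∉ R.apex) (h : R.GrAt z0 r) (hD : R.DAt z0 r) :
    R.GrAt z0 (r + 1) := by
  intro g hg hg1
  rcases split hg with hg' | ⟨n0, hn0, V, t, ht, rfl⟩
  · obtain ⟨n1, hn1, V, hV, hd, h', hh', h1', hL⟩ := h g hg' hg1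
    exact ⟨n1, Nr_mono (Nat.le_succ r) hn1, V, hV, by omega, h', hh', h1', hL⟩
  · obtain ⟨hV, h1, hh1, h11, hL⟩ := ht.key hz hD
    have hA : R.LE V z0 (n0⁻¹ • z0) R.θ :=
      hD V hV.1 hV.2.1.ge hV.2.2 n0⁻¹ ((R.Nr z0 r).inv_mem hn0) z0
        (by rw [R.M.self]; exact Nat.zero_le _) (base_ne hz hV.1 _)
    have hB : R.LE V (n0⁻¹ • z0) z0 R.θ := AngSys.LE.symm (A := R.toAng) hV.1 hA
    have hC : R.LE V (h1 • n0⁻¹ • z0) (h1 • z0) R.θ := LE_rot hV.1 hh1 hB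
    have hE : R.LE V (h1 • n0⁻¹ • z0) (t • z0) (R.θ + R.θ) :=
      AngSys.LE.trans (A := R.toAng) hV.1 (base_ne hz hV.1 _) hC hL
    refine ⟨n0, Nr_mono (Nat.le_succ r) hn0, V, hV.1, by rw [hV.2.1]; omega, n0 * h1 * n0⁻¹,
      R.H_conj n0 V hV.1 h1 hh1, ?_, ?_⟩
    · intro h2
      apply h11
      have h3 : h1 = n0⁻¹ * (n0 * h1 * n0⁻¹) * n0 := by group
      rw [h3, h2]
      group
    · have h4 := (LE_smul (R := R) (c := V) (z := h1 • n0⁻¹ • z0) (w := t • z0)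
        (T := R.θ + R.θ) n0).mpr hE
      rw [mul_smul, mul_smul, mul_smul, two_mul]
      exact h4

/-- THE GREENDLINGER LEMMA -/
theorem gr {z0 : Z} (hz : z0 ∉ R.apex) {n : G} (hn : n ∈ R.N) (h1 : n ≠ 1) :
    ∃ e ∈ R.apex, ∃ h ∈ R.H e, h ≠ 1 ∧ R.LE e (h • z0) (n • z0) (2 * R.θ) := by
  have hall : ∀ r, R.GrAt z0 r := by
    intro r
    induction r with
    | zero =>
      intro n hn hn1
      exfalso
      apply hn1
      have h2 : R.Nr z0 0 = ⊥ := by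
        unfold Nr
        rw [Subgroup.closure_eq_bot_iff]
        rintro x ⟨c, hc, hd, hx⟩
        omega
      rw [h2] at hn
      exact Subgroup.mem_bot.mp hn
    | succ r ih => exact grAt_succ hz ih (dAt_of_grAt hz ih)
  have hex : ∃ r, n ∈ R.Nr z0 r := by
    have hn' : n ∈ Subgroup.closure {h | ∃ c ∈ R.apex, h ∈ R.H c} := hn
    clear h1 hn
    induction hn' using Subgroup.closure_induction with
    | mem x hx =>
      obtain ⟨c, hc, hx⟩ := hx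
      exact ⟨R.M.d z0 c + 1, Subgroup.subset_closure ⟨c, hc, by omega, hx⟩⟩
    | one => exact ⟨0, (R.Nr z0 0).one_mem⟩
    | mul x y hx hy ihx ihy =>
      obtain ⟨r, hr⟩ := ihx
      obtain ⟨s, hs⟩ := ihy
      exact ⟨max r s, (R.Nr z0 _).mul_mem (Nr_mono (le_max_left r s) hr)
        (Nr_mono (le_max_right r s) hs)⟩
    | inv x hx ih =>
      obtain ⟨r, hr⟩ := ih
      exact ⟨r, (R.Nr z0 r).inv_mem hr⟩
  obtain ⟨r, hr⟩ := hex
  obtain ⟨n1, hn1, V, hV, hd, h, hh, hh1, hL⟩ := hall r n hr h1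
  exact ⟨n1 • V, R.apex_smul n1 V hV, h, hh, hh1, hL⟩

end RotSys
end BG
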