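import Pool.Agent.Helper76.BG.Defs

/-!
# BG01: almost intervals in hyperbolic graph-like spaces

All statements are consequences of the four point inequality at suitable points; after
instantiating `h` (and `M.tri`, `M.symm`) everything is linear (`omega`).
-/

set_option autoImplicit false

namespace BG
namespace GMet

variable {X : Type} {M : GMet X} {δ : ℕ}

/-- hyperbolic ⟹ thin. Proof: four points `x y p z`: `d x y + d p z ≤ max (d x p + d y z, d x z + d y p) + 2δ`. -/
theorem Hyp.thin (h : M.Hyp δ) : M.Thin δ := by
  intro x y z p hp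
  have h1 := h x y p z
  have s1 := M.symm p y
  unfold Btw at hp
  omega

/-- thin ⟹ hyperbolic. Proof: given `x y z t`. Let `p` be a point between `x` and `y`, with `d x p` MAXIMAL subject
to `d x p + d p z ≤ d x z + 2e` (`p = x` is allowed). If `p = y` or (taking the next point `p'` on a geodesic from `p`
to `y`, `d p p' = 1`, for which the first alternative of `Thin` fails, hence the second holds) we get
`d y p + d p z ≤ d y z + 2e + 2`. Apply `Thin` to `p` and `t`; in either case add up. -/
theorem Thin.hyp {e : ℕ} (h : M.Thin e) : M.Hyp (2 * e + 1) := by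
  intro x y z t
  have key : ∃ p, M.Btw x p y ∧ M.d x p + M.d p z ≤ M.d x z + 2 * e ∧
      M.d y p + M.d p z ≤ M.d y z + 2 * e + 2 := by
    by_contra hcon
    push Not at hcon
    have all : ∀ k, k ≤ M.d x y → ∃ p, M.Btw x p y ∧ M.d x p = k ∧
        M.d x p + M.d p z ≤ M.d x z + 2 * e := by
      intro k
      induction k with
      | zero =>
        intro _
        refine ⟨x, ?_, M.self x, ?_⟩
        · unfold Btw
          rw [M.self]
          omega
        · rw [M.self]
          omega
      | succ k ih =>
        intro hk
        obtain ⟨p, hp, hpk, hpz⟩ := ih (by omega)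
        have hbad := hcon p hp hpz
        unfold Btw at hp
        obtain ⟨p', hp1, hp2⟩ := M.geo p y 1 (by omega)
        have t1 := M.tri x p p'
        have t2 := M.tri x p' y
        have hb' : M.Btw x p' y := by
          unfold Btw
          omega
        have s1 := M.symm y p
        have s2 := M.symm y p'
        have t3 := M.tri p p' z
        refine ⟨p', hb', by omega, ?_⟩
        rcases h x y z p' hb' with h1 | h1
        · exact h1
        · omega
    obtain ⟨p, hp, hpk, hpz⟩ := all _ le_rfl
    have hbad := hcon p hp hpz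
    unfold Btw at hp
    have hpy : M.d p y = 0 := by omega
    have hpe := M.eq_of _ _ hpy
    subst hpe
    rw [M.self] at hbad
    omega
  obtain ⟨p, hp, hpz, hpz'⟩ := key
  have ht := h x y t p hp
  unfold Btw at hp
  have s1 := M.symm y p
  have t1 := M.tri z p t
  have s2 := M.symm z p
  have s3 := M.symm y t
  have s4 := M.symm y z
  omega

/-- two almost-between points at nearly the same position are near. (four points `x y p p'`) -/
theorem Hyp.slk_dist (h : M.Hyp δ) {s : ℕ} {x y p p' : X} (hp : M.Slk s x p y) (hp' : M.Slk s x p' y) :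
    M.d p p' ≤ (M.d x p - M.d x p') + (M.d x p' - M.d x p) + s + 2 * δ := by
  have h1 := h x y p p'
  unfold Slk at hp hp'
  have s1 := M.symm y p
  have s2 := M.symm y p'
  omega

/-- an almost-between point is near a between point, with the same position if possible -/
theorem Hyp.slk_near (h : M.Hyp δ) {s : ℕ} {x y p : X} (hp : M.Slk s x p y) :
    ∃ u, M.Btw x u y ∧ M.d p u ≤ s + 2 * δ ∧ (M.d x p ≤ M.d x y → M.d x u = M.d x p) := by
  rcases le_or_gt (M.d x p) (M.d x y) with h1 | h1
  · obtain ⟨u, hu1, hu2⟩ := M.geo x y (M.d x p) h1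
    have hb : M.Btw x u y := by
      unfold Btw
      omega
    have hs : M.Slk s x u y := by
      unfold Slk
      unfold Btw at hb
      omega
    have h2 := h.slk_dist hp hs
    exact ⟨u, hb, by omega, fun _ => hu1⟩
  · refine ⟨y, ?_, ?_, fun h2 => by omega⟩
    · unfold Btw
      rw [M.self]
      omega
    · unfold Slk at hp
      omega

/-- moving the end points. Step 1: `x y p y'` gives `Slk (s + 2δ) x p y'`; step 2: `y' x p x'`. -/
theorem Hyp.slk_move (h : M.Hyp δ) {s D : ℕ} {x y x' y' p : X} (hp : M.Slk s x p y)
    (hx : M.d x x' ≤ D) (hy : M.d y y' ≤ D)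
    (h1 : 2 * D + s + 4 * δ + 2 ≤ 2 * M.d x p) (h2 : 2 * D + s + 4 * δ + 2 ≤ 2 * M.d p y) :
    M.Slk (s + 4 * δ) x' p y' := by
  have t1 := M.tri p y' y
  have t2 := M.tri x x' p
  have s1 := M.symm y y'
  have s2 := M.symm y p
  have s3 := M.symm x p
  have s4 := M.symm x' p
  have s5 := M.symm y' p
  have s6 := M.symm x y'
  have s7 := M.symm x' y'
  have f1 := h x y p y'
  have f2 := h y' x p x'
  unfold Slk at *
  rcases f1 with f1 | f1
  · omega
  · rcases f2 with f2 | f2
    · omega
    · omega

/-- a point whose position lies between the positions of two almost-between points `q, q'` is almost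
between `q` and `q'` (from `slk_dist` twice, and `d x q' - d x q ≤ d q q'`) -/
theorem Hyp.slk_between (h : M.Hyp δ) {s : ℕ} {x y q q' w : X} (hq : M.Slk s x q y)
    (hq' : M.Slk s x q' y) (hw : M.Slk s x w y) (h1 : M.d x q ≤ M.d x w) (h2 : M.d x w ≤ M.d x q') :
    M.Slk (2 * s + 4 * δ) q w q' := by
  have a1 := h.slk_dist hq hw
  have a2 := h.slk_dist hw hq'
  have t1 := M.tri x q q'
  unfold Slk
  omega

/-- sub-intervals -/
theorem btw_trans {x p y q : X} (h1 : M.Btw x p y) (h2 : M.Btw x q p) :
    M.Btw x q y ∧ M.Btw q p y := by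
  unfold Btw at *
  have t1 := M.tri q p y
  have t2 := M.tri x q y
  constructor <;> omega

theorem Btw.symm {x p y : X} (h1 : M.Btw x p y) : M.Btw y p x := by
  unfold Btw at *
  have s1 := M.symm x p
  have s2 := M.symm p y
  have s3 := M.symm x y
  omega

/-- `Btw` points exist at every position -/
theorem exists_btw (M : GMet X) (x y : X) {k : ℕ} (hk : k ≤ M.d x y) :
    ∃ z, M.Btw x z y ∧ M.d x z = k := by
  obtain ⟨z, hz1, hz2⟩ := M.geo x y k hk
  refine ⟨z, ?_, hz1⟩
  unfold Btw
  omega

/-- geodesics exist. (induction on `d x y`, or recursion choosing points at distance 1) -/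
theorem exists_geo (M : GMet X) (x y : X) : ∃ w : ℕ → X, M.IsGeo w (M.d x y) x y := by
  have all : ∀ n (x y : X), M.d x y = n → ∃ w : ℕ → X, M.IsGeo w n x y := by
    intro n
    induction n with
    | zero =>
      intro x y hxy
      have := M.eq_of _ _ hxy
      subst this
      refine ⟨fun _ => x, rfl, rfl, ?_⟩
      intro i j hij hj
      show M.d x x = j - i
      rw [M.self]
      omega
    | succ n ih =>
      intro x y hxy
      obtain ⟨z, hz1, hz2⟩ := M.geo x y n (by omega)
      obtain ⟨w, hw0, hwn, hw⟩ := ih x z hz1
      refine ⟨fun i => if i ≤ n then w i else y, ?_, ?_, ?_⟩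
      · simp [hw0]
      · simp
      · intro i j hij hj
        by_cases hjn : j ≤ n
        · have hin : i ≤ n := by omega
          simp only [hjn, hin, if_true]
          exact hw i j hij hjn
        · by_cases hin : i ≤ n
          · simp only [hjn, hin, if_true, if_false]
            have a1 := hw i n hin le_rfl
            have a2 := hw 0 i (by omega) hin
            rw [hw0] at a2
            rw [hwn] at a1
            have t1 := M.tri (w i) z y
            have t2 := M.tri x (w i) y
            omega
          · simp only [hjn, hin, if_false]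
            rw [M.self]
            omega
  exact all _ x y rfl

/-- geodesics through a given between point -/
theorem exists_geo_through {x p y : X} (h : M.Btw x p y) :
    ∃ w : ℕ → X, M.IsGeo w (M.d x y) x y ∧ w (M.d x p) = p := by
  obtain ⟨w1, a0, a1, a2⟩ := M.exists_geo x p
  obtain ⟨w2, b0, b1, b2⟩ := M.exists_geo p y
  unfold Btw at h
  refine ⟨fun i => if i ≤ M.d x p then w1 i else w2 (i - M.d x p), ⟨?_, ?_, ?_⟩, ?_⟩
  · simp [a0]
  · by_cases hc : M.d x y ≤ M.d x p
    · simp only [hc, if_true]
      have e1 : M.d p y = 0 := by omega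
      have e2 : M.d x y = M.d x p := by omega
      rw [e2, a1]
      exact M.eq_of _ _ e1
    · simp only [hc, if_false]
      have e2 : M.d x y - M.d x p = M.d p y := by omega
      rw [e2, b1]
  · intro i j hij hj
    by_cases hjn : j ≤ M.d x p
    · have hin : i ≤ M.d x p := by omega
      simp only [hjn, hin, if_true]
      exact a2 i j hij hjn
    · by_cases hin : i ≤ M.d x p
      · simp only [hjn, hin, if_true, if_false]
        have c1 := a2 i _ hin le_rfl
        have c2 := a2 0 i (by omega) hin
        rw [a0] at c2
        rw [a1] at c1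
        have d1 := b2 0 (j - M.d x p) (by omega) (by omega)
        have d2 := b2 (j - M.d x p) _ (by omega : j - M.d x p ≤ M.d p y) le_rfl
        rw [b0] at d1
        rw [b1] at d2
        have t1 := M.tri (w1 i) p (w2 (j - M.d x p))
        have t2 := M.tri x (w1 i) y
        have t3 := M.tri (w1 i) (w2 (j - M.d x p)) y
        omega
      · simp only [hjn, hin, if_false]
        have := b2 (i - M.d x p) (j - M.d x p) (by omega) (by omega)
        omega
  · simp [a1]

/-- a discrete intermediate value theorem for a 1-Lipschitz function along a sequence -/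
theorem discrete_ivt (f : ℕ → ℕ) {m a : ℕ} (h0 : f 0 ≤ a) (hm : a ≤ f m)
    (hstep : ∀ i < m, f (i + 1) ≤ f i + 1) : ∃ i ≤ m, f i = a := by
  induction m with
  | zero => exact ⟨0, le_rfl, le_antisymm h0 hm⟩
  | succ m ih =>
    by_cases h1 : a ≤ f m
    · obtain ⟨i, hi, hfi⟩ := ih h1 (fun i hi => hstep i (by omega))
      exact ⟨i, by omega, hfi⟩
    · have := hstep m (by omega)
      exact ⟨m + 1, le_rfl, by omega⟩

end GMet
end BG
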