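import Pool.Agent.Helper76.BG.QAng

/-!
# BG28: stabilizers of distinct apexes of the quotient meet trivially
-/

set_option autoImplicit false

namespace BG
namespace RotSys

variable {G Z : Type} [Group G] [MulAction G Z] {R : RotSys G Z}

private theorem qs_mono {f z w : Z} {S T : ℕ} (h : R.LE f z w S) (hST : S ≤ T) : R.LE f z w T :=
  AngSys.LE.mono (A := R.toAng) h hST

private theorem qs_symm {f z w : Z} {S : ℕ} (hf : f ∈ R.apex) (h : R.LE f z w S) :
    R.LE f w z S :=
  AngSys.LE.symm (A := R.toAng) hf h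

private theorem qs_trans {f z w v : Z} {S T : ℕ} (hf : f ∈ R.apex) (hw : w ≠ f)
    (h : R.LE f z w S) (h' : R.LE f w v T) : R.LE f z v (S + T) :=
  AngSys.LE.trans (A := R.toAng) hf hw h h'

private theorem qs_adj {f z w : Z} (hf : f ∈ R.apex) (hz : z ≠ f) (hw : w ≠ f)
    (h : R.M.d z w ≤ 1) : R.LE f z w R.θ :=
  AngSys.LE.of_adj (A := R.toAng) hf hz hw h

private theorem qs_cut {f z w : Z} (hf : f ∈ R.apex) (hz : z ≠ f) (hw : w ≠ f) {T : ℕ}
    (hT : R.θ ≤ T) (h : ¬ R.LE f z w T) : R.M.Cut f z w :=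
  AngSys.cut_of_not_LE (A := R.toAng) hf hz hw (fun h' => h (qs_mono h' hT))

private theorem qs_HN {c : Z} (hc : c ∈ R.apex) {h : G} (hh : h ∈ R.H c) : h ∈ R.N :=
  Subgroup.subset_closure ⟨c, hc, hh⟩

private theorem qs_base {c y : Z} (hc : c ∈ R.apex) (h : R.M.d c y = 1) : y ∉ R.apex :=
  fun hy => R.nadj c hc y hy h

/-- the improvement step -/
private theorem qs_step {c e y u x f : Z} (hc : c ∈ R.apex) (he : e ∈ R.apex) (L : ℕ)
    (hL : R.Mq.d (R.pj c) (R.pj e) = L)
    (hcy : R.M.d c y = 1) (hcu : R.M.d c u = 1) (hye : R.M.d y e + 1 = L)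
    (hue : R.M.d u e + 1 = L) (hxe : x ∈ R.M.Germ e u)
    (h0 : ∀ f ∈ R.apexq, f ≠ R.pj c → f ≠ R.pj e → R.Aq.LE f (R.pj c) (R.pj e) R.θ)
    (hf : f ∈ R.apex) (hfc : f ≠ c) (hfe : f ≠ e) (hfec : ¬ R.LE f e c (20 * R.θ)) :
    ∃ k ∈ R.N, R.M.d y (k • e) + 1 = L ∧ R.M.d u (k • e) + 1 = L ∧
      k • x ∈ R.M.Germ (k • e) u ∧ R.len y (k • x) < R.len y x := by
  have hy : y ∉ R.apex := qs_base hc hcy
  have hu : u ∉ R.apex := qs_base hc hcu
  have hx : x ∉ R.apex := qs_base he hxe.1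
  have hyf : y ≠ f := fun h => hy (h ▸ hf)
  have huf : u ≠ f := fun h => hu (h ▸ hf)
  have hxf : x ≠ f := fun h => hx (h ▸ hf)
  have hθ := R.θ_pos
  -- `d c e = L`
  have hce : R.M.d c e = L := by
    have h1 := R.Mq_le c e
    have h2 := R.M.tri c y e
    omega
  -- cuts
  have cutc : R.M.Cut f e c := qs_cut hf hfe.symm hfc.symm (by omega) hfec
  have nLEy : ¬ R.LE f e y (19 * R.θ) := by
    intro h
    have h1 : R.LE f y c R.θ := qs_adj hf hyf hfc.symm (by rw [R.M.symm]; omega)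
    exact hfec (qs_mono (qs_trans hf hyf h h1) (by omega))
  have nLEu : ¬ R.LE f e u (19 * R.θ) := by
    intro h
    have h1 : R.LE f u c R.θ := qs_adj hf huf hfc.symm (by rw [R.M.symm]; omega)
    exact hfec (qs_mono (qs_trans hf huf h h1) (by omega))
  have cuty : R.M.Cut f e y := qs_cut hf hfe.symm hyf (by omega) nLEy
  have cutu : R.M.Cut f e u := qs_cut hf hfe.symm huf (by omega) nLEu
  -- the rotation
  have hbt : R.M.Btw c f e := by
    have := cutc.1
    unfold GMet.Btw at this ⊢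
    rw [R.M.symm c f, R.M.symm f e, R.M.symm c e]
    omega
  obtain ⟨m1, m2, -⟩ := R.Mq_btw (by rw [hce, hL]) hbt
  have pfc : R.pj f ≠ R.pj c := by
    intro h
    rw [h, R.Mq.self] at m1
    exact hfc (R.M.eq_of _ _ m1).symm
  have pfe : R.pj f ≠ R.pj e := by
    intro h
    rw [h, R.Mq.self] at m2
    exact hfe (R.M.eq_of _ _ m2)
  obtain ⟨k, hk, hkLE⟩ := LE_lift hf hfc.symm hfe.symm
    (by rw [R.M.symm, m1, R.Mq.symm]) m2 (h0 _ (R.pj_mem_apexq.2 hf) pfc pfe)
  have kf : k • f = f := R.H_fix f hf k hk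
  have hkN : k ∈ R.N := qs_HN hf hk
  have dke : R.M.d f (k • e) = R.M.d f e := by
    conv_lhs => rw [← kf]
    exact R.iso k f e
  have key : ∀ v, R.M.d c v = 1 → R.M.Cut f e v → R.M.d v e + 1 = L →
      R.M.d v (k • e) + 1 = L := by
    intro v hcv hcut hve
    have h1 := R.M.tri v f (k • e)
    have h2 : R.M.d v f + R.M.d f e = R.M.d v e := by
      have := hcut.1
      unfold GMet.Btw at this
      rw [R.M.symm v f, R.M.symm f e, R.M.symm v e]
      omega
    have h3 := R.M.tri c v (k • e)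
    have h4 := R.Mq_le c (k • e)
    rw [R.pj_smul hkN, hL] at h4
    omega
  have kye := key y hcy cuty hye
  have kue := key u hcu cutu hue
  refine ⟨k, hkN, kye, kue, ?_, ?_⟩
  · have hge : R.M.Germ e u = R.M.Germ e f := GMet.germ_eq cutu hfe
    rw [hge] at hxe
    have h1 : k • x ∈ R.M.Germ (k • e) (k • f) := (GMet.germ_smul R.isoAct k).2 hxe
    rw [kf] at h1
    refine GMet.germ_sub ?_ ?_ h1
    · unfold GMet.Btw
      have h2 := cutu.1
      unfold GMet.Btw at h2
      rw [R.M.symm (k • e) f, dke, R.M.symm (k • e) u, R.M.symm f e, h2, R.M.symm e u]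
      omega
    · intro h
      apply hfe
      have h2 : k • f = k • e := by rw [kf]; exact h
      exact MulAction.injective k h2
  · have kef : k • e ≠ f := by
      intro h
      apply hfe
      have h2 : k • f = k • e := by rw [kf]; exact h.symm
      exact MulAction.injective k h2
    have kxf : k • x ≠ f := by
      intro h
      apply hxf
      have h2 : k • x = k • f := by rw [kf]; exact h
      exact MulAction.injective k h2
    have a1 : R.LE f y c R.θ := qs_adj hf hyf hfc.symm (by rw [R.M.symm]; omega)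
    have a2 : R.LE f (k • e) (k • x) R.θ := qs_adj hf kef kxf (by rw [R.iso]; exact hxe.1.le)
    have a3 : R.LE f y (k • x) (5 * R.θ) :=
      qs_mono (qs_trans hf kef (qs_trans hf hfc.symm a1 hkLE) a2) (by omega)
    refine R.dec f hf k hk y x hy hx _ a3 ?_
    intro h
    have h' : R.LE f y x (8 * R.θ) := qs_mono h (by omega)
    have a4 : R.LE f x e R.θ := qs_adj hf hxf hfe.symm (by rw [R.M.symm]; exact hxe.1.le)
    have a5 := qs_trans hf hxf h' a4
    exact nLEy (qs_mono (qs_symm hf a5) (by omega))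

/-- Proof. Strong induction on `L = Mq.d c e` (`c, e ∈ apexq` distinct, both fixed by `g`; suppose `g ≠ 1`).
(0) If an apex `f ≠ c, e` of the quotient cuts `c` from `e` then `g f = f` (same position) and `Mq.d c f < L`, so `g = 1` by
induction. So no such `f`, hence `Aq.LE f c e θ` for all `f ≠ c, e` in `apexq` (`Aq.LA`).
(1) Lifts: choose lifts `c, e` with `d c e = L`, `y ∈ Germ c e` (a base point), and a lift `g ∈ G` with `g c = c`. The closed 4-gon
`y, e, g y, c` of the quotient (side lengths `L-1, L-1, 1, 1`) lifts (`poly4` starting at `y`) to `y, e1, y2, c1`; `c1` and `c`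
are both adjacent to `y` and in one `N`-orbit: translate everything by the element of `N` taking `c1` to `c`; the image `y1` of `y`
is adjacent to `c` and in the `N`-orbit of `y`, so `y1 = h y` with `h ∈ H c` (`nbr_eq`); translate by `h⁻¹`. So we may assume that the
closed 4-gon is `y, e, y2, c`. `y2` and `g y` are adjacent to `c` and in one `N`-orbit, so `y2 = h' g y`, `h' ∈ H c`; replace `g` by
`h' g`. So: `u := g y`, `d y e = d u e = L - 1`, `d c e = L`, `g c = c`, and `pj (g e) = pj e`.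
(2) If `g e = e`, then `g = 1` by `R.stab`, contradiction. So `g e ≠ e`; this holds for all choices of `e` below.
(3) Among all pairs `(e, x)` with `e ∈` the orbit, `d y e = d u e = L - 1` (so `d c e = L`), `x ∈ Germ e u`, take one with
`len y x` minimal. Write `g e = n e`, `n ∈ N`, `n ≠ 1`; among these `n` (a coset of `H e`; `H (n e) n`) take one with
`len x (n x)` minimal. `gr` at `x`: `f, h ∈ H f`, `LE f (h x) (n x) (2θ)`. If `f = n e`, then `n' = h⁻¹ n` has `n' e = n e` and `dec_gr`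
contradicts the minimality. So `f ≠ n e`, and `LE f (n e) (n x) θ` (adjacent). So (`big_angle`) `¬ LE f x u (100θ)` or
`¬ LE f u (n e) (100θ)`.
(α) `¬ LE f x u (100θ)`: `f` cuts `x` from `u`, so `f ≠ e` (`d x u = d e u - 1`) and `f ≠ c` (`d e f ≤ L - 1`). By adjacency
(`x ~ e`, `u ~ c ~ y`): `¬ LE f e u (99θ)`, `¬ LE f e c (98θ)`, `¬ LE f e y (97θ)`; so `f` cuts `e` from `u`, `c`, `y`. By (0) and
`LE_lift` (sub-sides of the minimal side `c e` are minimal, `Mq_btw`; `pj f ≠ pj c, pj e`) there is `k ∈ H f` with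
`LE f c (k e) (3θ)`. The pair `(k e, k x)`: `d y (k e) ≤ d y f + d f e = L - 1`, `d u (k e) ≤ L - 1` (and `≥`, by minimality in the
quotient), `k x ∈ Germ (k e) u` (`germ_eq`, `germ_sub`), and `LE f y (k x) (5θ)`, `¬ LE f y x (8θ)`, so `len y (k x) < len y x` by
`dec`: contradiction.
(β) `¬ LE f u (n e) (100θ)`: apply `g⁻¹`: `f' = g⁻¹ f` has `¬ LE f' y e (100θ)` (`g⁻¹ n e = e`), `f' ≠ e`, `f' ≠ c` (`c` is not between
`y` and `e`). Then as in (α) with `f'` (`f'` cuts `e` from `y`, `c`, `u`). -/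
theorem stab_q {c e : R.Zq} (hc : c ∈ R.apexq) (he : e ∈ R.apexq) (hce : c ≠ e) {g : G ⧸ R.N}
    (h1 : g • c = c) (h2 : g • e = e) : g = 1 := by
  suffices H : ∀ (L : ℕ) (c e : R.Zq), R.Mq.d c e = L → c ∈ R.apexq → e ∈ R.apexq → c ≠ e →
      ∀ g : G ⧸ R.N, g • c = c → g • e = e → g = 1 from H _ c e rfl hc he hce g h1 h2
  clear h1 h2 hce he hc g
  clear c e
  intro L
  induction L using Nat.strong_induction_on with
  | _ L ih =>
    intro cq eq hL hcq heq hce g h1 h2
    by_contra hg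
    -- step (0)
    have h0 : ∀ f ∈ R.apexq, f ≠ cq → f ≠ eq → R.Aq.LE f cq eq R.θ := by
      intro f hf hfc hfe
      refine R.Aq.LA f hf cq eq (Ne.symm hfc) (Ne.symm hfe) ?_
      rintro ⟨hb, hcut⟩
      have hb' : R.Mq.d cq f + R.Mq.d f eq = R.Mq.d cq eq := hb
      have e1 : R.Mq.d cq (g • f) = R.Mq.d cq f := by
        conv_lhs => rw [← h1]
        exact R.Mq_iso g cq f
      have e2 : R.Mq.d (g • f) eq = R.Mq.d f eq := by
        conv_lhs => rw [← h2]
        exact R.Mq_iso g f eq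
      have h3 : g • f = f := by
        refine hcut (g • f) ?_ e1
        show R.Mq.d cq (g • f) + R.Mq.d (g • f) eq = R.Mq.d cq eq
        rw [e1, e2, hb']
      have h4 : R.Mq.d f eq ≠ 0 := fun h => hfe (R.Mq.eq_of _ _ h)
      exact hg (ih (R.Mq.d cq f) (by omega) cq f rfl hcq hf (Ne.symm hfc) g h1 h3)
    -- step (1): lifts
    obtain ⟨c0, rfl⟩ := R.pj_surj cq
    obtain ⟨e0', rfl⟩ := R.pj_surj eq
    obtain ⟨n0, hn0, hd0⟩ := R.Mq_lift c0 e0'
    rw [hL] at hd0
    have pe0 : R.pj (n0 • e0') = R.pj e0' := R.pj_smul hn0 e0'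
    generalize n0 • e0' = e0 at hd0 pe0
    rw [← pe0] at hL h0 hce heq h2
    clear pe0 hn0
    have hc : c0 ∈ R.apex := R.pj_mem_apexq.1 hcq
    have he0 : e0 ∈ R.apex := R.pj_mem_apexq.1 heq
    have hce0 : e0 ≠ c0 := fun h => hce (by rw [h])
    obtain ⟨y, hy0⟩ := GMet.germ_nonempty (M := R.M) hce0
    have hcy : R.M.d c0 y = 1 := hy0.1
    have hye0 : R.M.d y e0 + 1 = R.M.d c0 e0 := hy0.2
    have hy : y ∉ R.apex := qs_base hc hcy
    -- the lift of `g`
    obtain ⟨g0, hg0⟩ : ∃ g0 : G, (QuotientGroup.mk g0 : G ⧸ R.N) = g ∧ g0 • c0 = c0 := by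
      obtain ⟨g1, rfl⟩ := QuotientGroup.mk_surjective g
      rw [R.smul_pj] at h1
      obtain ⟨n, hn, hn1⟩ := R.pj_eq.1 h1
      refine ⟨n * g1, ?_, ?_⟩
      · rw [QuotientGroup.mk_mul, (QuotientGroup.eq_one_iff n).2 hn, one_mul]
      · rw [mul_smul, hn1]
    obtain ⟨hg0, hg0c⟩ := hg0
    have hgu : R.M.d c0 (g0 • y) = 1 := by
      conv_lhs => rw [← hg0c]
      rw [R.iso]; exact hcy
    -- sides of the closed 4-gon
    obtain ⟨-, s1, -⟩ := R.Mq_btw (c := c0) (e := e0) (f := y) (by rw [hd0, hL]) (by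
      show R.M.d c0 y + R.M.d y e0 = R.M.d c0 e0
      omega)
    have s2 : R.Mq.d (R.pj e0) (R.pj (g0 • y)) = R.M.d y e0 := by
      rw [← h2, ← hg0, R.smul_pj, ← R.smul_pj, ← R.smul_pj, R.Mq_iso, R.Mq.symm, s1]
    have s3 : R.Mq.d (R.pj (g0 • y)) (R.pj c0) = 1 := by
      rw [R.Mq.symm]; exact nbr_pj hc hgu
    have s4 : R.Mq.d (R.pj c0) (R.pj y) = 1 := nbr_pj hc hcy
    obtain ⟨e1, y2, c1, pe1, py2, pc1, d1, d2, d3, d4⟩ :=
      poly4 hy (R.pj e0) (R.pj (g0 • y)) (R.pj c0)
    rw [← s1] at d1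
    rw [s2] at d2
    rw [s3] at d3
    rw [s4] at d4
    obtain ⟨n, hn, hn1⟩ := R.pj_eq.1 pc1
    have hc1y : R.M.d c0 (n • y) = 1 := by
      rw [← hn1, R.iso]; exact d4
    obtain ⟨h, hh, hh1⟩ := nbr_eq hc hc1y hcy (R.pj_smul hn y)
    have hhN : h ∈ R.N := qs_HN hc hh
    have hhc : h • c0 = c0 := R.H_fix c0 hc h hh
    -- translate by `h * n`
    have hr : (h * n) • y = y := by rw [mul_smul, hh1]
    have hrc : (h * n) • c1 = c0 := by rw [mul_smul, hn1, hhc]
    have hrN : h * n ∈ R.N := R.N.mul_mem hhN hn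
    generalize h * n = r at hr hrc hrN
    have pe2 : R.pj (r • e1) = R.pj e0 := by rw [R.pj_smul hrN, pe1]
    have py3 : R.pj (r • y2) = R.pj (g0 • y) := by rw [R.pj_smul hrN, py2]
    have t1 : R.M.d y (r • e1) = R.M.d y e0 := by
      conv_lhs => rw [← hr]
      rw [R.iso, d1]
    have t2 : R.M.d (r • e1) (r • y2) = R.M.d y e0 := by rw [R.iso, d2]
    have t3 : R.M.d c0 (r • y2) = 1 := by rw [← hrc, R.iso, R.M.symm, d3]
    obtain ⟨k, hk, hk1⟩ := nbr_eq hc hgu t3 py3.symm
    have hkN : k ∈ R.N := qs_HN hc hk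
    have hkc : k • c0 = c0 := R.H_fix c0 hc k hk
    -- replace `g0` by `k * g0`
    have hga : (QuotientGroup.mk (k * g0) : G ⧸ R.N) = g := by
      rw [QuotientGroup.mk_mul, (QuotientGroup.eq_one_iff k).2 hkN, one_mul, hg0]
    have hgc : (k * g0) • c0 = c0 := by rw [mul_smul, hg0c, hkc]
    have hgy : (k * g0) • y = r • y2 := by rw [mul_smul, hk1]
    generalize k * g0 = a at hga hgc hgy
    generalize r • y2 = u at t2 t3 hgy
    generalize r • e1 = e2 at pe2 t1 t2
    have hu : u ∉ R.apex := qs_base hc t3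
    clear s2 s3 s4 d1 d2 d3 d4 hgu hc1y hhc hh hh1 hhN hn hn1 pe1 py2 pc1 hr hrc hrN hk hk1 hkN
      hkc hg0c hg0 py3
    -- the pairs
    let P : Z × Z → Prop := fun p => R.pj p.1 = R.pj e0 ∧ R.M.d y p.1 + 1 = L ∧
      R.M.d u p.1 + 1 = L ∧ p.2 ∈ R.M.Germ p.1 u
    have hP : ∃ p, P p := by
      have he2 : e2 ∈ R.apex := R.pj_mem_apexq.1 (by rw [pe2]; exact heq)
      have hue2 : u ≠ e2 := fun h => hu (h ▸ he2)
      obtain ⟨x, hx⟩ := GMet.germ_nonempty (M := R.M) hue2
      refine ⟨(e2, x), pe2, ?_, ?_, hx⟩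
      · show R.M.d y e2 + 1 = L
        omega
      · show R.M.d u e2 + 1 = L
        rw [R.M.symm]
        omega
    obtain ⟨⟨e, x⟩, ⟨pe, hye, hue, hxe⟩, hmin⟩ :
        ∃ p, P p ∧ ∀ p', P p' → R.len y p.2 ≤ R.len y p'.2 := by
      let S : Set ℕ := {m | ∃ p, P p ∧ R.len y p.2 = m}
      have hS : S.Nonempty := by
        obtain ⟨p, hp⟩ := hP
        exact ⟨_, p, hp, rfl⟩
      obtain ⟨p, hp, hpm⟩ := Nat.sInf_mem hS
      exact ⟨p, hp, fun p' hp' => hpm ▸ Nat.sInf_le ⟨p', hp', rfl⟩⟩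
    simp only at pe hye hue hxe hmin
    have he : e ∈ R.apex := R.pj_mem_apexq.1 (by rw [pe]; exact heq)
    have hxb : x ∉ R.apex := qs_base he hxe.1
    have hpce : R.pj c0 ≠ R.pj e := by rw [pe]; exact hce
    have hcne : c0 ≠ e := fun h => hpce (by rw [h])
    rw [← pe] at hL h0
    -- the improvement step
    have imp : ∀ f ∈ R.apex, f ≠ c0 → f ≠ e → R.LE f e c0 (20 * R.θ) := by
      intro f hf hfc hfe
      by_contra hfec
      obtain ⟨k, hkN, k1, k2, k3, k4⟩ :=
        qs_step hc he L hL hcy t3 hye hue hxe h0 hf hfc hfe hfec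
      have := hmin (k • e, k • x) ⟨by
        show R.pj (k • e) = R.pj e0
        rw [R.pj_smul hkN, pe], k1, k2, k3⟩
      simp only at this
      omega
    -- `a e ≠ e`
    have hae : a • e ≠ e := by
      intro h
      have := R.stab c0 hc e he hcne a hgc h
      rw [this] at hga
      exact hg hga.symm
    -- `a e = n e`
    have hpa : R.pj e = R.pj (a • e) := by
      rw [← R.smul_pj, hga, pe, h2]
    obtain ⟨n, ⟨hnN, hne⟩, hnmin⟩ : ∃ n, (n ∈ R.N ∧ n • e = a • e) ∧
        ∀ n', (n' ∈ R.N ∧ n' • e = a • e) → R.len x (n • x) ≤ R.len x (n' • x) := by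
      let S : Set ℕ := {m | ∃ n, (n ∈ R.N ∧ n • e = a • e) ∧ R.len x (n • x) = m}
      have hS : S.Nonempty := by
        obtain ⟨n, hn, hn1⟩ := R.pj_eq.1 hpa
        exact ⟨_, n, ⟨hn, hn1⟩, rfl⟩
      obtain ⟨p, hp, hpm⟩ := Nat.sInf_mem hS
      exact ⟨p, hp, fun p' hp' => hpm ▸ Nat.sInf_le ⟨p', hp', rfl⟩⟩
    have hn1 : n ≠ 1 := by
      intro h
      rw [h, one_smul] at hne
      exact hae hne.symm
    obtain ⟨f, hf, h, hh, hh1, hLE⟩ := gr hxb hnN hn1
    have hyf : y ≠ f := fun h => hy (h ▸ hf)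
    have huf : u ≠ f := fun h => hu (h ▸ hf)
    have hxf : x ≠ f := fun h => hxb (h ▸ hf)
    have hbig := R.big
    have hθ := R.θ_pos
    have hne_ap : n • e ∈ R.apex := R.apex_smul n e he
    have hdne : R.M.d (n • e) (n • x) = 1 := by rw [R.iso]; exact hxe.1
    have hnxb : n • x ∉ R.apex := qs_base hne_ap hdne
    have hnxf : n • x ≠ f := fun h => hnxb (h ▸ hf)
    have hfne : f ≠ n • e := by
      intro hfe
      have h3 := dec_gr hf hh hh1 hxb hLE
      have h4 : h • f = f := R.H_fix f hf h hh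
      have h5 : h⁻¹ • f = f := by
        conv_lhs => rw [← h4]
        rw [inv_smul_smul]
      have h6 := hnmin (h⁻¹ * n) ⟨R.N.mul_mem (R.N.inv_mem (qs_HN hf hh)) hnN, by
        rw [mul_smul, ← hfe, h5, hfe, hne]⟩
      omega
    have b1 : R.LE f (n • x) (n • e) R.θ :=
      qs_adj hf hnxf hfne.symm (by rw [R.M.symm]; exact hdne.le)
    have b2 : R.LE f (h • x) (n • e) (3 * R.θ) :=
      qs_mono (qs_trans hf hnxf hLE b1) (by omega)
    have b3 : ¬ R.LE f x (n • e) (200 * R.θ) :=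
      big_angle hf hh hh1 hxf hfne.symm b2 (by omega)
    by_cases hα : R.LE f x u (100 * R.θ)
    · -- case (β)
      have b4 : ¬ R.LE f u (n • e) (100 * R.θ) := by
        intro h'
        exact b3 (qs_mono (qs_trans hf huf hα h') (by omega))
      set f' := a⁻¹ • f with hf'
      have haf' : a • f' = f := by rw [hf', smul_inv_smul]
      have hf'a : f' ∈ R.apex := R.apex_smul _ _ hf
      rw [← haf', hne, ← hgy, LE_smul] at b4
      have hyf' : y ≠ f' := fun h => hy (h ▸ hf'a)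
      have huf' : u ≠ f' := fun h => hu (h ▸ hf'a)
      have hf'e : f' ≠ e := by
        intro h'
        apply hfne
        rw [← haf', h', hne]
      have hf'c : f' ≠ c0 := by
        intro h'
        apply b4
        have : R.LE f' y e R.θ := by
          refine AngSys.LE.of_not_btw (A := R.toAng) hf'a hyf' hf'e.symm ?_
          intro hb
          have hb' : R.M.d y f' + R.M.d f' e = R.M.d y e := hb
          rw [h', R.M.symm y c0, hcy] at hb'
          have h7 := R.Mq_le c0 e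
          rw [hL] at h7
          omega
        exact qs_mono this (by omega)
      have b5 := imp f' hf'a hf'c hf'e
      have b6 : R.LE f' y c0 R.θ := qs_adj hf'a hyf' hf'c.symm (by rw [R.M.symm]; exact hcy.le)
      exact b4 (qs_mono (qs_trans hf'a hf'c.symm b6 (qs_symm hf'a b5)) (by omega))
    · -- case (α)
      have cutx : R.M.Cut f x u := qs_cut hf hxf huf (by omega) hα
      have hb : R.M.d x f + R.M.d f u = R.M.d x u := cutx.1
      have hg1 : R.M.d e x = 1 := hxe.1
      have hg2 : R.M.d x u + 1 = R.M.d e u := hxe.2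
      have hfe : f ≠ e := by
        intro h'
        rw [h'] at hb
        omega
      have hfc : f ≠ c0 := by
        intro h'
        rw [h'] at hb
        have h3 := R.M.tri e x c0
        have h4 := R.Mq_le c0 e
        rw [hL] at h4
        rw [R.M.symm e c0] at h3
        rw [R.M.symm u e] at hue
        omega
      have b5 := imp f hf hfc hfe
      have b6 : R.LE f x e R.θ := qs_adj hf hxf hfe.symm (by rw [R.M.symm]; exact hg1.le)
      have b7 : R.LE f c0 u R.θ := qs_adj hf hfc.symm huf t3.le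
      exact hα (qs_mono (qs_trans hf hfc.symm (qs_trans hf hfe.symm b6 b5) b7) (by omega))

end RotSys
end BG
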