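import Pool.Agent.Helper76.BG.AngBasic

/-!
# BG29: groups acting on a system of angles; heavy apexes; products of rotations
-/

set_option autoImplicit false

namespace BG

/-- `Γ` acts on the system of angles `A`, stabilizers of distinct apexes meet trivially -/
structure AngAct (Γ : Type) {Z : Type} [Group Γ] [MulAction Γ Z] (A : AngSys Z) : Prop where
  iso : ∀ (g : Γ) (x y : Z), A.M.d (g • x) (g • y) = A.M.d x y
  apex : ∀ (g : Γ) (c : Z), c ∈ A.apex → g • c ∈ A.apex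
  ang : ∀ (g : Γ) (c y y' : Z), A.a (g • c) (g • y) (g • y') = A.a c y y'
  stab : ∀ c ∈ A.apex, ∀ e ∈ A.apex, c ≠ e → ∀ g : Γ, g • c = c → g • e = e → g = 1

namespace AngAct

variable {Γ Z : Type} [Group Γ] [MulAction Γ Z] {A : AngSys Z} (H : AngAct Γ A)

include H

theorem isoAct : IsoAct Γ A.M := H.iso

theorem LE_smul (g : Γ) {c z w : Z} {T : ℕ} : A.LE (g • c) (g • z) (g • w) T ↔ A.LE c z w T := by
  constructor
  · intro h y hy y' hy'
    have h1 := h (g • y) ((GMet.germ_smul H.isoAct g).2 hy) (g • y')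
      ((GMet.germ_smul H.isoAct g).2 hy')
    rwa [H.ang] at h1
  · intro h y hy y' hy'
    have e1 : g • (g⁻¹ • y) = y := smul_inv_smul g y
    have e2 : g • (g⁻¹ • y') = y' := smul_inv_smul g y'
    rw [← e1] at hy
    rw [← e2] at hy'
    have h1 := h _ ((GMet.germ_smul H.isoAct g).1 hy) _ ((GMet.germ_smul H.isoAct g).1 hy')
    rw [← H.ang g, e1, e2] at h1
    exact h1

omit H in
theorem ne_of_pos {x y : Z} (h : 0 < A.M.d x y) : x ≠ y := by
  rintro rfl
  rw [A.M.self] at h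
  exact lt_irrefl _ h

omit H in
theorem pos_of_ne {x y : Z} (h : x ≠ y) : 0 < A.M.d x y := by
  rcases Nat.eq_zero_or_pos (A.M.d x y) with h0 | h0
  · exact absurd (A.M.eq_of _ _ h0) h
  · exact h0

/-- distances to a moved apex -/
theorem far_smul {x c : Z} {g : Γ} {κ : ℕ} (hx : A.M.d x (g • x) ≤ κ) :
    A.M.d x c ≤ A.M.d x (g • c) + κ := by
  have h1 := A.M.tri (g • x) x (g • c)
  rw [H.iso, A.M.symm (g • x) x] at h1
  omega

/-- moving `x` to `gx` as seen from `gc` -/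
theorem LE_move {x c : Z} {g : Γ} {κ : ℕ} (hx : A.M.d x (g • x) ≤ κ) (hc : c ∈ A.apex)
    (h1 : κ < A.M.d x c) : A.LE (g • c) x (g • x) A.θ := by
  have hc' := H.apex g c hc
  have h2 := H.far_smul (c := c) hx
  have hne1 : g • x ≠ g • c := by
    refine ne_of_pos (A := A) ?_
    rw [H.iso]
    omega
  have hne2 : x ≠ g • c := by
    refine ne_of_pos (A := A) ?_
    omega
  refine (AngSys.LE.of_far hc' hne1 hne2 ?_).symm hc'
  rw [H.iso, A.M.symm (g • x) x]
  omega

/-- claim 1: if `g` moves `x` and `y` by at most `κ`, `c` is an apex at distance `> 2κ` of `x` and `y`: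
`LE (gc) x (gx) θ` (as `gc` is further from `gx` than `x` is) and the same for `y`. -/
theorem move {x y c : Z} {g : Γ} {κ T : ℕ} (hx : A.M.d x (g • x) ≤ κ) (hy : A.M.d y (g • y) ≤ κ)
    (hc : c ∈ A.apex) (h1 : 2 * κ < A.M.d x c) (h2 : 2 * κ < A.M.d y c)
    (h : ¬ A.LE c x y (T + 2 * A.θ)) : ¬ A.LE (g • c) x y T := by
  intro hLE
  apply h
  rw [← H.LE_smul g]
  have hc' := H.apex g c hc
  have hx' := H.LE_move hx hc (by omega)
  have hy' := H.LE_move hy hc (by omega)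
  have f1 := H.far_smul (c := c) hx
  have f2 := H.far_smul (c := c) hy
  have hne1 : x ≠ g • c := ne_of_pos (A := A) (by omega)
  have hne2 : y ≠ g • c := ne_of_pos (A := A) (by omega)
  have h3 := (AngSys.LE.trans hc' hne2 (AngSys.LE.trans hc' hne1 (hx'.symm hc') hLE) hy')
  refine h3.mono ?_
  omega

theorem shift_eq_aux {x y c : Z} {g : Γ} {κ T : ℕ} (hx : A.M.d x (g • x) ≤ κ)
    (hy : A.M.d y (g • y) ≤ κ) (hc : c ∈ A.apex)
    (h1 : 2 * κ < A.M.d x c) (h2 : 2 * κ < A.M.d y c) (h : ¬ A.LE c x y (T + 2 * A.θ))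
    (hT : A.θ ≤ T) : A.M.Cut (g • c) x y := by
  have h3 := H.move hx hy hc h1 h2 h
  have f1 := H.far_smul (c := c) hx
  have f2 := H.far_smul (c := c) hy
  refine AngSys.cut_of_not_LE (H.apex g c hc) (ne_of_pos (A := A) (by omega))
    (ne_of_pos (A := A) (by omega)) ?_
  exact fun h4 => h3 (h4.mono hT)

omit H in
theorem cut_of_heavy {x y c : Z} {T : ℕ} (hc : c ∈ A.apex) (h1 : 0 < A.M.d x c)
    (h2 : 0 < A.M.d y c) (h : ¬ A.LE c x y T) (hT : A.θ ≤ T) : A.M.Cut c x y :=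
  AngSys.cut_of_not_LE hc (ne_of_pos h1) (ne_of_pos h2) (fun h4 => h (h4.mono hT))

/-- claim 2: exact shift. `c, c'` two heavy apexes with `d x c < d x c'`.
Then `d x (gc') - d x (gc) = d x c' - d x c`. Proof: `gc, gc'` cut `x` from `y` (claim 1), `d (gc) (gc') = d c c' = d x c' - d x c`.
If `d x (gc') < d x (gc)` then `Germ (gc') y = Germ (gc') (gc)` and (as `c` cuts `x` from `c'`) `Germ (gc') (gx) = Germ (gc') (gc)`, so
`LE (gc') (gx) y θ`, `LE (gc') x y (2θ)`: contradiction with claim 1. -/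
theorem shift_eq {x y c c' : Z} {g : Γ} {κ : ℕ} (hx : A.M.d x (g • x) ≤ κ)
    (hy : A.M.d y (g • y) ≤ κ) (hc : c ∈ A.apex) (hc' : c' ∈ A.apex)
    (h1 : 2 * κ < A.M.d x c) (h2 : 2 * κ < A.M.d y c) (h1' : 2 * κ < A.M.d x c')
    (h2' : 2 * κ < A.M.d y c') (h : ¬ A.LE c x y (4 * A.θ)) (h' : ¬ A.LE c' x y (4 * A.θ))
    (hlt : A.M.d x c < A.M.d x c') :
    A.M.d x (g • c') + A.M.d x c = A.M.d x (g • c) + A.M.d x c' := by
  have hC : A.M.Cut c x y := cut_of_heavy hc (by omega) (by omega) h (by omega)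
  have hC' : A.M.Cut c' x y := cut_of_heavy hc' (by omega) (by omega) h' (by omega)
  have hg : A.M.Cut (g • c) x y := H.shift_eq_aux (T := 2 * A.θ) hx hy hc h1 h2
    (fun h3 => h (h3.mono (by omega))) (by omega)
  have hg' : A.M.Cut (g • c') x y := H.shift_eq_aux (T := 2 * A.θ) hx hy hc' h1' h2'
    (fun h3 => h' (h3.mono (by omega))) (by omega)
  have hd := hC.dist hC'.1 hlt.le
  rcases le_or_gt (A.M.d x (g • c)) (A.M.d x (g • c')) with hle | hgt
  · have h3 := hg.dist hg'.1 hle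
    rw [H.iso] at h3
    omega
  · exfalso
    have hne : g • c ≠ g • c' := by
      intro he
      rw [he] at hgt
      exact lt_irrefl _ hgt
    have hne' : c ≠ c' := fun he => hne (by rw [he])
    have e1 : A.M.Germ (g • c') y = A.M.Germ (g • c') (g • c) :=
      GMet.germ_eq (hg.right hg'.1 hgt.le) hne
    have hcut : A.M.Cut c c' x := (hC.left hC'.1 hlt.le).symm
    have e2 : A.M.Germ (g • c') (g • x) = A.M.Germ (g • c') (g • c) :=
      GMet.germ_eq ((GMet.cut_smul H.isoAct g).2 hcut) hne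
    have f1 := H.far_smul (c := c') hx
    have f2 := H.far_smul (c := c') hy
    have hne1 : y ≠ g • c' := ne_of_pos (A := A) (by omega)
    have hne2 : g • x ≠ g • c' := ne_of_pos (A := A) (by rw [H.iso]; omega)
    have hLE : A.LE (g • c') (g • x) y A.θ := by
      have h3 := AngSys.LE.self (A := A) (H.apex g c' hc') hne1
      intro u hu u' hu'
      rw [e2, ← e1] at hu
      exact h3 u hu u' hu'
    have h4 := AngSys.LE.trans (H.apex g c' hc') hne2 (H.LE_move hx hc' (by omega)) hLE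
    refine H.move (T := 2 * A.θ) hx hy hc' h1' h2' ?_ (h4.mono (by omega))
    exact fun h3 => h' (h3.mono (by omega))

theorem shift_gen {x y c c' : Z} {g : Γ} {κ : ℕ} (hx : A.M.d x (g • x) ≤ κ)
    (hy : A.M.d y (g • y) ≤ κ) (hc : c ∈ A.apex) (hc' : c' ∈ A.apex)
    (h1 : 2 * κ < A.M.d x c) (h2 : 2 * κ < A.M.d y c) (h1' : 2 * κ < A.M.d x c')
    (h2' : 2 * κ < A.M.d y c') (h : ¬ A.LE c x y (4 * A.θ)) (h' : ¬ A.LE c' x y (4 * A.θ)) :
    A.M.d x (g • c') + A.M.d x c = A.M.d x (g • c) + A.M.d x c' := by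
  rcases lt_trichotomy (A.M.d x c) (A.M.d x c') with hlt | heq | hgt
  · exact H.shift_eq hx hy hc hc' h1 h2 h1' h2' h h' hlt
  · have hC : A.M.Cut c x y := cut_of_heavy hc (by omega) (by omega) h (by omega)
    have hC' : A.M.Cut c' x y := cut_of_heavy hc' (by omega) (by omega) h' (by omega)
    have he : c' = c := hC.eq_of_pos hC'.1 heq.symm
    rw [he]
  · have h3 := H.shift_eq hx hy hc' hc h1' h2' h1 h2 h' h hgt
    omega

/-- the commutator of two such elements fixes a heavy apex: `d x (ghc) = d x (gc) + d x (hc) - d x c = d x (hgc)` and both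
`ghc` and `hgc` cut `x` from `y` -/
theorem comm_fix {x y c : Z} {g h : Γ} {κ : ℕ} (hgx : A.M.d x (g • x) ≤ κ)
    (hgy : A.M.d y (g • y) ≤ κ) (hhx : A.M.d x (h • x) ≤ κ) (hhy : A.M.d y (h • y) ≤ κ)
    (hc : c ∈ A.apex) (h1 : 3 * κ < A.M.d x c) (h2 : 3 * κ < A.M.d y c)
    (hh : ¬ A.LE c x y (7 * A.θ)) : (g * h) • c = (h * g) • c := by
  have key : ∀ {g h : Γ}, A.M.d x (g • x) ≤ κ → A.M.d y (g • y) ≤ κ → A.M.d x (h • x) ≤ κ →
      A.M.d y (h • y) ≤ κ → A.M.d x ((g * h) • c) + A.M.d x c = A.M.d x (g • c) + A.M.d x (h • c) ∧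
      A.M.Cut ((g * h) • c) x y := by
    intro g h hgx hgy hhx hhy
    have f1 := H.far_smul (c := c) hhx
    have f2 := H.far_smul (c := c) hhy
    have h3 : ¬ A.LE (h • c) x y (5 * A.θ) := H.move hhx hhy hc (by omega) (by omega)
      (fun h4 => hh (h4.mono (by omega)))
    rw [mul_smul]
    constructor
    · exact H.shift_gen hgx hgy hc (H.apex h c hc) (by omega) (by omega) (by omega) (by omega)
        (fun h4 => hh (h4.mono (by omega))) (fun h4 => h3 (h4.mono (by omega)))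
    · exact H.shift_eq_aux (T := 3 * A.θ) hgx hgy (H.apex h c hc) (by omega) (by omega)
        (fun h4 => h3 (h4.mono (by omega))) (by omega)
  obtain ⟨k1, k2⟩ := key hgx hgy hhx hhy
  obtain ⟨k3, k4⟩ := key hhx hhy hgx hgy
  exact k4.eq_of_pos k2.1 (by omega)

/-- REGIME I: two heavy apexes -/
theorem regI_comm {x y c e : Z} {g h : Γ} {κ : ℕ} (hgx : A.M.d x (g • x) ≤ κ)
    (hgy : A.M.d y (g • y) ≤ κ) (hhx : A.M.d x (h • x) ≤ κ) (hhy : A.M.d y (h • y) ≤ κ)
    (hc : c ∈ A.apex) (he : e ∈ A.apex) (hce : c ≠ e)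
    (h1 : 3 * κ < A.M.d x c) (h2 : 3 * κ < A.M.d y c) (h3 : 3 * κ < A.M.d x e)
    (h4 : 3 * κ < A.M.d y e) (hhc : ¬ A.LE c x y (7 * A.θ)) (hhe : ¬ A.LE e x y (7 * A.θ)) :
    g * h = h * g := by
  have e1 := H.comm_fix hgx hgy hhx hhy hc h1 h2 hhc
  have e2 := H.comm_fix hgx hgy hhx hhy he h3 h4 hhe
  have h5 : (h * g)⁻¹ * (g * h) = 1 := by
    refine H.stab c hc e he hce _ ?_ ?_
    · rw [mul_smul, e1, inv_smul_smul]
    · rw [mul_smul, e2, inv_smul_smul]
  have h6 := congrArg (fun z => (h * g) * z) h5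
  simpa [mul_assoc] using h6

/-- a chain with big angles: the element is not torsion -/
theorem not_torsion_of_angle {c : Z} {g : Γ} (hc : c ∈ A.apex) (hne : g • c ≠ c)
    (hang : ¬ A.LE (g • c) c (g • g • c) A.θ) : ¬ IsOfFinOrder g := by
  intro hg
  have hpos : 0 < orderOf g := hg.orderOf_pos
  obtain ⟨k, hk⟩ := Nat.exists_eq_succ_of_ne_zero hpos.ne'
  have happ : ∀ i : ℕ, g ^ i • c ∈ A.apex := fun i => H.apex _ c hc
  have hsucc : ∀ i : ℕ, g ^ (i + 1) • c = g ^ i • (g • c) := by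
    intro i
    rw [pow_succ, mul_smul]
  have h1 := (A.chain (fun i => g ^ i • c) k (fun i _ _ => happ i) ?_ ?_).1
  · have h2 : ∀ i : ℕ, A.M.d (g ^ i • c) (g ^ (i + 1) • c) = A.M.d c (g • c) := by
      intro i
      rw [hsucc, H.iso]
    have hk' : g ^ (k + 1) = 1 := by
      rw [← Nat.succ_eq_add_one, ← hk]
      exact pow_orderOf_eq_one g
    simp only [h2, hk', pow_zero, one_smul, A.M.self, Finset.sum_const, Finset.card_range,
      smul_eq_mul] at h1
    have h3 := pos_of_ne (A := A) (Ne.symm hne)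
    have h4 := Nat.mul_pos (Nat.succ_pos k) h3
    rw [← Nat.succ_eq_add_one] at h1
    omega
  · intro i _ he
    rw [hsucc] at he
    exact hne (smul_left_cancel _ he).symm
  · intro i _ hLE
    have e1 : g ^ (i + 2) • c = g ^ i • (g • g • c) := by
      rw [pow_add, mul_smul, pow_two, mul_smul]
    simp only [e1, hsucc] at hLE
    exact hang ((H.LE_smul (g ^ i)).1 hLE)

/-- torsion elements fix heavy apexes. Proof: suppose `gc ≠ c`. WLOG `d x c < d x (gc)` (else replace `g` by `g⁻¹`).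
`Germ (gc) x = Germ (gc) c`. `shift_eq` for `(c, gc)`: `d x (g²c) - d x (gc) = d x (gc) - d x c > 0`, and `g²c` cuts `x` from `y`,
so `Germ (gc) y = Germ (gc) (g²c)`. So the angle at `gc` between `c` and `g²c` is not `≤ θ`; `chain` for `g^i c`:
`d c (g^k c) = k d c (gc) > 0` for all `k ≥ 1`. -/
theorem torsion_fix {x y c : Z} {g : Γ} {κ : ℕ} (hg : IsOfFinOrder g) (hgx : A.M.d x (g • x) ≤ κ)
    (hgy : A.M.d y (g • y) ≤ κ) (hc : c ∈ A.apex) (h1 : 3 * κ < A.M.d x c)
    (h2 : 3 * κ < A.M.d y c) (hh : ¬ A.LE c x y (7 * A.θ)) : g • c = c := by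
  -- the main case
  have key : ∀ g : Γ, IsOfFinOrder g → A.M.d x (g • x) ≤ κ → A.M.d y (g • y) ≤ κ →
      ¬ A.M.d x c < A.M.d x (g • c) := by
    intro g hg hgx hgy hlt
    have f1 := H.far_smul (c := c) hgx
    have f2 := H.far_smul (c := c) hgy
    have hga := H.apex g c hc
    have h3 : ¬ A.LE (g • c) x y (5 * A.θ) := H.move hgx hgy hc (by omega) (by omega)
      (fun h4 => hh (h4.mono (by omega)))
    have hC : A.M.Cut c x y := cut_of_heavy hc (by omega) (by omega) hh (by omega)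
    have hCg : A.M.Cut (g • c) x y := cut_of_heavy hga (by omega) (by omega) h3 (by omega)
    have hCgg : A.M.Cut (g • g • c) x y := H.shift_eq_aux (T := 3 * A.θ) hgx hgy hga
      (by omega) (by omega) (fun h4 => h3 (h4.mono (by omega))) (by omega)
    have hsh := H.shift_gen hgx hgy hc hga (by omega) (by omega) (by omega) (by omega)
      (fun h4 => hh (h4.mono (by omega))) (fun h4 => h3 (h4.mono (by omega)))
    have hne : g • c ≠ c := by
      intro he
      rw [he] at hlt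
      exact lt_irrefl _ hlt
    have e1 : A.M.Germ (g • c) x = A.M.Germ (g • c) c :=
      GMet.germ_eq (hC.left hCg.1 hlt.le).symm (Ne.symm hne)
    have hne2 : g • g • c ≠ g • c := fun he => hne (smul_left_cancel _ he)
    have e2 : A.M.Germ (g • c) y = A.M.Germ (g • c) (g • g • c) :=
      GMet.germ_eq (hCgg.right hCg.1 (by omega)) hne2
    refine H.not_torsion_of_angle hc hne ?_ hg
    intro hLE
    apply h3
    refine AngSys.LE.mono (S := A.θ) ?_ (by omega)
    intro u hu u' hu'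
    rw [e1] at hu
    rw [e2] at hu'
    exact hLE u hu u' hu'
  have f1 := H.far_smul (c := c) hgx
  have f2 := H.far_smul (c := c) hgy
  have hga := H.apex g c hc
  have h3 : ¬ A.LE (g • c) x y (5 * A.θ) := H.move hgx hgy hc (by omega) (by omega)
    (fun h4 => hh (h4.mono (by omega)))
  have hC : A.M.Cut c x y := cut_of_heavy hc (by omega) (by omega) hh (by omega)
  have hCg : A.M.Cut (g • c) x y := cut_of_heavy hga (by omega) (by omega) h3 (by omega)
  rcases lt_trichotomy (A.M.d x c) (A.M.d x (g • c)) with hlt | heq | hgt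
  · exact absurd hlt (key g hg hgx hgy)
  · exact hC.eq_of_pos hCg.1 heq.symm
  · exfalso
    have hix : A.M.d x (g⁻¹ • x) ≤ κ := by
      rw [← H.iso g x (g⁻¹ • x), smul_inv_smul, A.M.symm]
      exact hgx
    have hiy : A.M.d y (g⁻¹ • y) ≤ κ := by
      rw [← H.iso g y (g⁻¹ • y), smul_inv_smul, A.M.symm]
      exact hgy
    have hsh := H.shift_gen hix hiy hc hga (by omega) (by omega) (by omega) (by omega)
      (fun h4 => hh (h4.mono (by omega))) (fun h4 => h3 (h4.mono (by omega)))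
    rw [inv_smul_smul] at hsh
    exact key g⁻¹ hg.inv hix hiy (by omega)

theorem regI_torsion {x y c e : Z} {g : Γ} {κ : ℕ} (hg : IsOfFinOrder g)
    (hgx : A.M.d x (g • x) ≤ κ) (hgy : A.M.d y (g • y) ≤ κ)
    (hc : c ∈ A.apex) (he : e ∈ A.apex) (hce : c ≠ e)
    (h1 : 3 * κ < A.M.d x c) (h2 : 3 * κ < A.M.d y c) (h3 : 3 * κ < A.M.d x e)
    (h4 : 3 * κ < A.M.d y e) (hhc : ¬ A.LE c x y (7 * A.θ)) (hhe : ¬ A.LE e x y (7 * A.θ)) :
    g = 1 :=
  H.stab c hc e he hce g (H.torsion_fix hg hgx hgy hc h1 h2 hhc)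
    (H.torsion_fix hg hgx hgy he h3 h4 hhe)

/-- PRODUCTS OF ROTATIONS. `u ≠ 1` fixes the apex `c`, `w` fixes the apex `c' ≠ c` and has a big angle there. Then `u w` is not
torsion. Proof: `u c' ≠ c'`; `LE c' c (u c') θ` and `LE c' c (u⁻¹ c') θ` because `d c (u^{±1} c') = d c c'` (if `c'` is between `c` and
`u c'` then `c' = u c'`). Chain `c_i = (uw)^i c'`: the angle at `c'` between `(uw)⁻¹ c' = w⁻¹ u⁻¹ c'` and `u w c' = u c'` is not `≤ θ`:
otherwise `a c' y0 (w y0) ≤ 3θ + θ` for `y0 ∈ Germ c' c`. `chain` gives `d c' ((uw)^(k+1) c') = (k+1) d c' (u c') > 0`. -/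
theorem prod_not_torsion {c c' : Z} (hc : c ∈ A.apex) (hc' : c' ∈ A.apex) (hne : c ≠ c')
    {u w : Γ} (hu : u • c = c) (hu1 : u ≠ 1) (hw : w • c' = c')
    (hrot : ∀ y, A.M.d c' y = 1 → 4 * A.θ < A.a c' y (w • y)) : ¬ IsOfFinOrder (u * w) := by
  have huc : u • c' ≠ c' := fun h => hu1 (H.stab c hc c' hc' hne u hu h)
  have hui : u⁻¹ • c = c := by rw [inv_smul_eq_iff, hu]
  have huic : u⁻¹ • c' ≠ c' := by
    intro h
    rw [inv_smul_eq_iff] at h
    exact huc h.symm
  have hwi : w⁻¹ • c' = c' := by rw [inv_smul_eq_iff, hw]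
  -- a rotation about `c` does not change the direction at `c'`
  have dir : ∀ v : Γ, v • c = c → v • c' ≠ c' → A.LE c' c (v • c') A.θ := by
    intro v hv hvc
    refine AngSys.LE.of_not_btw hc' hne hvc ?_
    intro hb
    have h1 : A.M.d c (v • c') = A.M.d c c' := by
      have h2 := H.iso v c c'
      rwa [hv] at h2
    unfold GMet.Btw at hb
    rw [h1] at hb
    exact hvc (A.M.eq_of _ _ (by omega)).symm
  have hgc : (u * w) • c' = u • c' := by rw [mul_smul, hw]
  refine H.not_torsion_of_angle hc' (by rw [hgc]; exact huc) ?_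
  intro hLE
  -- translate back
  have h1 : A.LE c' ((u * w)⁻¹ • c') ((u * w) • c') A.θ := by
    rw [← H.LE_smul (u * w), smul_inv_smul]
    exact hLE
  have h2 : (u * w)⁻¹ • c' = w⁻¹ • (u⁻¹ • c') := by rw [mul_inv_rev, mul_smul]
  rw [h2, hgc] at h1
  have h3 : A.LE c' (w⁻¹ • c) (w⁻¹ • (u⁻¹ • c')) A.θ := by
    have h4 := (H.LE_smul w⁻¹).2 (dir u⁻¹ hui huic)
    rwa [hwi] at h4
  have h5 := (dir u hu huc).symm hc'
  have hne3 : w⁻¹ • (u⁻¹ • c') ≠ c' := by
    intro h
    rw [inv_smul_eq_iff, hw] at h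
    exact huic h
  have h6 := AngSys.LE.trans hc' huc (AngSys.LE.trans hc' hne3 h3 h1) h5
  obtain ⟨y0, hy0⟩ := GMet.germ_nonempty (M := A.M) hne
  have hy1 : w⁻¹ • y0 ∈ A.M.Germ c' (w⁻¹ • c) := by
    have h7 := (GMet.germ_smul (M := A.M) H.isoAct w⁻¹ (c := c') (z := c) (y := y0)).2 hy0
    rwa [hwi] at h7
  have h7 := h6 _ hy1 _ hy0
  have h8 := hrot (w⁻¹ • y0) hy1.1
  rw [smul_inv_smul] at h8
  omega

end AngAct

end BG
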