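import Pool.Agent.Helper76.BG.RotInst
import Pool.Agent.Helper76.BG.QStab
import Pool.Agent.Helper76.BG.RegI

/-!
# BG31: the quotient system
-/

set_option autoImplicit false

namespace BG
namespace KData

variable {c : Cst} {S : Sys} (D : KData c S)

/-- the quotient system: the group `G / N` acting on the quotient of the cone-off -/
noncomputable def Sq : Sys where
  G := S.G ⧸ D.R.N
  X := D.R.Zq
  M := D.R.Mq
  iso := D.R.Mq_iso
  pt := D.R.pj (Sum.inl S.pt)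

/-- the quotient homomorphism -/
noncomputable def φ : S.G →* D.Sq.G := QuotientGroup.mk' D.R.N

/-- the projection of the cone-off to the quotient -/
noncomputable def pz (u : S.Z c) : D.Sq.X := D.R.pj u

/-- the map of spaces -/
noncomputable def px (x : S.X) : D.Sq.X := D.pz (Sum.inl x)

theorem φ_surj : Function.Surjective D.φ := QuotientGroup.mk'_surjective _

theorem φ_eq_one {g : S.G} : D.φ g = 1 ↔ g ∈ D.R.N :=
  QuotientGroup.eq_one_iff g

theorem φ_eq {g h : S.G} : D.φ g = D.φ h ↔ ∃ n ∈ D.R.N, n * g = h := by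
  constructor
  · intro e
    refine ⟨h * g⁻¹, D.φ_eq_one.1 ?_, inv_mul_cancel_right h g⟩
    rw [map_mul, map_inv, ← e, mul_inv_cancel]
  · rintro ⟨n, hn, rfl⟩
    rw [map_mul, D.φ_eq_one.2 hn, one_mul]

theorem φ_smul (g : S.G) (z : S.Z c) : D.φ g • D.pz z = D.pz (g • z) := rfl

theorem φ_px (g : S.G) (x : S.X) : D.φ g • D.px x = D.px (g • x) := rfl

/-- `thin_q`, `cone_thin`, `Thin.hyp` -/
theorem Sq_hyp : D.Sq.M.Hyp 69 :=
  (RotSys.thin_q (R := D.R) (e := 34) D.P.cone_thin).hyp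

/-- `C_le` and `Mq_le` -/
theorem px_le (x y : S.X) (k : ℕ) (h : S.M.d x y ≤ k * c.ρ) : D.Sq.M.d (D.px x) (D.px y) ≤ k :=
  (D.R.Mq_le (Sum.inl x) (Sum.inl y)).trans (Sys.C_le x y k h)

theorem Sq_d (u v : S.Z c) : D.Sq.M.d (D.pz u) (D.pz v) = D.R.Mq.d (D.R.pj u) (D.R.pj v) := rfl

/-- the quotient group acts on the quotient system of angles -/
theorem angAct : AngAct D.Sq.G (Z := D.Sq.X) D.R.Aq where
  iso g x y := D.R.Mq_iso g x y
  apex g v hv := by
    obtain ⟨g0, rfl⟩ := D.φ_surj g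
    obtain ⟨u, hu, rfl⟩ := hv
    exact ⟨g0 • u, D.R.apex_smul g0 u hu, rfl⟩
  ang g v y y' := RotSys.aq_smul (R := D.R) g v y y'
  stab v hv w hw hvw g h1 h2 := RotSys.stab_q (R := D.R) hv hw hvw h1 h2

/-- elements of killed subgroups become torsion: `g = gen^k`, `g^e ∈ N` -/
theorem φ_killed_pow {E : S.Killed c.K} {g : S.G} (hg : g ∈ E.1) : D.φ g ^ D.e E = 1 := by
  rw [(Sys.gen_spec E).2.1] at hg
  obtain ⟨k, rfl⟩ := Subgroup.mem_zpowers_iff.1 hg
  rw [← map_pow, D.φ_eq_one]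
  refine Subgroup.subset_closure ⟨Sum.inr E, ⟨E, rfl⟩, ?_⟩
  show (Sys.gen E ^ k) ^ D.e E ∈ Subgroup.zpowers (Sys.gen E ^ D.e E)
  rw [Subgroup.mem_zpowers_iff]
  refine ⟨k, ?_⟩
  rw [← zpow_natCast, ← zpow_natCast, ← zpow_mul, ← zpow_mul, mul_comm]

theorem φ_killed {E : S.Killed c.K} {g : S.G} (hg : g ∈ E.1) : IsOfFinOrder (D.φ g) :=
  isOfFinOrder_iff_pow_eq_one.2 ⟨D.e E, D.e_pos E, D.φ_killed_pow hg⟩

/-- `g ∈ E` maps to `1` iff it is in the rotation group (`nfix`) -/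
theorem φ_killed_one {E : S.Killed c.K} {g : S.G} (hg : g ∈ E.1) :
    D.φ g = 1 ↔ g ∈ D.Hs (Sum.inr E) := by
  rw [D.φ_eq_one]
  constructor
  · intro h
    refine RotSys.nfix (R := D.R) (c := Sum.inr E) ⟨E, rfl⟩ h ?_
    rw [smul_inr, Sys.smul_self_killed hg]
  · intro h
    exact Subgroup.subset_closure ⟨Sum.inr E, ⟨E, rfl⟩, h⟩

/-- the stabilizer in the quotient group of the image of the apex `E` is the image of `E` -/
theorem φ_stab {E : S.Killed c.K} {g : D.Sq.G}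
    (hg : g • D.pz (Sum.inr E) = D.pz (Sum.inr E)) :
    ∃ y ∈ E.1, D.φ y = g := by
  obtain ⟨g0, rfl⟩ := D.φ_surj g
  have h1 : D.R.pj (g0 • (Sum.inr E : S.Z c)) = D.R.pj (Sum.inr E) := hg
  obtain ⟨n, hn, h2⟩ := D.R.pj_eq.1 h1
  rw [← mul_smul, smul_inr] at h2
  refine ⟨n * g0, D.P.killed_stab (Sum.inr_injective h2), ?_⟩
  rw [map_mul, D.φ_eq_one.2 hn, one_mul]

end KData
end BG
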