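import Pool.Agent.Helper76.BG.KilledA

/-!
# BG10b: the killed family in the class `P`
-/

set_option autoImplicit false

namespace BG

namespace Sys

variable {S : Sys} {K : ℕ}

variable {c : Cst}

private theorem killed_le (P : S.InP c) {E F : S.Killed K} {g : S.G} (hE : g ∈ E.1) (hF : g ∈ F.1)
    (hg : g ≠ 1) : F.1 ≤ E.1 := by
  obtain ⟨e1, e2, e3, -⟩ := gen_spec E
  obtain ⟨-, f2, -, -⟩ := gen_spec F
  intro x hx
  have hgE := hE
  rw [e2] at hgE
  obtain ⟨i, hi⟩ := Subgroup.mem_zpowers_iff.1 hgE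
  have hi0 : i ≠ 0 := by
    rintro rfl
    rw [zpow_zero] at hi
    exact hg hi.symm
  apply e3
  refine P.cent_zpow e1 hi0 ?_
  rw [hi]
  rw [f2] at hx hF
  obtain ⟨a, ha⟩ := Subgroup.mem_zpowers_iff.1 hx
  obtain ⟨b, hb⟩ := Subgroup.mem_zpowers_iff.1 hF
  rw [← ha, ← hb, ← zpow_add, ← zpow_add, add_comm]

/-- distinct members meet trivially -/
theorem InP.killed_inter (P : S.InP c) {E F : S.Killed K} {g : S.G} (hE : g ∈ E.1) (hF : g ∈ F.1)
    (hg : g ≠ 1) : E = F :=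
  Subtype.ext (le_antisymm (killed_le P hF hE hg) (killed_le P hE hF hg))

/-- the stabilizer of `E` is `E` (`malnormal`) -/
theorem InP.killed_stab (P : S.InP c) {E : S.Killed K} {g : S.G} (hg : g • E = E) : g ∈ E.1 := by
  obtain ⟨e1, e2, e3, -⟩ := gen_spec E
  have h1 : gen E ∈ E.1 := by
    rw [e2]
    exact Subgroup.mem_zpowers _
  have h2 : g * gen E * g⁻¹ ∈ E.1 := by
    have h3 : g * gen E * g⁻¹ ∈ (g • E).1 := (mem_killed_smul g (gen E) E).2 h1
    rw [hg] at h3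
    exact h3
  rw [e2] at h2
  obtain ⟨j, hj⟩ := Subgroup.mem_zpowers_iff.1 h2
  rw [e2]
  refine P.malnormal e1 (fun k hk => ?_) (i := 1) (j := j) one_ne_zero ?_
  · rw [← e2]
    exact e3 k hk
  · rw [zpow_one]
    exact hj.symm

private theorem disp_zpow (h : S.G) (z : S.X) (i : ℤ) :
    S.M.d z (h ^ i • z) = S.M.d z (h ^ i.natAbs • z) := by
  rcases Int.natAbs_eq i with hi | hi
  · conv_lhs => rw [hi]
    rw [zpow_natCast]
  · conv_lhs => rw [hi]
    rw [zpow_neg, zpow_natCast, ← S.iso (h ^ i.natAbs) z ((h ^ i.natAbs)⁻¹ • z), smul_inv_smul,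
      S.M.symm]

private theorem dich (P : S.InP c) (hK : 1000 ≤ K) {g : S.G} (hg : ¬ IsOfFinOrder g) :
    (∃ E : S.Killed K, g ∈ E.1) ∨ ∃ (h : S.G) (i : ℤ), i ≠ 0 ∧ g = h ^ i ∧
      ∀ (z : S.X) (k : ℕ), k * (K - 413) ≤ S.M.d z (h ^ k • z) := by
  obtain ⟨h, h1, h2, h3⟩ := P.cent_cyclic hg
  obtain ⟨i, hi⟩ := Subgroup.mem_zpowers_iff.1 h2
  by_cases hx : ∃ x : S.X, S.M.d x (h • x) ≤ K
  · left
    refine ⟨⟨Subgroup.zpowers h, h, h1, rfl, fun k hk => ?_, hx⟩, h2⟩
    refine (h3 k).1 ?_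
    rw [← hi]
    exact (show Commute k h from hk).zpow_right i
  · right
    push Not at hx
    refine ⟨h, i, ?_, hi.symm, fun z k => ?_⟩
    · rintro rfl
      rw [zpow_zero] at hi
      apply hg
      rw [← hi]
      exact IsOfFinOrder.one
    · haveI : Nonempty S.X := ⟨S.pt⟩
      obtain ⟨p, hp⟩ := exists_minPt (M := S.M) h
      have hD := hx p
      have h4 := growth_all S.iso P.hyp hp (by omega) z k
      refine le_trans (Nat.mul_le_mul_left k ?_) h4
      omega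

private theorem dich' (P : S.InP c) (hK : 1000 ≤ K) {g : S.G} (hg : ¬ IsOfFinOrder g) :
    (∃ E : S.Killed K, g ∈ E.1) ∨
      ∀ (z : S.X) (k : ℕ), k * (K - 413) ≤ S.M.d z (g ^ k • z) := by
  rcases dich P hK hg with h | ⟨h, i, hi, hgi, hh⟩
  · exact Or.inl h
  · right
    intro z k
    have h1 : g ^ k = h ^ (i * (k : ℤ)) := by rw [hgi, zpow_mul, zpow_natCast]
    rw [h1, disp_zpow, Int.natAbs_mul, Int.natAbs_natCast]
    refine le_trans ?_ (hh z _)
    refine Nat.mul_le_mul_right _ ?_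
    have h2 : 1 ≤ i.natAbs := Int.natAbs_pos.2 hi
    exact Nat.le_mul_of_pos_left _ h2

/-- elements with small displacement are in a member of the family. `C(g) = ⟨h⟩`, `g = h^k`. If the minimal displacement of
`h` is `> K` then `growth_all` gives `d(x,gx) > K - 414`. -/
theorem InP.mem_killed (P : S.InP c) (hK : 1000 ≤ K) {g : S.G} (hg : ¬ IsOfFinOrder g) {x : S.X}
    (hx : S.M.d x (g • x) + 414 ≤ K) : ∃ E : S.Killed K, g ∈ E.1 := by
  rcases dich' P hK hg with h | h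
  · exact h
  · exfalso
    have h1 := h x 1
    rw [pow_one] at h1
    omega

/-- elements not in a member of the family move points a lot -/
theorem InP.growth_big (P : S.InP c) (hK : 1000 ≤ K) {g : S.G} (hg : ¬ IsOfFinOrder g)
    (hg' : ∀ E : S.Killed K, g ∉ E.1) (z : S.X) (k : ℕ) :
    k * (K - 414) ≤ S.M.d z (g ^ k • z) := by
  rcases dich' P hK hg with ⟨E, hE⟩ | h
  · exact absurd hE (hg' E)
  · refine le_trans (Nat.mul_le_mul_left k ?_) (h z k)
    omega

end Sys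

end BG
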