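import Pool.Agent.Helper76.BG.Cent

/-!
# BG10: the killed family
-/

set_option autoImplicit false

namespace BG

namespace Sys

/-- maximal infinite cyclic subgroups whose generator moves some point by at most `K` -/
def IsKilled (S : Sys) (K : ℕ) (E : Subgroup S.G) : Prop :=
  ∃ h : S.G, ¬ IsOfFinOrder h ∧ E = Subgroup.zpowers h ∧ (∀ g : S.G, g * h = h * g → g ∈ E) ∧
    ∃ x : S.X, S.M.d x (h • x) ≤ K

/-- the killed family -/
def Killed (S : Sys) (K : ℕ) : Type := {E : Subgroup S.G // S.IsKilled K E}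

variable {S : Sys} {K : ℕ}

theorem IsKilled.conj {E : Subgroup S.G} (hE : S.IsKilled K E) (g : S.G) :
    S.IsKilled K (E.map (MulAut.conj g).toMonoidHom) := by
  obtain ⟨h, h1, h2, h3, x, hx⟩ := hE
  refine ⟨g * h * g⁻¹, ?_, ?_, ?_, g • x, ?_⟩
  · intro hf
    apply h1
    have h4 : IsOfFinOrder (g⁻¹ * (g * h * g⁻¹) * g⁻¹⁻¹) := by
      have := (MulAut.conj g⁻¹).toMonoidHom.isOfFinOrder hf
      simpa [MulAut.conj_apply] using this
    simpa [mul_assoc] using h4
  · subst h2
    rw [MonoidHom.map_zpowers]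
    rfl
  · intro k hk
    rw [Subgroup.mem_map]
    refine ⟨g⁻¹ * k * g, h3 _ ?_, ?_⟩
    · have h5 : g⁻¹ * k * g * h = g⁻¹ * (k * (g * h * g⁻¹)) * g := by group
      rw [h5, hk]
      group
    · simp [MulAut.conj_apply, mul_assoc]
  · have h6 : (g * h * g⁻¹) • g • x = g • h • x := by
      simp [mul_smul]
    rw [h6, S.iso]
    exact hx

instance : MulAction S.G (S.Killed K) where
  smul g E := ⟨E.1.map (MulAut.conj g).toMonoidHom, E.2.conj g⟩
  one_smul E := by
    apply Subtype.ext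
    show E.1.map (MulAut.conj 1).toMonoidHom = E.1
    ext x
    simp [Subgroup.mem_map]
  mul_smul g h E := by
    apply Subtype.ext
    show E.1.map (MulAut.conj (g * h)).toMonoidHom = (E.1.map (MulAut.conj h).toMonoidHom).map (MulAut.conj g).toMonoidHom
    rw [Subgroup.map_map]
    congr 1
    ext x
    simp [mul_assoc]

theorem smul_killed_val (g : S.G) (E : S.Killed K) :
    (g • E).1 = E.1.map (MulAut.conj g).toMonoidHom := rfl

/-- a chosen generator -/
noncomputable def gen (E : S.Killed K) : S.G := Classical.choose E.2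

theorem gen_spec (E : S.Killed K) : ¬ IsOfFinOrder (gen E) ∧ E.1 = Subgroup.zpowers (gen E) ∧
    (∀ g : S.G, g * gen E = gen E * g → g ∈ E.1) ∧ ∃ x : S.X, S.M.d x (gen E • x) ≤ K :=
  Classical.choose_spec E.2

/-- the quasi-axis of `E`: the points of minimal displacement for `gen E ^ q` -/
def ax (q : ℕ) (E : S.Killed K) : Set S.X := {y | MinPt S.M (gen E ^ q) y}

theorem mem_killed_smul (g h : S.G) (E : S.Killed K) : g * h * g⁻¹ ∈ (g • E).1 ↔ h ∈ E.1 := by
  rw [smul_killed_val, Subgroup.mem_map]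
  constructor
  · rintro ⟨k, hk, e⟩
    have : k = h := by
      have e' : g * k * g⁻¹ = g * h * g⁻¹ := e
      exact mul_left_cancel (mul_right_cancel e')
    exact this ▸ hk
  · intro hh
    exact ⟨h, hh, rfl⟩

theorem gen_smul (g : S.G) (E : S.Killed K) :
    gen (g • E) = g * gen E * g⁻¹ ∨ gen (g • E) = (g * gen E * g⁻¹)⁻¹ := by
  have h1 := (gen_spec (g • E)).1
  have h2 := (gen_spec (g • E)).2.1
  have h3 := (gen_spec E).2.1
  have h4 : (g • E).1 = Subgroup.zpowers (g * gen E * g⁻¹) := by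
    rw [smul_killed_val, h3, MonoidHom.map_zpowers]
    rfl
  rw [h2] at h4
  rcases (Subgroup.zpowers_eq_zpowers_iff h1).mp h4 with h | h
  · exact Or.inl h
  · right
    rw [← h, inv_inv]

/-- minimal displacement is invariant under inversion -/
private theorem minPt_inv (f : S.G) (y : S.X) (h : MinPt S.M f y) : MinPt S.M f⁻¹ y := by
  have key : ∀ z, S.M.d z (f⁻¹ • z) = S.M.d z (f • z) := by
    intro z
    have := S.iso f z (f⁻¹ • z)
    rw [smul_inv_smul] at this
    rw [← this, S.M.symm]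
  intro z
  rw [key, key]
  exact h z

private theorem minPt_inv_iff (f : S.G) (y : S.X) : MinPt S.M f⁻¹ y ↔ MinPt S.M f y := by
  constructor
  · intro h
    have := minPt_inv f⁻¹ y h
    rwa [inv_inv] at this
  · exact minPt_inv f y

private theorem minPt_conj (g f : S.G) (y : S.X) :
    MinPt S.M (g * f * g⁻¹) (g • y) ↔ MinPt S.M f y := by
  have key : ∀ z, S.M.d (g • z) ((g * f * g⁻¹) • g • z) = S.M.d z (f • z) := by
    intro z
    have h6 : (g * f * g⁻¹) • g • z = g • f • z := by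
      simp [mul_smul]
    rw [h6, S.iso]
  constructor
  · intro h z
    have := h (g • z)
    rwa [key, key] at this
  · intro h z
    rw [key]
    have h7 : z = g • g⁻¹ • z := by rw [smul_inv_smul]
    rw [h7, key]
    exact h _

theorem smul_mem_ax (q : ℕ) (g : S.G) (E : S.Killed K) (y : S.X) :
    g • y ∈ ax q (g • E) ↔ y ∈ ax q E := by
  show MinPt S.M (gen (g • E) ^ q) (g • y) ↔ MinPt S.M (gen E ^ q) y
  rcases gen_smul g E with h | h
  · rw [h, conj_pow, minPt_conj]
  · rw [h, inv_pow, conj_pow, minPt_inv_iff, minPt_conj]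

theorem smul_self_killed {E : S.Killed K} {g : S.G} (hg : g ∈ E.1) : g • E = E := by
  apply Subtype.ext
  ext x
  constructor
  · intro hx
    rw [smul_killed_val, Subgroup.mem_map] at hx
    obtain ⟨k, hk, e⟩ := hx
    have e' : g * k * g⁻¹ = x := e
    rw [← e']
    exact E.1.mul_mem (E.1.mul_mem hg hk) (E.1.inv_mem hg)
  · intro hx
    have h1 : g⁻¹ * x * g ∈ E.1 := E.1.mul_mem (E.1.mul_mem (E.1.inv_mem hg) hx) hg
    have h2 := (mem_killed_smul g (g⁻¹ * x * g) E).mpr h1
    have h3 : g * (g⁻¹ * x * g) * g⁻¹ = x := by group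
    rwa [h3] at h2

theorem smul_mem_ax_self (q : ℕ) (E : S.Killed K) {g : S.G} (hg : g ∈ E.1) {y : S.X}
    (hy : y ∈ ax q E) : g • y ∈ ax q E := by
  have h := (smul_mem_ax q g E y).mpr hy
  rwa [smul_self_killed hg] at h

theorem ax_nonempty (q : ℕ) (E : S.Killed K) : (ax q E).Nonempty := by
  classical
  have hex : ∃ n, ∃ z, S.M.d z ((gen E ^ q) • z) = n := ⟨_, S.pt, rfl⟩
  obtain ⟨z, hz⟩ := Nat.find_spec hex
  refine ⟨z, fun w => ?_⟩
  rw [hz]
  exact Nat.find_min' hex ⟨w, rfl⟩

/-- `E` is torsion-free -/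
theorem killed_torsion {E : S.Killed K} {g : S.G} (hg : g ∈ E.1) (hf : IsOfFinOrder g) : g = 1 := by
  rw [(gen_spec E).2.1, Subgroup.mem_zpowers_iff] at hg
  obtain ⟨k, rfl⟩ := hg
  by_cases hk : k = 0
  · subst hk
    simp
  · exfalso
    apply (gen_spec E).1
    rw [isOfFinOrder_iff_pow_eq_one] at hf
    obtain ⟨n, hn, e⟩ := hf
    rw [isOfFinOrder_iff_zpow_eq_one]
    refine ⟨k * n, ?_, ?_⟩
    · exact mul_ne_zero hk (by exact_mod_cast hn.ne')
    · rw [zpow_mul, zpow_natCast]
      exact e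

end Sys

end BG
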