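import Pool.Agent.Helper76.BG.HypA

/-!
# BG06: projections to quasi-convex sets

`c0 = 2σ + 4δ + 4`.
-/

set_option autoImplicit false

namespace BG
namespace GMet

variable {X : Type} {M : GMet X} {δ σ : ℕ} {Y : Set X}

theorem exists_proj (M : GMet X) (hY : Y.Nonempty) (x : X) : ∃ q, M.IsProj Y x q := by
  classical
  have hex : ∃ n, ∃ y ∈ Y, M.d x y = n := by
    obtain ⟨y, hy⟩ := hY
    exact ⟨_, y, hy, rfl⟩
  obtain ⟨q, hq, hqn⟩ := Nat.find_spec hex
  refine ⟨q, hq, fun y hy => ?_⟩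
  rw [hqn]
  exact Nat.find_min' hex ⟨y, hy, rfl⟩

/-- Proof: put `2P = d x q + d q y - d x y`, take `u` between `q` and `y` with `d q u = P` (rounded down); four points
`(q,y;x,u)` give `d x u ≤ d x q - P + 2δ + 1`; and `u` is `σ`-near `Y`. -/
theorem IsProj.slk (h : M.Hyp δ) (hY : M.QConv Y σ) {x q y : X} (hq : M.IsProj Y x q) (hy : y ∈ Y) :
    M.d x q + M.d q y ≤ M.d x y + (2 * σ + 4 * δ + 4) := by
  have t1 := M.tri x q y
  have t2 := M.tri x y q
  have s1 := M.symm y q
  have hP : (M.d x q + M.d q y - M.d x y) / 2 ≤ M.d q y := by omega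
  obtain ⟨u, hu, hu'⟩ := M.geo q y _ hP
  have hb : M.Btw q u y := by
    unfold Btw
    omega
  obtain ⟨q', hq', hd⟩ := hY q hq.1 y hy u hb
  have h1 := hq.2 q' hq'
  have t3 := M.tri x u q'
  have s2 := M.symm y u
  have s3 := M.symm q x
  have s4 := M.symm y x
  rcases h q y x u with h2 | h2 <;> omega

/-- Proof: four points `(x,q';x',q)` and `IsProj.slk` twice. -/
theorem IsProj.two (h : M.Hyp δ) (hY : M.QConv Y σ) {x x' q q' : X} (hq : M.IsProj Y x q)
    (hq' : M.IsProj Y x' q') :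
    M.d q q' ≤ 2 * σ + 5 * δ + 4 ∨
      M.d x q + M.d q q' + M.d q' x' ≤ M.d x x' + (4 * σ + 10 * δ + 8) := by
  have h1 := IsProj.slk h hY hq hq'.1
  have h2 := IsProj.slk h hY hq' hq.1
  have s1 := M.symm q q'
  have s2 := M.symm x' q'
  have s3 := M.symm x' q
  rcases h x q' x' q with h3 | h3 <;> omega

/-- coarse Lipschitz -/
theorem IsProj.lip (h : M.Hyp δ) (hY : M.QConv Y σ) {x x' q q' : X} (hq : M.IsProj Y x q)
    (hq' : M.IsProj Y x' q') : M.d q q' ≤ M.d x x' + (4 * σ + 10 * δ + 8) := by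
  rcases IsProj.two h hY hq hq' with h1 | h1 <;> omega

/-- contraction: a geodesic which stays far from `Y` has end points with near projections
(otherwise `q` has slack `4σ+10δ+8` on `(x,x')`, so it is near a between point, `slk_near`) -/
theorem IsProj.far (h : M.Hyp δ) (hY : M.QConv Y σ) {x x' q q' : X} (hq : M.IsProj Y x q)
    (hq' : M.IsProj Y x' q')
    (hfar : ∀ u, M.Btw x u x' → ∀ y ∈ Y, 4 * σ + 12 * δ + 8 < M.d u y) :
    M.d q q' ≤ 2 * σ + 5 * δ + 4 := by
  rcases IsProj.two h hY hq hq' with h1 | h1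
  · exact h1
  · exfalso
    have t1 := M.tri q q' x'
    have h2 : M.Slk (4 * σ + 10 * δ + 8) x q x' := by
      unfold Slk
      omega
    obtain ⟨u, hu, hd, -⟩ := Hyp.slk_near h h2
    have h3 := hfar u hu q hq.1
    have s1 := M.symm q u
    omega

/-- if the projections are far apart they are almost between `x` and `x'` (both) -/
theorem IsProj.slk_two (h : M.Hyp δ) (hY : M.QConv Y σ) {x x' q q' : X} (hq : M.IsProj Y x q)
    (hq' : M.IsProj Y x' q') (hf : 2 * σ + 5 * δ + 4 < M.d q q') :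
    M.Slk (4 * σ + 10 * δ + 8) x q x' ∧ M.Slk (4 * σ + 10 * δ + 8) x q' x' ∧
      M.d x q + M.d q q' ≤ M.d x q' + (4 * σ + 10 * δ + 8) := by
  have h0 := IsProj.slk h hY hq hq'.1
  rcases IsProj.two h hY hq hq' with h1 | h1
  · omega
  · have t1 := M.tri q q' x'
    have t2 := M.tri x q q'
    unfold Slk
    refine ⟨?_, ?_, ?_⟩ <;> omega

end GMet
end BG
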