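import Pool.Agent.Helper76.BG.KilledGeoA
import Pool.Agent.Helper76.BG.Proj

/-!
# BG11b: projections to the quasi-axes

`δ = 69`, `σ = 5000` (the quasi-convexity constant), so that `2σ+4δ+4 ≤ 11000`, `2σ + 5δ + 4 ≤ 11000`,
`4σ+10δ+8 ≤ 21000`, `4σ+12δ+8 ≤ 21000`.
-/

set_option autoImplicit false

namespace BG
namespace Sys

variable {S : Sys} {c : Cst} {E F : S.Killed c.K}

theorem InP.pr_exists (P : S.InP c) (E : S.Killed c.K) (x : S.X) :
    ∃ q, S.M.IsProj (ax c.q E) x q := by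
  exact GMet.exists_proj S.M (ax_nonempty c.q E) x

theorem InP.pr_two (P : S.InP c) {x x' q q' : S.X} (hq : S.M.IsProj (ax c.q E) x q)
    (hq' : S.M.IsProj (ax c.q E) x' q') :
    S.M.d q q' ≤ 11000 ∨ S.M.d x q + S.M.d q q' + S.M.d q' x' ≤ S.M.d x x' + 21000 := by
  rcases GMet.IsProj.two P.hyp (P.ax_qconv E) hq hq' with h | h
  · left
    omega
  · right
    omega

theorem InP.pr_lip (P : S.InP c) {x x' q q' : S.X} (hq : S.M.IsProj (ax c.q E) x q)
    (hq' : S.M.IsProj (ax c.q E) x' q') : S.M.d q q' ≤ S.M.d x x' + 21000 := by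
  have h := GMet.IsProj.lip P.hyp (P.ax_qconv E) hq hq'
  omega

/-- two projections of the same point -/
theorem InP.pr_self (P : S.InP c) {x q q' : S.X} (hq : S.M.IsProj (ax c.q E) x q)
    (hq' : S.M.IsProj (ax c.q E) x q') : S.M.d q q' ≤ 11000 := by
  rcases P.pr_two hq hq' with h | h
  · exact h
  · have h1 := S.M.self x
    have h2 := GMet.IsProj.slk P.hyp (P.ax_qconv E) hq hq'.1
    have h3 := hq'.2 q hq.1
    omega

theorem InP.pr_far (P : S.InP c) {x x' q q' : S.X} (hq : S.M.IsProj (ax c.q E) x q)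
    (hq' : S.M.IsProj (ax c.q E) x' q')
    (hfar : ∀ u, S.M.Btw x u x' → ∀ y ∈ ax c.q E, 22000 < S.M.d u y) : S.M.d q q' ≤ 11000 := by
  have h := GMet.IsProj.far P.hyp (P.ax_qconv E) hq hq' (fun u hu y hy => by
    have := hfar u hu y hy
    omega)
  omega

/-- the projection of one quasi-axis to another one is small. If `d q q' > 11000` then `q` and `q'` are `22000`-near between
points of `x, x'`, so `27000`-near `ax F`; `overlap` with `C = 27000`. -/
theorem InP.pr_axis (P : S.InP c) (hEF : E ≠ F) {x x' q q' : S.X} (hx : x ∈ ax c.q F)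
    (hx' : x' ∈ ax c.q F) (hq : S.M.IsProj (ax c.q E) x q) (hq' : S.M.IsProj (ax c.q E) x' q') :
    S.M.d q q' ≤ c.b + 6 * c.K + 500000 := by
  by_contra hcon
  rw [not_le] at hcon
  obtain ⟨s1, s2, -⟩ := GMet.IsProj.slk_two P.hyp (P.ax_qconv E) hq hq' (by omega)
  obtain ⟨u, hu, hu1, -⟩ := GMet.Hyp.slk_near P.hyp s1
  obtain ⟨u', hu', hu1', -⟩ := GMet.Hyp.slk_near P.hyp s2
  obtain ⟨z, hz, hz1⟩ := P.ax_qconv F x hx x' hx' u hu
  obtain ⟨z', hz', hz1'⟩ := P.ax_qconv F x hx x' hx' u' hu'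
  have t1 := S.M.tri q u z
  have t2 := S.M.tri q' u' z'
  refine hEF (P.overlap (C := 27000) (u := q) (u' := q') hq.1 hq'.1 hz hz' ?_ ?_ ?_ ?_ ?_)
  · rw [S.M.self]
    omega
  · rw [S.M.self]
    omega
  · omega
  · omega
  · omega

/-- projections of translates -/
theorem pr_smul {x q : S.X} (hq : S.M.IsProj (ax c.q E) x q) (g : S.G) :
    S.M.IsProj (ax c.q (g • E)) (g • x) (g • q) := by
  refine ⟨(smul_mem_ax c.q g E q).2 hq.1, fun y hy => ?_⟩
  have h1 : g⁻¹ • y ∈ ax c.q E := by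
    rw [← smul_mem_ax c.q g E, smul_inv_smul]
    exact hy
  have h2 := hq.2 _ h1
  have h3 := S.iso g x (g⁻¹ • y)
  rw [smul_inv_smul] at h3
  rw [S.iso, h3]
  exact h2

theorem pr_smul_self {x q : S.X} (hq : S.M.IsProj (ax c.q E) x q) {g : S.G} (hg : g ∈ E.1) :
    S.M.IsProj (ax c.q E) (g • x) (g • q) := by
  have h := pr_smul hq g
  rwa [smul_self_killed hg] at h

/-- near points: if `w` has slack `s` on `(x,y)` and its position is between those of two points `q, q'` of `ax E` having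
slack `s`, then `w` is near `ax E` (`slk_between`, `slk_near`, quasi-convexity): `2s + 4δ + 2δ + 5000` -/
theorem InP.near_between (P : S.InP c) {x y q q' w : S.X} {s : ℕ} (hq : q ∈ ax c.q E)
    (hq' : q' ∈ ax c.q E) (h1 : S.M.Slk s x q y) (h2 : S.M.Slk s x q' y) (h3 : S.M.Slk s x w y)
    (h4 : S.M.d x q ≤ S.M.d x w) (h5 : S.M.d x w ≤ S.M.d x q') :
    ∃ z ∈ ax c.q E, S.M.d w z ≤ 2 * s + 5414 := by
  have h6 := GMet.Hyp.slk_between P.hyp h1 h2 h3 h4 h5
  obtain ⟨u, hu, hu1, -⟩ := GMet.Hyp.slk_near P.hyp h6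
  obtain ⟨z, hz, hz1⟩ := P.ax_qconv E q hq q' hq' u hu
  refine ⟨z, hz, ?_⟩
  have := S.M.tri w u z
  omega

end Sys
end BG
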