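import Pool.Agent.Helper76.BG.Killed
import Pool.Agent.Helper76.BG.Proj
import Pool.Agent.Helper76.BG.AxisB

/-!
# BG11: geometry of the quasi-axes of the killed family

Throughout `δ = 69`, `σ = 5000` (the quasi-convexity constant), so that `2σ+4δ+4 ≤ 11000`, `2σ + 5δ + 4 ≤ 11000`,
`4σ+10δ+8 ≤ 21000`, `4σ+12δ+8 ≤ 21000`.
-/

set_option autoImplicit false

namespace BG
namespace Sys

variable {S : Sys} {c : Cst} {E F : S.Killed c.K}

private theorem ax_big (P : S.InP c) (E : S.Killed c.K) (y : S.X) :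
    6900 ≤ S.M.d y (gen E ^ c.q • y) := by
  rcases P.T (gen E) with h | h
  · exact absurd h (gen_spec E).1
  · exact h y

/-- `minPt_qconv` (46·69 ≤ 5000) -/
theorem InP.ax_qconv (P : S.InP c) (E : S.Killed c.K) : S.M.QConv (ax c.q E) 5000 := by
  intro y hy y' hy' p hp
  have hD := ax_big P E y
  obtain ⟨q, hq, hd⟩ := minPt_qconv S.iso P.hyp hy hy' (by omega) hp
  exact ⟨q, hq, by omega⟩

/-- `minPt_disp` (36·69 = 2484) -/
theorem InP.ax_disp (P : S.InP c) {y : S.X} (hy : y ∈ ax c.q E) :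
    S.M.d y (gen E • y) ≤ c.K + 2484 := by
  have hD := ax_big P E y
  obtain ⟨z, hz⟩ := (gen_spec E).2.2.2
  have h1 := minPt_disp S.iso P.hyp hy (by omega) (Commute.self_pow (gen E) c.q) hz
  omega

/-- powers of the generator: `q d(y, h^j y) ≥ 94·69·|j|` for every `y` -/
theorem InP.gen_growth (P : S.InP c) (E : S.Killed c.K) (y : S.X) (j : ℤ) :
    94 * 69 * j.natAbs ≤ c.q * S.M.d y (gen E ^ j • y) := by
  have h1 := P.growth (gen_spec E).1 y j.natAbs
  have h2 : S.M.d y (gen E ^ j • y) = S.M.d y (gen E ^ j.natAbs • y) := by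
    rcases Int.natAbs_eq j with hj | hj
    · conv_lhs => rw [hj]
      rw [zpow_natCast]
    · conv_lhs => rw [hj]
      rw [zpow_neg, zpow_natCast, ← S.iso (gen E ^ j.natAbs) y ((gen E ^ j.natAbs)⁻¹ • y),
        smul_inv_smul, S.M.symm]
  rw [h2]
  exact h1

private theorem disp_near (P : S.InP c) {u y : S.X} {C : ℕ} (hy : y ∈ ax c.q E)
    (h1 : S.M.d u y ≤ C) : S.M.d u (gen E • u) ≤ c.K + 2484 + 2 * C := by
  have h2 := P.ax_disp hy
  have t1 := S.M.tri u y (gen E • u)
  have t2 := S.M.tri y (gen E • y) (gen E • u)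
  have e1 := S.iso (gen E) y u
  have e2 := S.M.symm y u
  omega

/-- OVERLAP LEMMA: two far apart points which are near both quasi-axes. (the generators move both points by at most
`K + 2484 + 2C`; `commute`; `killed_inter`) -/
theorem InP.overlap (P : S.InP c) {u u' y y' z z' : S.X} {C : ℕ} (hy : y ∈ ax c.q E)
    (hy' : y' ∈ ax c.q E) (hz : z ∈ ax c.q F) (hz' : z' ∈ ax c.q F)
    (h1 : S.M.d u y ≤ C) (h2 : S.M.d u' y' ≤ C) (h3 : S.M.d u z ≤ C) (h4 : S.M.d u' z' ≤ C)
    (h5 : c.b + 6 * (c.K + 2484 + 2 * C) + 2070 ≤ S.M.d u u') : E = F := by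
  have hc := P.commute (disp_near P hy h1) (disp_near P hy' h2) (disp_near P hz h3)
    (disp_near P hz' h4) h5
  have hE : gen E ∈ E.1 := by
    rw [(gen_spec E).2.1]
    exact Subgroup.mem_zpowers _
  have hF : gen E ∈ F.1 := (gen_spec F).2.2.1 _ hc
  refine P.killed_inter hE hF ?_
  intro h
  apply (gen_spec E).1
  rw [h]
  exact IsOfFinOrder.one

end Sys
end BG
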