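import Pool.Agent.Helper76.BG.Germs

/-!
# BG15: the large angle property of the cone-off
-/

set_option autoImplicit false

namespace BG
namespace Sys

variable {S : Sys} {c : Cst}

/-- the relation between an end `z` of a geodesic and a point `x1` of `X` on or next to it -/
def EndRel (S : Sys) (c : Cst) (z : S.Z c) (x1 : S.X) : Prop :=
  z = Sum.inl x1 ∨ ∃ F : S.Killed c.K, z = Sum.inr F ∧ x1 ∈ ax c.q F

theorem const_le (c : Cst) : c.b + 6 * c.K + 500000 ≤ c.ρ := by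
  have := c.ρ_ge
  omega

theorem InP.germ_end (P : S.InP c) (E : S.Killed c.K) {z : S.Z c} (hz : z ≠ Sum.inr E)
    {y x1 q1 : S.X} (hy : Sum.inl y ∈ (S.C c).Germ (Sum.inr E) z) (h : EndRel S c z x1)
    (hq : S.M.IsProj (ax c.q E) x1 q1) : S.M.d y q1 ≤ 29 * c.ρ := by
  rcases h with rfl | ⟨F, rfl, hx1⟩
  · have := P.germ_proj E hy hq
    omega
  · obtain ⟨hy1, hy2⟩ := hy
    obtain ⟨w, hw0, hwm, hw⟩ := GMet.exists_geo (S.C c) (Sum.inl y) (Sum.inr F)
    set m := (S.C c).d (Sum.inl y) (Sum.inr F) with hm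
    have hm1 : 1 ≤ m := by
      rcases Nat.eq_zero_or_pos m with h0 | h0
      · have := (S.C c).eq_of _ _ (hm ▸ h0)
        cases this
      · exact h0
    have hlast : (S.C c).d (w (m - 1)) (w m) = 1 := by
      rw [hw (m - 1) m (by omega) le_rfl]
      omega
    rw [hwm, C_adj] at hlast
    obtain ⟨x2, hx2⟩ : ∃ x2, w (m - 1) = Sum.inl x2 := by
      rcases hcase : w (m - 1) with x2 | G
      · exact ⟨x2, rfl⟩
      · rw [hcase] at hlast
        exact absurd hlast (by simp [coneAdj])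
    rw [hx2] at hlast
    have hx2F : x2 ∈ ax c.q F := hlast
    have hd1 : (S.C c).d (Sum.inl y) (Sum.inl x2) = m - 1 := by
      have := hw 0 (m - 1) (by omega) (by omega)
      rw [hw0, hx2] at this
      simpa using this
    have hd2 : (S.C c).d (Sum.inl x2) (Sum.inr F) = 1 := (C_adj _ _).2 hlast
    have hgerm : Sum.inl y ∈ (S.C c).Germ (Sum.inr E) (Sum.inl x2) := by
      refine ⟨hy1, ?_⟩
      have h1 := (S.C c).tri (Sum.inr E) (Sum.inl y) (Sum.inl x2)
      have h2 := (S.C c).tri (Sum.inr E) (Sum.inl x2) (Sum.inr F)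
      omega
    obtain ⟨q2, hq2⟩ := P.pr_exists E x2
    have h1 := P.germ_proj E hgerm hq2
    have hEF : E ≠ F := fun h => hz (by rw [h])
    have h2 := P.pr_axis hEF hx2F hx1 hq2 hq
    have h3 := const_le c
    have h4 := S.M.tri y q2 q1
    omega

/-- Proof. There is a geodesic `w` from `z` to `z'` avoiding `E` (`¬ Cut`). If `z, z' ∈ X`: `germ_proj` twice and `avoid_proj`:
`28 + 58 + 28 = 114`. If `z = F` is an apex: let `x ∈ ax F` be the second vertex of `w` (or, if `z' = F` too, any point of `ax F`) and, for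
`y ∈ Germ E F`, let `x2` be the last vertex before `F` of a geodesic from `y` to `F` (`x2 = y` if `d̂(y,F) = 1`), so that `y ∈ Germ E x2`;
`x, x2 ∈ ax F` have projections within `ρ` of each other (`pr_axis`). Similarly for `z'`. Total `≤ 114ρ + 2ρ`. -/
theorem InP.large_angle (P : S.InP c) (E : S.Killed c.K) {z z' : S.Z c} (hz : z ≠ Sum.inr E)
    (hz' : z' ≠ Sum.inr E) (hcut : ¬ (S.C c).Cut (Sum.inr E) z z') {y y' : S.X}
    (hy : Sum.inl y ∈ (S.C c).Germ (Sum.inr E) z) (hy' : Sum.inl y' ∈ (S.C c).Germ (Sum.inr E) z') :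
    S.M.d y y' ≤ 120 * c.ρ := by
  -- a geodesic avoiding `E`
  obtain ⟨w, hw, hav⟩ : ∃ w : ℕ → S.Z c, (S.C c).IsGeo w ((S.C c).d z z') z z' ∧
      ∀ i ≤ (S.C c).d z z', w i ≠ Sum.inr E := by
    by_cases hb : (S.C c).Btw z (Sum.inr E) z'
    · have : ∃ u, (S.C c).Btw z u z' ∧ (S.C c).d z u = (S.C c).d z (Sum.inr E) ∧ u ≠ Sum.inr E := by
        by_contra hno
        push Not at hno
        exact hcut ⟨hb, hno⟩
      obtain ⟨u, hu1, hu2, hu3⟩ := this
      obtain ⟨w, hw, hwu⟩ := GMet.exists_geo_through hu1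
      refine ⟨w, hw, ?_⟩
      intro i hi hE
      have h1 := hw.2.2 0 i (by omega) hi
      rw [hw.1, hE] at h1
      have h2 : (S.C c).d z u = i := by
        rw [hu2, h1]
        omega
      rw [h2] at hwu
      exact hu3 (by rw [← hwu, hE])
    · obtain ⟨w, hw⟩ := GMet.exists_geo (S.C c) z z'
      refine ⟨w, hw, ?_⟩
      intro i hi hE
      apply hb
      have h1 := hw.2.2 0 i (by omega) hi
      have h2 := hw.2.2 i _ hi le_rfl
      rw [hw.1, hE] at h1
      rw [hw.2.1, hE] at h2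
      show (S.C c).d z (Sum.inr E) + (S.C c).d (Sum.inr E) z' = (S.C c).d z z'
      omega
  set m := (S.C c).d z z' with hm
  obtain ⟨hw0, hwm, hwd⟩ := hw
  -- the degenerate case
  by_cases hm0 : m = 0
  · have hzz : z = z' := (S.C c).eq_of _ _ (hm ▸ hm0)
    subst hzz
    obtain ⟨x1, hx1⟩ : ∃ x1, EndRel S c z x1 := by
      rcases z with x | F
      · exact ⟨x, Or.inl rfl⟩
      · obtain ⟨x, hx⟩ := ax_nonempty c.q F
        exact ⟨x, Or.inr ⟨F, rfl, hx⟩⟩
    obtain ⟨q, hq⟩ := P.pr_exists E x1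
    have h1 := P.germ_end E hz hy hx1 hq
    have h2 := P.germ_end E hz hy' hx1 hq
    have h3 := S.M.tri y q y'
    rw [S.M.symm q y'] at h3
    omega
  -- the first point of `X`
  have hadj : ∀ i, i < m → coneAdj (w i) (w (i + 1)) := by
    intro i hi
    rw [← C_adj, hwd i (i + 1) (by omega) (by omega)]
    omega
  obtain ⟨i0, x1, hi0, hwi0, hE1⟩ : ∃ (i0 : ℕ) (x1 : S.X), (i0 = 0 ∧ z = Sum.inl x1 ∨
      i0 = 1 ∧ ∃ F, z = Sum.inr F) ∧ w i0 = Sum.inl x1 ∧ EndRel S c z x1 := by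
    rcases hzc : z with x | F
    · exact ⟨0, x, Or.inl ⟨rfl, rfl⟩, by rw [hw0, hzc], Or.inl rfl⟩
    · have h1 := hadj 0 (by omega)
      rw [hw0, hzc] at h1
      rcases hw1 : w (0 + 1) with x1 | G
      · rw [hw1] at h1
        exact ⟨1, x1, Or.inr ⟨rfl, F, rfl⟩, hw1, Or.inr ⟨F, rfl, h1⟩⟩
      · rw [hw1] at h1
        exact absurd h1 (by simp [coneAdj])
  obtain ⟨j0, x1', hj0, hwj0, hE1'⟩ : ∃ (j0 : ℕ) (x1' : S.X), (j0 = m ∧ z' = Sum.inl x1' ∨
      j0 + 1 = m ∧ ∃ F, z' = Sum.inr F) ∧ w j0 = Sum.inl x1' ∧ EndRel S c z' x1' := by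
    rcases hzc : z' with x | F
    · exact ⟨m, x, Or.inl ⟨rfl, rfl⟩, by rw [hwm, hzc], Or.inl rfl⟩
    · have h1 := hadj (m - 1) (by omega)
      have h2 : m - 1 + 1 = m := by omega
      rw [h2, hwm, hzc] at h1
      rcases hw1 : w (m - 1) with x1 | G
      · rw [hw1] at h1
        exact ⟨m - 1, x1, Or.inr ⟨h2, F, rfl⟩, hw1, Or.inr ⟨F, rfl, h1⟩⟩
      · rw [hw1] at h1
        exact absurd h1 (by simp [coneAdj])
  have hij : i0 ≤ j0 := by
    rcases hi0 with ⟨rfl, -⟩ | ⟨rfl, F, hF⟩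
    · omega
    · rcases hj0 with ⟨rfl, -⟩ | ⟨hj, F', hF'⟩
      · omega
      · -- `m = 1` is impossible
        by_contra hlt
        have hm1 : m = 1 := by omega
        have h1 := hadj 0 (by omega)
        rw [hw0] at h1
        have h2 : w (0 + 1) = z' := by
          rw [show (0 + 1 : ℕ) = m by omega, hwm]
        rw [h2, hF, hF'] at h1
        simp [coneAdj] at h1
  have hjm : j0 ≤ m := by
    rcases hj0 with ⟨h, -⟩ | ⟨h, -⟩ <;> omega
  have hgeo : (S.C c).IsGeo (fun i => w (i0 + i)) (j0 - i0) (Sum.inl x1) (Sum.inl x1') := by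
    refine ⟨by simpa using hwi0, ?_, ?_⟩
    · show w (i0 + (j0 - i0)) = _
      rw [show i0 + (j0 - i0) = j0 by omega, hwj0]
    · intro i j hij' hjj
      show (S.C c).d (w (i0 + i)) (w (i0 + j)) = j - i
      rw [hwd (i0 + i) (i0 + j) (by omega) (by omega)]
      omega
  obtain ⟨q, hq⟩ := P.pr_exists E x1
  obtain ⟨q', hq'⟩ := P.pr_exists E x1'
  have h0 := P.avoid_proj E hgeo (fun i hi => hav (i0 + i) (by omega)) hq hq'
  have h1 := P.germ_end E hz hy hE1 hq
  have h2 := P.germ_end E hz' hy' hE1' hq'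
  have h3 := S.M.tri y q y'
  have h4 := S.M.tri q q' y'
  rw [S.M.symm q' y'] at h4
  omega

end Sys
end BG
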