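import Pool.Agent.Helper76.BG.Base

/-!
# BG53: the limit group
-/

set_option autoImplicit false

namespace BG

/-- a stage of the construction: a system in the class `P`, a surjection of `F2` onto its group -/
structure Stage (c : Cst) where
  S : Sys
  P : S.InP c
  f : F2 →* S.G
  surj : Function.Surjective f
  ta : IsOfFinOrder (f ga)
  a1 : (f ga) ^ c.n ≠ 1
  ca : ∀ y : S.G, y * f ga = f ga * y → y ∈ Subgroup.zpowers (f ga)
  hom : ∀ (A : Type) [CommGroup A] (h : F2 →* A), (∀ a : A, a ^ 3 = 1) → ∀ g : F2, f g = 1 → h g = 1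

/-- one stage follows the other one -/
def Stage.Next {c : Cst} (s s' : Stage c) : Prop :=
  ∃ g : s.S.G →* s'.S.G, StepProp c s.S s'.S g ∧ s'.f = g.comp s.f

theorem exists_first (c : Cst) : Nonempty (Stage c) := by
  obtain ⟨S, f, hP, hst, hta, ha1, hca⟩ := first_step c
  exact ⟨{ S := S, P := hP, f := f, surj := hst.surj, ta := hta, a1 := ha1, ca := hca,
           hom := fun A _ h h3 g hg => hst.hom A h h3 g hg }⟩

theorem Stage.exists_next {c : Cst} (s : Stage c) : ∃ s' : Stage c, s.Next s' := by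
  obtain ⟨S', g, hP', hst⟩ := exists_step c s.S s.P
  have hne : s.f ga ≠ 1 := by
    intro h0
    apply s.a1
    rw [h0, one_pow]
  refine ⟨{ S := S', P := hP', f := g.comp s.f, surj := hst.surj.comp s.surj,
            ta := ?_, a1 := ?_, ca := ?_, hom := ?_ }, g, hst, rfl⟩
  · exact g.isOfFinOrder s.ta
  · intro h0
    apply s.a1
    apply hst.inj _ s.ta.pow
    rw [map_pow]
    exact h0
  · intro y hy
    obtain ⟨y0, hy0, hc⟩ := hst.cent (s.f ga) s.ta hne y hy
    obtain ⟨k, hk⟩ := s.ca y0 hc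
    refine ⟨k, ?_⟩
    show (g (s.f ga)) ^ k = y
    rw [← hy0, ← hk]
    exact (map_zpow g _ k).symm
  · intro A _ h h3 x hx
    have hker : s.f.ker ≤ h.ker := fun u hu => s.hom A h h3 u hu
    have key : ∀ u, (s.f.liftOfSurjective s.surj ⟨h, hker⟩) (s.f u) = h u := fun u =>
      MonoidHom.liftOfRightInverse_comp_apply _ _ _ _ _
    rw [← key]
    exact hst.hom A _ h3 _ hx

/-- the sequence of stages -/
theorem exists_seq (c : Cst) : ∃ s : ℕ → Stage c, ∀ i, (s i).Next (s (i + 1)) := by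
  obtain ⟨s0⟩ := exists_first c
  choose nxt hn using @Stage.exists_next c
  exact ⟨fun i => Nat.rec s0 (fun _ s => nxt s) i, fun i => hn _⟩

/-- the kernel of the limit -/
def limN {c : Cst} (s : ℕ → Stage c) : Subgroup F2 := ⨆ i, (s i).f.ker

section

variable {c : Cst} {s : ℕ → Stage c} (hs : ∀ i, (s i).Next (s (i + 1)))

include hs

theorem ker_mono : Monotone fun i => (s i).f.ker := by
  apply monotone_nat_of_le_succ
  intro i x hx
  obtain ⟨g, _, e⟩ := hs i
  have hx' : (s i).f x = 1 := hx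
  show (s (i + 1)).f x = 1
  rw [e]
  show g ((s i).f x) = 1
  rw [hx', map_one]

theorem mem_limN {g : F2} : g ∈ limN s ↔ ∃ i, (s i).f g = 1 :=
  Subgroup.mem_iSup_of_directed (ker_mono hs).directed_le

theorem limN_normal : (limN s).Normal := by
  constructor
  intro n hn g
  obtain ⟨i, hi⟩ := (mem_limN hs).1 hn
  refine (mem_limN hs).2 ⟨i, ?_⟩
  rw [map_mul, map_mul, hi, mul_one, map_inv, mul_inv_cancel]

private theorem Lim_trans {i j : ℕ} (hij : i ≤ j) : ∃ g : (s i).S.G →* (s j).S.G,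
    (s j).f = g.comp (s i).f ∧ (∀ x, IsOfFinOrder x → g x = 1 → x = 1) ∧
    (∀ x, IsOfFinOrder x → x ≠ 1 → ∀ y', y' * g x = g x * y' → ∃ y, g y = y' ∧ y * x = x * y) := by
  induction j, hij using Nat.le_induction with
  | base =>
    exact ⟨MonoidHom.id _, rfl, fun x _ h => h, fun x _ _ y' h => ⟨y', rfl, h⟩⟩
  | succ j hij ih =>
    obtain ⟨g, e, hinj, hcent⟩ := ih
    obtain ⟨g', hst, e'⟩ := hs j
    refine ⟨g'.comp g, ?_, ?_, ?_⟩
    · rw [e', e]
      rfl
    · intro x hx h1
      exact hinj x hx (hst.inj (g x) (g.isOfFinOrder hx) h1)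
    · intro x hx hx1 y' hy'
      have h2 : g x ≠ 1 := fun h0 => hx1 (hinj x hx h0)
      obtain ⟨y1, hy1, hc1⟩ := hst.cent (g x) (g.isOfFinOrder hx) h2 y' hy'
      obtain ⟨y2, hy2, hc2⟩ := hcent x hx hx1 y1 hc1
      exact ⟨y2, by rw [← hy1, ← hy2]; rfl, hc2⟩

private theorem Lim_eq {i j : ℕ} (hij : i ≤ j) {x y : F2} (h : (s i).f x = (s i).f y) :
    (s j).f x = (s j).f y := by
  obtain ⟨g, e, _, _⟩ := Lim_trans hs hij
  rw [e]
  show g ((s i).f x) = g ((s i).f y)
  rw [h]

/-- every element becomes torsion. The displacement `D_i` of the base point by `f_i g` satisfies `D_{i+1} ≤ ⌈D_i / ρ⌉`, so it is `≤ 1` from some `i` on; then `kill`. -/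
theorem ev_torsion (g : F2) : ∃ i, ∀ j, i ≤ j → IsOfFinOrder ((s j).f g) := by
  set D : ℕ → ℕ := fun i => (s i).S.M.d (s i).S.pt ((s i).f g • (s i).S.pt) with hD
  have hstep : ∀ i k, D i ≤ k * c.ρ → D (i + 1) ≤ k := by
    intro i k hk
    obtain ⟨u, hst, e⟩ := hs i
    have h1 := hst.dist ((s i).f g) k hk
    show (s (i + 1)).S.M.d (s (i + 1)).S.pt ((s (i + 1)).f g • (s (i + 1)).S.pt) ≤ k
    rw [e]
    exact h1
  have hρ : 2 ≤ c.ρ := by
    have := c.ρ_ge
    omega
  have hmain : ∀ i, D i ≤ 1 ∨ D i + i ≤ D 0 := by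
    intro i
    induction i with
    | zero => right; simp
    | succ i ih =>
      by_cases h1 : D i ≤ 1
      · left
        apply hstep
        omega
      · rcases ih with h2 | h2
        · exact absurd h2 h1
        · right
          have h3 : D i ≤ (D i - 1) * c.ρ := by
            have h4 : (D i - 1) * 2 ≤ (D i - 1) * c.ρ := Nat.mul_le_mul_left _ hρ
            omega
          have h5 := hstep i (D i - 1) h3
          omega
  have h1 : D (D 0) ≤ 1 := by
    rcases hmain (D 0) with h | h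
    · exact h
    · omega
  refine ⟨D 0 + 1, fun j hj => ?_⟩
  obtain ⟨u, hst, e⟩ := hs (D 0)
  have h2 : IsOfFinOrder ((s (D 0 + 1)).f g) := by
    rw [e]
    apply hst.kill
    have h3 : (s (D 0)).S.M.d (s (D 0)).S.pt ((s (D 0)).f g • (s (D 0)).S.pt) ≤ 1 := h1
    have := c.K_ge
    omega
  obtain ⟨v, ev, _, _⟩ := Lim_trans hs hj
  rw [ev]
  exact v.isOfFinOrder h2

/-- torsion elements stay nontrivial -/
theorem tors_inj {i j : ℕ} (hij : i ≤ j) {g : F2} (hg : IsOfFinOrder ((s i).f g))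
    (h1 : (s j).f g = 1) : (s i).f g = 1 := by
  obtain ⟨v, ev, hinj, _⟩ := Lim_trans hs hij
  rw [ev] at h1
  exact hinj _ hg h1

/-- commuting with a torsion element: lifts to the stage `i` -/
theorem cent_stage {i j : ℕ} (hij : i ≤ j) {x y : F2} (hx : IsOfFinOrder ((s i).f x))
    (hx1 : (s i).f x ≠ 1) (h : (s j).f (y * x) = (s j).f (x * y)) :
    ∃ y' : F2, (s j).f y' = (s j).f y ∧ (s i).f (y' * x) = (s i).f (x * y') := by
  obtain ⟨v, ev, _, hcent⟩ := Lim_trans hs hij
  have h2 : (s j).f y * v ((s i).f x) = v ((s i).f x) * (s j).f y := by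
    have e1 : v ((s i).f x) = (s j).f x := by rw [ev]; rfl
    rw [e1, ← map_mul, ← map_mul]
    exact h
  obtain ⟨y0, hy0, hc⟩ := hcent _ hx hx1 _ h2
  obtain ⟨y', hy'⟩ := (s i).surj y0
  refine ⟨y', ?_, ?_⟩
  · rw [← hy0, ← hy']
    conv_lhs => rw [ev]
    rfl
  · rw [map_mul, map_mul, hy']
    exact hc

/-- the alternative for all pairs. At a stage where both `x` and `v(x,y)` are torsion use axiom `V` -/
theorem lim_V (x y : F2) : x * y * (y * x)⁻¹ ∈ limN s ∨ (vw c.m x y) ^ c.n ∈ limN s := by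
  obtain ⟨i, hi⟩ := ev_torsion hs x
  obtain ⟨j, hj⟩ := ev_torsion hs (vw c.m x y)
  have h1 := hi (max i j) (le_max_left _ _)
  have h2 := hj (max i j) (le_max_right _ _)
  have e : (s (max i j)).f (vw c.m x y) =
      vw c.m ((s (max i j)).f x) ((s (max i j)).f y) := by
    simp only [vw, map_mul, map_pow, map_inv]
  rcases (s (max i j)).P.V _ ((s (max i j)).f y) h1 with h | h | h
  · left
    refine (mem_limN hs).2 ⟨max i j, ?_⟩
    rw [map_mul, map_inv, map_mul, map_mul, h, mul_inv_cancel]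
  · right
    refine (mem_limN hs).2 ⟨max i j, ?_⟩
    rw [map_pow, e]
    exact h
  · rw [e] at h2
    exact absurd h2 h

theorem lim_a : ga ^ c.n ∉ limN s := by
  intro h
  obtain ⟨i, hi⟩ := (mem_limN hs).1 h
  apply (s i).a1
  rw [← map_pow]
  exact hi

end

private theorem Lim_cube : ∀ a : Multiplicative (ZMod 3), a ^ 3 = 1 := by
  decide

private theorem Lim_ne : (Multiplicative.ofAdd (1 : ZMod 3)) ≠ 1 := by
  decide

/-- THE LIMIT GROUP, in the form needed. Centralizers: `x ∉ limN`: `x` is torsion at a stage `i`, `f_i x ≠ 1`; if `y` commutes with `x` in the limit, it does so at a stage `j ≥ i`, and then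
(`cent_stage`) `y` is equal in the limit to an element whose `f_i`-image is in the finite centralizer of `f_i x`. Infinite: suppose the limit `G` is finite. All elements are torsion with
3-power order (`O`), so `G` is a 3-group, nontrivial, so it has a central element `z ≠ 1`; the centralizer of `z` is commutative (`C2` and `cent_stage`), so `G` is commutative, so `b` commutes with `a` in the limit, so
(`cent_stage`, `ca`) `b = a^j` in the limit. The homomorphism `F2 → (ZMod 3)²` with `a ↦ (1,0)`, `b ↦ (0,1)` factors (`hom`): contradiction. -/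
theorem exists_limit (c : Cst) : ∃ (G : Type) (_ : Group G) (a : G), Infinite G ∧ a ^ c.n ≠ 1 ∧
    (∀ x : G, x ≠ 1 → {y : G | y * x = x * y}.Finite) ∧
    ∀ x y : G, x * y = y * x ∨ (vw c.m x y) ^ c.n = 1 := by
  obtain ⟨s, hs⟩ := exists_seq c
  haveI hN : (limN s).Normal := limN_normal hs
  set π : F2 →* F2 ⧸ limN s := QuotientGroup.mk' (limN s) with hπ
  have hsurj : Function.Surjective π := QuotientGroup.mk'_surjective _
  have hone : ∀ x : F2, π x = 1 ↔ x ∈ limN s := fun x => QuotientGroup.eq_one_iff x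
  have heq : ∀ {x y : F2}, π x = π y → ∃ j, ∀ k, j ≤ k → (s k).f x = (s k).f y := by
    intro x y hxy
    have h1 : x * y⁻¹ ∈ limN s := by
      rw [← hone, map_mul, map_inv, hxy, mul_inv_cancel]
    obtain ⟨j, hj⟩ := (mem_limN hs).1 h1
    refine ⟨j, fun k hk => ?_⟩
    apply Lim_eq hs hk
    rw [map_mul, map_inv] at hj
    exact mul_inv_eq_one.1 hj
  have heq' : ∀ {x y : F2} (k : ℕ), (s k).f x = (s k).f y → π x = π y := by
    intro x y k hk
    have h1 : x * y⁻¹ ∈ limN s := by
      refine (mem_limN hs).2 ⟨k, ?_⟩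
      rw [map_mul, map_inv, hk, mul_inv_cancel]
    rw [← hone, map_mul, map_inv] at h1
    exact mul_inv_eq_one.1 h1
  -- lifting of commuting elements
  have hlift : ∀ {x y : F2} {i : ℕ}, IsOfFinOrder ((s i).f x) → (s i).f x ≠ 1 →
      π y * π x = π x * π y → ∃ y', π y' = π y ∧ (s i).f (y' * x) = (s i).f (x * y') := by
    intro x y i h1 h2 h3
    rw [← map_mul, ← map_mul] at h3
    obtain ⟨j, hj⟩ := heq h3
    obtain ⟨y', hy1, hy2⟩ := cent_stage hs (le_max_left i j) h1 h2 (hj _ (le_max_right i j))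
    exact ⟨y', heq' _ hy1, hy2⟩
  have hne : ∀ {x : F2} (i : ℕ), π x ≠ 1 → (s i).f x ≠ 1 := by
    intro x i h1 h2
    apply h1
    rw [hone]
    exact (mem_limN hs).2 ⟨i, h2⟩
  have ha : (π ga) ^ c.n ≠ 1 := by
    rw [← map_pow]
    intro h0
    exact lim_a hs ((hone _).1 h0)
  have ha1 : π ga ≠ 1 := by
    intro h0
    apply ha
    rw [h0, one_pow]
  refine ⟨F2 ⧸ limN s, inferInstance, π ga, ?_, ha, ?_, ?_⟩
  · by_contra hfin
    rw [not_infinite_iff_finite] at hfin
    have hp : IsPGroup 3 (F2 ⧸ limN s) := by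
      intro g
      obtain ⟨x, rfl⟩ := hsurj g
      obtain ⟨i, hi⟩ := ev_torsion hs x
      obtain ⟨k, hk⟩ := (s i).P.O _ (hi i le_rfl)
      refine ⟨k, ?_⟩
      rw [← map_pow, hone]
      refine (mem_limN hs).2 ⟨i, ?_⟩
      rw [map_pow]
      exact hk
    haveI : Nontrivial (F2 ⧸ limN s) := ⟨⟨π ga, 1, ha1⟩⟩
    haveI : Fact (Nat.Prime 3) := ⟨Nat.prime_three⟩
    haveI := hp.center_nontrivial
    obtain ⟨⟨z, hz⟩, hz1⟩ := exists_ne (1 : Subgroup.center (F2 ⧸ limN s))
    obtain ⟨z0, rfl⟩ := hsurj z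
    have hz2 : π z0 ≠ 1 := by
      intro h0
      apply hz1
      exact Subtype.ext h0
    have hzc : ∀ g, g * π z0 = π z0 * g := fun g => Subgroup.mem_center_iff.1 hz g
    obtain ⟨i, hi⟩ := ev_torsion hs z0
    have hcomm : ∀ x y : F2, π x * π y = π y * π x := by
      intro x y
      obtain ⟨x', hx1, hx2⟩ := hlift (hi i le_rfl) (hne i hz2) (hzc (π x))
      obtain ⟨y', hy1, hy2⟩ := hlift (hi i le_rfl) (hne i hz2) (hzc (π y))
      rw [← hx1, ← hy1, ← map_mul, ← map_mul]
      apply heq' i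
      rw [map_mul, map_mul]
      rw [map_mul, map_mul] at hx2 hy2
      exact (s i).P.C2 _ (hi i le_rfl) (hne i hz2) _ _ hx2 hy2
    obtain ⟨y', hy1, hy2⟩ := hlift (s 0).ta (hne 0 ha1) (hcomm gb ga)
    rw [map_mul, map_mul] at hy2
    obtain ⟨k, hk⟩ := (s 0).ca _ hy2
    have h3 : π (gb * (ga ^ k)⁻¹) = 1 := by
      have h4 : π y' = π (ga ^ k) := by
        apply heq' 0
        rw [map_zpow]
        exact hk.symm
      rw [map_mul, map_inv, ← h4, hy1, mul_inv_cancel]
    rw [hone] at h3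
    obtain ⟨j, hj⟩ := (mem_limN hs).1 h3
    set h : F2 →* Multiplicative (ZMod 3) :=
      FreeGroup.lift (fun i => if i = 0 then 1 else Multiplicative.ofAdd 1) with hh
    have h5 := (s j).hom (Multiplicative (ZMod 3)) h Lim_cube _ hj
    have h6 : h ga = 1 := by
      rw [hh]
      show FreeGroup.lift _ (FreeGroup.of 0) = 1
      rw [FreeGroup.lift_apply_of]
      rfl
    have h7 : h gb = Multiplicative.ofAdd 1 := by
      rw [hh]
      show FreeGroup.lift _ (FreeGroup.of 1) = _
      rw [FreeGroup.lift_apply_of]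
      rfl
    rw [map_mul, map_inv, map_zpow, h6, h7, one_zpow, inv_one, mul_one] at h5
    exact Lim_ne h5
  · intro x hx
    obtain ⟨x0, rfl⟩ := hsurj x
    obtain ⟨i, hi⟩ := ev_torsion hs x0
    have hfin := (s i).P.C1 _ (hi i le_rfl) (hne i hx)
    choose pre hpre using (s i).surj
    refine (hfin.image (fun z => π (pre z))).subset ?_
    intro y hy
    obtain ⟨y0, rfl⟩ := hsurj y
    obtain ⟨y', hy1, hy2⟩ := hlift (hi i le_rfl) (hne i hx) hy
    rw [map_mul, map_mul] at hy2
    refine ⟨(s i).f y', hy2, ?_⟩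
    show π (pre ((s i).f y')) = π y0
    rw [← hy1]
    exact heq' i (hpre _)
  · intro x y
    obtain ⟨x0, rfl⟩ := hsurj x
    obtain ⟨y0, rfl⟩ := hsurj y
    rcases lim_V hs x0 y0 with h | h
    · left
      rw [← hone, map_mul, map_inv] at h
      have h1 := mul_inv_eq_one.1 h
      rw [map_mul, map_mul] at h1
      exact h1
    · right
      rw [← hone, map_pow] at h
      rw [← h]
      simp only [vw, map_mul, map_pow, map_inv]

end BG
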