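import Pool.Agent.Helper76.BG.Defs

/-!
# BG02: local to global

`x 0, x 1, …` a sequence of points. `a` is twice the bound on the Gromov products
`(x_{i-1}|x_{i+1})_{x_i}`, i.e. `d(x_{i-1},x_i) + d(x_i,x_{i+1}) ≤ d(x_{i-1},x_{i+1}) + a`.
If all steps are longer than `a + 3δ` the sequence is a quasi-geodesic, with explicit constants.
-/

set_option autoImplicit false

namespace BG
namespace GMet

variable {X : Type} {M : GMet X} {δ a k : ℕ} {x : ℕ → X}

/-- Proof by induction on `j`: four points `(x_j, x_{j+2}; x_{j+1}, x_0)` :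
`d(x_j,x_{j+2}) + d(x_{j+1},x_0) ≤ max (d(x_j,x_{j+1}) + d(x_{j+2},x_0), d(x_j,x_0) + d(x_{j+2},x_{j+1})) + 2δ`.
The second alternative contradicts the induction hypothesis and `hlen`. -/
theorem locglob_step (h : M.Hyp δ)
    (hprod : ∀ i, i + 2 ≤ k → M.d (x i) (x (i+1)) + M.d (x (i+1)) (x (i+2)) ≤ M.d (x i) (x (i+2)) + a)
    (hlen : ∀ i, i + 1 ≤ k → a + 3 * δ < M.d (x i) (x (i+1)))
    {i j : ℕ} (hij : i ≤ j) (hj : j + 1 ≤ k) :
    M.d (x i) (x j) + M.d (x j) (x (j+1)) ≤ M.d (x i) (x (j+1)) + a + 2 * δ := by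
  induction j, hij using Nat.le_induction with
  | base =>
    rw [M.self]
    omega
  | succ j hij ih =>
    have h1 := ih (by omega)
    have h2 := hprod j (by omega)
    have h3 := hlen j (by omega)
    have h4 := h (x j) (x (j+2)) (x (j+1)) (x i)
    have e1 := M.symm (x (j+1)) (x i)
    have e2 := M.symm (x (j+2)) (x i)
    have e3 := M.symm (x j) (x i)
    have e4 := M.symm (x (j+2)) (x (j+1))
    have e5 : j + 1 + 1 = j + 2 := rfl
    rw [e5]
    rcases h4 with h4 | h4 <;> omega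

private theorem locglob_step_rev (h : M.Hyp δ)
    (hprod : ∀ i, i + 2 ≤ k → M.d (x i) (x (i+1)) + M.d (x (i+1)) (x (i+2)) ≤ M.d (x i) (x (i+2)) + a)
    (hlen : ∀ i, i + 1 ≤ k → a + 3 * δ < M.d (x i) (x (i+1)))
    {j l : ℕ} (hjl : j + 1 ≤ l) (hl : l ≤ k) :
    M.d (x l) (x (j+1)) + M.d (x (j+1)) (x j) ≤ M.d (x l) (x j) + a + 2 * δ := by
  have h1 := locglob_step (M := M) (δ := δ) (a := a) (k := k) (x := fun i => x (k - i)) h
    (by
      intro i hi
      obtain ⟨m, rfl⟩ : ∃ m, k = i + 2 + m := ⟨k - (i + 2), by omega⟩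
      have e1 : i + 2 + m - i = m + 2 := by omega
      have e2 : i + 2 + m - (i + 1) = m + 1 := by omega
      have e3 : i + 2 + m - (i + 2) = m := by omega
      simp only [e1, e2, e3]
      have h2 := hprod m (by omega)
      have g1 := M.symm (x (m+2)) (x (m+1))
      have g2 := M.symm (x (m+1)) (x m)
      have g3 := M.symm (x (m+2)) (x m)
      omega)
    (by
      intro i hi
      obtain ⟨m, rfl⟩ : ∃ m, k = i + 1 + m := ⟨k - (i + 1), by omega⟩
      have e1 : i + 1 + m - i = m + 1 := by omega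
      have e2 : i + 1 + m - (i + 1) = m := by omega
      simp only [e1, e2]
      have h2 := hlen m (by omega)
      rwa [M.symm (x (m+1)) (x m)])
    (i := k - l) (j := k - (j + 1)) (by omega) (by omega)
  have e1 : k - (k - l) = l := by omega
  have e2 : k - (k - (j + 1)) = j + 1 := by omega
  have e3 : k - (k - (j + 1) + 1) = j := by omega
  simp only [e1, e2, e3] at h1
  exact h1

/-- general triples: four points `(x_i, x_{j+1}; x_j, x_l)` and `locglob_step` for the sequence and the reversed one -/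
theorem locglob_triple (h : M.Hyp δ)
    (hprod : ∀ i, i + 2 ≤ k → M.d (x i) (x (i+1)) + M.d (x (i+1)) (x (i+2)) ≤ M.d (x i) (x (i+2)) + a)
    (hlen : ∀ i, i + 1 ≤ k → a + 3 * δ < M.d (x i) (x (i+1)))
    {i j l : ℕ} (hij : i ≤ j) (hjl : j ≤ l) (hl : l ≤ k) :
    M.d (x i) (x j) + M.d (x j) (x l) ≤ M.d (x i) (x l) + a + 4 * δ := by
  rcases hjl.eq_or_lt with rfl | hlt
  · rw [M.self (x j)]
    omega
  · have h1 := locglob_step h hprod hlen hij (by omega : j + 1 ≤ k)
    have h2 := locglob_step_rev h hprod hlen (by omega : j + 1 ≤ l) hl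
    have h3 := hlen j (by omega)
    have h4 := h (x i) (x (j+1)) (x j) (x l)
    have e1 := M.symm (x l) (x (j+1))
    have e2 := M.symm (x (j+1)) (x j)
    have e3 := M.symm (x l) (x j)
    rcases h4 with h4 | h4 <;> omega

/-- linear growth: if all steps have length at least `ℓ` (`ℓ > a + 3δ`) -/
theorem locglob_growth (h : M.Hyp δ) {ℓ : ℕ}
    (hprod : ∀ i, i + 2 ≤ k → M.d (x i) (x (i+1)) + M.d (x (i+1)) (x (i+2)) ≤ M.d (x i) (x (i+2)) + a)
    (hlen : ∀ i, i + 1 ≤ k → ℓ ≤ M.d (x i) (x (i+1))) (hℓ : a + 3 * δ < ℓ)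
    {i j : ℕ} (hij : i ≤ j) (hj : j ≤ k) :
    (j - i) * ℓ ≤ M.d (x i) (x j) + (j - i) * (a + 2 * δ) := by
  induction j, hij using Nat.le_induction with
  | base =>
    rw [Nat.sub_self, zero_mul]
    exact Nat.zero_le _
  | succ j hij ih =>
    have h1 := ih (by omega)
    have h2 := locglob_step h hprod (fun i hi => lt_of_lt_of_le hℓ (hlen i hi)) hij hj
    have h3 := hlen j hj
    have e : j + 1 - i = (j - i) + 1 := by omega
    rw [e, add_mul, add_mul, one_mul, one_mul]
    omega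

end GMet
end BG
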