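import Pool.Agent.Helper76.BG.KilledGeo

/-!
# BG33: pairs which are shortened by a rotation; transfer to other pairs
-/

set_option autoImplicit false

namespace BG
namespace Sys

variable {S : Sys} {c : Cst} {E : S.Killed c.K}

/-- `h ∈ E` shortens `(P, Q)` by `s0`, and moves the projection `q'` of `Q` by at least `Θ0 ≥ s0 + 11000`. Proof: `h q'` is a projection
of `h Q`; `pr_two` for `(P, hQ)`: either `d q (h q') ≤ 11000`, or `d P q + d q (hq') + d q' Q ≤ d P (hQ) + 21000`. -/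
theorem InP.nonred (P0 : S.InP c) {h : S.G} (hh : h ∈ E.1) {P Q q q' : S.X} {s0 Θ0 : ℕ}
    (hq : S.M.IsProj (ax c.q E) P q) (hq' : S.M.IsProj (ax c.q E) Q q')
    (hΘ : Θ0 ≤ S.M.d q' (h • q')) (hs : s0 + 11000 ≤ Θ0)
    (hred : S.M.d P (h • Q) + s0 ≤ S.M.d P Q) :
    S.M.d q (h • q') + s0 ≤ S.M.d q q' + 21000 ∧ Θ0 + s0 ≤ 2 * S.M.d q q' + 21000 := by
  have hp : S.M.IsProj (ax c.q E) (h • Q) (h • q') := pr_smul_self hq' hh
  have e1 := S.iso h q' Q
  have t1 := S.M.tri P q Q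
  have t2 := S.M.tri q q' Q
  have t3 := S.M.tri q' q (h • q')
  have t4 := S.M.symm q' q
  have key : S.M.d q (h • q') + s0 ≤ S.M.d q q' + 21000 := by
    rcases P0.pr_two hq hp with h1 | h1
    · omega
    · omega
  exact ⟨key, by omega⟩

/-- transfer to a pair `(P1,Q1)` whose projections are `C`-near those of `(P,Q)` -/
theorem InP.transfer (P0 : S.InP c) {h : S.G} (hh : h ∈ E.1) {P1 Q1 q q' q1 q1' : S.X} {s0 C : ℕ}
    (h1 : S.M.IsProj (ax c.q E) P1 q1) (h1' : S.M.IsProj (ax c.q E) Q1 q1')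
    (hC : S.M.d q q1 ≤ C) (hC' : S.M.d q' q1' ≤ C) (hbig : 2 * C + 11000 < S.M.d q q')
    (hred : S.M.d q (h • q') + s0 ≤ S.M.d q q' + 21000) :
    S.M.d P1 (h • Q1) + s0 ≤ S.M.d P1 Q1 + 4 * C + 42000 := by
  have e1 := S.iso h q1' Q1
  have e2 := S.iso h q' q1'
  have t1 := S.M.tri P1 q1 (h • Q1)
  have t2 := S.M.tri q1 q (h • Q1)
  have t3 := S.M.tri q (h • q') (h • Q1)
  have t4 := S.M.tri (h • q') (h • q1') (h • Q1)
  have t5 := S.M.symm q1 q
  have t6 := S.M.tri q q1 q'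
  have t7 := S.M.tri q1 q1' q'
  have t8 := S.M.symm q1' q'
  rcases P0.pr_two h1 h1' with h2 | h2
  · omega
  · omega

end Sys
end BG
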