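import Pool.Agent.Helper76.BG.KilledGeo

/-!
# BG34: an orbit quasi-geodesic of an element outside the killed subgroups has bounded overlaps with the quasi-axes
-/

set_option autoImplicit false

namespace BG
namespace Sys

variable {S : Sys} {c : Cst}

/-- Proof. `D = d p (v p)`, `τ = a + 276`, `p_i = v^i p` (triples have slack `τ`, `orbit_triple`). Suppose `d r r' > D + 8K`.
`x = p_{-M}`, `y = p_{k+M}`, `M` large (so that everything is deep, `orbit_growth`). `pr_two`: `d p r + d r r' + d r' p_k ≤ d p p_k + 21000`. So `r, r'` have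
slack `ν = 2τ + 21000` on `(x,y)` and `d x r' ≥ d x r + d r r' - ν`. `v` moves `x, y` by `D`, its shift `d x (v y) - d x y` is in
`[D-τ, D]`. `v r`, `v r'` have slack `ν + 276`, positions `d x (v r) ∈ [d x r + D - τ - 138, d x r + D + 138]`, the same for `r'`. So
`pos r ≤ pos (v r) ≤ pos r' ≤ pos (v r')`. `near_between`: `v r` is near `ax E` and `r'` is near `ax (v E)`, constant
`2 (ν + 276) + 5414`. `overlap` for `u = v r`, `u' = r'`, `E`, `v E` gives `v E = E`, so `v ∈ E` (`killed_stab`): contradiction. -/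
theorem InP.ovBound (P : S.InP c) {v : S.G} {p : S.X} {a : ℕ} (ha : a ≤ 2 * c.b + 1500)
    (h2 : 2 * S.M.d p (v • p) ≤ S.M.d p (v • v • p) + a) (hD : a + 1380 ≤ S.M.d p (v • p))
    (hv : ∀ E : S.Killed c.K, v ∉ E.1) (E : S.Killed c.K) (k : ℕ) {r r' : S.X}
    (hr : S.M.IsProj (ax c.q E) p r) (hr' : S.M.IsProj (ax c.q E) (v ^ k • p) r') :
    S.M.d r r' ≤ S.M.d p (v • p) + 8 * c.K := by
  by_contra hcon
  rw [not_le] at hcon
  apply hv E
  apply P.killed_stab
  have hK := c.K_ge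
  obtain ⟨D, hDdef⟩ : ∃ D : ℕ, D = S.M.d p (v • p) := ⟨_, rfl⟩
  rw [← hDdef] at hcon h2 hD
  obtain ⟨ν, hν⟩ : ∃ ν : ℕ, ν = 2 * (a + 276) + 21000 := ⟨_, rfl⟩
  have hpr : S.M.d p r + S.M.d r r' + S.M.d r' (v ^ k • p) ≤ S.M.d p (v ^ k • p) + 21000 := by
    rcases P.pr_two hr hr' with h | h
    · omega
    · exact h
  obtain ⟨N, hN⟩ : ∃ N : ℕ, N = D + ν + S.M.d p (v ^ k • p) + S.M.d p r + S.M.d p r' + 10000 :=
    ⟨_, rfl⟩
  have hgrow : N ≤ S.M.d p (v ^ N • p) := by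
    have h1 := orbit_growth S.isoAct P.hyp (hDdef ▸ h2) (by omega) N
    rw [← hDdef] at h1
    have h3 : N * (a + 138 + 1) ≤ N * D := Nat.mul_le_mul_left N (by omega)
    have h4 : N * (a + 138 + 1) = N * (a + 2 * 69) + N := by ring
    omega
  obtain ⟨x, hx⟩ : ∃ x : S.X, x = v ^ (-(N : ℤ)) • p := ⟨_, rfl⟩
  obtain ⟨y, hy⟩ : ∃ y : S.X, y = v ^ ((k : ℤ) + N) • p := ⟨_, rfl⟩
  obtain ⟨pk, hpk⟩ : ∃ pk : S.X, pk = v ^ k • p := ⟨_, rfl⟩
  have hpk' : pk = v ^ (k : ℤ) • p := by rw [hpk, zpow_natCast]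
  rw [← hpk] at hr' hpr hN
  have hxp : N ≤ S.M.d x p := by
    have h1 := S.iso (v ^ (N : ℤ)) x p
    have h3 : v ^ (N : ℤ) • x = p := by
      rw [hx, ← mul_smul, ← zpow_add]
      simp
    rw [h3, zpow_natCast] at h1
    omega
  have hky : N ≤ S.M.d pk y := by
    have h1 := S.iso (v ^ (k : ℤ)) p (v ^ (N : ℤ) • p)
    rw [← hpk', ← mul_smul, ← zpow_add, ← hy, zpow_natCast] at h1
    omega
  have hp0 : v ^ (0 : ℤ) • p = p := by simp
  have T1 := orbit_triple S.isoAct P.hyp (hDdef ▸ h2) (by omega) (i := -(N : ℤ)) (j := 0)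
    (k := (k : ℤ) + N) (by omega) (by omega)
  have T2 := orbit_triple S.isoAct P.hyp (hDdef ▸ h2) (by omega) (i := -(N : ℤ)) (j := k)
    (k := (k : ℤ) + N) (by omega) (by omega)
  have T3 := orbit_triple S.isoAct P.hyp (hDdef ▸ h2) (by omega) (i := 0) (j := k)
    (k := (k : ℤ) + N) (by omega) (by omega)
  have T4 := orbit_triple S.isoAct P.hyp (hDdef ▸ h2) (by omega) (i := -(N : ℤ)) (j := (k : ℤ) + N)
    (k := (k : ℤ) + N + 1) (by omega) (by omega)
  have hvy : v ^ ((k : ℤ) + N + 1) • p = v • y := by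
    rw [hy, ← mul_smul, ← zpow_one_add, add_comm]
  have hvx : v • x = v ^ (-(N : ℤ) + 1) • p := by
    rw [hx, ← mul_smul, ← zpow_one_add, add_comm]
  have hdx : S.M.d x (v • x) = D := by
    rw [hvx, zpow_add_one, mul_smul, hx, S.iso, hDdef]
  have hdy : S.M.d y (v • y) = D := by
    rw [← hvy, zpow_add_one, mul_smul, hy, S.iso, hDdef]
  rw [← hx, ← hy, hp0] at T1
  rw [← hx, ← hy, ← hpk'] at T2
  rw [← hy, hp0, ← hpk'] at T3
  rw [← hx, ← hy, hvy, hdy] at T4
  -- slack of r and r'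
  have s1 : S.M.Slk ν x r y := by
    have t1 := S.M.tri x p r
    have t2 := S.M.tri r r' y
    have t3 := S.M.tri r' pk y
    unfold GMet.Slk
    omega
  have s2 : S.M.Slk ν x r' y := by
    have t1 := S.M.tri x p r
    have t2 := S.M.tri x r r'
    have t3 := S.M.tri r' pk y
    unfold GMet.Slk
    omega
  have hpos : S.M.d x r + S.M.d r r' ≤ S.M.d x r' + ν := by
    have t1 := S.M.tri x p r
    have t3 := S.M.tri r' pk y
    have t2 := S.M.tri x r' y
    omega
  have hxr : D + ν + 10000 ≤ S.M.d x r := by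
    have t1 := S.M.tri x r p
    have t2 := S.M.symm r p
    omega
  have hxr' : D + ν + 10000 ≤ S.M.d x r' := by
    have t1 := S.M.tri x r' p
    have t2 := S.M.symm r' p
    omega
  have hry : D + ν + 10000 ≤ S.M.d r y := by
    have t1 := S.M.tri pk p r
    have t2 := S.M.tri pk r y
    have t3 := S.M.symm pk p
    omega
  have hry' : D + ν + 10000 ≤ S.M.d r' y := by
    have t1 := S.M.tri pk p r'
    have t2 := S.M.tri pk r' y
    have t3 := S.M.symm pk p
    omega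
  obtain ⟨a1, a2⟩ := shift S.isoAct P.hyp hdx.le hdy.le s1 (by omega)
  obtain ⟨b1, b2⟩ := shift S.isoAct P.hyp hdx.le hdy.le s2 (by omega)
  have c1 := slk_smul S.isoAct P.hyp hdx.le hdy.le s1 (by omega) (by omega)
  have c2 := slk_smul S.isoAct P.hyp hdx.le hdy.le s2 (by omega) (by omega)
  have txvy := S.M.tri x y (v • y)
  have s1' : S.M.Slk (ν + 4 * 69) x r y := by
    unfold GMet.Slk at s1 ⊢; omega
  have s2' : S.M.Slk (ν + 4 * 69) x r' y := by
    unfold GMet.Slk at s2 ⊢; omega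
  obtain ⟨z, hz, hz1⟩ := P.near_between (E := E) hr.1 hr'.1 s1' s2' c1 (by omega) (by omega)
  have hvr : v • r ∈ ax c.q (v • E) := (smul_mem_ax c.q v E r).2 hr.1
  have hvr' : v • r' ∈ ax c.q (v • E) := (smul_mem_ax c.q v E r').2 hr'.1
  obtain ⟨z', hz', hz1'⟩ := P.near_between (E := v • E) hvr hvr' c1 c2 s2' (by omega) (by omega)
  have hfar := S.M.tri x (v • r) r'
  have c11 := c1
  unfold GMet.Slk at c11
  obtain ⟨C, hC⟩ : ∃ C : ℕ, C = 2 * (ν + 4 * 69) + 5414 := ⟨_, rfl⟩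
  refine (P.overlap (C := C) (u := v • r) (u' := r')
    hz hr'.1 hvr hz' (by omega) ?_ ?_ (by omega) ?_).symm
  · rw [S.M.self]; omega
  · rw [S.M.self]; omega
  · omega

end Sys
end BG
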