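import Pool.Agent.Helper76.BG.AngBasic

/-!
# BG25: the quotient space
-/

set_option autoImplicit false

namespace BG
namespace RotSys

variable {G Z : Type} [Group G] [MulAction G Z] (R : RotSys G Z)

/-- the quotient space -/
def Zq : Type := MulAction.orbitRel.Quotient R.N Z

/-- the projection -/
def pj (z : Z) : R.Zq := Quotient.mk (MulAction.orbitRel R.N Z) z

theorem pj_surj (v : R.Zq) : ∃ z, R.pj z = v := Quotient.exists_rep v

theorem pj_eq {z w : Z} : R.pj z = R.pj w ↔ ∃ n ∈ R.N, n • z = w := by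
  constructor
  · intro h
    have h' : (MulAction.orbitRel R.N Z).r z w := Quotient.exact h
    obtain ⟨n, hn⟩ := h'
    have hn' : (n : G) • w = z := hn
    exact ⟨(n : G)⁻¹, R.N.inv_mem n.2, by rw [← hn', inv_smul_smul]⟩
  · rintro ⟨n, hn, hnz⟩
    apply Quotient.sound
    show (MulAction.orbitRel R.N Z).r z w
    refine ⟨⟨n⁻¹, R.N.inv_mem hn⟩, ?_⟩
    show n⁻¹ • w = z
    rw [← hnz, inv_smul_smul]

theorem pj_smul {n : G} (hn : n ∈ R.N) (z : Z) : R.pj (n • z) = R.pj z :=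
  (R.pj_eq.mpr ⟨n, hn, rfl⟩).symm

/-- the action of `G` on the quotient space -/
def sm (g : G) : R.Zq → R.Zq :=
  Quotient.lift (fun z => R.pj (g • z)) (by
    intro z w hzw
    obtain ⟨n, hn⟩ := hzw
    have hn' : (n : G) • w = z := hn
    show R.pj (g • z) = R.pj (g • w)
    symm
    rw [R.pj_eq]
    refine ⟨g * n * g⁻¹, R.N_normal.conj_mem _ n.2 g, ?_⟩
    rw [← hn']
    simp [mul_smul])

theorem sm_pj (g : G) (z : Z) : R.sm g (R.pj z) = R.pj (g • z) := rfl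

instance actQ : MulAction (G ⧸ R.N) R.Zq where
  smul g := Quotient.lift (s := QuotientGroup.leftRel R.N) (fun g => R.sm g) (by
    intro g h hgh
    have hgh : g⁻¹ * h ∈ R.N := QuotientGroup.leftRel_apply.mp hgh
    funext v
    obtain ⟨z, rfl⟩ := R.pj_surj v
    rw [sm_pj, sm_pj, R.pj_eq]
    refine ⟨g * (g⁻¹ * h) * g⁻¹, R.N_normal.conj_mem _ hgh g, ?_⟩
    simp [mul_smul]) g
  one_smul v := by
    obtain ⟨z, rfl⟩ := R.pj_surj v
    show R.sm 1 (R.pj z) = R.pj z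
    rw [sm_pj, one_smul]
  mul_smul g h v := by
    obtain ⟨z, rfl⟩ := R.pj_surj v
    induction g using QuotientGroup.induction_on with
    | H g =>
      induction h using QuotientGroup.induction_on with
      | H h =>
        show R.sm (g * h) (R.pj z) = R.sm g (R.sm h (R.pj z))
        rw [sm_pj, sm_pj, sm_pj, mul_smul]

theorem smul_pj (g : G) (z : Z) : (QuotientGroup.mk g : G ⧸ R.N) • R.pj z = R.pj (g • z) := rfl

/-- the quotient metric -/
noncomputable def dq (v w : R.Zq) : ℕ :=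
  sInf {k | ∃ z z', R.pj z = v ∧ R.pj z' = w ∧ R.M.d z z' = k}

theorem dq_lift (z w : Z) : ∃ n ∈ R.N, R.M.d z (n • w) = R.dq (R.pj z) (R.pj w) := by
  have hne : {k | ∃ z1 z2, R.pj z1 = R.pj z ∧ R.pj z2 = R.pj w ∧ R.M.d z1 z2 = k}.Nonempty :=
    ⟨R.M.d z w, z, w, rfl, rfl, rfl⟩
  obtain ⟨z1, z2, h1, h2, h3⟩ := Nat.sInf_mem hne
  obtain ⟨n1, hn1, h1'⟩ := R.pj_eq.mp h1
  obtain ⟨n2, hn2, h2'⟩ := R.pj_eq.mp h2.symm
  refine ⟨n1 * n2, R.N.mul_mem hn1 hn2, ?_⟩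
  show R.M.d z ((n1 * n2) • w) = _
  rw [mul_smul, h2', ← h1', R.iso, h3]
  rw [h1']
  rfl

theorem dq_le (z w : Z) : R.dq (R.pj z) (R.pj w) ≤ R.M.d z w :=
  Nat.sInf_le ⟨z, w, rfl, rfl, rfl⟩

private theorem dq_symm_le (v w : R.Zq) : R.dq v w ≤ R.dq w v := by
  obtain ⟨z, rfl⟩ := R.pj_surj v
  obtain ⟨y, rfl⟩ := R.pj_surj w
  obtain ⟨n, hn, h⟩ := R.dq_lift y z
  rw [← h, R.M.symm, ← R.pj_smul hn z]
  exact R.dq_le _ _

private theorem dq_tri (u v w : R.Zq) : R.dq u w ≤ R.dq u v + R.dq v w := by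
  obtain ⟨x, rfl⟩ := R.pj_surj u
  obtain ⟨y, rfl⟩ := R.pj_surj v
  obtain ⟨z, rfl⟩ := R.pj_surj w
  obtain ⟨n, hn, h⟩ := R.dq_lift x y
  obtain ⟨m, hm, h'⟩ := R.dq_lift y z
  have h1 := R.dq_le x (n • m • z)
  rw [R.pj_smul hn, R.pj_smul hm] at h1
  have h2 := R.M.tri x (n • y) (n • m • z)
  rw [R.iso] at h2
  omega

/-- the quotient metric space -/
noncomputable def Mq : GMet R.Zq where
  d := R.dq
  self := by
    intro v
    obtain ⟨z, rfl⟩ := R.pj_surj v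
    have := R.dq_le z z
    rw [R.M.self] at this
    omega
  eq_of := by
    intro v w h
    obtain ⟨z, rfl⟩ := R.pj_surj v
    obtain ⟨y, rfl⟩ := R.pj_surj w
    obtain ⟨n, hn, h'⟩ := R.dq_lift z y
    rw [h] at h'
    rw [R.M.eq_of _ _ h', R.pj_smul hn]
  symm := by
    intro v w
    exact le_antisymm (R.dq_symm_le v w) (R.dq_symm_le w v)
  tri := R.dq_tri
  geo := by
    intro v w k hk
    obtain ⟨x, rfl⟩ := R.pj_surj v
    obtain ⟨y, rfl⟩ := R.pj_surj w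
    obtain ⟨n, hn, h⟩ := R.dq_lift x y
    obtain ⟨z, hz1, hz2⟩ := R.M.geo x (n • y) k (by omega)
    refine ⟨R.pj z, ?_⟩
    have h1 := R.dq_le x z
    have h2 := R.dq_le z (n • y)
    rw [R.pj_smul hn] at h2
    have h3 := R.dq_tri (R.pj x) (R.pj z) (R.pj y)
    omega

theorem Mq_d (v w : R.Zq) : R.Mq.d v w = R.dq v w := rfl

/-- distances lift -/
theorem Mq_lift (z w : Z) : ∃ n ∈ R.N, R.M.d z (n • w) = R.Mq.d (R.pj z) (R.pj w) := R.dq_lift z w

theorem Mq_le (z w : Z) : R.Mq.d (R.pj z) (R.pj w) ≤ R.M.d z w := R.dq_le z w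

private theorem Mq_iso_le (g : G) (v w : R.Zq) :
    R.dq ((QuotientGroup.mk g : G ⧸ R.N) • v) ((QuotientGroup.mk g : G ⧸ R.N) • w) ≤ R.dq v w := by
  obtain ⟨z, rfl⟩ := R.pj_surj v
  obtain ⟨y, rfl⟩ := R.pj_surj w
  obtain ⟨n, hn, h⟩ := R.dq_lift z y
  have h1 := R.dq_le (g • z) (g • n • y)
  rw [R.iso, h] at h1
  have h2 : R.pj (g • n • y) = R.pj (g • y) := by
    have h3 : g • n • y = (g * n * g⁻¹) • g • y := by
      simp [mul_smul]
    rw [h3, R.pj_smul (R.N_normal.conj_mem _ hn g)]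
  rw [smul_pj, smul_pj, ← h2]
  exact h1

theorem Mq_iso (g : G ⧸ R.N) (v w : R.Zq) : R.Mq.d (g • v) (g • w) = R.Mq.d v w := by
  induction g using QuotientGroup.induction_on with
  | H g =>
    apply le_antisymm (R.Mq_iso_le g v w)
    have h := R.Mq_iso_le g⁻¹ ((QuotientGroup.mk g : G ⧸ R.N) • v) ((QuotientGroup.mk g : G ⧸ R.N) • w)
    have h1 : ∀ u : R.Zq, (QuotientGroup.mk g⁻¹ : G ⧸ R.N) • (QuotientGroup.mk g : G ⧸ R.N) • u = u := by
      intro u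
      rw [smul_smul]
      have : (QuotientGroup.mk g⁻¹ : G ⧸ R.N) * QuotientGroup.mk g = 1 := by
        rw [← QuotientGroup.mk_mul, inv_mul_cancel]
        rfl
      rw [this, one_smul]
    rw [h1, h1] at h
    exact h

/-- the images of the apexes -/
def apexq : Set R.Zq := {v | ∃ c ∈ R.apex, R.pj c = v}

theorem pj_mem_apexq {c : Z} : R.pj c ∈ R.apexq ↔ c ∈ R.apex := by
  constructor
  · rintro ⟨c', hc', h⟩
    obtain ⟨n, hn, h'⟩ := R.pj_eq.mp h
    rw [← h']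
    exact R.apex_smul n c' hc'
  · intro h
    exact ⟨c, h, rfl⟩

/-- N-minimality passes to sub-intervals: if `f` is between `c` and `e` and `d c e` is the quotient distance -/
theorem Mq_btw {c e f : Z} (h : R.M.d c e = R.Mq.d (R.pj c) (R.pj e)) (hf : R.M.Btw c f e) :
    R.M.d c f = R.Mq.d (R.pj c) (R.pj f) ∧ R.M.d f e = R.Mq.d (R.pj f) (R.pj e) ∧
      R.Mq.Btw (R.pj c) (R.pj f) (R.pj e) := by
  have h1 := R.Mq_le c f
  have h2 := R.Mq_le f e
  have h3 := R.Mq.tri (R.pj c) (R.pj f) (R.pj e)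
  have h4 : R.M.d c f + R.M.d f e = R.M.d c e := hf
  refine ⟨by omega, by omega, ?_⟩
  show R.Mq.d (R.pj c) (R.pj f) + R.Mq.d (R.pj f) (R.pj e) = R.Mq.d (R.pj c) (R.pj e)
  omega

end RotSys
end BG
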