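import Pool.Agent.Helper76.BG.Free
import Pool.Agent.Helper76.BG.QuotDefs

/-!
# BG26: closed polygons of the quotient lift to closed polygons
-/

set_option autoImplicit false

namespace BG
namespace RotSys

variable {G Z : Type} [Group G] [MulAction G Z] {R : RotSys G Z}

/-- POLYGON LIFTING. Proof: choose lifts `u 0 = z0, u 1, …, u k` successively with
`d (u i) (u (i+1)) = Mq.d (v i) (v (i+1))` (`Mq_lift`); then `u k = n z0` with `n ∈ N`. Among all such `(u, n)` take one with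
`len z0 (n z0)` minimal. Suppose `n ≠ 1` (as `u k = n z0`, otherwise done). `gr` at `z0`: `e, h`, `LE e (h z0) (n z0) (2θ)`.
If `u i = e` for some `0 < i < k`, put `u' j = u j` (`j ≤ i`), `u' j = h⁻¹ u j` (`j > i`). Otherwise `u i ≠ e` for all `i ≤ k` and,
as `¬ LE e z0 (n z0) (kθ)` (`big_angle`, `k ≤ 100`), for some `i < k` not `LE e (u i) (u (i+1)) θ`: so `e` is between `u i` and
`u (i+1)`; the same `u'`. In both cases `d (u i) (h⁻¹ u (i+1)) ≤ d (u i) e + d e (u (i+1)) = d (u i) (u (i+1))`, so equality by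
`Mq_le`. New end point `(h⁻¹ n) z0` and `dec_gr` contradicts minimality. -/
theorem poly {z0 : Z} (hz : z0 ∉ R.apex) {k : ℕ} (hk : k ≤ 100) (v : ℕ → R.Zq)
    (h0 : v 0 = R.pj z0) (hv : v k = v 0) :
    ∃ u : ℕ → Z, u 0 = z0 ∧ u k = z0 ∧ (∀ i ≤ k, R.pj (u i) = v i) ∧
      ∀ i < k, R.M.d (u i) (u (i + 1)) = R.Mq.d (v i) (v (i + 1)) := by
  classical
  have hθ := R.θ_pos
  have hbig := R.big
  -- one step of lifting
  have step : ∀ (i : ℕ) (z : Z), R.pj z = v i →
      ∃ z', R.pj z' = v (i + 1) ∧ R.M.d z z' = R.Mq.d (v i) (v (i + 1)) := by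
    intro i z hzi
    obtain ⟨w, hw⟩ := R.pj_surj (v (i + 1))
    obtain ⟨n, hn, hd⟩ := R.Mq_lift z w
    refine ⟨n • w, ?_, ?_⟩
    · rw [R.pj_smul hn, hw]
    · rw [hd, hzi, hw]
  -- a lift exists
  have hlift : ∃ u : ℕ → Z, u 0 = z0 ∧ (∀ i, R.pj (u i) = v i) ∧
      ∀ i, R.M.d (u i) (u (i + 1)) = R.Mq.d (v i) (v (i + 1)) := by
    let f : (i : ℕ) → {z : Z // R.pj z = v i} := fun i =>
      Nat.rec ⟨z0, h0.symm⟩ (fun j p => ⟨Classical.choose (step j p.1 p.2),
        (Classical.choose_spec (step j p.1 p.2)).1⟩) i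
    refine ⟨fun i => (f i).1, rfl, fun i => (f i).2, fun i => ?_⟩
    exact (Classical.choose_spec (step i (f i).1 (f i).2)).2
  obtain ⟨u0, hu0, hu1, hu2⟩ := hlift
  -- the end point
  have hend : ∀ u : ℕ → Z, R.pj (u k) = v k → ∃ n ∈ R.N, n • z0 = u k := by
    intro u hu
    have h1 : R.pj z0 = R.pj (u k) := by rw [hu, hv, h0]
    exact (R.pj_eq).1 h1
  have hex : ∃ L : ℕ, ∃ u : ℕ → Z, ∃ n ∈ R.N, u 0 = z0 ∧ n • z0 = u k ∧
      (∀ i ≤ k, R.pj (u i) = v i) ∧
      (∀ i < k, R.M.d (u i) (u (i + 1)) = R.Mq.d (v i) (v (i + 1))) ∧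
      R.len z0 (n • z0) = L := by
    obtain ⟨n, hn, hnz⟩ := hend u0 (hu1 k)
    exact ⟨_, u0, n, hn, hu0, hnz, fun i _ => hu1 i, fun i _ => hu2 i, rfl⟩
  obtain ⟨u, n, hn, hu0', hnk, hup, hud, hlen⟩ := Nat.find_spec hex
  have hmin := fun (u' : ℕ → Z) (n' : G) (hn' : n' ∈ R.N) (a1 : u' 0 = z0) (a2 : n' • z0 = u' k)
      (a3 : ∀ i ≤ k, R.pj (u' i) = v i)
      (a4 : ∀ i < k, R.M.d (u' i) (u' (i + 1)) = R.Mq.d (v i) (v (i + 1))) =>
    Nat.find_min' hex ⟨u', n', hn', a1, a2, a3, a4, rfl⟩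
  by_cases hn1 : n = 1
  · refine ⟨u, hu0', ?_, hup, hud⟩
    rw [← hnk, hn1, one_smul]
  exfalso
  obtain ⟨e, he, h, hh, hh1, hT⟩ := gr hz hn hn1
  have hfix : h • e = e := R.H_fix e he h hh
  have hhN : h⁻¹ ∈ R.N := R.N.inv_mem (Subgroup.subset_closure ⟨e, he, hh⟩)
  have hze : z0 ≠ e := fun h => hz (h ▸ he)
  have hnb := smul_base (R := R) hz n
  have hnze : n • z0 ≠ e := fun h => hnb (h ▸ he)
  -- a side passing through `e`
  have hside : ∃ i < k, R.M.Btw (u i) e (u (i + 1)) := by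
    by_contra hcon
    push Not at hcon
    have hne : ∀ i ≤ k, u i ≠ e := by
      intro i hi hie
      rcases Nat.lt_or_ge i k with hik | hik
      · apply hcon i hik
        show R.M.d (u i) e + R.M.d e (u (i + 1)) = R.M.d (u i) (u (i + 1))
        rw [hie, R.M.self, Nat.zero_add]
      · have hik' : i = k := by omega
        subst hik'
        exact hnze (hnk.trans hie)
    have hLE : ∀ i ≤ k, R.LE e z0 (u i) ((i + 1) * R.θ) := by
      intro i
      induction i with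
      | zero =>
        intro _
        rw [hu0']
        have := AngSys.LE.self (A := R.toAng) (c := e) (z := z0) he hze
        exact AngSys.LE.mono (A := R.toAng) this (by show R.θ ≤ (0 + 1) * R.θ; omega)
      | succ i ih =>
        intro hi
        have h1 := ih (by omega)
        have h2 : R.LE e (u i) (u (i + 1)) R.θ :=
          AngSys.LE.of_not_btw (A := R.toAng) he (hne i (by omega)) (hne (i + 1) hi)
            (hcon i (by omega))
        have h3 : R.LE e z0 (u (i + 1)) ((i + 1) * R.θ + R.θ) :=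
          AngSys.LE.trans (A := R.toAng) he (hne i (by omega)) h1 h2
        have h4 : (i + 1) * R.θ + R.θ = (i + 1 + 1) * R.θ := by ring
        rw [h4] at h3
        exact h3
    have h1 := hLE k le_rfl
    rw [← hnk] at h1
    refine big_angle he hh hh1 hze hnze hT ?_ h1
    have h2 : (k + 1) * R.θ ≤ 101 * R.θ := Nat.mul_le_mul_right _ (by omega)
    omega
  obtain ⟨i, hik, hbtw⟩ := hside
  unfold GMet.Btw at hbtw
  have hde : R.M.d e (h⁻¹ • u (i + 1)) = R.M.d e (u (i + 1)) := by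
    have h1 := R.iso h e (h⁻¹ • u (i + 1))
    rw [hfix, smul_inv_smul] at h1
    exact h1.symm
  -- the new lift
  have hlt := dec_gr he hh hh1 hz hT
  have hmin' := hmin (fun j => if j ≤ i then u j else h⁻¹ • u j) (h⁻¹ * n)
    (R.N.mul_mem hhN hn) (by simp [hu0']) (by
      have : ¬ k ≤ i := by omega
      simp only [this, if_false]
      rw [mul_smul, hnk])
    (by
      intro j hj
      by_cases hji : j ≤ i
      · simp only [hji, if_true]
        exact hup j hj
      · simp only [hji, if_false]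
        rw [R.pj_smul hhN]
        exact hup j hj)
    (by
      intro j hj
      by_cases hji : j + 1 ≤ i
      · have hji' : j ≤ i := by omega
        simp only [hji, hji', if_true]
        exact hud j hj
      · by_cases hji' : j ≤ i
        · have hji2 : j = i := by omega
          subst hji2
          simp only [hji, hji', if_true, if_false]
          have h1 := hud j hj
          have h2 := R.M.tri (u j) e (h⁻¹ • u (j + 1))
          have h3 := R.Mq_le (u j) (h⁻¹ • u (j + 1))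
          rw [R.pj_smul hhN, hup j (by omega), hup (j + 1) (by omega)] at h3
          omega
        · simp only [hji, hji', if_false]
          rw [R.iso]
          exact hud j hj)
  omega

/-- closed quadrilaterals and so on, in a convenient form: triangles, 4-gons, 5-gons, 6-gons starting at a base point -/
theorem poly4 {z0 : Z} (hz : z0 ∉ R.apex) (v1 v2 v3 : R.Zq) :
    ∃ u1 u2 u3 : Z, R.pj u1 = v1 ∧ R.pj u2 = v2 ∧ R.pj u3 = v3 ∧
      R.M.d z0 u1 = R.Mq.d (R.pj z0) v1 ∧ R.M.d u1 u2 = R.Mq.d v1 v2 ∧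
      R.M.d u2 u3 = R.Mq.d v2 v3 ∧ R.M.d u3 z0 = R.Mq.d v3 (R.pj z0) := by
  let v : ℕ → R.Zq := fun i => match i with
    | 0 => R.pj z0
    | 1 => v1
    | 2 => v2
    | 3 => v3
    | _ => R.pj z0
  obtain ⟨u, h0, hk, hp, hd⟩ := poly (R := R) hz (k := 4) (by omega) v rfl rfl
  refine ⟨u 1, u 2, u 3, hp 1 (by omega), hp 2 (by omega), hp 3 (by omega), ?_, hd 1 (by omega), hd 2 (by omega), ?_⟩
  · have h := hd 0 (by omega)
    rw [h0] at h
    exact h
  · have h := hd 3 (by omega)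
    rw [hk] at h
    exact h

theorem poly5 {z0 : Z} (hz : z0 ∉ R.apex) (v1 v2 v3 v4 : R.Zq) :
    ∃ u1 u2 u3 u4 : Z, R.pj u1 = v1 ∧ R.pj u2 = v2 ∧ R.pj u3 = v3 ∧ R.pj u4 = v4 ∧
      R.M.d z0 u1 = R.Mq.d (R.pj z0) v1 ∧ R.M.d u1 u2 = R.Mq.d v1 v2 ∧
      R.M.d u2 u3 = R.Mq.d v2 v3 ∧ R.M.d u3 u4 = R.Mq.d v3 v4 ∧
      R.M.d u4 z0 = R.Mq.d v4 (R.pj z0) := by
  let v : ℕ → R.Zq := fun i => match i with
    | 0 => R.pj z0
    | 1 => v1
    | 2 => v2
    | 3 => v3
    | 4 => v4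
    | _ => R.pj z0
  obtain ⟨u, h0, hk, hp, hd⟩ := poly (R := R) hz (k := 5) (by omega) v rfl rfl
  refine ⟨u 1, u 2, u 3, u 4, hp 1 (by omega), hp 2 (by omega), hp 3 (by omega), hp 4 (by omega), ?_, hd 1 (by omega), hd 2 (by omega), hd 3 (by omega), ?_⟩
  · have h := hd 0 (by omega)
    rw [h0] at h
    exact h
  · have h := hd 4 (by omega)
    rw [hk] at h
    exact h

theorem poly6 {z0 : Z} (hz : z0 ∉ R.apex) (v1 v2 v3 v4 v5 : R.Zq) :
    ∃ u1 u2 u3 u4 u5 : Z, R.pj u1 = v1 ∧ R.pj u2 = v2 ∧ R.pj u3 = v3 ∧ R.pj u4 = v4 ∧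
      R.pj u5 = v5 ∧
      R.M.d z0 u1 = R.Mq.d (R.pj z0) v1 ∧ R.M.d u1 u2 = R.Mq.d v1 v2 ∧
      R.M.d u2 u3 = R.Mq.d v2 v3 ∧ R.M.d u3 u4 = R.Mq.d v3 v4 ∧
      R.M.d u4 u5 = R.Mq.d v4 v5 ∧ R.M.d u5 z0 = R.Mq.d v5 (R.pj z0) := by
  let v : ℕ → R.Zq := fun i => match i with
    | 0 => R.pj z0
    | 1 => v1
    | 2 => v2
    | 3 => v3
    | 4 => v4
    | 5 => v5
    | _ => R.pj z0
  obtain ⟨u, h0, hk, hp, hd⟩ := poly (R := R) hz (k := 6) (by omega) v rfl rfl
  refine ⟨u 1, u 2, u 3, u 4, u 5, hp 1 (by omega), hp 2 (by omega), hp 3 (by omega), hp 4 (by omega), hp 5 (by omega), ?_, hd 1 (by omega), hd 2 (by omega), hd 3 (by omega), hd 4 (by omega), ?_⟩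
  · have h := hd 0 (by omega)
    rw [h0] at h
    exact h
  · have h := hd 5 (by omega)
    rw [hk] at h
    exact h

/-- THINNESS PASSES TO THE QUOTIENT. Proof: `p` between `x` and `y` in the quotient, `z` arbitrary. If `p = x` or `p = y`, trivial.
If `p` is not in `apexq`, lift the closed 4-gon `p, y, z, x` (`poly4`): `d x p + d p y = Mq.d x y ≤ d x y` so the lift of `p` is
between; apply `h`; `Mq.d p z ≤ d p z`. If `p ∈ apexq` let `t` be the neighbour of `p` between `p` and `y`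
(`t ∉ apexq`) and lift the closed 5-gon `t, y, z, x, p`. -/
theorem thin_q {e : ℕ} (h : R.M.Thin e) : R.Mq.Thin e := by
  intro x y z p hp
  unfold GMet.Btw at hp
  by_cases hpy : p = y
  · right
    subst hpy
    rw [R.Mq.self]
    omega
  by_cases hpa : p ∈ R.apexq
  · -- `p` is an apex
    have hpos : 1 ≤ R.Mq.d p y := by
      rcases Nat.eq_zero_or_pos (R.Mq.d p y) with h1 | h1
      · exact absurd (R.Mq.eq_of _ _ h1) hpy
      · exact h1
    obtain ⟨t, ht1, ht2⟩ := R.Mq.geo p y 1 hpos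
    obtain ⟨z0, rfl⟩ := R.pj_surj t
    obtain ⟨c, hc, rfl⟩ := hpa
    have hz : z0 ∉ R.apex := by
      intro hz
      obtain ⟨n, _, hd⟩ := R.Mq_lift c z0
      rw [ht1] at hd
      exact R.nadj c hc _ (R.apex_smul n z0 hz) hd
    obtain ⟨u1, u2, u3, u4, e1, e2, e3, e4, d1, d2, d3, d4, d5⟩ :=
      poly5 (R := R) hz y z x (R.pj c)
    have a1 := R.Mq_le u3 u1
    have a2 := R.Mq_le u4 u2
    have a3 := R.Mq_le u4 u1
    rw [e3, e1] at a1
    rw [e4, e2] at a2
    rw [e4, e1] at a3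
    have t1 := R.M.tri u4 z0 u1
    have t2 := R.M.tri u3 u4 u1
    have s1 := R.Mq.symm z x
    have s2 := R.M.symm u2 u3
    have s3 := R.M.symm u1 u4
    have s4 := R.Mq.symm y (R.pj c)
    rcases h u3 u1 u2 u4 (by unfold GMet.Btw; omega) with h1 | h1
    · left
      omega
    · right
      omega
  · obtain ⟨z0, rfl⟩ := R.pj_surj p
    have hz : z0 ∉ R.apex := fun hz => hpa ⟨z0, hz, rfl⟩
    obtain ⟨u1, u2, u3, e1, e2, e3, d1, d2, d3, d4⟩ := poly4 (R := R) hz y z x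
    have a1 := R.Mq_le u3 u1
    have a2 := R.Mq_le z0 u2
    rw [e3, e1] at a1
    rw [e2] at a2
    have t2 := R.M.tri u3 z0 u1
    have s1 := R.Mq.symm z x
    have s2 := R.M.symm u2 u3
    have s3 := R.M.symm u1 z0
    have s4 := R.Mq.symm y (R.pj z0)
    rcases h u3 u1 u2 z0 (by unfold GMet.Btw; omega) with h1 | h1
    · left
      omega
    · right
      omega

end RotSys
end BG
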