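import Pool.Agent.Helper76.BG.Poly

/-!
# BG27: angles in the quotient
-/

set_option autoImplicit false

namespace BG
namespace RotSys

variable {G Z : Type} [Group G] [MulAction G Z] {R : RotSys G Z}

private theorem qang_HN {c : Z} (hc : c ∈ R.apex) {k : G} (hk : k ∈ R.H c) : k ∈ R.N :=
  Subgroup.subset_closure ⟨c, hc, hk⟩

private theorem qang_base {c y : Z} (hc : c ∈ R.apex) (h : R.M.d c y = 1) : y ∉ R.apex :=
  fun hy => R.nadj c hc y hy h

private theorem qang_rot {c y : Z} (hc : c ∈ R.apex) {k : G} (hk : k ∈ R.H c)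
    (h : R.M.d c y = 1) : R.M.d c (k • y) = 1 := by
  have h1 := R.iso k c y
  rw [R.H_fix c hc k hk] at h1
  rw [h1, h]

/-- neighbours of `pj c` lift to neighbours of `c` -/
theorem nbr_lift {c : Z} (hc : c ∈ R.apex) {v : R.Zq} (h : R.Mq.d (R.pj c) v = 1) :
    ∃ y, R.pj y = v ∧ R.M.d c y = 1 := by
  obtain ⟨w, rfl⟩ := R.pj_surj v
  obtain ⟨n, hn, hd⟩ := R.Mq_lift c w
  exact ⟨n • w, R.pj_smul hn w, by rw [hd, h]⟩

theorem nbr_pj {c y : Z} (hc : c ∈ R.apex) (h : R.M.d c y = 1) : R.Mq.d (R.pj c) (R.pj y) = 1 := by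
  have h1 : R.Mq.d (R.pj c) (R.pj y) ≤ 1 := h ▸ R.Mq_le c y
  rcases Nat.lt_or_ge (R.Mq.d (R.pj c) (R.pj y)) 1 with h2 | h2
  · exfalso
    have h3 : R.pj c = R.pj y := R.Mq.eq_of _ _ (by omega)
    have h4 : R.pj y ∈ R.apexq := h3 ▸ (R.pj_mem_apexq.mpr hc)
    exact qang_base hc h (R.pj_mem_apexq.mp h4)
  · omega

/-- two neighbours of `c` with the same image differ by an element of `H c` (`RotSys.nbr`) -/
theorem nbr_eq {c y y' : Z} (hc : c ∈ R.apex) (h : R.M.d c y = 1) (h' : R.M.d c y' = 1)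
    (he : R.pj y = R.pj y') : ∃ k ∈ R.H c, k • y = y' := by
  obtain ⟨n, hn, hny⟩ := R.pj_eq.mp he
  refine ⟨n, nbr hc hn h ?_, hny⟩
  rw [hny, h']

/-- the angle function in the quotient -/
noncomputable def aq (R : RotSys G Z) (c y y' : R.Zq) : ℕ :=
  sInf {k | ∃ c' z z', c' ∈ R.apex ∧ R.pj c' = c ∧ R.pj z = y ∧ R.pj z' = y' ∧
    R.M.d c' z = 1 ∧ R.M.d c' z' = 1 ∧ R.len z z' = k}

theorem aq_le {c y y' : Z} (hc : c ∈ R.apex) (h : R.M.d c y = 1) (h' : R.M.d c y' = 1) {k : G}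
    (hk : k ∈ R.H c) : R.aq (R.pj c) (R.pj y) (R.pj y') ≤ R.len y (k • y') :=
  Nat.sInf_le ⟨c, y, k • y', hc, rfl, rfl, R.pj_smul (qang_HN hc hk) y', h, qang_rot hc hk h', rfl⟩

theorem aq_lift {c y y' : Z} (hc : c ∈ R.apex) (h : R.M.d c y = 1) (h' : R.M.d c y' = 1) :
    ∃ k ∈ R.H c, R.aq (R.pj c) (R.pj y) (R.pj y') = R.len y (k • y') := by
  have hne : {k | ∃ c' z z', c' ∈ R.apex ∧ R.pj c' = R.pj c ∧ R.pj z = R.pj y ∧ R.pj z' = R.pj y' ∧
      R.M.d c' z = 1 ∧ R.M.d c' z' = 1 ∧ R.len z z' = k}.Nonempty :=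
    ⟨R.len y y', c, y, y', hc, rfl, rfl, rfl, h, h', rfl⟩
  obtain ⟨c', z, z', hc', hcc, hzy, hzy', hd, hd', hl⟩ := Nat.sInf_mem hne
  obtain ⟨n, hn, hnc⟩ := R.pj_eq.mp hcc
  have e1 : R.M.d c (n • z) = 1 := by
    have := R.iso n c' z
    rw [hnc] at this
    rw [this, hd]
  have e2 : R.M.d c (n • z') = 1 := by
    have := R.iso n c' z'
    rw [hnc] at this
    rw [this, hd']
  obtain ⟨k1, hk1, hk1e⟩ := nbr_eq hc e1 h (by rw [R.pj_smul hn, hzy])
  obtain ⟨k2, hk2, hk2e⟩ := nbr_eq hc e2 h' (by rw [R.pj_smul hn, hzy'])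
  refine ⟨k1 * k2⁻¹, (R.H c).mul_mem hk1 ((R.H c).inv_mem hk2), ?_⟩
  have h3 : (k1 * k2⁻¹) • y' = k1 • n • z' := by
    rw [← hk2e, mul_smul, inv_smul_smul]
  rw [h3, ← hk1e, R.len_smul, R.len_smul, hl]
  rw [hk1e]
  rfl

private theorem qang_set (g : G) (c y y' : R.Zq) (k : ℕ)
    (h : ∃ c' z z', c' ∈ R.apex ∧ R.pj c' = c ∧ R.pj z = y ∧ R.pj z' = y' ∧
      R.M.d c' z = 1 ∧ R.M.d c' z' = 1 ∧ R.len z z' = k) :
    ∃ c' z z', c' ∈ R.apex ∧ R.pj c' = (QuotientGroup.mk g : G ⧸ R.N) • c ∧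
      R.pj z = (QuotientGroup.mk g : G ⧸ R.N) • y ∧ R.pj z' = (QuotientGroup.mk g : G ⧸ R.N) • y' ∧
      R.M.d c' z = 1 ∧ R.M.d c' z' = 1 ∧ R.len z z' = k := by
  obtain ⟨c', z, z', hc', rfl, rfl, rfl, hd, hd', hl⟩ := h
  refine ⟨g • c', g • z, g • z', R.apex_smul g c' hc', (R.smul_pj g c').symm, (R.smul_pj g z).symm,
    (R.smul_pj g z').symm, ?_, ?_, ?_⟩
  · rw [R.iso, hd]
  · rw [R.iso, hd']
  · rw [R.len_smul, hl]

theorem aq_smul (g : G ⧸ R.N) (c y y' : R.Zq) : R.aq (g • c) (g • y) (g • y') = R.aq c y y' := by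
  induction g using QuotientGroup.induction_on with
  | H g =>
    unfold aq
    congr 1
    ext k
    constructor
    · intro h
      have h1 := qang_set (R := R) g⁻¹ _ _ _ k h
      have e : ∀ v : R.Zq, (QuotientGroup.mk g⁻¹ : G ⧸ R.N) • (QuotientGroup.mk g : G ⧸ R.N) • v
          = v := by
        intro v
        have : (QuotientGroup.mk g⁻¹ : G ⧸ R.N) = (QuotientGroup.mk g : G ⧸ R.N)⁻¹ := rfl
        rw [this, inv_smul_smul]
      rw [e, e, e] at h1
      exact h1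
    · intro h
      exact qang_set (R := R) g _ _ _ k h

private theorem qang_symm_le {c y y' : R.Zq} (hc : c ∈ R.apexq) (h : R.Mq.d c y = 1)
    (h' : R.Mq.d c y' = 1) : R.aq c y' y ≤ R.aq c y y' := by
  obtain ⟨c0, hc0, rfl⟩ := hc
  obtain ⟨y0, rfl, hy0⟩ := nbr_lift hc0 h
  obtain ⟨y1, rfl, hy1⟩ := nbr_lift hc0 h'
  obtain ⟨k, hk, he⟩ := aq_lift (R := R) hc0 hy0 hy1
  have h1 := aq_le (R := R) hc0 hy1 hy0 ((R.H c0).inv_mem hk)
  have h2 : R.len y1 (k⁻¹ • y0) = R.len (k • y1) y0 := by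
    have := R.len_smul k y1 (k⁻¹ • y0)
    rw [smul_inv_smul] at this
    exact this.symm
  rw [h2, R.len_symm _ _ (qang_base hc0 (qang_rot hc0 hk hy1)) (qang_base hc0 hy0), ← he] at h1
  exact h1

/-- The system of angles of the quotient. Proof of `LA` for `c, z, w` and `y ∈ Germ c z`, `y' ∈ Germ c w`: if `c` is not between
`z` and `w`, lift the closed 5-gon `y, z, w, y', c` (`poly5`, starting at a lift of `y`, a base point); otherwise there is `u ≠ c`
between `z` and `w` at the position of `c`; lift the closed 6-gon `y, z, u, w, y', c`. In the lift `d c z = Mq.d c z`,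
`y ∈ Germ c z`, `y' ∈ Germ c w`, and `c` does not cut `z` from `w`; apply `R.LA`. -/
noncomputable def Aq (R : RotSys G Z) : AngSys R.Zq where
  M := R.Mq
  apex := R.apexq
  a := R.aq
  θ := R.θ
  nadj := by
    rintro _ ⟨c, hc, rfl⟩ e he h
    obtain ⟨y, rfl, hy⟩ := nbr_lift hc h
    exact qang_base hc hy (R.pj_mem_apexq.mp he)
  a_symm := by
    intro c hc y y' h h'
    exact le_antisymm (qang_symm_le hc h' h) (qang_symm_le hc h h')
  a_tri := by
    rintro _ ⟨c, hc, rfl⟩ y y' y'' h h' h''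
    obtain ⟨y0, rfl, hy0⟩ := nbr_lift hc h
    obtain ⟨y1, rfl, hy1⟩ := nbr_lift hc h'
    obtain ⟨y2, rfl, hy2⟩ := nbr_lift hc h''
    obtain ⟨k, hk, he⟩ := aq_lift (R := R) hc hy0 hy1
    obtain ⟨k', hk', he'⟩ := aq_lift (R := R) hc hy1 hy2
    have h1 := aq_le (R := R) hc hy0 hy2 ((R.H c).mul_mem hk hk')
    have h2 : R.len y1 (k' • y2) = R.len (k • y1) ((k * k') • y2) := by
      rw [mul_smul, R.len_smul]
    have h3 := R.len_tri y0 (k • y1) ((k * k') • y2) (qang_base hc hy0)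
      (qang_base hc (qang_rot hc hk hy1))
      (qang_base hc (qang_rot hc ((R.H c).mul_mem hk hk') hy2))
    rw [he, he', h2]
    exact h1.trans h3
  LA := by
    intro c hc z w hz hw hcut y hy y' hy'
    obtain ⟨hy1, hy2⟩ := hy
    obtain ⟨hy1', hy2'⟩ := hy'
    obtain ⟨y0, rfl⟩ := R.pj_surj y
    have hy0 : y0 ∉ R.apex := by
      intro hb
      obtain ⟨c1, hc1, rfl⟩ := hc
      obtain ⟨y2, he, hd⟩ := nbr_lift hc1 hy1
      have : R.pj y2 ∈ R.apexq := he ▸ R.pj_mem_apexq.mpr hb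
      exact qang_base hc1 hd (R.pj_mem_apexq.mp this)
    by_cases hb : R.Mq.Btw z c w
    · have hex : ∃ u, R.Mq.Btw z u w ∧ R.Mq.d z u = R.Mq.d z c ∧ u ≠ c := by
        by_contra hne
        push Not at hne
        exact hcut ⟨hb, hne⟩
      obtain ⟨u, hu1, hu2, hu3⟩ := hex
      obtain ⟨u1, u2, u3, u4, u5, p1, p2, p3, p4, p5, d0, d1, d2, d3, d4, d5⟩ :=
        poly6 hy0 z u w y' c
      have hu5 : u5 ∈ R.apex := R.pj_mem_apexq.mp (p5 ▸ hc)
      have hs1 : R.M.d u5 y0 = 1 := by rw [d5, hy1]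
      have hs4 : R.M.d u5 u4 = 1 := by rw [R.M.symm, d4, R.Mq.symm, hy1']
      have l1 : R.M.d u5 u1 = R.Mq.d c z := by
        have a1 := R.M.tri u5 y0 u1
        have a2 := R.Mq_le u5 u1
        rw [p5, p1] at a2
        omega
      have l3 : R.M.d u5 u3 = R.Mq.d c w := by
        have a1 := R.M.tri u5 u4 u3
        have a2 := R.Mq_le u5 u3
        have a3 := R.M.symm u4 u3
        have a4 := R.Mq.symm y' w
        rw [p5, p3] at a2
        omega
      have g1 : y0 ∈ R.M.Germ u5 u1 := ⟨hs1, by rw [l1, d0]; exact hy2⟩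
      have g2 : u4 ∈ R.M.Germ u5 u3 := by
        refine ⟨hs4, ?_⟩
        have a3 := R.M.symm u4 u3
        have a4 := R.Mq.symm y' w
        omega
      have n1 : u1 ≠ u5 := by
        intro hh
        exact hz (by rw [← p1, ← p5, hh])
      have n3 : u3 ≠ u5 := by
        intro hh
        exact hw (by rw [← p3, ← p5, hh])
      have ncut : ¬ R.M.Cut u5 u1 u3 := by
        intro hcc
        have a1 := R.M.tri u1 u2 u3
        have a2 := R.Mq_le u1 u3
        rw [p1, p3] at a2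
        have a3 : R.Mq.d z u + R.Mq.d u w = R.Mq.d z w := hu1
        have a4 := R.Mq.symm z c
        have a5 := R.M.symm u1 u5
        have a6 : R.M.Btw u1 u2 u3 := by
          show R.M.d u1 u2 + R.M.d u2 u3 = R.M.d u1 u3
          omega
        have a7 := hcc.2 u2 a6 (by omega)
        exact hu3 (by rw [← p2, a7, p5])
      have hfin := R.LA u5 hu5 u1 u3 n1 n3 ncut y0 g1 u4 g2
      have hle := aq_le (R := R) hu5 hs1 hs4 (R.H u5).one_mem
      rw [one_smul, p5, p4] at hle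
      exact hle.trans hfin
    · obtain ⟨u1, u3, u4, u5, p1, p3, p4, p5, d0, d1, d3, d4, d5⟩ :=
        poly5 hy0 z w y' c
      have hu5 : u5 ∈ R.apex := R.pj_mem_apexq.mp (p5 ▸ hc)
      have hs1 : R.M.d u5 y0 = 1 := by rw [d5, hy1]
      have hs4 : R.M.d u5 u4 = 1 := by rw [R.M.symm, d4, R.Mq.symm, hy1']
      have l1 : R.M.d u5 u1 = R.Mq.d c z := by
        have a1 := R.M.tri u5 y0 u1
        have a2 := R.Mq_le u5 u1
        rw [p5, p1] at a2
        omega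
      have l3 : R.M.d u5 u3 = R.Mq.d c w := by
        have a1 := R.M.tri u5 u4 u3
        have a2 := R.Mq_le u5 u3
        have a3 := R.M.symm u4 u3
        have a4 := R.Mq.symm y' w
        rw [p5, p3] at a2
        omega
      have g1 : y0 ∈ R.M.Germ u5 u1 := ⟨hs1, by rw [l1, d0]; exact hy2⟩
      have g2 : u4 ∈ R.M.Germ u5 u3 := by
        refine ⟨hs4, ?_⟩
        have a3 := R.M.symm u4 u3
        have a4 := R.Mq.symm y' w
        omega
      have n1 : u1 ≠ u5 := by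
        intro hh
        exact hz (by rw [← p1, ← p5, hh])
      have n3 : u3 ≠ u5 := by
        intro hh
        exact hw (by rw [← p3, ← p5, hh])
      have ncut : ¬ R.M.Cut u5 u1 u3 := by
        intro hcc
        apply hb
        have a1 : R.M.d u1 u5 + R.M.d u5 u3 = R.M.d u1 u3 := hcc.1
        have a4 := R.Mq.symm z c
        have a5 := R.M.symm u1 u5
        show R.Mq.d z c + R.Mq.d c w = R.Mq.d z w
        omega
      have hfin := R.LA u5 hu5 u1 u3 n1 n3 ncut y0 g1 u4 g2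
      have hle := aq_le (R := R) hu5 hs1 hs4 (R.H u5).one_mem
      rw [one_smul, p5, p4] at hle
      exact hle.trans hfin

theorem Aq_M : R.Aq.M = R.Mq := rfl
theorem Aq_apex : R.Aq.apex = R.apexq := rfl
theorem Aq_θ : R.Aq.θ = R.θ := rfl
theorem Aq_a : R.Aq.a = R.aq := rfl

/-- germs of minimal pairs project to germs -/
theorem germ_pj {c z y : Z} (hc : c ∈ R.apex) (hz : R.M.d c z = R.Mq.d (R.pj c) (R.pj z))
    (hy : y ∈ R.M.Germ c z) : R.pj y ∈ R.Mq.Germ (R.pj c) (R.pj z) := by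
  obtain ⟨h1, h2⟩ := hy
  have h3 := nbr_pj (R := R) hc h1
  refine ⟨h3, ?_⟩
  have h4 := R.Mq_le y z
  have h5 := R.Mq.tri (R.pj c) (R.pj y) (R.pj z)
  omega

/-- LIFTING OF SMALL ANGLES. Take germs `y ∈ Germ c z`, `y' ∈ Germ c w`; `aq ≤ T`, so `len y (k y') ≤ T` for some `k ∈ H c`
(`aq_lift`); other germs are within `θ` (`LE.self`). -/
theorem LE_lift {c z w : Z} {T : ℕ} (hc : c ∈ R.apex) (hzc : z ≠ c) (hwc : w ≠ c)
    (hz : R.M.d c z = R.Mq.d (R.pj c) (R.pj z)) (hw : R.M.d c w = R.Mq.d (R.pj c) (R.pj w))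
    (h : R.Aq.LE (R.pj c) (R.pj z) (R.pj w) T) :
    ∃ k ∈ R.H c, R.LE c z (k • w) (T + 2 * R.θ) := by
  obtain ⟨y, hy⟩ := GMet.germ_nonempty (M := R.M) hzc
  obtain ⟨y', hy'⟩ := GMet.germ_nonempty (M := R.M) hwc
  have h1 : R.aq (R.pj c) (R.pj y) (R.pj y') ≤ T :=
    h (R.pj y) (germ_pj hc hz hy) (R.pj y') (germ_pj hc hw hy')
  obtain ⟨k, hk, he⟩ := aq_lift (R := R) hc hy.1 hy'.1
  refine ⟨k, hk, ?_⟩
  intro y1 hy1 y2 hy2
  have hkc : k • c = c := R.H_fix c hc k hk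
  have hg : k⁻¹ • y2 ∈ R.M.Germ c w := by
    have h2 := (GMet.germ_smul (M := R.M) (c := c) (z := w) (y := k⁻¹ • y2) R.iso k)
    rw [smul_inv_smul, hkc] at h2
    exact h2.mp hy2
  have s1 : R.len y1 y ≤ R.θ := AngSys.LE.self (A := R.toAng) hc hzc y1 hy1 y hy
  have s2 : R.len y' (k⁻¹ • y2) ≤ R.θ := AngSys.LE.self (A := R.toAng) hc hwc y' hy' _ hg
  have s3 : R.len (k • y') y2 ≤ R.θ := by
    have := R.len_smul k y' (k⁻¹ • y2)
    rw [smul_inv_smul] at this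
    omega
  have b1 := qang_base hc hy1.1
  have b2 := qang_base hc hy.1
  have b3 := qang_base hc (qang_rot hc hk hy'.1)
  have b4 := qang_base hc hy2.1
  have t1 := R.len_tri y1 y y2 b1 b2 b4
  have t2 := R.len_tri y (k • y') y2 b2 b3 b4
  show R.len y1 y2 ≤ T + 2 * R.θ
  omega

end RotSys
end BG
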