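import Pool.Agent.Helper76.BG.RedX
import Pool.Agent.Helper76.BG.KQuot

/-!
# BG35: growth in the quotient
-/

set_option autoImplicit false

namespace BG
namespace KData

variable {c : Cst} {S : Sys} (D : KData c S)

/-- bounded overlaps and reducedness give growth in the quotient. (`redX` so `C.d p (v^k p)` is minimal, `= Mq.d`; `pr_ang`, `lemmaN`) -/
theorem quot_growth {v : S.G} {p : S.X} {Λ : ℕ}
    (hov : ∀ (E : S.Killed c.K) (k : ℕ) (r r' : S.X), S.M.IsProj (Sys.ax c.q E) p r →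
      S.M.IsProj (Sys.ax c.q E) (v ^ k • p) r' → S.M.d r r' ≤ Λ)
    (hred : ∀ (k : ℕ) (E : S.Killed c.K) (h : S.G), h ∈ D.Hs (Sum.inr E) → h ≠ 1 →
      S.M.d p (v ^ k • p) < S.M.d p (h • v ^ k • p) + 1200 * c.ρ) (k : ℕ) :
    S.M.d p (v ^ k • p) ≤ D.Sq.M.d (D.px p) (D.φ v ^ k • D.px p) * (Λ + 57 * c.ρ) := by
  classical
  have hmin : ∀ m ∈ D.R.N, (S.C c).d (Sum.inl p) (Sum.inl (v ^ k • p)) ≤
      (S.C c).d (Sum.inl p) (Sum.inl (m • v ^ k • p)) := by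
    rcases D.redX p (v ^ k • p) with h | ⟨E, h, hh, h1, h2⟩
    · exact h
    · have h3 := hred k E h hh h1
      omega
  obtain ⟨n, hn, hd⟩ := D.R.Mq_lift (Sum.inl p) (Sum.inl (v ^ k • p))
  have hd' : (S.C c).d (Sum.inl p) (Sum.inl (n • v ^ k • p)) =
      D.Sq.M.d (D.px p) (D.px (v ^ k • p)) := hd
  have e1 : D.φ v ^ k • D.px p = D.px (v ^ k • p) := by
    rw [← map_pow, D.φ_px]
  have h1 : (S.C c).d (Sum.inl p) (Sum.inl (v ^ k • p)) ≤
      D.Sq.M.d (D.px p) (D.px (v ^ k • p)) := by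
    rw [← hd']
    exact hmin n hn
  have h2 : S.M.d p (v ^ k • p) ≤
      (S.C c).d (Sum.inl p) (Sum.inl (v ^ k • p)) * (Λ + 56 * c.ρ + c.ρ) := by
    apply D.lemmaN
    intro E
    obtain ⟨q, hq⟩ := D.P.pr_exists E p
    obtain ⟨q', hq'⟩ := D.P.pr_exists E (v ^ k • p)
    exact D.pr_ang hq hq' (hov E k q q' hq hq')
  rw [e1]
  have h3 : Λ + 56 * c.ρ + c.ρ = Λ + 57 * c.ρ := by ring
  rw [h3] at h2
  exact h2.trans (Nat.mul_le_mul_right _ h1)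

/-- in particular if `d p (v^k p) ≥ k` then the image of `v` is not torsion -/
theorem quot_not_torsion {v : S.G} {p : S.X} {Λ : ℕ}
    (hov : ∀ (E : S.Killed c.K) (k : ℕ) (r r' : S.X), S.M.IsProj (Sys.ax c.q E) p r →
      S.M.IsProj (Sys.ax c.q E) (v ^ k • p) r' → S.M.d r r' ≤ Λ)
    (hred : ∀ (k : ℕ) (E : S.Killed c.K) (h : S.G), h ∈ D.Hs (Sum.inr E) → h ≠ 1 →
      S.M.d p (v ^ k • p) < S.M.d p (h • v ^ k • p) + 1200 * c.ρ)
    (hgr : ∀ k : ℕ, k ≤ S.M.d p (v ^ k • p)) : ¬ IsOfFinOrder (D.φ v) := by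
  intro hfin
  obtain ⟨n, hn, hpow⟩ := isOfFinOrder_iff_pow_eq_one.1 hfin
  have h1 := D.quot_growth hov hred n
  have h2 : D.φ v ^ n • D.px p = D.px p := by
    rw [hpow, one_smul]
  rw [h2, D.Sq.M.self, Nat.zero_mul] at h1
  have h3 := hgr n
  omega

end KData
end BG
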