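import Pool.Agent.Helper76.BG.RotInst
import Pool.Agent.Helper76.BG.Free

/-!
# BG32: angles and projections; reduced pairs in `X`
-/

set_option autoImplicit false

namespace BG
namespace KData

variable {c : Cst} {S : Sys} (D : KData c S)

/-- from angles to projections (`germ_proj` twice; germs exist) -/
theorem ang_pr {E : S.Killed c.K} {x y q q' : S.X} {T : ℕ}
    (h : D.R.LE (Sum.inr E) (Sum.inl x) (Sum.inl y) T) (hq : S.M.IsProj (Sys.ax c.q E) x q)
    (hq' : S.M.IsProj (Sys.ax c.q E) y q') : S.M.d q q' ≤ T + 56 * c.ρ := by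
  obtain ⟨v1, hv1⟩ := GMet.germ_nonempty (M := S.C c) (c := Sum.inr E) (z := Sum.inl x)
    (by intro h; cases h)
  obtain ⟨v2, hv2⟩ := GMet.germ_nonempty (M := S.C c) (c := Sum.inr E) (z := Sum.inl y)
    (by intro h; cases h)
  obtain ⟨y1, rfl⟩ := nb_inl hv1.1
  obtain ⟨y2, rfl⟩ := nb_inl hv2.1
  have h3 := h _ hv1 _ hv2
  change S.M.d y1 y2 ≤ T at h3
  have g1 := D.P.germ_proj E hv1 hq
  have g2 := D.P.germ_proj E hv2 hq'
  have t1 := S.M.tri q y1 q'
  have t2 := S.M.tri y1 y2 q'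
  have s1 := S.M.symm q y1
  omega

/-- from projections to angles -/
theorem pr_ang {E : S.Killed c.K} {x y q q' : S.X} {T : ℕ} (hq : S.M.IsProj (Sys.ax c.q E) x q)
    (hq' : S.M.IsProj (Sys.ax c.q E) y q') (h : S.M.d q q' ≤ T) :
    D.R.LE (Sum.inr E) (Sum.inl x) (Sum.inl y) (T + 56 * c.ρ) := by
  intro v1 hv1 v2 hv2
  obtain ⟨y1, rfl⟩ := nb_inl hv1.1
  obtain ⟨y2, rfl⟩ := nb_inl hv2.1
  change S.M.d y1 y2 ≤ T + 56 * c.ρ
  have g1 := D.P.germ_proj E hv1 hq
  have g2 := D.P.germ_proj E hv2 hq'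
  have t1 := S.M.tri y1 q y2
  have t2 := S.M.tri q q' y2
  have s1 := S.M.symm y2 q'
  omega

/-- `red` in terms of `X`. From `LE E x (h y) (360ρ)`: `d (πx) (h πy) ≤ 416ρ`, `d (πy) (h πy) ≥ 1200000000 ρ` (`rot_big`), so
`d (πx) (πy)` is large; `pr_two`. -/
theorem redX (x y : S.X) :
    (∀ m ∈ D.R.N, (S.C c).d (Sum.inl x) (Sum.inl y) ≤ (S.C c).d (Sum.inl x) (Sum.inl (m • y))) ∨
      ∃ (E : S.Killed c.K) (h : S.G), h ∈ D.Hs (Sum.inr E) ∧ h ≠ 1 ∧
        S.M.d x (h • y) + 1200 * c.ρ ≤ S.M.d x y := by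
  have hx : (Sum.inl x : S.Z c) ∉ D.R.apex := by
    rintro ⟨E, hE⟩
    cases hE
  have hy : (Sum.inl y : S.Z c) ∉ D.R.apex := by
    rintro ⟨E, hE⟩
    cases hE
  rcases RotSys.red (R := D.R) hx hy with h | ⟨e, ⟨E, rfl⟩, h, hh, h1, hLE⟩
  · left
    exact h
  · right
    refine ⟨E, h, hh, h1, ?_⟩
    have hρ := c.ρ_ge
    obtain ⟨q1, hq1⟩ := D.P.pr_exists E x
    obtain ⟨q2, hq2⟩ := D.P.pr_exists E y
    have hhE : h ∈ E.1 := D.Hs_le hh
    have hq3 := Sys.pr_smul_self hq2 hhE
    have a1 := D.ang_pr (x := x) (y := h • y) (T := 3 * (120 * c.ρ)) hLE hq1 hq3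
    have b1 := D.rot_big hh h1 q2
    have g3 := D.P.pr_two hq1 hq2
    have t1 := S.M.tri q2 q1 (h • q2)
    have s1 := S.M.symm q2 q1
    have t5 := S.M.tri x q1 (h • y)
    have t6 := S.M.tri q1 (h • q2) (h • y)
    have i2 := S.iso h q2 y
    omega

/-- nontrivial elements of `N` move points of `X` a lot (`gr` at `x`) -/
theorem N_big {n : S.G} (hn : n ∈ D.R.N) (h1 : n ≠ 1) (x : S.X) :
    1000000000 * c.ρ ≤ S.M.d x (n • x) := by
  have hx : (Sum.inl x : S.Z c) ∉ D.R.apex := by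
    rintro ⟨E, hE⟩
    cases hE
  obtain ⟨e, ⟨E, rfl⟩, h, hh, hh1, hLE⟩ := RotSys.gr (R := D.R) hx hn h1
  have hρ := c.ρ_ge
  obtain ⟨q1, hq1⟩ := D.P.pr_exists E x
  obtain ⟨q2, hq2⟩ := D.P.pr_exists E (n • x)
  have hhE : h ∈ E.1 := D.Hs_le hh
  have hq3 := Sys.pr_smul_self hq1 hhE
  have a1 := D.ang_pr (x := h • x) (y := n • x) (T := 2 * (120 * c.ρ)) hLE hq3 hq2
  have b1 := D.rot_big hh hh1 q1
  have g3 := D.P.pr_lip hq1 hq2
  have t1 := S.M.tri q1 q2 (h • q1)
  have s1 := S.M.symm q2 (h • q1)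
  omega

/-- `N` is torsion-free (`center` and `N_big`) -/
theorem N_torsion {n : S.G} (hn : n ∈ D.R.N) (h1 : IsOfFinOrder n) : n = 1 := by
  by_contra hne
  obtain ⟨p, hp⟩ := D.P.center h1
  have h2 := hp 1
  rw [zpow_one] at h2
  have h3 := D.N_big hn hne p
  have hρ := c.ρ_ge
  omega

/-- LEMMA N: if all angles between `x` and `y` are at most `T` then `d x y ≤ d̂ x y (T + ρ)`. Along a geodesic of the cone-off, `X`-edges
have length `≤ ρ`, and if the geodesic passes through an apex `F` the two neighbours are germs towards `x` and towards `y`. -/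
theorem lemmaN {x y : S.X} {T : ℕ}
    (h : ∀ E : S.Killed c.K, D.R.LE (Sum.inr E) (Sum.inl x) (Sum.inl y) T) :
    S.M.d x y ≤ (S.C c).d (Sum.inl x) (Sum.inl y) * (T + c.ρ) := by
  obtain ⟨w, hw⟩ := GMet.exists_geo (S.C c) (Sum.inl x) (Sum.inl y)
  set m := (S.C c).d (Sum.inl x) (Sum.inl y) with hm
  have hstep : ∀ i < m, (S.C c).d (w i) (w (i + 1)) = 1 := by
    intro i hi
    have := hw.2.2 i (i + 1) (by omega) (by omega)
    omega
  have key : ∀ i ≤ m, ∀ a : S.X, w i = Sum.inl a → S.M.d x a ≤ i * (T + c.ρ) := by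
    intro i
    induction i using Nat.strong_induction_on with
    | _ i ih =>
      intro hi b hb
      rcases i with _ | i
      · rw [hw.1] at hb
        rw [← Sum.inl_injective hb, S.M.self]
        omega
      · have hs := hstep i (by omega)
        rcases hwi : w i with a | F
        · have h1 := ih i (by omega) (by omega) a hwi
          rw [hwi, hb] at hs
          have h2 : S.M.d a b ≤ c.ρ := ((Sys.C_adj _ _).1 hs).2
          have t := S.M.tri x a b
          have e : (i + 1) * (T + c.ρ) = i * (T + c.ρ) + (T + c.ρ) := by ring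
          omega
        · rcases i with _ | i
          · rw [hw.1] at hwi
            cases hwi
          · have hs' := hstep i (by omega)
            rw [hwi, (S.C c).symm] at hs'
            obtain ⟨a, ha⟩ := nb_inl hs'
            have h1 := ih i (by omega) (by omega) a ha
            have g1 : (Sum.inl a : S.Z c) ∈ (S.C c).Germ (Sum.inr F) (Sum.inl x) := by
              refine ⟨by rw [← ha]; exact hs', ?_⟩
              have e1 := hw.2.2 0 i (by omega) (by omega)
              have e2 := hw.2.2 0 (i + 1) (by omega) (by omega)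
              rw [hw.1, ha, (S.C c).symm] at e1
              rw [hw.1, hwi, (S.C c).symm] at e2
              omega
            have g2 : (Sum.inl b : S.Z c) ∈ (S.C c).Germ (Sum.inr F) (Sum.inl y) := by
              refine ⟨by rw [← hb, ← hwi]; exact hs, ?_⟩
              have e1 := hw.2.2 (i + 1 + 1) m (by omega) (by omega)
              have e2 := hw.2.2 (i + 1) m (by omega) (by omega)
              rw [hw.2.1, hb] at e1
              rw [hw.2.1, hwi] at e2
              omega
            have h2 : S.M.d a b ≤ T := h F _ g1 _ g2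
            have t := S.M.tri x a b
            have e : (i + 1 + 1) * (T + c.ρ) = i * (T + c.ρ) + 2 * (T + c.ρ) := by ring
            omega
  exact key m le_rfl y hw.2.1

end KData
end BG
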