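import Pool.Agent.Helper76.BG.LA
import Pool.Agent.Helper76.BG.AngBasic

/-!
# BG30: the rotating system of a group in the class `P`
-/

set_option autoImplicit false

namespace BG

/-- The data for one step: a group in the class `P` and an exponent `n` or `3n` for each killed subgroup. -/
structure KData (c : Cst) (S : Sys) where
  P : S.InP c
  e : S.Killed c.K → ℕ
  e_or : ∀ E, e E = c.n ∨ e E = 3 * c.n
  e_smul : ∀ (g : S.G) (E : S.Killed c.K), e (g • E) = e E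
  e_V : (∀ E, e E = c.n) ∨ (∀ g : S.G, IsOfFinOrder g → g = 1)

namespace KData

variable {c : Cst} {S : Sys} (D : KData c S)

/-- the rotation groups -/
noncomputable def Hs : S.Z c → Subgroup S.G
  | Sum.inl _ => ⊥
  | Sum.inr E => Subgroup.zpowers (Sys.gen E ^ D.e E)

/-- the length on base points -/
def ln : S.Z c → S.Z c → ℕ
  | Sum.inl x, Sum.inl y => S.M.d x y
  | _, _ => 0

theorem n_pos (c : Cst) : 0 < c.n := by
  rw [c.n_eq]; positivity

theorem e_pos (E : S.Killed c.K) : 0 < D.e E := by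
  rcases D.e_or E with h | h <;> have := n_pos c <;> omega

/-- nontrivial rotations move every point of `X` by at least `1200000000 ρ` (`gen_growth` and `n_ge`) -/
theorem rot_big {E : S.Killed c.K} {h : S.G} (hh : h ∈ D.Hs (Sum.inr E)) (h1 : h ≠ 1) (y : S.X) :
    1200000000 * c.ρ ≤ S.M.d y (h • y) := by
  obtain ⟨z, hz⟩ := Subgroup.mem_zpowers_iff.1 (show h ∈ Subgroup.zpowers (Sys.gen E ^ D.e E) from hh)
  have hz0 : z ≠ 0 := by
    rintro rfl
    apply h1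
    rw [← hz]
    simp
  have hh' : h = Sys.gen E ^ ((D.e E : ℤ) * z) := by
    rw [zpow_mul, zpow_natCast, hz]
  have hg := D.P.gen_growth E y ((D.e E : ℤ) * z)
  rw [← hh'] at hg
  have hab : ((D.e E : ℤ) * z).natAbs = D.e E * z.natAbs := by
    rw [Int.natAbs_mul, Int.natAbs_natCast]
  rw [hab] at hg
  have hz1 : 1 ≤ z.natAbs := by
    have := Int.natAbs_pos.2 hz0
    omega
  have he : c.n ≤ D.e E := by
    rcases D.e_or E with h | h <;> omega
  have h2 : c.n ≤ D.e E * z.natAbs := by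
    calc c.n = c.n * 1 := by ring
      _ ≤ D.e E * z.natAbs := Nat.mul_le_mul he hz1
  have h3 : c.q * (1200000000 * c.ρ) ≤ c.q * S.M.d y (h • y) := by
    calc c.q * (1200000000 * c.ρ) ≤ 94 * 69 * c.n := c.n_ge
      _ ≤ 94 * 69 * (D.e E * z.natAbs) := Nat.mul_le_mul_left _ h2
      _ ≤ _ := hg
  have hq : 0 < c.q := by
    have := c.q_ge
    omega
  exact Nat.le_of_mul_le_mul_left h3 hq

theorem Hs_le {E : S.Killed c.K} {h : S.G} (hh : h ∈ D.Hs (Sum.inr E)) : h ∈ E.1 := by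
  obtain ⟨z, hz⟩ := Subgroup.mem_zpowers_iff.1 (show h ∈ Subgroup.zpowers (Sys.gen E ^ D.e E) from hh)
  rw [(Sys.gen_spec E).2.1, ← hz]
  exact Subgroup.zpow_mem _ (Subgroup.pow_mem _ (Subgroup.mem_zpowers _) _) _

theorem Hs_conj (g : S.G) (E : S.Killed c.K) {h : S.G} (hh : h ∈ D.Hs (Sum.inr E)) :
    g * h * g⁻¹ ∈ D.Hs (Sum.inr (g • E)) := by
  obtain ⟨z, hz⟩ := Subgroup.mem_zpowers_iff.1 (show h ∈ Subgroup.zpowers (Sys.gen E ^ D.e E) from hh)
  show g * h * g⁻¹ ∈ Subgroup.zpowers (Sys.gen (g • E) ^ D.e (g • E))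
  rw [D.e_smul]
  have h1 : g * h * g⁻¹ = ((g * Sys.gen E * g⁻¹) ^ D.e E) ^ z := by
    rw [conj_pow, conj_zpow, hz]
  rcases Sys.gen_smul g E with h2 | h2
  · rw [h1, h2]
    exact Subgroup.zpow_mem _ (Subgroup.mem_zpowers _) _
  · have h3 : g * Sys.gen E * g⁻¹ = (Sys.gen (g • E))⁻¹ := by
      rw [h2, inv_inv]
    rw [h1, h3, inv_pow]
    exact Subgroup.zpow_mem _ (Subgroup.inv_mem _ (Subgroup.mem_zpowers _)) _

/-- neighbours of an apex are points of `X` -/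
theorem nb_inl {E : S.Killed c.K} {v : S.Z c} (hv : (S.C c).d (Sum.inr E) v = 1) :
    ∃ y : S.X, v = Sum.inl y := by
  rcases v with y | F
  · exact ⟨y, rfl⟩
  · exact absurd hv (Sys.C_inr_inr E F)

theorem smul_inr (g : S.G) (E : S.Killed c.K) :
    (g • (Sum.inr E : S.Z c)) = Sum.inr (g • E) := rfl

theorem smul_inl (g : S.G) (x : S.X) :
    (g • (Sum.inl x : S.Z c)) = Sum.inl (g • x) := rfl

include D in
/-- the decrease property. germs `y1 ∈ Germ E x`, `y2 ∈ Germ E (h y)`: `d (π x) (h π y) ≤ T + 56ρ` (`germ_proj`); and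
`T + 360ρ < d y1' y2'` for some germs of `x`, `y`, so `d (π x) (π y) > T + 304ρ`; `pr_two`. -/
theorem dec_X {E : S.Killed c.K} {h : S.G} (hh : h ∈ E.1) (x y : S.X) {T : ℕ}
    (h1 : AngLE (S.C c) (fun _ => ln) (Sum.inr E) (Sum.inl x) (Sum.inl (h • y)) T)
    (h2 : ¬ AngLE (S.C c) (fun _ => ln) (Sum.inr E) (Sum.inl x) (Sum.inl y) (T + 3 * (120 * c.ρ))) :
    S.M.d x (h • y) < S.M.d x y := by
  have hE : h • E = E := Sys.smul_self_killed hh
  unfold AngLE at h1 h2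
  push Not at h2
  obtain ⟨v1, hv1, v2, hv2, h12⟩ := h2
  obtain ⟨y1, rfl⟩ := nb_inl hv1.1
  obtain ⟨y2, rfl⟩ := nb_inl hv2.1
  have hv3 : (Sum.inl (h • y2) : S.Z c) ∈ (S.C c).Germ (Sum.inr E) (Sum.inl (h • y)) := by
    have e1 : (Sum.inl (h • y2) : S.Z c) = h • (Sum.inl y2 : S.Z c) := rfl
    have e2 : (Sum.inl (h • y) : S.Z c) = h • (Sum.inl y : S.Z c) := rfl
    have e3 : (Sum.inr E : S.Z c) = h • (Sum.inr E : S.Z c) := by
      rw [smul_inr, hE]
    constructor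
    · rw [e1, e3, Sys.C_iso]
      exact hv2.1
    · rw [e1, e2, e3, Sys.C_iso, Sys.C_iso]
      exact hv2.2
  have h3 := h1 _ hv1 _ hv3
  change S.M.d y1 (h • y2) ≤ T at h3
  change T + 3 * (120 * c.ρ) < S.M.d y1 y2 at h12
  obtain ⟨q1, hq1⟩ := D.P.pr_exists E x
  obtain ⟨q2, hq2⟩ := D.P.pr_exists E y
  have g1 := D.P.germ_proj E hv1 hq1
  have g2 := D.P.germ_proj E hv2 hq2
  have g3 := D.P.pr_two hq1 hq2
  have t1 := S.M.tri y1 q1 y2
  have t2 := S.M.tri q1 q2 y2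
  have s1 := S.M.symm y2 q2
  have t3 := S.M.tri q1 y1 (h • q2)
  have t4 := S.M.tri y1 (h • y2) (h • q2)
  have i1 := S.iso h y2 q2
  have s2 := S.M.symm y1 q1
  have t5 := S.M.tri x q1 (h • y)
  have t6 := S.M.tri q1 (h • q2) (h • y)
  have i2 := S.iso h q2 y
  have hρ := c.ρ_ge
  omega

/-- THE ROTATING SYSTEM -/
noncomputable def R : RotSys S.G (S.Z c) where
  M := S.C c
  iso := Sys.C_iso
  apex := Set.range Sum.inr
  len := ln
  θ := 120 * c.ρ
  Θ := 1200000000 * c.ρ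
  H := D.Hs
  pt := Sum.inl S.pt
  pt_base := by
    rintro ⟨E, hE⟩
    cases hE
  apex_smul := by
    rintro g _ ⟨E, rfl⟩
    exact ⟨g • E, rfl⟩
  nadj := by
    rintro _ ⟨E, rfl⟩ _ ⟨F, rfl⟩
    exact Sys.C_inr_inr E F
  len_self := by
    rintro (x | E) hx
    · exact S.M.self x
    · exact absurd ⟨E, rfl⟩ hx
  len_symm := by
    rintro (x | E) (y | F) hx hy
    · exact S.M.symm x y
    · exact absurd ⟨F, rfl⟩ hy
    · exact absurd ⟨E, rfl⟩ hx
    · exact absurd ⟨E, rfl⟩ hx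
  len_tri := by
    rintro (x | E) (y | F) (z | F') hx hy hz
    · exact S.M.tri x y z
    · exact absurd ⟨F', rfl⟩ hz
    · exact absurd ⟨F, rfl⟩ hy
    · exact absurd ⟨F', rfl⟩ hz
    · exact absurd ⟨E, rfl⟩ hx
    · exact absurd ⟨E, rfl⟩ hx
    · exact absurd ⟨E, rfl⟩ hx
    · exact absurd ⟨E, rfl⟩ hx
  len_smul := by
    rintro g (x | E) (y | F)
    · exact S.iso g x y
    · rfl
    · rfl
    · rfl
  θ_pos := by
    have := c.ρ_ge
    omega
  big := by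
    omega
  LA := by
    rintro _ ⟨E, rfl⟩ z w hz hw hcut v hv v' hv'
    obtain ⟨y, rfl⟩ := nb_inl hv.1
    obtain ⟨y', rfl⟩ := nb_inl hv'.1
    exact D.P.large_angle E hz hw hcut hv hv'
  H_conj := by
    rintro g _ ⟨E, rfl⟩ h hh
    exact D.Hs_conj g E hh
  H_fix := by
    rintro _ ⟨E, rfl⟩ h hh
    rw [smul_inr, Sys.smul_self_killed (D.Hs_le hh)]
  rot := by
    rintro _ ⟨E, rfl⟩ h hh h1 v hv
    obtain ⟨y, rfl⟩ := nb_inl hv
    exact D.rot_big hh h1 y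
  dec := by
    rintro _ ⟨E, rfl⟩ h hh (x | F) (y | F') hx hy T h1 h2
    · exact D.dec_X (D.Hs_le hh) x y h1 h2
    · exact absurd ⟨F', rfl⟩ hy
    · exact absurd ⟨F, rfl⟩ hx
    · exact absurd ⟨F, rfl⟩ hx
  stab := by
    rintro _ ⟨E, rfl⟩ _ ⟨F, rfl⟩ hne g hg1 hg2
    rw [smul_inr] at hg1 hg2
    have h1 := D.P.killed_stab (Sum.inr_injective hg1)
    have h2 := D.P.killed_stab (Sum.inr_injective hg2)
    by_contra hg
    exact hne (by rw [D.P.killed_inter h1 h2 hg])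

theorem R_M : D.R.M = S.C c := rfl
theorem R_θ : D.R.θ = 120 * c.ρ := rfl
theorem R_Θ : D.R.Θ = 1200000000 * c.ρ := rfl
theorem R_apex : D.R.apex = Set.range Sum.inr := rfl
theorem R_H (z : S.Z c) : D.R.H z = D.Hs z := rfl
theorem R_len (x y : S.X) : D.R.len (Sum.inl x) (Sum.inl y) = S.M.d x y := rfl

end KData
end BG
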