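import Pool.Agent.Helper76.BG.NonRed
import Pool.Agent.Helper76.BG.OvBound
import Pool.Agent.Helper76.BG.KQuot

/-!
# BG36: minimal lifts are reduced
-/

set_option autoImplicit false

namespace BG
namespace KData

variable {c : Cst} {S : Sys} (D : KData c S)

/-- `(g, p)`: minimal displacement among all lifts of `φ g` and all points. Proof. Suppose `d p (h g^k p) + 1200ρ ≤ d p (g^k p)`.
`D0 = d p (g p) ≥ K - 413` (`mem_killed`), `minPt_double` (`a = 276`), triples of `p_i = g^i p` have slack `552`. `q, q'` the projections of `p`,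
`g^k p` to `ax E`, `ℓ = d q q'`. `nonred` (`s0 = 1200ρ`, `Θ0 = 1200000000ρ`): `d q (h q') + s0 ≤ ℓ + 21000`, `ℓ` large. `ovBound`: `ℓ ≤ D0 + 8K`.
`x = p_{-M}, y = p_{k+M}`: `q, q'` have slack `ν = 22104` on `(x,y)`, `d x q' ∈ [d x q + ℓ - ν, d x q + ℓ]`. `axis_near`: a point `u` of the
axis path (so `MinPt`, `d u (g u) = D0`) with `d x u = d x q`, slack `1104`, `d q u ≤ 24000`. `g u` has slack `1380`, position in
`[d x q + D0 - 690, d x q + D0 + 138]` (`shift`). `slk_dist`: `d q' (g u) ≤ |d x q' - d x (g u)| + ν + 138`. Hence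
`d u (h g u) ≤ d u q + d q (h q') + d q' (g u) ≤ 24000 + (ℓ - s0 + 21000) + d q' (g u)`, which is `≤ D0 - s0 + 100000` if
`d x q' ≤ d x (g u)` and `≤ 2ℓ - D0 - s0 + 100000 ≤ D0 + 16K - s0 + 100000` otherwise; in both cases `< D0`, contradicting minimality (`φ (h g) = φ g`). -/
theorem slide {g : S.G} {p : S.X} (hg : ¬ IsOfFinOrder g) (hE : ∀ E : S.Killed c.K, g ∉ E.1)
    (hmin : ∀ (g' : S.G) (p' : S.X), D.φ g' = D.φ g → S.M.d p (g • p) ≤ S.M.d p' (g' • p'))
    (k : ℕ) (E : S.Killed c.K) (h : S.G) (hh : h ∈ D.Hs (Sum.inr E)) (h1 : h ≠ 1) :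
    S.M.d p (g ^ k • p) < S.M.d p (h • g ^ k • p) + 1200 * c.ρ := by
  by_contra hcon
  push Not at hcon
  have P : S.InP c := D.P
  have hK := c.K_ge
  have hb := c.b_ge
  have hq0 := c.q_ge
  have hρ := c.ρ_ge
  have hyp := P.hyp
  have hiso : IsoAct S.G S.M := S.iso
  -- `p` is a point of minimal displacement
  have hp : MinPt S.M g p := fun z => hmin g z rfl
  -- `D0` is large
  have hD0 : c.K < S.M.d p (g • p) + 414 := by
    by_contra hlt
    push Not at hlt
    obtain ⟨E', hE'⟩ := P.mem_killed (by omega) hg hlt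
    exact hE E' hE'
  have hdbl := minPt_double hiso hyp hp (by omega)
  have htri : ∀ {i j l : ℤ}, i ≤ j → j ≤ l →
      S.M.d (g ^ i • p) (g ^ j • p) + S.M.d (g ^ j • p) (g ^ l • p)
        ≤ S.M.d (g ^ i • p) (g ^ l • p) + 552 := by
    intro i j l hij hjl
    have := orbit_triple hiso hyp (a := 276) (by omega) (by omega) (g := g) (p := p) hij hjl
    omega
  have hhE : h ∈ E.1 := D.Hs_le hh
  obtain ⟨q, hq⟩ := P.pr_exists E p
  obtain ⟨q', hq'⟩ := P.pr_exists E (g ^ k • p)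
  have hnr := P.nonred hhE hq hq' (D.rot_big hh h1 q') (s0 := 1200 * c.ρ) (by omega) hcon
  obtain ⟨hn1, hn2⟩ := hnr
  have hov := P.ovBound (v := g) (p := p) (a := 276) (by omega) (by omega) (by omega) hE E k hq hq'
  have htwo : S.M.d p q + S.M.d q q' + S.M.d q' (g ^ k • p) ≤ S.M.d p (g ^ k • p) + 21000 := by
    rcases P.pr_two hq hq' with h2 | h2
    · omega
    · exact h2
  -- the number `M`
  set N : ℕ := S.M.d p (g • p) + 30000 + S.M.d p q + S.M.d q (g ^ k • p) with hN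
  have hgr : N ≤ S.M.d p (g ^ N • p) := by
    have h3 := P.growth_big (by omega) hg hE p N
    have h4 : N * 1 ≤ N * (c.K - 414) := Nat.mul_le_mul_left N (by omega)
    omega
  set x : S.X := g ^ (-(N : ℤ)) • p with hx
  set y : S.X := g ^ ((k : ℤ) + (N : ℤ)) • p with hy
  have hdx : S.M.d x p = S.M.d p (g ^ N • p) := by
    have h3 := S.iso (g ^ N) x p
    have h4 : g ^ N • x = p := by
      rw [hx, smul_smul, ← zpow_natCast, ← zpow_add]
      simp
    rw [h4] at h3
    exact h3.symm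
  have hdy : S.M.d (g ^ k • p) y = S.M.d p (g ^ N • p) := by
    have h3 := S.iso (g ^ k) p (g ^ N • p)
    rw [smul_smul, ← pow_add] at h3
    have h4 : y = g ^ (k + N) • p := by
      rw [hy, ← zpow_natCast]
      push_cast
      rfl
    rw [h4]
    exact h3
  have t1 : S.M.d x p + S.M.d p (g ^ k • p) ≤ S.M.d x (g ^ k • p) + 552 := by
    have h3 := htri (i := -(N : ℤ)) (j := 0) (l := (k : ℤ)) (by omega) (by omega)
    rw [zpow_zero, one_smul, zpow_natCast] at h3
    exact h3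
  have t2 : S.M.d x (g ^ k • p) + S.M.d (g ^ k • p) y ≤ S.M.d x y + 552 := by
    have h3 := htri (i := -(N : ℤ)) (j := (k : ℤ)) (l := (k : ℤ) + (N : ℤ)) (by omega) (by omega)
    rw [zpow_natCast] at h3
    exact h3
  have hgy : S.M.d x y + S.M.d y (g • y) ≤ S.M.d x (g • y) + 552 := by
    have h3 := htri (i := -(N : ℤ)) (j := (k : ℤ) + (N : ℤ)) (l := (k : ℤ) + (N : ℤ) + 1)
      (by omega) (by omega)
    have h4 : g ^ ((k : ℤ) + (N : ℤ) + 1) • p = g • y := by
      rw [hy, smul_smul, ← zpow_one_add, add_comm 1]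
    rw [h4] at h3
    exact h3
  have hdisp : ∀ i : ℤ, S.M.d (g ^ i • p) (g • g ^ i • p) = S.M.d p (g • p) := by
    intro i
    have h3 : g • g ^ i • p = g ^ i • g • p := by
      rw [smul_smul, smul_smul]
      exact congrArg (fun z => z • p) ((Commute.refl g).zpow_right i).eq
    rw [h3, S.iso]
  have hxx : S.M.d x (g • x) = S.M.d p (g • p) := hdisp _
  have hyy : S.M.d y (g • y) = S.M.d p (g • p) := hdisp _
  -- slack of `q` and `q'`
  have a1 := S.M.tri x p q
  have a2 := S.M.tri q (g ^ k • p) y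
  have a3 := S.M.tri q q' (g ^ k • p)
  have a4 := S.M.tri p q q'
  have a5 := S.M.tri x p q'
  have a6 := S.M.tri q' (g ^ k • p) y
  have a7 := S.M.tri x q q'
  have a8 := S.M.tri x q' y
  have a9 := S.M.tri x q p
  have a10 := S.M.symm q p
  have sq : S.M.Slk 22104 x q y := by
    show _ ≤ _
    omega
  have sq' : S.M.Slk 22104 x q' y := by
    show _ ≤ _
    omega
  have pos1 : S.M.d x q + S.M.d q q' ≤ S.M.d x q' + 22104 := by omega
  have sq'2 : S.M.d x q' + S.M.d q' y ≤ S.M.d x y + 22104 := sq'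
  have posq : S.M.d x q ≤ S.M.d x y := by omega
  obtain ⟨u, l, hl1, hl2, hbt, hus, hupos, hqu⟩ := axis_near hiso hyp (f := g) (y := p) (p := q)
    (a := 276) (s := 22104) (i := -(N : ℤ)) (j := (k : ℤ) + (N : ℤ)) (by omega) (by omega)
    (by omega) sq
  have hxu : S.M.d x u = S.M.d x q := hupos posq
  have hus' : S.M.Slk 1104 x u y := by
    have h3 : S.M.d x u + S.M.d u y ≤ S.M.d x y + (2 * 276 + 8 * 69) := hus
    show _ ≤ _
    omega
  have hmu : MinPt S.M g u := minPt_btw hiso hp l hbt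
  have hud : S.M.d u (g • u) = S.M.d p (g • p) := le_antisymm (hmu p) (hp u)
  have b1 := S.M.tri (g ^ k • p) u y
  have b2 := S.M.tri (g ^ k • p) q u
  have b3 := S.M.symm (g ^ k • p) q
  have hdeep1 : 2 * S.M.d p (g • p) + 1104 + 4 * 69 + 2 ≤ 2 * S.M.d x u := by omega
  have hdeep2 : 2 * S.M.d p (g • p) + 1104 + 4 * 69 + 2 ≤ 2 * S.M.d u y := by omega
  have hgs := slk_smul hiso hyp (g := g) (D := S.M.d p (g • p)) hxx.le hyy.le hus' hdeep1 hdeep2
  have hgs' : S.M.Slk 22104 x (g • u) y := by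
    have h3 : S.M.d x (g • u) + S.M.d (g • u) y ≤ S.M.d x y + (1104 + 4 * 69) := hgs
    show _ ≤ _
    omega
  obtain ⟨sh1, sh2⟩ := shift hiso hyp (g := g) (D := S.M.d p (g • p)) hxx.le hyy.le hus' (by omega)
  have c1 := S.M.tri x y (g • y)
  have hd := hyp.slk_dist sq' hgs'
  -- the contradiction
  have hφ : D.φ (h * g) = D.φ g := by
    rw [map_mul, (D.φ_killed_one hhE).mpr hh, one_mul]
  have hfin := hmin (h * g) u hφ
  have e1 := S.M.tri u q ((h * g) • u)
  have e2 := S.M.tri q (h • q') ((h * g) • u)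
  have e3 : S.M.d (h • q') ((h * g) • u) = S.M.d q' (g • u) := by
    rw [mul_smul, S.iso]
  have e4 := S.M.symm u q
  omega

end KData
end BG
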