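import Pool.Agent.Helper76.BG.Slide
import Pool.Agent.Helper76.BG.QGrow

/-!
# BG37: the trichotomy for elements of the quotient; axioms `T` and `O` for the quotient
-/

set_option autoImplicit false

namespace BG
namespace KData

variable {c : Cst} {S : Sys} (D : KData c S)

theorem exists_min_lift (x : D.Sq.G) : ∃ (g : S.G) (p : S.X), D.φ g = x ∧
    ∀ (g' : S.G) (p' : S.X), D.φ g' = D.φ g → S.M.d p (g • p) ≤ S.M.d p' (g' • p') := by
  classical
  obtain ⟨g0, hg0⟩ := D.φ_surj x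
  have hex : ∃ m : ℕ, ∃ (g : S.G) (p : S.X), D.φ g = x ∧ S.M.d p (g • p) = m :=
    ⟨_, g0, S.pt, hg0, rfl⟩
  obtain ⟨g, p, h1, h2⟩ := Nat.find_spec hex
  refine ⟨g, p, h1, fun g' p' h3 => ?_⟩
  rw [h2]
  exact Nat.find_min' hex ⟨g', p', h3.trans h1, rfl⟩

/-- TRICHOTOMY. Take a minimal lift `(g,p)`; if `g` is neither torsion nor in a killed subgroup, `slide`, `ovBound` (`a = 276`) and
`quot_growth` with `Λ = d p (g p) + 8K`. -/
theorem trichotomy (x : D.Sq.G) :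
    (∃ g, D.φ g = x ∧ IsOfFinOrder g) ∨ (∃ (g : S.G) (E : S.Killed c.K), D.φ g = x ∧ g ∈ E.1) ∨
      ∃ (g : S.G) (p : S.X), D.φ g = x ∧ c.K ≤ S.M.d p (g • p) + 414 ∧ ∀ k : ℕ,
        k * (S.M.d p (g • p) - 414) ≤
          D.Sq.M.d (D.px p) (x ^ k • D.px p) * (S.M.d p (g • p) + 8 * c.K + 57 * c.ρ) := by
  obtain ⟨g, p, hx, hmin⟩ := D.exists_min_lift x
  by_cases hg : IsOfFinOrder g
  · exact Or.inl ⟨g, hx, hg⟩
  by_cases hE : ∃ E : S.Killed c.K, g ∈ E.1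
  · obtain ⟨E, hE⟩ := hE
    exact Or.inr (Or.inl ⟨g, E, hx, hE⟩)
  push Not at hE
  refine Or.inr (Or.inr ⟨g, p, hx, ?_, ?_⟩)
  · by_contra hcon
    obtain ⟨E, h⟩ := D.P.mem_killed (K := c.K) (by have := c.K_ge; omega) hg (x := p) (by omega)
    exact hE E h
  · have hK := c.K_ge
    have hbig : c.K ≤ S.M.d p (g • p) + 414 := by
      by_contra hcon
      obtain ⟨E, h⟩ := D.P.mem_killed (K := c.K) (by omega) hg (x := p) (by omega)
      exact hE E h
    have hmp : MinPt S.M g p := fun z => hmin g z rfl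
    have h2 := minPt_double S.iso D.P.hyp hmp (by omega)
    intro k
    have hgr := growth_all S.iso D.P.hyp hmp (by omega) p k
    have hq := D.quot_growth (v := g) (p := p) (Λ := S.M.d p (g • p) + 8 * c.K)
      (fun E k r r' hr hr' => D.P.ovBound (a := 276) (by omega) (by omega) (by omega) hE E k hr hr')
      (fun k E h hh h1 => D.slide hg hE hmin k E h hh h1) k
    rw [hx] at hq
    exact le_trans hgr hq

/-- torsion elements of the quotient come from torsion elements or from killed subgroups -/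
theorem torsion_cases {x : D.Sq.G} (hx : IsOfFinOrder x) :
    (∃ g, D.φ g = x ∧ IsOfFinOrder g) ∨ (∃ (g : S.G) (E : S.Killed c.K), D.φ g = x ∧ g ∈ E.1) := by
  rcases D.trichotomy x with h | h | ⟨g, p, hgx, hK, hk⟩
  · exact Or.inl h
  · exact Or.inr h
  · exfalso
    obtain ⟨n, hn, hxn⟩ := isOfFinOrder_iff_pow_eq_one.1 hx
    have h1 := hk n
    rw [hxn, one_smul, D.Sq.M.self, zero_mul] at h1
    have hKge := c.K_ge
    have h2 : n * (S.M.d p (g • p) - 414) = 0 := Nat.le_zero.1 h1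
    rcases Nat.mul_eq_zero.1 h2 with h3 | h3 <;> omega

private theorem arith_T {q d K ρ D0 : ℕ} (hq : 4 * 10 ^ 7 ≤ q) (hK : 10 ^ 8 ≤ K) (hρ : ρ ≤ 10 * K)
    (hD : K ≤ D0 + 414) (h : q * (D0 - 414) ≤ (D0 + 8 * K + 57 * ρ) * d) : 6900 ≤ d := by
  by_contra hcon
  have h1 : 4 * 10 ^ 7 * (D0 - 414) ≤ q * (D0 - 414) := Nat.mul_le_mul_right _ hq
  have h2 : (D0 + 8 * K + 57 * ρ) * d ≤ (D0 + 8 * K + 57 * ρ) * 6899 :=
    Nat.mul_le_mul_left _ (by omega)
  omega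

/-- axiom `T` for the quotient. `D0 = d p (g p)`, `A = q (D0 - 414)`, `B = D0 + 8K + 57ρ`: `A N ≤ B d (x^q)^N`, so `A ≤ B d z (x^q z)` for all `z`
(`stable`, `k = 1`); with `D0 ≥ K - 414`, `ρ ≤ 10K`, `q ≥ 4·10^7` this gives `d z (x^q z) ≥ 6900`. -/
theorem T_q (x : D.Sq.G) : IsOfFinOrder x ∨ ∀ z, 6900 ≤ D.Sq.M.d z (x ^ c.q • z) := by
  rcases D.trichotomy x with ⟨g, rfl, hg⟩ | ⟨g, E, rfl, hg⟩ | ⟨g, p, hgx, hK, hk⟩
  · exact Or.inl (MonoidHom.isOfFinOrder D.φ hg)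
  · exact Or.inl (D.φ_killed hg)
  · right
    intro z
    have h1 : ∀ N : ℕ, c.q * (S.M.d p (g • p) - 414) * N ≤
        (S.M.d p (g • p) + 8 * c.K + 57 * c.ρ) * D.Sq.M.d (D.px p) ((x ^ c.q) ^ N • D.px p) + 0 := by
      intro N
      have h2 := hk (c.q * N)
      rw [pow_mul] at h2
      calc c.q * (S.M.d p (g • p) - 414) * N = c.q * N * (S.M.d p (g • p) - 414) := by ring
        _ ≤ _ := h2
        _ = _ := by ring
    have h3 := stable (M := D.Sq.M) D.Sq.iso h1 z 1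
    rw [mul_one, pow_one] at h3
    have hKge := c.K_ge
    exact arith_T c.q_ge (by omega) c.ρ_le hK h3

/-- axiom `O` for the quotient -/
theorem O_q (x : D.Sq.G) (hx : IsOfFinOrder x) : ∃ k, x ^ 3 ^ k = 1 := by
  rcases D.torsion_cases hx with ⟨g, rfl, hg⟩ | ⟨g, E, rfl, hg⟩
  · obtain ⟨k, hk⟩ := D.P.O g hg
    exact ⟨k, by rw [← map_pow, hk, map_one]⟩
  · have h1 := D.φ_killed_pow hg
    rcases D.e_or E with h2 | h2
    · exact ⟨c.t, by rw [← c.n_eq, ← h2]; exact h1⟩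
    · refine ⟨c.t + 1, ?_⟩
      have h3 : 3 ^ (c.t + 1) = D.e E := by
        rw [h2, c.n_eq, pow_succ, mul_comm]
      rw [h3]
      exact h1

end KData
end BG
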