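import Pool.Agent.Helper76.BG.HypA
import Pool.Agent.Helper76.BG.LocGlob

/-!
# BG03a: displacement of isometries, orbits
-/

set_option autoImplicit false

namespace BG

variable {G X : Type} [Group G] [MulAction G X] {M : GMet X} {δ : ℕ}

/-- minimal displacement points exist -/
theorem exists_minPt [Nonempty X] (f : G) : ∃ p : X, MinPt M f p :=
  ⟨Function.argmin (fun z => M.d z (f • z)), fun z => Function.argmin_le (fun z => M.d z (f • z)) z⟩

/-- Let `p` be a point of minimal displacement `D ≥ 4δ+2` of `g`. Then `2D ≤ d(p, g²p) + 4δ`.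
Proof: let `y` be the midpoint: `Btw p y (gp)`, `d p y = D/2`. `d(y, gy) ≥ D`, `d(gp,gy) = D/2`.
Four points `(p, gp; y, gy)` give `d(p,gy) ≥ D + D/2 - 2δ` (the other alternative would give `D ≤ 2δ`). Then
four points `(gp, g²p; gy, p)` give `d(p,g²p) ≥ 2D - 4δ` (the other alternative would give `D ≤ 4δ + 1`). -/
theorem minPt_double (hiso : IsoAct G M) (h : M.Hyp δ) {g : G} {p : X} (hp : MinPt M g p)
    (hD : 4 * δ + 2 ≤ M.d p (g • p)) :
    2 * M.d p (g • p) ≤ M.d p (g • g • p) + 4 * δ := by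
  obtain ⟨y, hy1, hy2⟩ := M.geo p (g • p) (M.d p (g • p) / 2) (by omega)
  have h1 := hp y
  have h2 := hiso g p y
  have h3 := hiso g y (g • p)
  have h4 := hiso g p (g • p)
  have h5 := h y (g • y) p (g • p)
  have h6 := h p (g • y) (g • p) (g • g • p)
  have s1 := M.symm y p
  have s2 := M.symm (g • y) (g • p)
  have s3 := M.symm (g • y) p
  rcases h5 with h5 | h5
  · omega
  · rcases h6 with h6 | h6 <;> omega

/-- for any isometry with `2 d(p,gp) ≤ d(p,g²p) + a` and `d(p,gp) > a + 3δ` the orbit is a quasi-geodesic: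
triples of integers -/
theorem orbit_triple (hiso : IsoAct G M) (h : M.Hyp δ) {g : G} {p : X} {a : ℕ}
    (h2 : 2 * M.d p (g • p) ≤ M.d p (g • g • p) + a) (hD : a + 3 * δ < M.d p (g • p))
    {i j k : ℤ} (hij : i ≤ j) (hjk : j ≤ k) :
    M.d (g ^ i • p) (g ^ j • p) + M.d (g ^ j • p) (g ^ k • p)
      ≤ M.d (g ^ i • p) (g ^ k • p) + a + 4 * δ := by
  have e1 : ∀ n : ℤ, M.d (g ^ n • p) (g ^ (n + 1) • p) = M.d p (g • p) := by
    intro n
    rw [zpow_add_one, mul_smul, hiso]
  have e2 : ∀ n : ℤ, M.d (g ^ n • p) (g ^ (n + 2) • p) = M.d p (g • g • p) := by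
    intro n
    rw [zpow_add, mul_smul, hiso, zpow_two, mul_smul]
  have h3 := GMet.locglob_triple (M := M) (δ := δ) (a := a) (k := (k - i).toNat)
    (x := fun n : ℕ => g ^ (i + n) • p) h
    (by
      intro n hn
      have a1 := e1 (i + n)
      have a2 := e1 (i + n + 1)
      have a3 := e2 (i + n)
      have b1 : i + ((n + 1 : ℕ) : ℤ) = i + n + 1 := by push_cast; ring
      have b2 : i + ((n + 2 : ℕ) : ℤ) = i + n + 1 + 1 := by push_cast; ring
      have b3 : i + ((n + 2 : ℕ) : ℤ) = i + n + 2 := by push_cast; ring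
      rw [b1, a1, b2, a2, ← b2, b3, a3]
      omega)
    (by
      intro n hn
      have b1 : i + ((n + 1 : ℕ) : ℤ) = i + n + 1 := by push_cast; ring
      rw [b1, e1]
      exact hD)
    (i := 0) (j := (j - i).toNat) (l := (k - i).toNat) (by omega) (by omega) le_rfl
  have c0 : i + ((0 : ℕ) : ℤ) = i := by simp
  have c1 : i + (((j - i).toNat : ℕ) : ℤ) = j := by omega
  have c2 : i + (((k - i).toNat : ℕ) : ℤ) = k := by omega
  rw [c0, c1, c2] at h3
  exact h3

/-- growth of the orbit of `p` -/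
theorem orbit_growth (hiso : IsoAct G M) (h : M.Hyp δ) {g : G} {p : X} {a : ℕ}
    (h2 : 2 * M.d p (g • p) ≤ M.d p (g • g • p) + a) (hD : a + 3 * δ < M.d p (g • p)) (k : ℕ) :
    k * M.d p (g • p) ≤ M.d p (g ^ k • p) + k * (a + 2 * δ) := by
  have e1 : ∀ n : ℕ, M.d (g ^ n • p) (g ^ (n + 1) • p) = M.d p (g • p) := by
    intro n
    rw [pow_succ, mul_smul, hiso]
  have e2 : ∀ n : ℕ, M.d (g ^ n • p) (g ^ (n + 2) • p) = M.d p (g • g • p) := by
    intro n
    rw [pow_add, mul_smul, hiso, pow_two, mul_smul]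
  have h3 := GMet.locglob_growth (M := M) (δ := δ) (a := a) (k := k)
    (x := fun n : ℕ => g ^ n • p) (ℓ := M.d p (g • p)) h
    (by
      intro n _
      have a1 := e1 n
      have a2 := e1 (n + 1)
      have a3 := e2 n
      have b : n + 1 + 1 = n + 2 := rfl
      rw [b] at a2
      omega)
    (by
      intro n _
      exact (e1 n).ge)
    hD (i := 0) (j := k) (Nat.zero_le k) le_rfl
  simp only [Nat.sub_zero, pow_zero, one_smul] at h3
  exact h3

end BG
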