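import Pool.Agent.Helper76.BG.TransA

/-!
# BG03b: stable length, growth, quasi-centers
-/

set_option autoImplicit false

namespace BG

variable {G X : Type} [Group G] [MulAction G X] {M : GMet X} {δ : ℕ}

private theorem pow_step (hiso : IsoAct G M) (g : G) (z : X) (k N : ℕ) :
    M.d z (g ^ (k * N) • z) ≤ N * M.d z (g ^ k • z) := by
  induction N with
  | zero => simp [M.self]
  | succ N ih =>
    have h1 := M.tri z (g ^ (k * N) • z) (g ^ (k * (N + 1)) • z)
    have h2 : M.d (g ^ (k * N) • z) (g ^ (k * (N + 1)) • z) = M.d z (g ^ k • z) := by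
      rw [Nat.mul_succ, pow_add, mul_smul, hiso]
    rw [h2] at h1
    rw [Nat.succ_mul]
    omega

/-- stable length trick: if `A * N ≤ B * d(p, g^N p) + C` for all `N` then `A * k ≤ B * d(z, g^k z)` for all `z`, `k`.
Proof: `d(p, g^(kN) p) ≤ N d(z, g^k z) + 2 d(p,z)`; if `B d(z,g^k z) + 1 ≤ A k`, take `N` large. -/
theorem stable (hiso : IsoAct G M) {g : G} {p : X} {A B C : ℕ}
    (hg : ∀ N : ℕ, A * N ≤ B * M.d p (g ^ N • p) + C) (z : X) (k : ℕ) :
    A * k ≤ B * M.d z (g ^ k • z) := by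
  by_contra hcon
  push Not at hcon
  have key : ∀ N : ℕ, N ≤ B * (2 * M.d p z) + C := by
    intro N
    have h1 := hg (k * N)
    have h2 := pow_step hiso g z k N
    have h3 := M.tri p z (g ^ (k * N) • p)
    have h4 := M.tri z (g ^ (k * N) • z) (g ^ (k * N) • p)
    have h5 : M.d (g ^ (k * N) • z) (g ^ (k * N) • p) = M.d z p := hiso _ _ _
    have h6 := M.symm z p
    have h7 : M.d p (g ^ (k * N) • p) ≤ N * M.d z (g ^ k • z) + 2 * M.d p z := by omega
    have h8 : B * M.d p (g ^ (k * N) • p) ≤ B * (N * M.d z (g ^ k • z) + 2 * M.d p z) :=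
      Nat.mul_le_mul_left _ h7
    have h9 : N * (B * M.d z (g ^ k • z) + 1) ≤ N * (A * k) := Nat.mul_le_mul_left _ hcon
    have h10 : B * (N * M.d z (g ^ k • z) + 2 * M.d p z)
        = N * (B * M.d z (g ^ k • z)) + B * (2 * M.d p z) := by ring
    have h11 : N * (B * M.d z (g ^ k • z) + 1) = N * (B * M.d z (g ^ k • z)) + N := by ring
    have h12 : A * (k * N) = N * (A * k) := by ring
    omega
  have := key (B * (2 * M.d p z) + C + 1)
  omega

/-- consequence: displacement grows linearly at all points. `D` the minimal displacement. -/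
theorem growth_all (hiso : IsoAct G M) (h : M.Hyp δ) {g : G} {p : X} (hp : MinPt M g p)
    (hD : 7 * δ + 2 ≤ M.d p (g • p)) (z : X) (k : ℕ) :
    k * (M.d p (g • p) - 6 * δ) ≤ M.d z (g ^ k • z) := by
  have h2 := minPt_double hiso h hp (by omega)
  have hg : ∀ N : ℕ, (M.d p (g • p) - 6 * δ) * N ≤ 1 * M.d p (g ^ N • p) + 0 := by
    intro N
    have h3 := orbit_growth hiso h h2 (by omega) N
    have h4 : (M.d p (g • p) - 6 * δ) * N + N * (4 * δ + 2 * δ) = N * M.d p (g • p) := by
      obtain ⟨e, he⟩ : ∃ e, M.d p (g • p) = e + 6 * δ := ⟨M.d p (g • p) - 6 * δ, by omega⟩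
      rw [he, Nat.add_sub_cancel]
      ring
    omega
  have h5 := stable hiso hg z k
  rw [Nat.mul_comm]
  omega

/-- powers of elements with positive growth are not torsion -/
theorem not_fin_of_growth {g : G} {p : X} {A B C : ℕ} (hA : 0 < A)
    (hg : ∀ N : ℕ, A * N ≤ B * M.d p (g ^ N • p) + C) : ¬ IsOfFinOrder g := by
  intro hfin
  obtain ⟨n, hn, hgn⟩ := isOfFinOrder_iff_pow_eq_one.mp hfin
  have h1 := hg (n * (C + 1))
  rw [pow_mul, hgn, one_pow, one_smul, M.self, Nat.mul_zero, Nat.zero_add] at h1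
  have h2 : C + 1 ≤ n * (C + 1) := Nat.le_mul_of_pos_left _ hn
  have h3 : n * (C + 1) ≤ A * (n * (C + 1)) := Nat.le_mul_of_pos_left _ hA
  omega

/-- quasi-centers. Proof: fix `z0`, `r(p) = max_{i < order} d(p, g^i z0)`, let `p` minimise `r`. Then `g^k p` minimises `r`
as well (`r (g p) = r p`). If `p, p'` both minimise with value `R` and `u` is the midpoint, then for every orbit point `w`
four points `(p,p';u,w)` give `d(u,w) ≤ R + 2δ + ⌈d/2⌉ - d` with `d = d(p,p')`, and some `w` has `d(u,w) ≥ R`. -/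
theorem exists_center [Nonempty X] (hiso : IsoAct G M) (h : M.Hyp δ) {g : G} (hg : IsOfFinOrder g) :
    ∃ p : X, ∀ k : ℤ, M.d p (g ^ k • p) ≤ 4 * δ + 1 := by
  classical
  obtain ⟨n, hn, hgn⟩ := isOfFinOrder_iff_pow_eq_one.mp hg
  obtain ⟨z0⟩ := (inferInstance : Nonempty X)
  -- `Bd p R` : all orbit points of `z0` are at distance `≤ R` from `p`
  have hne : ∃ R : ℕ, ∃ p : X, ∀ i : ℤ, M.d p (g ^ i • z0) ≤ R := by
    refine ⟨(Finset.range n).sup (fun i => M.d z0 (g ^ i • z0)), z0, fun i => ?_⟩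
    obtain ⟨j, hj, hij⟩ : ∃ j : ℕ, j < n ∧ g ^ i = g ^ j := by
      have hn' : (0 : ℤ) < n := by exact_mod_cast hn
      refine ⟨(i % n).toNat, ?_, ?_⟩
      · have h1 := Int.emod_lt_of_pos i hn'
        have h2 := Int.emod_nonneg i hn'.ne'
        omega
      · have h2 := Int.emod_nonneg i hn'.ne'
        rw [← zpow_natCast, Int.toNat_of_nonneg h2]
        have h3 := Int.mul_ediv_add_emod i n
        conv_lhs => rw [← h3]
        rw [zpow_add, zpow_mul, zpow_natCast, hgn, one_zpow, one_mul]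
    rw [hij]
    exact Finset.le_sup (f := fun i : ℕ => M.d z0 (g ^ i • z0)) (Finset.mem_range.mpr hj)
  obtain ⟨p, hp⟩ := Nat.find_spec hne
  have hmin : ∀ u : X, ∃ i : ℤ, Nat.find hne ≤ M.d u (g ^ i • z0) := by
    intro u
    by_contra hcon
    push Not at hcon
    have hR : 0 < Nat.find hne := by
      have := hcon 0
      omega
    exact Nat.find_min hne (m := Nat.find hne - 1) (by omega) ⟨u, fun i => by
      have := hcon i
      omega⟩
  refine ⟨p, fun k => ?_⟩
  set R := Nat.find hne with hRdef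
  have hp' : ∀ i : ℤ, M.d (g ^ k • p) (g ^ i • z0) ≤ R := by
    intro i
    have h1 : g ^ i • z0 = g ^ k • (g ^ (i - k) • z0) := by
      rw [← mul_smul, ← zpow_add]
      congr 2
      ring
    rw [h1, hiso]
    exact hp (i - k)
  obtain ⟨u, hu1, hu2⟩ := M.geo p (g ^ k • p) (M.d p (g ^ k • p) / 2) (by omega)
  obtain ⟨i, hi⟩ := hmin u
  have h1 := hp i
  have h2 := hp' i
  have h3 := h p (g ^ k • p) u (g ^ i • z0)
  have h4 := M.symm u (g ^ k • p)
  rcases h3 with h3 | h3 <;> omega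

end BG
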