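import Pool.Agent.Helper76.BG.KilledGeo

/-!
# BG45: torsion elements give corners which block quasi-axes
-/

set_option autoImplicit false

namespace BG
namespace Sys

variable {S : Sys} {c : Cst}

/-- CORNER. Proof: suppose not; let `u` be between `w` and `a` with `d w u = b`. Four points `(w, a; u, T a)`: `d u (T a) ≤ d w (T a) - b + 138`, so `u` has slack `138` on
`(w, T a)`; `T u` has slack `554` on `(w, T a)` and `|d w (T u) - b| ≤ 277`. `slk_dist`: `d u (T u) ≤ 277 + 554 + 138`. `A2` for `w, u`: `T = 1`. -/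
theorem InP.corner (P : S.InP c) {T : S.G} (hT : IsOfFinOrder T) (hT1 : T ≠ 1) {w a : S.X}
    (hw : S.M.d w (T • w) ≤ 277) (ha : c.b ≤ S.M.d w a) :
    S.M.d a w + S.M.d w (T • a) ≤ S.M.d a (T • a) + 2 * c.b := by
  by_contra hcon
  rw [not_le] at hcon
  obtain ⟨u, hu, hu1⟩ := GMet.exists_btw S.M w a ha
  have hu' : S.M.d w u + S.M.d u a = S.M.d w a := hu
  have e1 := S.M.symm a w
  have e2 := S.M.symm a u
  have e3 := S.M.symm u (T • a)
  have s1 : S.M.Slk 554 w u (T • a) := by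
    show S.M.d w u + S.M.d u (T • a) ≤ S.M.d w (T • a) + 554
    rcases P.hyp w a u (T • a) with h | h
    · omega
    · omega
  have i1 := S.iso T w u
  have i2 := S.iso T u a
  have i3 := S.iso T w a
  have t1 := S.M.tri w (T • w) (T • u)
  have t2 := S.M.tri (T • w) w (T • a)
  have t3 := S.M.tri (T • w) w (T • u)
  have e4 := S.M.symm w (T • w)
  have s2 : S.M.Slk 554 w (T • u) (T • a) := by
    show S.M.d w (T • u) + S.M.d (T • u) (T • a) ≤ S.M.d w (T • a) + 554
    omega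
  have h1 := GMet.Hyp.slk_dist P.hyp s1 s2
  refine hT1 (P.A2 w u T (by omega) (by omega) (by omega) hT)

/-- BLOCKING. `a, w, b'` consecutive points of a chain from `P` to `Q`, `T a` near `b'`, `T w` near `w`, `T` torsion `≠ 1`. A quasi-axis cannot follow the chain on both sides of `w` for
more than `8K`. Proof: for `t ∈ {0, 7K}` let `a_t` be between `a` and `w` with `d a_t w = t`, `b_t` between `w` and `b'` with `d w b_t = t`. `a_t`, `b_t` have slack `2τ` on `(P,Q)`, and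
`d P w - t ≤ d P a_t ≤ d P w - t + τ`, `d P w + t - 2τ ≤ d P b_t ≤ d P w + t`: so positions between those of `r` and `r'`. `near_between` with `s = 2τ + 21000`: both are near `ax E`,
constant `C1 = 2s + 5414`. `T a_t` has slack `1108` on `(w, b')` and `|d w (T a_t) - t| ≤ 277`, so `d (T a_t) b_t ≤ 1523`. So `b_0 = w` and `b_{7K}` are within `C1 + 1523` of `ax E` and
of `ax (T E)`. `overlap`: `T E = E`, `T ∈ E` (`killed_stab`), `T = 1`: contradiction. -/
theorem InP.no_block (P0 : S.InP c) {E : S.Killed c.K} {T : S.G} (hT : IsOfFinOrder T)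
    (hT1 : T ≠ 1) {P Q a w b' r r' : S.X} {τ : ℕ} (hτ : τ ≤ 2 * c.b + 1000)
    (hw : S.M.d w (T • w) ≤ 277) (hab : S.M.d (T • a) b' ≤ 277)
    (h1 : S.M.d P a + S.M.d a w ≤ S.M.d P w + τ) (h2 : S.M.d P w + S.M.d w Q ≤ S.M.d P Q + τ)
    (h3 : S.M.d w b' + S.M.d b' Q ≤ S.M.d w Q + τ) (hr : r ∈ ax c.q E) (hr' : r' ∈ ax c.q E)
    (hsr : S.M.Slk 21000 P r Q) (hsr' : S.M.Slk 21000 P r' Q) (ha : 8 * c.K ≤ S.M.d a w)
    (hb : 8 * c.K ≤ S.M.d w b') (hp : S.M.d P r + 8 * c.K ≤ S.M.d P w)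
    (hp' : S.M.d P w + 8 * c.K ≤ S.M.d P r') : False := by
  have hK := c.K_ge
  have key : ∀ t, t ≤ 8 * c.K - 8 * c.b → ∃ v, S.M.d w v = t ∧
      (∃ z ∈ ax c.q E, S.M.d v z ≤ 8 * c.b + 52937) ∧
      ∃ z ∈ ax c.q (T • E), S.M.d v z ≤ 8 * c.b + 52937 := by
    intro t ht
    obtain ⟨at', hat, hat1⟩ := GMet.exists_btw S.M w a (k := t)
      (by rw [S.M.symm w a]; omega)
    obtain ⟨bt, hbt, hbt1⟩ := GMet.exists_btw S.M w b' (k := t) (by omega)
    have hat2 : S.M.d w at' + S.M.d at' a = S.M.d w a := hat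
    have hbt2 : S.M.d w bt + S.M.d bt b' = S.M.d w b' := hbt
    have e1 := S.M.symm a w
    have e2 := S.M.symm a at'
    have e3 := S.M.symm at' w
    have e4 := S.M.symm bt w
    have t1 := S.M.tri P a at'
    have t2 := S.M.tri at' w Q
    have t3 := S.M.tri P w bt
    have t4 := S.M.tri bt b' Q
    have t5 := S.M.tri P at' w
    have t6 := S.M.tri P bt Q
    have s1 : S.M.Slk (2 * τ + 21000) P at' Q := by
      show S.M.d P at' + S.M.d at' Q ≤ S.M.d P Q + (2 * τ + 21000)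
      omega
    have s2 : S.M.Slk (2 * τ + 21000) P bt Q := by
      show S.M.d P bt + S.M.d bt Q ≤ S.M.d P Q + (2 * τ + 21000)
      omega
    have s3 : S.M.Slk (2 * τ + 21000) P r Q := by
      have h : S.M.d P r + S.M.d r Q ≤ S.M.d P Q + 21000 := hsr
      show S.M.d P r + S.M.d r Q ≤ S.M.d P Q + (2 * τ + 21000)
      linarith
    have s4 : S.M.Slk (2 * τ + 21000) P r' Q := by
      have h : S.M.d P r' + S.M.d r' Q ≤ S.M.d P Q + 21000 := hsr'
      show S.M.d P r' + S.M.d r' Q ≤ S.M.d P Q + (2 * τ + 21000)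
      linarith
    obtain ⟨z, hz, hz1⟩ := P0.near_between hr hr' s3 s4 s1 (by omega) (by omega)
    obtain ⟨z', hz', hz1'⟩ := P0.near_between hr hr' s3 s4 s2 (by omega) (by omega)
    have hz2 : S.M.d at' z ≤ 4 * τ + 47414 := by linarith
    have hz2' : S.M.d bt z' ≤ 4 * τ + 47414 := by linarith
    clear hz1 hz1' s1 s2 s3 s4
    have i1 := S.iso T w at'
    have i2 := S.iso T at' a
    have i3 := S.iso T w a
    have t7 := S.M.tri w (T • w) (T • at')
    have t8 := S.M.tri (T • w) w (T • at')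
    have t9 := S.M.tri (T • at') (T • a) b'
    have t10 := S.M.tri (T • w) w (T • a)
    have t11 := S.M.tri w b' (T • a)
    have e5 := S.M.symm w (T • w)
    have e6 := S.M.symm b' (T • a)
    have s5 : S.M.Slk 1108 w (T • at') b' := by
      show S.M.d w (T • at') + S.M.d (T • at') b' ≤ S.M.d w b' + 1108
      omega
    have s6 : S.M.Slk 1108 w bt b' := by
      show S.M.d w bt + S.M.d bt b' ≤ S.M.d w b' + 1108
      omega
    have h5 := GMet.Hyp.slk_dist P0.hyp s5 s6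
    refine ⟨bt, hbt1, ⟨z', hz', by omega⟩, ⟨T • z, (smul_mem_ax c.q T E z).2 hz, ?_⟩⟩
    have t12 := S.M.tri bt (T • at') (T • z)
    have i4 := S.iso T at' z
    have e7 := S.M.symm bt (T • at')
    omega
  obtain ⟨v, hv, ⟨y, hy, hy1⟩, z, hz, hz1⟩ := key 0 (by omega)
  obtain ⟨v', hv', ⟨y', hy', hy1'⟩, z', hz', hz1'⟩ := key (7 * c.K) (by omega)
  have hE : E = T • E := by
    refine P0.overlap (C := 8 * c.b + 52937) (u := v) (u' := v') hy hy' hz hz' hy1 hy1' hz1 hz1' ?_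
    have t1 := S.M.tri w v v'
    linarith
  have hTE : T ∈ E.1 := P0.killed_stab hE.symm
  obtain ⟨e1, e2, -, -⟩ := gen_spec E
  rw [e2] at hTE
  obtain ⟨i, hi⟩ := Subgroup.mem_zpowers_iff.1 hTE
  have hi0 : i ≠ 0 := by
    rintro rfl
    rw [zpow_zero] at hi
    exact hT1 hi.symm
  rw [← hi, isOfFinOrder_iff_zpow_eq_one] at hT
  obtain ⟨n, hn, hn1⟩ := hT
  apply e1
  rw [isOfFinOrder_iff_zpow_eq_one]
  refine ⟨i * n, mul_ne_zero hi0 hn, ?_⟩
  rw [zpow_mul]
  exact hn1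

end Sys
end BG
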