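import Pool.Agent.Helper76.BG.Tors

/-!
# BG44: axiom `V` for the quotient, case 2: `x` is the image of an element of a killed subgroup
-/

set_option autoImplicit false

namespace BG
namespace KData

variable {c : Cst} {S : Sys} (D : KData c S)

/-- angles of rotations in the quotient: `g ∈ E`, `g = gen^j`, and `|j + e l| ≥ A` for all `l`; then `g` has angle `> 480ρ = 4θ` at the apex. (`aq_lift`: the angle is
`d y (h g y)` for some `h ∈ Hs E`, i.e. `d y (gen^(j + e l) y)`, `gen_growth` and `A_ge`: `≥ 720ρ`.) `k` any element of the quotient group (the apex is translated by `k`). -/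
theorem rot_q {E : S.Killed c.K} {j : ℤ} (hj : ∀ l : ℤ, (c.A : ℤ) ≤ |j + D.e E * l|) (k : D.Sq.G)
    {y : D.Sq.X} (hy : D.R.Aq.M.d (k • D.pz (Sum.inr E)) y = 1) :
    4 * D.R.Aq.θ < D.R.Aq.a (k • D.pz (Sum.inr E)) y
      ((k * D.φ (Sys.gen E ^ j) * k⁻¹) • y) := by
  have H := D.angAct
  have hc : (Sum.inr E : S.Z c) ∈ D.R.apex := ⟨E, rfl⟩
  -- reduce to `k = 1`
  have e1 : k • (k⁻¹ • y) = y := smul_inv_smul k y
  have e2 : (k * D.φ (Sys.gen E ^ j) * k⁻¹) • y = k • (D.φ (Sys.gen E ^ j) • (k⁻¹ • y)) := by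
    rw [mul_smul, mul_smul]
  have e3 : D.R.Aq.a (k • D.pz (Sum.inr E)) y ((k * D.φ (Sys.gen E ^ j) * k⁻¹) • y) =
      D.R.Aq.a (D.pz (Sum.inr E)) (k⁻¹ • y) (D.φ (Sys.gen E ^ j) • (k⁻¹ • y)) := by
    rw [e2]
    conv_lhs => rw [← e1]
    rw [inv_smul_smul]
    exact H.ang k _ _ _
  rw [e3]
  have hy' : D.R.Aq.M.d (D.pz (Sum.inr E)) (k⁻¹ • y) = 1 := by
    have h1 := H.iso k (D.pz (Sum.inr E)) (k⁻¹ • y)
    rw [e1] at h1
    rw [← h1, hy]
  obtain ⟨v, hv, hvd⟩ := RotSys.nbr_lift (R := D.R) hc (v := k⁻¹ • y) hy'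
  obtain ⟨x, rfl⟩ := nb_inl hvd
  rw [← hv]
  have hgE : Sys.gen E ^ j ∈ E.1 := by
    rw [(Sys.gen_spec E).2.1]
    exact Subgroup.zpow_mem _ (Subgroup.mem_zpowers _) _
  have hfix : (Sys.gen E ^ j) • (Sum.inr E : S.Z c) = Sum.inr E := by
    rw [smul_inr, Sys.smul_self_killed hgE]
  have hvd' : D.R.M.d (Sum.inr E) ((Sys.gen E ^ j) • (Sum.inl x : S.Z c)) = 1 := by
    have h1 := D.R.iso (Sys.gen E ^ j) (Sum.inr E) (Sum.inl x)
    rw [hfix] at h1
    rw [h1]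
    exact hvd
  obtain ⟨h, hh, hha⟩ := RotSys.aq_lift (R := D.R) hc hvd hvd'
  have e4 : D.R.Aq.a (D.pz (Sum.inr E)) (D.pz (Sum.inl x)) (D.φ (Sys.gen E ^ j) •
      D.pz (Sum.inl x)) = D.R.len (Sum.inl x) (h • (Sys.gen E ^ j) • (Sum.inl x : S.Z c)) := hha
  change 4 * D.R.Aq.θ < D.R.Aq.a (D.pz (Sum.inr E)) (D.pz (Sum.inl x)) (D.φ (Sys.gen E ^ j) •
      D.pz (Sum.inl x))
  rw [e4]
  obtain ⟨z, hz⟩ := Subgroup.mem_zpowers_iff.1 (show h ∈ Subgroup.zpowers (Sys.gen E ^ D.e E) from hh)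
  have e5 : h * Sys.gen E ^ j = Sys.gen E ^ (j + D.e E * z) := by
    rw [← hz, add_comm, zpow_add, zpow_mul, zpow_natCast]
  have e6 : D.R.len (Sum.inl x) (h • (Sys.gen E ^ j) • (Sum.inl x : S.Z c)) =
      S.M.d x (Sys.gen E ^ (j + D.e E * z) • x) := by
    rw [← mul_smul, e5]
    rfl
  rw [e6]
  have h7 := D.P.gen_growth E x (j + D.e E * z)
  have h8 := hj z
  have h9 : c.A ≤ (j + D.e E * z).natAbs := by
    have : ((j + D.e E * z).natAbs : ℤ) = |j + D.e E * z| := Int.natCast_natAbs _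
    rw [← this] at h8
    exact_mod_cast h8
  have h10 : c.q * (720 * c.ρ) ≤ c.q * S.M.d x (Sys.gen E ^ (j + D.e E * z) • x) :=
    c.A_ge.trans ((Nat.mul_le_mul_left _ h9).trans h7)
  have hq : 0 < c.q := by
    have := c.q_ge
    omega
  have h11 := Nat.le_of_mul_le_mul_left h10 hq
  have h12 : D.R.Aq.θ = 120 * c.ρ := rfl
  rw [h12]
  have := c.ρ_ge
  omega

/-- arithmetic: `e = n` or `3n`, a power of 3; `e ∤ k`. Then one of `k (m+1)`, `-k m` has no representative mod `e` of absolute value `< A`.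
Proof: otherwise `A' ≡ k(m+1)`, `B' ≡ -km`, `k' = A' + B' ≡ k`, `|k'| < 2A`, `k' ≠ 0`, `B' + k' m ≡ 0` and `|B' + k' m| < A + 2Am < n ≤ e`, so `B' = -k' m`, `|B'| ≥ m > A`. -/
theorem arith (E : S.Killed c.K) {k : ℤ} (hk : ¬ (D.e E : ℤ) ∣ k) :
    (∀ l : ℤ, (c.A : ℤ) ≤ |k * (c.m + 1) + D.e E * l|) ∨
      (∀ l : ℤ, (c.A : ℤ) ≤ |-(k * c.m) + D.e E * l|) := by
  by_contra hcon
  push Not at hcon
  obtain ⟨⟨l1, h1⟩, ⟨l2, h2⟩⟩ := hcon
  have he : (c.n : ℤ) ≤ D.e E := by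
    rcases D.e_or E with h | h
    · rw [h]
    · rw [h]; push_cast; nlinarith
  have hm : (c.A : ℤ) < c.m := by exact_mod_cast c.A_lt
  have hmlt : 2 * (c.A : ℤ) * c.m + c.A < c.n := by exact_mod_cast c.m_lt
  have hApos : (0 : ℤ) ≤ c.A := by positivity
  have hmpos : (0 : ℤ) < c.m := by omega
  set e : ℤ := (D.e E : ℤ) with hedef
  set A' : ℤ := k * (c.m + 1) + e * l1 with hA'
  set B' : ℤ := -(k * c.m) + e * l2 with hB'
  have hk' : A' + B' = k + e * (l1 + l2) := by rw [hA', hB']; ring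
  have hne : A' + B' ≠ 0 := by
    intro h0
    apply hk
    refine ⟨-(l1 + l2), ?_⟩
    rw [hk'] at h0
    linarith
  have hBk : B' + (A' + B') * c.m = e * (l2 + (l1 + l2) * c.m) := by
    rw [hk', hB']; ring
  obtain ⟨a1, a2⟩ := abs_lt.1 h1
  obtain ⟨b1, b2⟩ := abs_lt.1 h2
  have hzero : l2 + (l1 + l2) * (c.m : ℤ) = 0 := by
    by_contra hnz
    have h3 : e ≤ |e * (l2 + (l1 + l2) * (c.m : ℤ))| := by
      rw [abs_mul]
      have h4 : 1 ≤ |l2 + (l1 + l2) * (c.m : ℤ)| := Int.one_le_abs hnz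
      have h5 : e ≤ |e| := le_abs_self e
      nlinarith [abs_nonneg e]
    rw [← hBk] at h3
    have h6 : |B' + (A' + B') * c.m| < e := by
      rw [abs_lt]
      constructor <;> nlinarith
    linarith
  rw [hzero, mul_zero] at hBk
  rcases lt_or_gt_of_ne hne with hlt | hgt
  · have : (A' + B') * c.m ≤ -1 * c.m := by
      apply mul_le_mul_of_nonneg_right _ hmpos.le
      omega
    linarith
  · have : 1 * (c.m : ℤ) ≤ (A' + B') * c.m := by
      apply mul_le_mul_of_nonneg_right _ hmpos.le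
      omega
    linarith

private theorem vc2_cop (E : S.Killed c.K) {r : ℕ} (hr : ¬ 3 ∣ r) {k : ℤ}
    (h : (D.e E : ℤ) ∣ k * r) : (D.e E : ℤ) ∣ k := by
  have hpow : ∃ s : ℕ, D.e E = 3 ^ s := by
    rcases D.e_or E with h | h
    · exact ⟨c.t, by rw [h, c.n_eq]⟩
    · exact ⟨c.t + 1, by rw [h, c.n_eq, pow_succ, mul_comm]⟩
  obtain ⟨s, hs⟩ := hpow
  have hcop : IsCoprime ((D.e E : ℕ) : ℤ) (r : ℤ) := by
    rw [Nat.isCoprime_iff_coprime, hs]
    apply Nat.Coprime.pow_left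
    exact (Nat.Prime.coprime_iff_not_dvd Nat.prime_three).2 hr
  exact hcop.dvd_of_dvd_mul_right h

private theorem vc2_ne (E : S.Killed c.K) {r : ℕ} (hr : ¬ 3 ∣ r) {k : ℤ}
    (hk : ¬ (D.e E : ℤ) ∣ k) : D.φ (Sys.gen E ^ (k * r)) ≠ 1 := by
  intro h
  have hg : Sys.gen E ^ (k * r) ∈ E.1 := by
    rw [(Sys.gen_spec E).2.1]
    exact Subgroup.zpow_mem _ (Subgroup.mem_zpowers _) _
  rw [D.φ_killed_one hg] at h
  obtain ⟨z, hz⟩ := Subgroup.mem_zpowers_iff.1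
    (show Sys.gen E ^ (k * r) ∈ Subgroup.zpowers (Sys.gen E ^ D.e E) from h)
  have h1 : Sys.gen E ^ ((D.e E : ℤ) * z) = Sys.gen E ^ (k * r) := by
    rw [zpow_mul, zpow_natCast, hz]
  have h2 : (D.e E : ℤ) * z = k * r := by
    have hinj := injective_zpow_iff_not_isOfFinOrder.2 (Sys.gen_spec E).1
    exact hinj h1
  exact hk (D.vc2_cop E hr ⟨z, h2.symm⟩)

/-- CASE 2. `x = φ g`, `g = gen^k ∈ E`, `c0 = pz (inr E)`, `c1 = y⁻¹ c0`, `u = x^(m+1)`, `w = y⁻¹ x^(-m) y`. If `c0 = c1` then `y` is in the image of `E` (`φ_stab`), so it commutes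
with `x`. If `x = 1`, it commutes. Otherwise `e ∤ k` (`φ_killed_one`), `u ≠ 1`, `w ≠ 1` (`m`, `m+1` prime to 3, `φ_killed_one`). `arith`: if the rotation `w` is
large at `c1`: `prod_not_torsion` for `(c0, c1, u, w)`: `u w` is not torsion. If `u` is large at `c0`: `prod_not_torsion` for `(c1, c0, w, u)`: `w u` is not torsion, so its
conjugate `u w` is not torsion. -/
theorem V_case2 {E : S.Killed c.K} {g : S.G} (hg : g ∈ E.1) (y : D.Sq.G) :
    D.φ g * y = y * D.φ g ∨ ¬ IsOfFinOrder (vw c.m (D.φ g) y) := by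
  have H := D.angAct
  obtain ⟨k, hk⟩ := Subgroup.mem_zpowers_iff.1
    (show g ∈ Subgroup.zpowers (Sys.gen E) by rw [← (Sys.gen_spec E).2.1]; exact hg)
  by_cases hc01 : y⁻¹ • D.pz (Sum.inr E) = D.pz (Sum.inr E)
  · left
    have h1 : y • D.pz (Sum.inr E) = D.pz (Sum.inr E) := by
      rw [inv_smul_eq_iff] at hc01
      exact hc01.symm
    obtain ⟨y0, hy0, rfl⟩ := D.φ_stab h1
    obtain ⟨l, hl⟩ := Subgroup.mem_zpowers_iff.1
      (show y0 ∈ Subgroup.zpowers (Sys.gen E) by rw [← (Sys.gen_spec E).2.1]; exact hy0)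
    rw [← map_mul, ← map_mul, ← hk, ← hl, ← zpow_add, ← zpow_add, add_comm]
  by_cases hx1 : D.φ g = 1
  · left
    rw [hx1, one_mul, mul_one]
  right
  have hke : ¬ (D.e E : ℤ) ∣ k := by
    rintro ⟨z, hz⟩
    apply hx1
    rw [D.φ_killed_one hg]
    show g ∈ Subgroup.zpowers (Sys.gen E ^ D.e E)
    rw [← hk, hz, zpow_mul, zpow_natCast]
    exact Subgroup.zpow_mem _ (Subgroup.mem_zpowers _) _
  have hmm := c.m_mod
  have hr1 : ¬ 3 ∣ c.m + 1 := by omega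
  have hr2 : ¬ 3 ∣ c.m := by omega
  have eu : D.φ g ^ (c.m + 1) = D.φ (Sys.gen E ^ (k * ((c.m : ℤ) + 1))) := by
    rw [← map_pow, ← hk, zpow_mul, ← zpow_natCast]
    push_cast
    rfl
  have ew : (D.φ g ^ c.m)⁻¹ = D.φ (Sys.gen E ^ (-(k * (c.m : ℤ)))) := by
    rw [← map_pow, ← hk, zpow_neg, zpow_mul, ← zpow_natCast, map_inv]
  have hcE : D.pz (Sum.inr E) ∈ D.R.Aq.apex := ⟨Sum.inr E, ⟨E, rfl⟩, rfl⟩
  have hcE' : y⁻¹ • D.pz (Sum.inr E) ∈ D.R.Aq.apex := H.apex _ _ hcE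
  have hfix : ∀ j : ℤ, D.φ (Sys.gen E ^ j) • D.pz (Sum.inr E) = D.pz (Sum.inr E) := by
    intro j
    have hgE : Sys.gen E ^ j ∈ E.1 := by
      rw [(Sys.gen_spec E).2.1]
      exact Subgroup.zpow_mem _ (Subgroup.mem_zpowers _) _
    rw [D.φ_smul, smul_inr, Sys.smul_self_killed hgE]
  set u : D.Sq.G := D.φ g ^ (c.m + 1) with hu
  set w : D.Sq.G := y⁻¹ * (D.φ g ^ c.m)⁻¹ * y with hw
  have hvw : vw c.m (D.φ g) y = u * w := by
    rw [hu, hw]
    unfold vw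
    simp only [mul_assoc]
  have hu1 : u ≠ 1 := by
    rw [eu]
    have := D.vc2_ne E hr1 hke
    push_cast at this
    exact this
  have hxm : (D.φ g ^ c.m)⁻¹ ≠ 1 := by
    intro h
    rw [inv_eq_one] at h
    apply D.vc2_ne E hr2 hke
    rw [← h, ← map_pow, ← hk, zpow_mul, ← zpow_natCast]
  have hw1 : w ≠ 1 := by
    intro h
    apply hxm
    have h2 : (D.φ g ^ c.m)⁻¹ = y * w * y⁻¹ := by
      rw [hw]; group
    rw [h2, h]
    group
  have hu0 : u • D.pz (Sum.inr E) = D.pz (Sum.inr E) := by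
    rw [eu]
    exact hfix _
  have hw0 : w • (y⁻¹ • D.pz (Sum.inr E)) = y⁻¹ • D.pz (Sum.inr E) := by
    rw [hw, mul_smul, smul_inv_smul, mul_smul, ew, hfix]
  rw [hvw]
  rcases D.arith E hke with h1 | h1
  · -- `u` large at `c0`
    have h2 : ¬ IsOfFinOrder (w * u) := by
      refine H.prod_not_torsion hcE' hcE hc01 hw0 hw1 hu0 ?_
      intro v hv
      have h3 := D.rot_q h1 1 (y := v) (by rw [one_smul]; exact hv)
      rw [one_smul, one_mul, inv_one, mul_one, ← eu] at h3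
      exact h3
    intro h3
    apply h2
    have h4 : w * u = (MulAut.conj u⁻¹).toMonoidHom (u * w) := by
      simp
    rw [h4]
    exact MonoidHom.isOfFinOrder _ h3
  · refine H.prod_not_torsion hcE hcE' (Ne.symm hc01) hu0 hu1 hw0 ?_
    intro v hv
    have h3 := D.rot_q h1 y⁻¹ (y := v) hv
    rw [inv_inv, ← ew] at h3
    exact h3

end KData
end BG
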