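import Pool.Agent.Helper76.BG.VRed
import Pool.Agent.Helper76.BG.QGrow
import Pool.Agent.Helper76.BG.VCase2

/-!
# BG48: axiom `V` for the quotient
-/

set_option autoImplicit false

namespace BG
namespace KData

variable {c : Cst} {S : Sys} (D : KData c S)

/-- a product of two torsion elements with far apart centers, `(p,q)` reduced, not in a killed subgroup, is not torsion in the quotient
(`ovBound` with `a = 2b+830`, `chain_red`, `quot_not_torsion`) -/
theorem twoTor_q {X W : S.G} {p q : S.X} (H : Sys.TwoTor S c X W p q)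
    (hmin : ∀ n ∈ D.R.N, S.M.d p q ≤ S.M.d p (n • q)) (hv : ∀ E : S.Killed c.K, X * W ∉ E.1) :
    ¬ IsOfFinOrder (D.φ (X * W)) := by
  obtain ⟨h1, h2, h3, h4⟩ := H.orbit D.P
  refine D.quot_not_torsion (p := q) (Λ := S.M.d q ((X * W) • q) + 8 * c.K) ?_ ?_ h4
  · intro E k r r' hr hr'
    exact D.P.ovBound (a := 2 * c.b + 830) (by omega) h1 h2 hv E k hr hr'
  · intro k E h hh hh1
    exact D.chain_red H hmin hv k E h hh hh1

/-- CASE 1. `x ∈ G` torsion. If `x = 1`, trivial. Otherwise all `e = n` (`e_V`). `p` the center of `x`; choose the lift `y` of `y'` such that `d p (y⁻¹ p)` is minimal among the lifts, i.e.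
`d p q ≤ d p (n q)` for `n ∈ N`, `q = y⁻¹ p`. If `x, y` commute, done. `X = x^(m+1)`, `W = y⁻¹ x^(-m) y`, `v = X W = vw m x y`. If `4 d p q ≤ K`: `v` moves `p` by at most `K/2 + 554 ≤ K - 414`.
By `V` for `S`: `v^n = 1`, or `v` is not torsion, then in a killed subgroup (`mem_killed`), `φ v ^ n = 1` (`φ_killed_pow`). If `K < 4 d p q`: `TwoTor` (`pow_ne_one`); if `v ∈ E.1`, `φ v ^ n = 1`; otherwise
`twoTor_q`. -/
theorem V_case1 {x : S.G} (hx : IsOfFinOrder x) (y' : D.Sq.G) :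
    D.φ x * y' = y' * D.φ x ∨ (vw c.m (D.φ x) y') ^ c.n = 1 ∨
      ¬ IsOfFinOrder (vw c.m (D.φ x) y') := by
  classical
  by_cases hx1 : x = 1
  · left
    rw [hx1, map_one, one_mul, mul_one]
  have he : ∀ E, D.e E = c.n := by
    rcases D.e_V with h | h
    · exact h
    · exact absurd (h x hx) hx1
  obtain ⟨p, hp0⟩ := D.P.center hx
  have hp : ∀ k : ℕ, S.M.d p (x ^ k • p) ≤ 277 := by
    intro k
    have h1 := hp0 (k : ℤ)
    rwa [zpow_natCast] at h1
  have hex : ∃ k, ∃ y : S.G, D.φ y = y' ∧ S.M.d p (y⁻¹ • p) = k := by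
    obtain ⟨y, hy⟩ := D.φ_surj y'
    exact ⟨_, y, hy, rfl⟩
  obtain ⟨y, hy, hyk⟩ := Nat.find_spec hex
  have hmin0 : ∀ g : S.G, D.φ g = y' → S.M.d p (y⁻¹ • p) ≤ S.M.d p (g⁻¹ • p) := by
    intro g hg
    rw [hyk]
    exact Nat.find_min' hex ⟨g, hg, rfl⟩
  have hmin : ∀ n ∈ D.R.N, S.M.d p (y⁻¹ • p) ≤ S.M.d p (n • y⁻¹ • p) := by
    intro n hn
    have h1 : D.φ (y * n⁻¹) = y' := by
      rw [map_mul, hy, D.φ_eq_one.2 (D.R.N.inv_mem hn), mul_one]
    have h2 := hmin0 _ h1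
    rw [mul_inv_rev, inv_inv, mul_smul] at h2
    exact h2
  by_cases hcomm : x * y = y * x
  · left
    rw [← hy, ← map_mul, ← map_mul, hcomm]
  right
  have hm : D.φ (vw c.m x y) = vw c.m (D.φ x) y' := by
    unfold vw
    rw [map_mul, map_mul, map_mul, map_pow, map_inv, map_inv, map_pow, hy]
  have hkill : ∀ E : S.Killed c.K, vw c.m x y ∈ E.1 → (vw c.m (D.φ x) y') ^ c.n = 1 := by
    intro E hE
    have h1 := D.φ_killed_pow hE
    rwa [he E, hm] at h1
  rw [← hm]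
  rw [← hm] at hkill
  have hK := c.K_ge
  have hxi : ∀ k : ℕ, S.M.d p ((x ^ k)⁻¹ • p) ≤ 277 := by
    intro k
    have h1 := S.iso (x ^ k) p ((x ^ k)⁻¹ • p)
    rw [smul_inv_smul, S.M.symm] at h1
    rw [← h1]
    exact hp k
  have hW : S.M.d (y⁻¹ • p) ((y⁻¹ * (x ^ c.m)⁻¹ * y) • y⁻¹ • p) ≤ 277 := by
    rw [mul_smul, smul_inv_smul, mul_smul, S.iso]
    exact hxi c.m
  have hv : vw c.m x y = x ^ (c.m + 1) * (y⁻¹ * (x ^ c.m)⁻¹ * y) := by
    unfold vw
    group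
  by_cases hfar : 4 * S.M.d p (y⁻¹ • p) ≤ c.K
  · rcases D.P.V x y hx with h | h | h
    · exact absurd h hcomm
    · left
      rw [← map_pow, h, map_one]
    · left
      have hdisp : S.M.d p (vw c.m x y • p) + 414 ≤ c.K := by
        rw [hv, mul_smul]
        have t1 := S.M.tri p (x ^ (c.m + 1) • p) (x ^ (c.m + 1) • (y⁻¹ * (x ^ c.m)⁻¹ * y) • p)
        rw [S.iso] at t1
        have t2 := hp (c.m + 1)
        have t3 := S.M.tri p (y⁻¹ • p) ((y⁻¹ * (x ^ c.m)⁻¹ * y) • p)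
        have t4 := S.M.tri (y⁻¹ • p) ((y⁻¹ * (x ^ c.m)⁻¹ * y) • y⁻¹ • p)
          ((y⁻¹ * (x ^ c.m)⁻¹ * y) • p)
        rw [S.iso, S.M.symm (y⁻¹ • p) p] at t4
        omega
      obtain ⟨E, hE⟩ := D.P.mem_killed (by omega) h hdisp
      exact hkill E hE
  · have hn := c.n_eq
    have H : Sys.TwoTor S c (x ^ (c.m + 1)) (y⁻¹ * (x ^ c.m)⁻¹ * y) p (y⁻¹ • p) := by
      refine ⟨hx.pow, ?_, ?_, ?_, hp _, hW, by omega⟩
      · have h1 : IsOfFinOrder ((x ^ c.m)⁻¹) := (hx.pow).inv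
        have h2 := MonoidHom.isOfFinOrder (MulAut.conj y⁻¹).toMonoidHom h1
        simpa using h2
      · exact D.P.pow_ne_one hx hx1 (by have := c.m_mod; omega)
      · intro h1
        have h2 : (x ^ c.m)⁻¹ = 1 := by
          have h3 : (x ^ c.m)⁻¹ = y * (y⁻¹ * (x ^ c.m)⁻¹ * y) * y⁻¹ := by group
          rw [h3, h1]
          group
        exact D.P.pow_ne_one hx hx1 (by have := c.m_mod; omega) (inv_eq_one.1 h2)
    by_cases hE : ∃ E : S.Killed c.K, vw c.m x y ∈ E.1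
    · obtain ⟨E, hE⟩ := hE
      exact Or.inl (hkill E hE)
    · right
      push Not at hE
      rw [hv] at hE ⊢
      exact D.twoTor_q H hmin hE

/-- axiom `V` (`torsion_cases`) -/
theorem V_q (x y : D.Sq.G) (hx : IsOfFinOrder x) :
    x * y = y * x ∨ (vw c.m x y) ^ c.n = 1 ∨ ¬ IsOfFinOrder (vw c.m x y) := by
  rcases D.torsion_cases hx with ⟨g, rfl, hg⟩ | ⟨g, E, rfl, hg⟩
  · exact D.V_case1 hg y
  · rcases D.V_case2 hg y with h | h
    · exact Or.inl h
    · exact Or.inr (Or.inr h)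

end KData
end BG
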