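import Pool.Agent.Helper76.BG.VBlock
import Pool.Agent.Helper76.BG.NonRed
import Pool.Agent.Helper76.BG.OvBound
import Pool.Agent.Helper76.BG.KQuot

/-!
# BG46: products of two torsion elements with far apart centers

Setting (`TwoTor`): `X`, `W` torsion `≠ 1`, `p` a center of `X`, `q` a center of `W` (`d p (X^{±1} p) ≤ 277`, `d q (W^{±1} q) ≤ 277`), `K < 4 d p q`, `v = X W`.
The chain: `s (2i) = v^i q`, `s (2i+1) = v^i p` (`X q` is near `v q`, `W⁻¹ p` is near `v⁻¹ p`).
-/

set_option autoImplicit false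

namespace BG
namespace Sys

variable {S : Sys} {c : Cst}

/-- two torsion elements with far apart centers -/
structure TwoTor (S : Sys) (c : Cst) (X W : S.G) (p q : S.X) : Prop where
  tX : IsOfFinOrder X
  tW : IsOfFinOrder W
  X1 : X ≠ 1
  W1 : W ≠ 1
  hX : S.M.d p (X • p) ≤ 277
  hW : S.M.d q (W • q) ≤ 277
  far : c.K < 4 * S.M.d p q

/-- the chain -/
def chain2 (v : S.G) (p q : S.X) (j : ℕ) : S.X := if j % 2 = 0 then v ^ (j / 2) • q else v ^ (j / 2) • p

variable {X W : S.G} {p q : S.X}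

private theorem chain2_even (v : S.G) (p q : S.X) (i : ℕ) : chain2 v p q (2 * i) = v ^ i • q := by
  have h1 : (2 * i) % 2 = 0 := by omega
  have h2 : (2 * i) / 2 = i := by omega
  rw [chain2, if_pos h1, h2]

private theorem chain2_odd (v : S.G) (p q : S.X) (i : ℕ) :
    chain2 v p q (2 * i + 1) = v ^ i • p := by
  have h1 : ¬ (2 * i + 1) % 2 = 0 := by omega
  have h2 : (2 * i + 1) / 2 = i := by omega
  rw [chain2, if_neg h1, h2]

private theorem chain2_even' (v : S.G) (p q : S.X) (i : ℕ) :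
    chain2 v p q (2 * i + 1 + 1) = v ^ (i + 1) • q := by
  have h : 2 * i + 1 + 1 = 2 * (i + 1) := by ring
  rw [h, chain2_even]

private theorem chain2_even'' (v : S.G) (p q : S.X) (i : ℕ) :
    chain2 v p q (2 * i + 2) = v ^ (i + 1) • q := chain2_even' v p q i

private theorem chain2_odd' (v : S.G) (p q : S.X) (i : ℕ) :
    chain2 v p q (2 * i + 1 + 2) = v ^ (i + 1) • p := by
  have h : 2 * i + 1 + 2 = 2 * (i + 1) + 1 := by ring
  rw [h, chain2_odd]

/-- isometry in the form `d (v^i x) (v^(i+1) y) = d x (v y)` -/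
private theorem iso_pow_succ (v : S.G) (x y : S.X) (i : ℕ) :
    S.M.d (v ^ i • x) (v ^ (i + 1) • y) = S.M.d x (v • y) := by
  rw [pow_succ, mul_smul, S.iso]

private theorem TwoTor.qv (H : TwoTor S c X W p q) :
    S.M.d (X • q) ((X * W) • q) ≤ 277 := by
  rw [mul_smul, S.iso]
  exact H.hW

private theorem TwoTor.far' (H : TwoTor S c X W p q) :
    25 * c.b + 25000000 < S.M.d p q := by
  have h1 := H.far
  have h2 := c.K_ge
  omega

private theorem TwoTor.pvq (H : TwoTor S c X W p q) :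
    S.M.d p q ≤ S.M.d p ((X * W) • q) + 554 ∧ S.M.d p ((X * W) • q) ≤ S.M.d p q + 554 := by
  have h1 := H.qv
  have h2 := S.M.tri p (X • q) ((X * W) • q)
  have h3 := S.M.tri p ((X * W) • q) (X • q)
  have h4 := S.M.symm (X • q) ((X * W) • q)
  have h5 := S.M.tri p (X • p) (X • q)
  have h6 := S.M.tri (X • p) p (X • q)
  have h7 := S.M.symm p (X • p)
  have h8 := S.iso X p q
  have h9 := H.hX
  omega

/-- steps: `d q p ≤ d (s j) (s (j+1)) + 554 ≤ d q p + 1108` -/
theorem TwoTor.step (H : TwoTor S c X W p q) (j : ℕ) :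
    S.M.d p q ≤ S.M.d (chain2 (X * W) p q j) (chain2 (X * W) p q (j + 1)) + 554 ∧
      S.M.d (chain2 (X * W) p q j) (chain2 (X * W) p q (j + 1)) ≤ S.M.d p q + 554 := by
  obtain ⟨i, rfl | rfl⟩ := Nat.even_or_odd' j
  · rw [chain2_even, chain2_odd, S.iso, S.M.symm q p]
    omega
  · rw [chain2_odd, chain2_even', iso_pow_succ]
    exact H.pvq

/-- the corner at `p` -/
private theorem TwoTor.cornP (H : TwoTor S c X W p q) (P : S.InP c) :
    S.M.d q p + S.M.d p ((X * W) • q) ≤ S.M.d q ((X * W) • q) + (2 * c.b + 554) := by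
  have h0 := H.far'
  have h1 := P.corner H.tX H.X1 H.hX (a := q) (by omega)
  have h2 := H.qv
  have h3 := S.M.tri p (X • q) ((X * W) • q)
  have h4 := S.M.tri q ((X * W) • q) (X • q)
  have h5 := S.M.symm (X • q) ((X * W) • q)
  omega

/-- the corner at `v q` -/
private theorem TwoTor.cornQ (H : TwoTor S c X W p q) (P : S.InP c) :
    S.M.d p ((X * W) • q) + S.M.d ((X * W) • q) ((X * W) • p) ≤
      S.M.d p ((X * W) • p) + (2 * c.b + 554) := by
  have h0 := H.far'
  have hw : S.M.d (W • q) (W • W • q) ≤ 277 := by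
    rw [S.iso]; exact H.hW
  have h6 := S.M.tri p (W • q) q
  have h7 := S.M.symm (W • q) q
  have h8 := H.hW
  have h9 := S.M.symm p (W • q)
  have h1 := P.corner H.tW H.W1 hw (a := p) (by omega)
  -- everything is multiplied by `X`
  have k1 : S.M.d p ((X * W) • q) = S.M.d (X⁻¹ • p) (W • q) := by
    rw [← S.iso X (X⁻¹ • p) (W • q), smul_inv_smul, mul_smul]
  have k2 : S.M.d p ((X * W) • p) = S.M.d (X⁻¹ • p) (W • p) := by
    rw [← S.iso X (X⁻¹ • p) (W • p), smul_inv_smul, mul_smul]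
  have k3 : S.M.d ((X * W) • q) ((X * W) • p) = S.M.d (W • q) (W • p) := by
    rw [mul_smul, mul_smul, S.iso X]
  have k4 : S.M.d (X⁻¹ • p) p = S.M.d p (X • p) := by
    rw [← S.iso X (X⁻¹ • p) p, smul_inv_smul]
  have k5 := H.hX
  have k6 := S.M.tri (X⁻¹ • p) p (W • q)
  have k7 := S.M.tri p (X⁻¹ • p) (W • p)
  have k8 := S.M.symm p (X⁻¹ • p)
  rw [k1, k2, k3]
  omega

/-- products at the corners (`corner` for `X` at `p` and for `W` at `q`) -/
theorem TwoTor.prod (H : TwoTor S c X W p q) (P : S.InP c) (j : ℕ) :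
    S.M.d (chain2 (X * W) p q j) (chain2 (X * W) p q (j + 1)) +
      S.M.d (chain2 (X * W) p q (j + 1)) (chain2 (X * W) p q (j + 2)) ≤
        S.M.d (chain2 (X * W) p q j) (chain2 (X * W) p q (j + 2)) + (2 * c.b + 554) := by
  obtain ⟨i, rfl | rfl⟩ := Nat.even_or_odd' j
  · rw [chain2_even, chain2_odd, chain2_even'', iso_pow_succ, iso_pow_succ, S.iso]
    exact H.cornP P
  · have e : S.M.d ((X * W) ^ (i + 1) • q) ((X * W) ^ (i + 1) • p) =
        S.M.d ((X * W) • q) ((X * W) • p) := by rw [S.iso, S.iso]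
    rw [chain2_odd, chain2_even', chain2_odd', iso_pow_succ, iso_pow_succ, e]
    exact H.cornQ P

/-- triples (`locglob_triple`): slack `2b + 554 + 276 = 2b + 830` -/
theorem TwoTor.triple (H : TwoTor S c X W p q) (P : S.InP c) {i j k : ℕ} (hij : i ≤ j)
    (hjk : j ≤ k) :
    S.M.d (chain2 (X * W) p q i) (chain2 (X * W) p q j) +
      S.M.d (chain2 (X * W) p q j) (chain2 (X * W) p q k) ≤
        S.M.d (chain2 (X * W) p q i) (chain2 (X * W) p q k) + (2 * c.b + 830) := by
  have h := GMet.locglob_triple (M := S.M) (δ := 69) (a := 2 * c.b + 554) (k := k)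
    (x := chain2 (X * W) p q) P.hyp (fun i _ => H.prod P i) (fun i _ => by
      have h1 := (H.step i).1
      have h2 := H.far'
      omega) hij hjk le_rfl
  refine h.trans (le_of_eq ?_)
  generalize S.M.d (chain2 (X * W) p q i) (chain2 (X * W) p q k) = u
  ring

/-- the corner at `s (j+1)` in the form needed for `no_block`: `T` is a conjugate of `X` (or of `W`) by a power of `v` -/
theorem TwoTor.corner_elt (H : TwoTor S c X W p q) (j : ℕ) :
    ∃ T : S.G, IsOfFinOrder T ∧ T ≠ 1 ∧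
      S.M.d (chain2 (X * W) p q (j + 1)) (T • chain2 (X * W) p q (j + 1)) ≤ 277 ∧
      S.M.d (T • chain2 (X * W) p q j) (chain2 (X * W) p q (j + 2)) ≤ 277 := by
  have hconj : ∀ (g T : S.G), IsOfFinOrder T → T ≠ 1 → IsOfFinOrder (g * T * g⁻¹) ∧
      g * T * g⁻¹ ≠ 1 := by
    intro g T hT hT1
    refine ⟨?_, ?_⟩
    · have := (MulAut.conj g).toMonoidHom.isOfFinOrder hT
      simpa using this
    · intro h
      apply hT1
      have h2 : T = g⁻¹ * (g * T * g⁻¹) * g := by group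
      rw [h2, h]; group
  obtain ⟨i, rfl | rfl⟩ := Nat.even_or_odd' j
  · refine ⟨(X * W) ^ i * X * ((X * W) ^ i)⁻¹, (hconj _ _ H.tX H.X1).1, (hconj _ _ H.tX H.X1).2,
      ?_, ?_⟩
    · rw [chain2_odd, mul_smul, inv_smul_smul, mul_smul, S.iso]
      exact H.hX
    · rw [chain2_even, chain2_even'', mul_smul, inv_smul_smul, mul_smul, pow_succ, mul_smul,
        S.iso]
      exact H.qv
  · refine ⟨(X * W) ^ (i + 1) * W * ((X * W) ^ (i + 1))⁻¹, (hconj _ _ H.tW H.W1).1,
      (hconj _ _ H.tW H.W1).2, ?_, ?_⟩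
    · rw [chain2_even', mul_smul, inv_smul_smul, mul_smul, S.iso]
      exact H.hW
    · have e : (X * W) ^ (i + 1) * W * ((X * W) ^ (i + 1))⁻¹ * (X * W) ^ i =
          (X * W) ^ (i + 1) * X⁻¹ := by
        rw [pow_succ]; group
      rw [chain2_odd, chain2_odd', ← mul_smul, e, mul_smul, S.iso]
      have k4 : S.M.d (X⁻¹ • p) p = S.M.d p (X • p) := by
        rw [← S.iso X (X⁻¹ • p) p, smul_inv_smul]
      rw [k4]
      exact H.hX

/-- `v = XW` along the orbit of `q`: `a = 2b + 830` -/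
theorem TwoTor.orbit (H : TwoTor S c X W p q) (P : S.InP c) :
    2 * S.M.d q ((X * W) • q) ≤ S.M.d q ((X * W) • (X * W) • q) + (2 * c.b + 830) ∧
      (2 * c.b + 830) + 1380 ≤ S.M.d q ((X * W) • q) ∧
      S.M.d q ((X * W) • q) ≤ 2 * S.M.d p q + 554 ∧
      ∀ k : ℕ, k ≤ S.M.d q ((X * W) ^ k • q) := by
  have h0 := H.far'
  have h1 := H.pvq
  have h2 := H.cornP P
  have h3 := S.M.symm q p
  have h4 := S.M.tri q p ((X * W) • q)
  have htr : ∀ i : ℕ, S.M.d ((X * W) ^ i • q) ((X * W) ^ (i + 1) • q) +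
      S.M.d ((X * W) ^ (i + 1) • q) ((X * W) ^ (i + 2) • q) ≤
      S.M.d ((X * W) ^ i • q) ((X * W) ^ (i + 2) • q) + (2 * c.b + 830) := by
    intro i
    have h5 := H.triple P (i := 2 * i) (j := 2 * (i + 1)) (k := 2 * (i + 2)) (by omega) (by omega)
    simpa only [chain2_even] using h5
  have hd : (2 * c.b + 830) + 1380 ≤ S.M.d q ((X * W) • q) := by omega
  refine ⟨?_, hd, by omega, ?_⟩
  · have h6 := htr 0
    have e1 : (X * W) ^ (0 + 1) • q = (X * W) • q := by rw [zero_add, pow_one]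
    have e2 : (X * W) ^ (0 + 2) • q = (X * W) • (X * W) • q := by
      rw [zero_add, pow_two, mul_smul]
    rw [e1, e2, pow_zero, one_smul, S.iso] at h6
    omega
  · intro k
    have h7 := GMet.locglob_growth (M := S.M) (δ := 69) (a := 2 * c.b + 830) (k := k)
      (ℓ := S.M.d q ((X * W) • q)) (x := fun i => (X * W) ^ i • q) P.hyp (fun i _ => htr i)
      (fun i _ => by
        show S.M.d q ((X * W) • q) ≤ S.M.d ((X * W) ^ i • q) ((X * W) ^ (i + 1) • q)
        rw [iso_pow_succ]) (by omega) (i := 0) (j := k) (by omega) le_rfl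
    have h8 : (k - 0) * S.M.d q ((X * W) • q) ≤
        S.M.d q ((X * W) ^ k • q) + (k - 0) * (2 * c.b + 830 + 2 * 69) := by
      simpa only [pow_zero, one_smul] using h7
    rw [Nat.sub_zero] at h8
    obtain ⟨m, hm⟩ : ∃ m, S.M.d q ((X * W) • q) = (2 * c.b + 830 + 2 * 69) + (m + 1) :=
      ⟨S.M.d q ((X * W) • q) - (2 * c.b + 830 + 2 * 69) - 1, by omega⟩
    rw [hm, mul_add, mul_add] at h8
    nlinarith [Nat.zero_le (k * m)]

end Sys
end BG
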