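import Pool.Agent.Helper76.BG.VChain

/-!
# BG47: reducedness along the chain of a product of two torsion elements
-/

set_option autoImplicit false

namespace BG
namespace KData

variable {c : Cst} {S : Sys} (D : KData c S)

private theorem exists_jump (f : ℕ → ℕ) (A : ℕ) (h0 : f 0 ≤ A) :
    ∀ m : ℕ, A < f m → ∃ j, j < m ∧ f j ≤ A ∧ A < f (j + 1) := by
  intro m
  induction m with
  | zero => intro h; omega
  | succ m ih =>
    intro h
    by_cases hm : f m ≤ A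
    · exact ⟨m, by omega, hm, h⟩
    · obtain ⟨j, h1, h2, h3⟩ := ih (by omega)
      exact ⟨j, by omega, h2, h3⟩

private theorem chain_even (v : S.G) (p q : S.X) (i : ℕ) :
    Sys.chain2 v p q (2 * i) = v ^ i • q := by
  unfold Sys.chain2
  rw [if_pos (by omega), show 2 * i / 2 = i by omega]

private theorem chain_odd (v : S.G) (p q : S.X) (i : ℕ) :
    Sys.chain2 v p q (2 * i + 1) = v ^ i • p := by
  unfold Sys.chain2
  rw [if_neg (by omega), show (2 * i + 1) / 2 = i by omega]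

/-- segments of the chain are reduced up to `1662`, if `(p,q)` is reduced. `s j = v^i q`, `s (j+1) = v^i p`: `d (v^i q) (h v^i p) = d q (h' p) = d p (h'⁻¹ q)`; `s j = v^i p`,
`s (j+1) = v^(i+1) q = v^i X (W q)`: `d p (h' v q) ≥ d p (h' X q) - 277 = d (X⁻¹ p) (h'' q) - 277 ≥ d p (h'' q) - 554`. -/
theorem seg_red {X W : S.G} {p q : S.X} (H : Sys.TwoTor S c X W p q)
    (hmin : ∀ n ∈ D.R.N, S.M.d p q ≤ S.M.d p (n • q)) {h : S.G} (hh : h ∈ D.R.N) (j : ℕ) :
    S.M.d (Sys.chain2 (X * W) p q j) (Sys.chain2 (X * W) p q (j + 1)) ≤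
      S.M.d (Sys.chain2 (X * W) p q j) (h • Sys.chain2 (X * W) p q (j + 1)) + 1662 := by
  have hstep := (H.step j).2
  rcases Nat.even_or_odd' j with ⟨i, rfl | rfl⟩
  · rw [chain_even, chain_odd] at hstep ⊢
    obtain ⟨u, hu⟩ : ∃ u : S.G, u = (X * W) ^ i := ⟨_, rfl⟩
    rw [← hu] at hstep ⊢
    have hN : u⁻¹ * h⁻¹ * u ∈ D.R.N := by
      have := D.R.N_normal.conj_mem _ (D.R.N.inv_mem hh) u⁻¹
      rwa [inv_inv] at this
    have h1 := hmin _ hN
    have h2 : S.M.d (u • q) (h • u • p) = S.M.d p ((u⁻¹ * h⁻¹ * u) • q) := by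
      have e1 := S.iso (u⁻¹ * h⁻¹) (u • q) (h • u • p)
      have e2 : (u⁻¹ * h⁻¹) • h • u • p = p := by
        rw [← mul_smul, ← mul_smul]
        have : u⁻¹ * h⁻¹ * h * u = 1 := by group
        rw [this, one_smul]
      rw [e2, ← mul_smul] at e1
      rw [← e1, S.M.symm]
    omega
  · rw [chain_odd, show 2 * i + 1 + 1 = 2 * (i + 1) by ring, chain_even] at hstep ⊢
    obtain ⟨u, hu⟩ : ∃ u : S.G, u = (X * W) ^ i := ⟨_, rfl⟩
    rw [pow_succ, ← hu] at hstep ⊢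
    have hN : X⁻¹ * (u⁻¹ * h * u) * X ∈ D.R.N := by
      have h1 := D.R.N_normal.conj_mem _ hh u⁻¹
      rw [inv_inv] at h1
      have h2 := D.R.N_normal.conj_mem _ h1 X⁻¹
      rwa [inv_inv] at h2
    have h1 := hmin _ hN
    -- push h through
    have e1 : S.M.d (u • p) (h • (u * (X * W)) • q) =
        S.M.d (X⁻¹ • p) ((X⁻¹ * (u⁻¹ * h * u) * X) • W • q) := by
      have e2 := S.iso (X⁻¹ * u⁻¹) (u • p) (h • (u * (X * W)) • q)
      have e3 : (X⁻¹ * u⁻¹) • u • p = X⁻¹ • p := by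
        rw [← mul_smul]
        congr 1
        group
      have e4 : (X⁻¹ * u⁻¹) • h • (u * (X * W)) • q = (X⁻¹ * (u⁻¹ * h * u) * X) • W • q := by
        rw [← mul_smul, ← mul_smul, ← mul_smul]
        congr 1
        group
      rw [e3, e4] at e2
      exact e2.symm
    obtain ⟨g, hg⟩ : ∃ g : S.G, g = X⁻¹ * (u⁻¹ * h * u) * X := ⟨_, rfl⟩
    rw [← hg] at e1 h1
    have e5 := S.iso X p (X⁻¹ • p)
    rw [smul_inv_smul] at e5
    have e6 := S.M.symm (X • p) p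
    have e7 := S.iso g q (W • q)
    have t1 := S.M.tri p (X⁻¹ • p) (g • q)
    have t2 := S.M.tri (X⁻¹ • p) (g • W • q) (g • q)
    have e8 := S.M.symm (g • W • q) (g • q)
    have hX := H.hX
    have hW := H.hW
    omega

/-- REDUCEDNESS OF THE CHAIN. Proof. Suppose `d q (h v^k q) + 1200ρ ≤ d q (v^k q)`, `h ∈ Hs E`, `h ≠ 1`. `P = s 0 = q`, `Q = s (2k) = v^k q`; `r, r'` projections to `ax E`, `ℓ = d r r'`.
`nonred` (`s0 = 1200ρ`, `Θ0 = 1200000000ρ`): `d r (h r') + s0 ≤ ℓ + 21000`, `Θ0 + s0 ≤ 2ℓ + 21000`. `ovBound` (`a = 2b+830`): `ℓ ≤ 2 d p q + 554 + 8K`, so `d p q ≥ 10^8 ρ` and all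
steps of the chain are `≥ 8K`. `pr_two`: `r, r'` have slack `21000` on `(P,Q)` and `d P r + ℓ ≤ d P r' + 21000`. Let `j ≤ 2k` be maximal with `d P (s j) ≤ d P r + 8K`; `j < 2k`. If `j + 1 < 2k`,
`no_block` at `s (j+1)` (`corner_elt`, `triple`) gives `d P r' < d P (s (j+1)) + 8K`; if `j + 1 = 2k` this is clear. Let `t, t'` be projections of `s j`, `s (j+1)`. `pr_two` for `(P, s j)` and
`(s (j+1), Q)`: `d r t ≤ 9K`, `d r' t' ≤ 9K`. `transfer` (`C = 9K`): `d (s j) (h s (j+1)) + s0 ≤ d (s j) (s (j+1)) + 36K + 42000`. With `seg_red`: `1200ρ ≤ 36K + 43662`: contradiction. -/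
theorem chain_red {X W : S.G} {p q : S.X} (H : Sys.TwoTor S c X W p q)
    (hmin : ∀ n ∈ D.R.N, S.M.d p q ≤ S.M.d p (n • q)) (hv : ∀ E : S.Killed c.K, X * W ∉ E.1)
    (k : ℕ) (E : S.Killed c.K) (h : S.G) (hh : h ∈ D.Hs (Sum.inr E)) (h1 : h ≠ 1) :
    S.M.d q ((X * W) ^ k • q) < S.M.d q (h • (X * W) ^ k • q) + 1200 * c.ρ := by
  by_contra hcon
  rw [not_lt] at hcon
  have hK := c.K_ge
  have hρ := c.ρ_ge
  have hNh : h ∈ D.R.N := Subgroup.subset_closure ⟨Sum.inr E, ⟨E, rfl⟩, hh⟩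
  have hhE : h ∈ E.1 := D.Hs_le hh
  obtain ⟨s, hs⟩ : ∃ s : ℕ → S.X, s = Sys.chain2 (X * W) p q := ⟨_, rfl⟩
  have hs0 : s 0 = q := by
    rw [hs]
    have := chain_even (X * W) p q 0
    simpa using this
  have hsk : s (2 * k) = (X * W) ^ k • q := by
    rw [hs]
    exact chain_even (X * W) p q k
  obtain ⟨Q, hQ⟩ : ∃ Q : S.X, Q = (X * W) ^ k • q := ⟨_, rfl⟩
  rw [← hQ] at hcon hsk
  obtain ⟨r, hr⟩ := D.P.pr_exists E q
  obtain ⟨r', hr'⟩ := D.P.pr_exists E Q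
  have hbig := D.rot_big hh h1 r'
  obtain ⟨A1, A2⟩ := D.P.nonred hhE hr hr' hbig (by omega) hcon
  obtain ⟨o1, o2, o3, -⟩ := H.orbit D.P
  have o4 := D.P.ovBound (by omega) o1 o2 hv E k hr (hQ ▸ hr')
  have hpq : 10 ^ 8 * c.ρ ≤ S.M.d p q := by omega
  have hstep : ∀ j, 8 * c.K ≤ S.M.d (s j) (s (j + 1)) := by
    intro j
    have := (H.step j).1
    rw [← hs] at this
    omega
  have htri : ∀ i j l : ℕ, i ≤ j → j ≤ l →
      S.M.d (s i) (s j) + S.M.d (s j) (s l) ≤ S.M.d (s i) (s l) + (2 * c.b + 830) := by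
    intro i j l hij hjl
    have := H.triple D.P hij hjl
    rw [← hs] at this
    exact this
  have hpr : S.M.d q r + S.M.d r r' + S.M.d r' Q ≤ S.M.d q Q + 21000 := by
    rcases D.P.pr_two hr hr' with h | h
    · omega
    · exact h
  have hsr : S.M.Slk 21000 q r Q := by
    have := S.M.tri r r' Q
    unfold GMet.Slk
    omega
  have hsr' : S.M.Slk 21000 q r' Q := by
    have := S.M.tri q r r'
    unfold GMet.Slk
    omega
  have hsr1 := hsr
  have hsr1' := hsr'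
  unfold GMet.Slk at hsr1 hsr1'
  have t0 := S.M.tri q r' Q
  obtain ⟨j, hj, hj1, hj2⟩ := exists_jump (fun j => S.M.d q (s j)) (S.M.d q r + 8 * c.K)
    (by
      show S.M.d q (s 0) ≤ _
      rw [hs0, S.M.self]
      exact Nat.zero_le _) (2 * k) (by
      show _ < S.M.d q (s (2 * k))
      rw [hsk]
      omega)
  change S.M.d q (s j) ≤ S.M.d q r + 8 * c.K at hj1
  change S.M.d q r + 8 * c.K < S.M.d q (s (j + 1)) at hj2
  have hlast : S.M.d q r' < S.M.d q (s (j + 1)) + 8 * c.K := by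
    by_cases hjk : j + 1 = 2 * k
    · rw [hjk, hsk]
      omega
    · by_contra hcon2
      rw [not_lt] at hcon2
      obtain ⟨T, hT, hT1, hT2, hT3⟩ := H.corner_elt j
      rw [← hs] at hT2 hT3
      have e1 := htri 0 j (j + 1) (by omega) (by omega)
      have e2 := htri 0 (j + 1) (2 * k) (by omega) (by omega)
      have e3 := htri (j + 1) (j + 2) (2 * k) (by omega) (by omega)
      rw [hs0] at e1 e2
      rw [hsk] at e2 e3
      exact D.P.no_block hT hT1 (τ := 2 * c.b + 830) (by omega) hT2 hT3 e1 e2 e3 hr.1 hr'.1 hsr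
        hsr' (hstep j) (hstep (j + 1)) hj2.le hcon2
  obtain ⟨t, ht⟩ := D.P.pr_exists E (s j)
  obtain ⟨t', ht'⟩ := D.P.pr_exists E (s (j + 1))
  have C1 : S.M.d r t ≤ 9 * c.K := by
    rcases D.P.pr_two hr ht with h | h
    · omega
    · omega
  have C2 : S.M.d r' t' ≤ 9 * c.K := by
    have e2 := htri 0 (j + 1) (2 * k) (by omega) (by omega)
    rw [hs0, hsk] at e2
    have e3 := S.M.symm t' r'
    rcases D.P.pr_two ht' hr' with h | h
    · omega
    · omega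
  have hfin := D.P.transfer hhE ht ht' C1 C2 (by omega) A1
  have hseg := D.seg_red H hmin hNh j
  rw [← hs] at hseg
  omega

end KData
end BG
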